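import Mathlib

/-!
# MP_17201e_an: definitions

Square integrable 2-jets on Euclidean space, the space `H²₀(Ω)`, the buckling eigenvalues, the
De Giorgi perimeter.
-/

set_option autoImplicit false

open MeasureTheory Set Filter Topology
open scoped ENNReal ContDiff

namespace Pool.Agent.Lib.Buck

/-- Euclidean space `ℝ^d`. -/
abbrev E (d : ℕ) : Type := EuclideanSpace ℝ (Fin d)

/-- Indices of the components of a 2-jet: `none` for the function, `some (inl i)` for the first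
derivative `∂_i`, `some (inr (i, j))` for the second derivative `∂_i ∂_j`. -/
abbrev Idx (d : ℕ) : Type := Option (Fin d ⊕ Fin d × Fin d)

/-- Families of square integrable functions indexed by the components of a 2-jet, with the norm
`‖w‖² = ∑ k, ∫ |w k|²`. -/
abbrev HS (d : ℕ) : Type := PiLp 2 (fun _ : Idx d => Lp ℝ 2 (volume : Measure (E d)))

variable {d : ℕ}

/-- The derivative of `φ` in the direction of the `i`-th coordinate. -/
noncomputable def pd (i : Fin d) (φ : E d → ℝ) (x : E d) : ℝ :=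
  fderiv ℝ φ x (EuclideanSpace.single i 1)

/-- The components of the 2-jet of a function. -/
noncomputable def comp (φ : E d → ℝ) : Idx d → E d → ℝ
  | none => φ
  | some (Sum.inl i) => pd i φ
  | some (Sum.inr (i, j)) => pd i (pd j φ)

/-- `w` is the 2-jet of `φ`. -/
def IsJet (φ : E d → ℝ) (w : HS d) : Prop := ∀ k, w k =ᵐ[volume] comp φ k

/-- `φ` is a smooth function with compact support contained in `Ω`. -/
structure Test (Ω : Set (E d)) (φ : E d → ℝ) : Prop where
  smooth : ContDiff ℝ ∞ φ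
  compact : HasCompactSupport φ
  supp : tsupport φ ⊆ Ω

/-- The space `H²₀(Ω)`: the closure of the (space of 2-jets of) smooth functions with compact
support in `Ω`, for the norm of `H²(ℝ^d)`. -/
noncomputable def H20 (Ω : Set (E d)) : Submodule ℝ (HS d) :=
  (Submodule.span ℝ {w : HS d | ∃ φ, Test Ω φ ∧ IsJet φ w}).topologicalClosure

/-- The Laplacian. -/
noncomputable def lap (w : HS d) : Lp ℝ 2 (volume : Measure (E d)) :=
  ∑ i, w (some (Sum.inr (i, i)))

/-- `∫ (Δu)²`. -/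
noncomputable def qa (w : HS d) : ℝ := ‖lap w‖ ^ 2

/-- `∫ |∇u|²`. -/
noncomputable def qb (w : HS d) : ℝ := ∑ i, ‖w (some (Sum.inl i))‖ ^ 2

/-- The `h`-th min-max value of `∫ (Δu)² / ∫ |∇u|²` on a space `S` of 2-jets. -/
noncomputable def lamS (h : ℕ) (S : Submodule ℝ (HS d)) : ℝ≥0∞ :=
  ⨅ (V : Submodule ℝ (HS d)) (_ : V ≤ S ∧ Module.finrank ℝ V = h),
    ⨆ (w : HS d) (_ : w ∈ V ∧ w ≠ 0), ENNReal.ofReal (qa w) / ENNReal.ofReal (qb w)

/-- The `h`-th buckling eigenvalue of `Ω`. -/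
noncomputable def lam (h : ℕ) (Ω : Set (E d)) : ℝ≥0∞ := lamS h (H20 Ω)

/-- The divergence of a vector field. -/
noncomputable def dvg (F : E d → E d) (x : E d) : ℝ :=
  ∑ i, (fderiv ℝ F x (EuclideanSpace.single i 1)) i

/-- The De Giorgi perimeter. -/
noncomputable def per (A : Set (E d)) : ℝ≥0∞ :=
  ⨆ (F : E d → E d) (_ : ContDiff ℝ 1 F ∧ HasCompactSupport F ∧ ∀ x, ‖F x‖ ≤ 1),
    ENNReal.ofReal (∫ x in A, dvg F x)

/-- Open sets of finite measure and perimeter at most `p`. -/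
structure Admissible (p : ℝ) (Ω : Set (E d)) : Prop where
  isOpen : IsOpen Ω
  finite : volume Ω < ⊤
  per_le : per Ω ≤ ENNReal.ofReal p

/-- `Ω` minimises the `h`-th buckling eigenvalue among the open sets of finite measure and of
perimeter at most `p`. -/
def IsMinimizer (h : ℕ) (p : ℝ) (Ω : Set (E d)) : Prop :=
  Admissible p Ω ∧ ∀ Ω' : Set (E d), Admissible p Ω' → lam h Ω ≤ lam h Ω'

/-! ### Auxiliary notions (not needed to read the final statement) -/

/-- `∫ |D²u|²`. -/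
noncomputable def qh (w : HS d) : ℝ := ∑ i, ∑ j, ‖w (some (Sum.inr (i, j)))‖ ^ 2

/-- `∫ Δu Δv`. -/
noncomputable def fa (v w : HS d) : ℝ := inner ℝ (lap v) (lap w)

/-- `∫ ∇u · ∇v`. -/
noncomputable def fb (v w : HS d) : ℝ :=
  ∑ i, inner ℝ (v (some (Sum.inl i))) (w (some (Sum.inl i)))

/-- The energy of `w` on a set `A`. -/
noncomputable def loc (A : Set (E d)) (w : HS d) : ℝ := ∑ k, ∫ x in A, (w k x) ^ 2

/-- The 2-jets in `H²(ℝ^d)` that vanish almost everywhere off `A`. -/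
noncomputable def X (A : Set (E d)) : Submodule ℝ (HS d) where
  carrier := {w | w ∈ H20 (univ : Set (E d)) ∧ ∀ k, ∀ᵐ x, x ∉ A → w k x = 0}
  add_mem' := by
    rintro v w ⟨hv, hv'⟩ ⟨hw, hw'⟩
    refine ⟨Submodule.add_mem _ hv hw, fun k => ?_⟩
    have h1 : (v + w) k = v k + w k := rfl
    rw [h1]
    filter_upwards [hv' k, hw' k, Lp.coeFn_add (v k) (w k)] with x h2 h3 h4 hx
    rw [h4, Pi.add_apply, h2 hx, h3 hx, add_zero]
  zero_mem' := by
    refine ⟨Submodule.zero_mem _, fun k => ?_⟩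
    have h1 : (0 : HS d) k = 0 := rfl
    rw [h1]
    filter_upwards [Lp.coeFn_zero ℝ 2 (volume : Measure (E d))] with x h4 _
    rw [h4]; rfl
  smul_mem' := by
    rintro c w ⟨hw, hw'⟩
    refine ⟨Submodule.smul_mem _ c hw, fun k => ?_⟩
    have h1 : (c • w) k = c • w k := rfl
    rw [h1]
    filter_upwards [hw' k, Lp.coeFn_smul c (w k)] with x h2 h4 hx
    rw [h4, Pi.smul_apply, h2 hx, smul_zero]

/-- `ψ` is smooth, and bounded together with its first and second derivatives. -/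
structure BC (ψ : E d → ℝ) (K₀ K₁ K₂ : ℝ) : Prop where
  smooth : ContDiff ℝ ∞ ψ
  b0 : ∀ x, |ψ x| ≤ K₀
  b1 : ∀ i x, |pd i ψ x| ≤ K₁
  b2 : ∀ i j x, |pd i (pd j ψ) x| ≤ K₂

/-- The components of the 2-jet of a product. -/
noncomputable def mulComp (ψ : E d → ℝ) (w : Idx d → E d → ℝ) : Idx d → E d → ℝ
  | none => fun x => ψ x * w none x
  | some (Sum.inl i) => fun x => ψ x * w (some (Sum.inl i)) x + pd i ψ x * w none x
  | some (Sum.inr (i, j)) => fun x => ψ x * w (some (Sum.inr (i, j))) x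
      + pd i ψ x * w (some (Sum.inl j)) x + pd j ψ x * w (some (Sum.inl i)) x
      + pd i (pd j ψ) x * w none x

/-- `M` is the multiplication of 2-jets by `ψ`. -/
def IsMul (ψ : E d → ℝ) (M : HS d →L[ℝ] HS d) : Prop :=
  ∀ (w : HS d) (k : Idx d), (M w) k =ᵐ[volume] mulComp ψ (fun k x => w k x) k

open Classical in
/-- Multiplication of 2-jets by `ψ` (junk value `0` if it is not bounded). -/
noncomputable def mulJ (ψ : E d → ℝ) : HS d →L[ℝ] HS d :=
  if h : ∃ M, IsMul ψ M then h.choose else 0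

/-- A basis of eigenfunctions `u i`, of eigenvalues `l i ≤ L`. -/
structure Eig (h : ℕ) (S : Submodule ℝ (HS d)) (L : ℝ) (u : Fin h → HS d) (l : Fin h → ℝ) :
    Prop where
  mem : ∀ i, u i ∈ S
  orth : ∀ i j, fb (u i) (u j) = if i = j then 1 else 0
  nonneg : ∀ i, 0 ≤ l i
  le : ∀ i, l i ≤ L
  eig : ∀ i, ∀ v ∈ S, fa (u i) v = l i * fb (u i) v

/-- The functional `Λ_h + P` on measurable sets. -/
noncomputable def Fn (h : ℕ) (A : Set (E d)) : ℝ≥0∞ := lamS h (X A) + per A

/-- The pair `(A, S)` is minimal with respect to cutting out balls. -/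
structure LocMin (h : ℕ) (κ : ℝ) (A : Set (E d)) (S : Submodule ℝ (HS d)) : Prop where
  meas : MeasurableSet A
  fin : volume A < ⊤
  perfin : per A < ⊤
  closed : IsClosed (S : Set (HS d))
  le : S ≤ X A
  stable : ∀ ψ K₀ K₁ K₂, BC ψ K₀ K₁ K₂ → ∀ w ∈ S, mulJ ψ w ∈ S
  lamfin : lamS h S < ⊤
  cut : ∀ (x : E d) (ρ : ℝ), 0 < ρ → ∃ S' : Submodule ℝ (HS d),
    (∀ ψ K₀ K₁ K₂, BC ψ K₀ K₁ K₂ → Disjoint (tsupport ψ) (Metric.closedBall x ρ) →
      ∀ w ∈ S, mulJ ψ w ∈ S') ∧
    lamS h S + ENNReal.ofReal κ * per A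
      ≤ lamS h S' + ENNReal.ofReal κ * per (A \ Metric.closedBall x ρ)

end Pool.Agent.Lib.Buck
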