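import Pool.Agent.Lib.MP_17201e_an.Defs

/-!
# Smooth cutoffs of arbitrary sets
-/

set_option autoImplicit false

open MeasureTheory Set Filter Topology
open scoped ENNReal ContDiff Convolution

namespace Pool.Agent.Lib.Buck

/-- convolution of an indicator function with a function -/
noncomputable def cutConv {d : ℕ} (U : Set (E d)) (g : E d → ℝ) : E d → ℝ :=
  (U.indicator fun _ => (1 : ℝ)) ⋆[ContinuousLinearMap.lsmul ℝ ℝ, volume] g

theorem cut_locInt {d : ℕ} {U : Set (E d)} (hU : MeasurableSet U) :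
    LocallyIntegrable (U.indicator fun _ => (1 : ℝ)) (volume : Measure (E d)) :=
  (locallyIntegrable_const (1 : ℝ)).indicator hU

theorem cutConv_apply {d : ℕ} (U : Set (E d)) (g : E d → ℝ) (x : E d) :
    cutConv U g x = ∫ t, (U.indicator (fun _ => (1 : ℝ)) t) * g (x - t) := rfl

theorem cut_smooth {d : ℕ} {U : Set (E d)} (hU : MeasurableSet U) {g : E d → ℝ}
    (hg : ContDiff ℝ ∞ g) (hc : HasCompactSupport g) : ContDiff ℝ ∞ (cutConv U g) :=
  hc.contDiff_convolution_right _ (cut_locInt hU) hg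

theorem cut_pd {d : ℕ} {U : Set (E d)} (hU : MeasurableSet U) {g : E d → ℝ}
    (hg : ContDiff ℝ ∞ g) (hc : HasCompactSupport g) (i : Fin d) :
    pd i (cutConv U g) = cutConv U (pd i g) := by
  funext x
  have hg1 : ContDiff ℝ 1 g := hg.of_le (by exact_mod_cast le_top)
  have h1 := hc.hasFDerivAt_convolution_right (ContinuousLinearMap.lsmul ℝ ℝ) (cut_locInt hU) hg1 x
  unfold pd
  have h2 : fderiv ℝ (cutConv U g) x = _ := h1.fderiv
  rw [h2, convolution_precompR_apply _ (cut_locInt hU) (hc.fderiv (𝕜 := ℝ))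
    (hg1.continuous_fderiv (by norm_num))]
  rfl

theorem cut_pd_smooth {d : ℕ} {g : E d → ℝ} (hg : ContDiff ℝ ∞ g) (i : Fin d) :
    ContDiff ℝ ∞ (pd i g) := by
  unfold pd
  exact (hg.fderiv_right (m := ∞) (by simp)).clm_apply contDiff_const

theorem cut_pd_compact {d : ℕ} {g : E d → ℝ} (hc : HasCompactSupport g) (i : Fin d) :
    HasCompactSupport (pd i g) := by
  unfold pd
  exact (hc.fderiv (𝕜 := ℝ)).comp_left (g := fun L : E d →L[ℝ] ℝ => L (EuclideanSpace.single i 1))
    (by simp)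

theorem cut_bound {d : ℕ} (U : Set (E d)) {g : E d → ℝ} (hg : Continuous g)
    (hc : HasCompactSupport g) (x : E d) : |cutConv U g x| ≤ ∫ t, |g t| := by
  have hint : Integrable g (volume : Measure (E d)) := hg.integrable_of_hasCompactSupport hc
  rw [cutConv_apply]
  calc |∫ t, (U.indicator (fun _ => (1 : ℝ)) t) * g (x - t)|
      ≤ ∫ t, |(U.indicator (fun _ => (1 : ℝ)) t) * g (x - t)| := abs_integral_le_integral_abs
    _ ≤ ∫ t, |g (x - t)| := by
        refine integral_mono_of_nonneg (Eventually.of_forall fun t => abs_nonneg _)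
          ((hint.comp_sub_left x).abs) (Eventually.of_forall fun t => ?_)
        simp only
        rw [abs_mul]
        have h1 : |U.indicator (fun _ => (1 : ℝ)) t| ≤ 1 := by
          by_cases ht : t ∈ U
          · rw [indicator_of_mem ht, abs_one]
          · rw [indicator_of_notMem ht, abs_zero]; exact zero_le_one
        calc |U.indicator (fun _ => (1 : ℝ)) t| * |g (x - t)| ≤ 1 * |g (x - t)| :=
              mul_le_mul_of_nonneg_right h1 (abs_nonneg _)
          _ = |g (x - t)| := one_mul _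
    _ = ∫ t, |g t| := integral_sub_left_eq_self (fun t => |g t|) volume x

/-- cutoffs at scale one -/
theorem cut_one (d : ℕ) : ∃ C > 0, ∀ A : Set (E d),
    ∃ ψ : E d → ℝ, BC ψ 1 C C ∧ (∀ x, 0 ≤ ψ x) ∧
      (∀ x ∈ Metric.thickening (1 / 4) A, ψ x = 1) ∧
      tsupport ψ ⊆ Metric.thickening 1 A := by
  let b : ContDiffBump (0 : E d) := ⟨1 / 8, 1 / 4, by norm_num, by norm_num⟩
  set ρ : E d → ℝ := b.normed volume with hρ
  have hsm : ContDiff ℝ ∞ ρ := b.contDiff_normed
  have hcs : HasCompactSupport ρ := b.hasCompactSupport_normed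
  have hnn : ∀ x, 0 ≤ ρ x := b.nonneg_normed
  have hint1 : ∫ x, ρ x = 1 := b.integral_normed
  have hsupp : Function.support ρ = Metric.ball 0 (1 / 4) := b.support_normed_eq
  set C : ℝ := 1 + (∑ i, ∫ t, |pd i ρ t|) + ∑ i, ∑ j, ∫ t, |pd i (pd j ρ) t| with hC
  have hS1 : 0 ≤ ∑ i, ∫ t, |pd i ρ t| :=
    Finset.sum_nonneg fun i _ => integral_nonneg fun t => abs_nonneg _
  have hS2 : 0 ≤ ∑ i, ∑ j, ∫ t, |pd i (pd j ρ) t| :=
    Finset.sum_nonneg fun i _ => Finset.sum_nonneg fun j _ => integral_nonneg fun t => abs_nonneg _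
  refine ⟨C, by linarith, fun A => ?_⟩
  set U : Set (E d) := Metric.thickening (1 / 2) A with hUdef
  have hU : MeasurableSet U := Metric.isOpen_thickening.measurableSet
  refine ⟨cutConv U ρ, ⟨cut_smooth hU hsm hcs, ?_, ?_, ?_⟩, ?_, ?_, ?_⟩
  · intro x
    refine (cut_bound U hsm.continuous hcs x).trans ?_
    have h1 : ∫ t, |ρ t| = ∫ t, ρ t := integral_congr_ae (Eventually.of_forall fun t =>
      abs_of_nonneg (hnn t))
    rw [h1, hint1]
  · intro i x
    rw [cut_pd hU hsm hcs]
    refine (cut_bound U (cut_pd_smooth hsm i).continuous (cut_pd_compact hcs i) x).trans ?_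
    have h1 : ∫ t, |pd i ρ t| ≤ ∑ i, ∫ t, |pd i ρ t| :=
      Finset.single_le_sum (f := fun i => ∫ t, |pd i ρ t|)
        (fun i _ => integral_nonneg fun t => abs_nonneg _) (Finset.mem_univ i)
    linarith
  · intro i j x
    rw [cut_pd hU hsm hcs, cut_pd hU (cut_pd_smooth hsm j) (cut_pd_compact hcs j)]
    refine (cut_bound U (cut_pd_smooth (cut_pd_smooth hsm j) i).continuous
      (cut_pd_compact (cut_pd_compact hcs j) i) x).trans ?_
    have h1 : ∫ t, |pd i (pd j ρ) t| ≤ ∑ j, ∫ t, |pd i (pd j ρ) t| :=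
      Finset.single_le_sum (f := fun j => ∫ t, |pd i (pd j ρ) t|)
        (fun j _ => integral_nonneg fun t => abs_nonneg _) (Finset.mem_univ j)
    have h2 : ∑ j, ∫ t, |pd i (pd j ρ) t| ≤ ∑ i, ∑ j, ∫ t, |pd i (pd j ρ) t| :=
      Finset.single_le_sum (f := fun i => ∑ j, ∫ t, |pd i (pd j ρ) t|)
        (fun i _ => Finset.sum_nonneg fun j _ => integral_nonneg fun t => abs_nonneg _)
        (Finset.mem_univ i)
    linarith
  · intro x
    rw [cutConv_apply]
    refine integral_nonneg fun t => mul_nonneg ?_ (hnn _)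
    exact indicator_nonneg (fun _ _ => zero_le_one) t
  · intro x hx
    rw [cutConv_apply]
    have h1 : ∀ t, (U.indicator (fun _ => (1 : ℝ)) t) * ρ (x - t) = ρ (x - t) := by
      intro t
      by_cases ht : t ∈ U
      · rw [indicator_of_mem ht, one_mul]
      · have h2 : ρ (x - t) = 0 := by
          by_contra hne
          have h3 : x - t ∈ Function.support ρ := hne
          rw [hsupp, mem_ball_zero_iff] at h3
          obtain ⟨a, ha, hxa⟩ := Metric.mem_thickening_iff.mp hx
          refine ht (Metric.mem_thickening_iff.mpr ⟨a, ha, ?_⟩)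
          have h4 : dist t a ≤ dist t x + dist x a := dist_triangle _ _ _
          have h5 : dist t x = ‖x - t‖ := by rw [dist_comm, dist_eq_norm]
          linarith
        rw [h2, mul_zero]
    simp only [h1]
    rw [integral_sub_left_eq_self ρ volume x, hint1]
  · have h1 : Function.support (cutConv U ρ) ⊆ Metric.thickening (3 / 4) A := by
      intro x hx
      by_contra hcon
      apply hx
      rw [cutConv_apply]
      have h2 : ∀ t, (U.indicator (fun _ => (1 : ℝ)) t) * ρ (x - t) = 0 := by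
        intro t
        by_cases ht : t ∈ U
        · have h2 : ρ (x - t) = 0 := by
            by_contra hne
            have h3 : x - t ∈ Function.support ρ := hne
            rw [hsupp, mem_ball_zero_iff] at h3
            obtain ⟨a, ha, hta⟩ := Metric.mem_thickening_iff.mp ht
            refine hcon (Metric.mem_thickening_iff.mpr ⟨a, ha, ?_⟩)
            have h4 : dist x a ≤ dist x t + dist t a := dist_triangle _ _ _
            have h5 : dist x t = ‖x - t‖ := dist_eq_norm _ _
            linarith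
          rw [h2, mul_zero]
        · rw [indicator_of_notMem ht, zero_mul]
      simp only [h2, integral_zero]
    calc tsupport (cutConv U ρ) ⊆ closure (Metric.thickening (3 / 4) A) := closure_mono h1
      _ ⊆ Metric.cthickening (3 / 4) A := Metric.closure_thickening_subset_cthickening _ _
      _ ⊆ Metric.thickening 1 A := Metric.cthickening_subset_thickening' (by norm_num)
          (by norm_num) A

theorem cut_scale {d : ℕ} (i : Fin d) {g : E d → ℝ} (hg : ContDiff ℝ ∞ g) (c : ℝ) :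
    pd i (fun x => g (c • x)) = fun x => c * pd i g (c • x) := by
  funext x
  unfold pd
  have h1 : HasFDerivAt g (fderiv ℝ g (c • x)) (c • x) :=
    (hg.differentiable (by simp)).differentiableAt.hasFDerivAt
  have h2 : HasFDerivAt (fun x : E d => c • x) (c • ContinuousLinearMap.id ℝ (E d)) x :=
    (hasFDerivAt_id x).const_smul c
  have h3 : HasFDerivAt (fun x => g (c • x))
      ((fderiv ℝ g (c • x)).comp (c • ContinuousLinearMap.id ℝ (E d))) x := h1.comp x h2
  rw [h3.fderiv]
  simp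

theorem cut_mul_const {d : ℕ} (i : Fin d) {g : E d → ℝ} (hg : ContDiff ℝ ∞ g) (c : ℝ) :
    pd i (fun x => c * g x) = fun x => c * pd i g x := by
  funext x
  unfold pd
  have h1 : DifferentiableAt ℝ g x := (hg.differentiable (by simp)).differentiableAt
  rw [fderiv_const_mul h1]
  simp

theorem exists_cutoff (d : ℕ) (hd : 1 ≤ d) : ∃ C > 0, ∀ (A : Set (E d)) (ε : ℝ), 0 < ε →
    ∃ ψ : E d → ℝ, BC ψ 1 (C / ε) (C / ε ^ 2) ∧ (∀ x, 0 ≤ ψ x) ∧
      (∀ x ∈ Metric.thickening (ε / 4) A, ψ x = 1) ∧ tsupport ψ ⊆ Metric.thickening ε A := by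
  obtain ⟨C, hC, H⟩ := cut_one d
  refine ⟨C, hC, fun A ε hε => ?_⟩
  obtain ⟨ψ, hψ, hnn, hone, hsupp⟩ := H ((fun y : E d => ε • y) ⁻¹' A)
  have hdist : ∀ x a : E d, dist (ε⁻¹ • x) (ε⁻¹ • a) = ε⁻¹ * dist x a := by
    intro x a
    rw [dist_smul₀, Real.norm_eq_abs, abs_of_pos (inv_pos.mpr hε)]
  have hthick : ∀ (δ : ℝ) (x : E d), ε⁻¹ • x ∈ Metric.thickening δ ((fun y : E d => ε • y) ⁻¹' A) ↔
      x ∈ Metric.thickening (ε * δ) A := by
    intro δ x
    rw [Metric.mem_thickening_iff, Metric.mem_thickening_iff]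
    constructor
    · rintro ⟨a, ha, hxa⟩
      refine ⟨ε • a, ha, ?_⟩
      have h1 := hdist x (ε • a)
      rw [inv_smul_smul₀ hε.ne'] at h1
      rw [h1] at hxa
      rwa [inv_mul_lt_iff₀ hε] at hxa
    · rintro ⟨a, ha, hxa⟩
      refine ⟨ε⁻¹ • a, ?_, ?_⟩
      · rw [mem_preimage, smul_inv_smul₀ hε.ne']; exact ha
      · rw [hdist, inv_mul_lt_iff₀ hε]; exact hxa
  have hsm : ContDiff ℝ ∞ (fun x => ψ (ε⁻¹ • x)) :=
    hψ.smooth.comp (contDiff_const_smul ε⁻¹)
  refine ⟨fun x => ψ (ε⁻¹ • x), ⟨hsm, fun x => hψ.b0 _, ?_, ?_⟩, fun x => hnn _, ?_, ?_⟩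
  · intro i x
    rw [cut_scale i hψ.smooth]
    simp only
    rw [abs_mul, abs_of_pos (inv_pos.mpr hε), div_eq_inv_mul]
    exact mul_le_mul_of_nonneg_left (hψ.b1 i _) (inv_pos.mpr hε).le
  · intro i j x
    have hpj : ContDiff ℝ ∞ (pd j ψ) := cut_pd_smooth hψ.smooth j
    have hsm2 : ContDiff ℝ ∞ (fun x => pd j ψ (ε⁻¹ • x)) := hpj.comp (contDiff_const_smul ε⁻¹)
    rw [cut_scale j hψ.smooth, cut_mul_const i hsm2, cut_scale i hpj]
    simp only
    rw [abs_mul, abs_mul, abs_of_pos (inv_pos.mpr hε)]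
    have h1 := hψ.b2 i j (ε⁻¹ • x)
    have h2 : C / ε ^ 2 = ε⁻¹ * (ε⁻¹ * C) := by field_simp
    rw [h2]
    have h3 : 0 ≤ ε⁻¹ := (inv_pos.mpr hε).le
    exact mul_le_mul_of_nonneg_left (mul_le_mul_of_nonneg_left h1 h3) h3
  · intro x hx
    refine hone _ ((hthick _ x).mpr ?_)
    rwa [show ε * (1 / 4) = ε / 4 by ring]
  · intro x hx
    have h1 : ε⁻¹ • x ∈ tsupport ψ := by
      have h2 : tsupport (fun x => ψ (ε⁻¹ • x)) ⊆ (fun x : E d => ε⁻¹ • x) ⁻¹' tsupport ψ :=
        tsupport_comp_subset_preimage ψ (continuous_const_smul ε⁻¹)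
      exact h2 hx
    have h2 := (hthick 1 x).mp (hsupp h1)
    rwa [mul_one] at h2

end Pool.Agent.Lib.Buck
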