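import Mathlib
import Pool.Agent.Lib.MP_17201e_an.Defs

/-!
# Basic lemmas on 2-jets
-/

set_option autoImplicit false

open MeasureTheory Set Filter Topology
open scoped ENNReal ContDiff

namespace Pool.Agent.Lib.Buck

theorem jet_pd_contDiff {d : ℕ} {φ : E d → ℝ} (h : ContDiff ℝ ∞ φ) (i : Fin d) :
    ContDiff ℝ ∞ (pd i φ) :=
  (h.fderiv_right (m := ∞) (by simp)).clm_apply contDiff_const

theorem jet_pd_tsupport {d : ℕ} (φ : E d → ℝ) (i : Fin d) :
    tsupport (pd i φ) ⊆ tsupport φ :=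
  tsupport_fderiv_apply_subset ℝ _

theorem jet_pd_add {d : ℕ} {φ ψ : E d → ℝ} (hφ : ContDiff ℝ ∞ φ) (hψ : ContDiff ℝ ∞ ψ)
    (i : Fin d) : pd i (fun x => φ x + ψ x) = fun x => pd i φ x + pd i ψ x := by
  funext x
  unfold pd
  have h1 : DifferentiableAt ℝ φ x := (hφ.differentiable (by simp)) x
  have h2 : DifferentiableAt ℝ ψ x := (hψ.differentiable (by simp)) x
  have h3 := fderiv_fun_add h1 h2
  rw [h3]
  rfl

theorem jet_pd_smul {d : ℕ} {φ : E d → ℝ} (hφ : ContDiff ℝ ∞ φ) (c : ℝ)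
    (i : Fin d) : pd i (fun x => c * φ x) = fun x => c * pd i φ x := by
  funext x
  unfold pd
  have h1 : DifferentiableAt ℝ φ x := (hφ.differentiable (by simp)) x
  have h3 := fderiv_const_mul h1 c
  rw [h3]
  rfl

theorem jet_comp_contDiff {d : ℕ} {φ : E d → ℝ} (h : ContDiff ℝ ∞ φ) (k : Idx d) :
    ContDiff ℝ ∞ (comp φ k) := by
  match k with
  | none => exact h
  | some (Sum.inl i) => exact jet_pd_contDiff h i
  | some (Sum.inr (i, j)) => exact jet_pd_contDiff (jet_pd_contDiff h j) i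

theorem jet_comp_tsupport {d : ℕ} (φ : E d → ℝ) (k : Idx d) :
    tsupport (comp φ k) ⊆ tsupport φ := by
  match k with
  | none => exact subset_rfl
  | some (Sum.inl i) => exact jet_pd_tsupport φ i
  | some (Sum.inr (i, j)) => exact (jet_pd_tsupport _ i).trans (jet_pd_tsupport φ j)

theorem jet_comp_add {d : ℕ} {φ ψ : E d → ℝ} (hφ : ContDiff ℝ ∞ φ) (hψ : ContDiff ℝ ∞ ψ)
    (k : Idx d) : comp (fun x => φ x + ψ x) k = fun x => comp φ k x + comp ψ k x := by
  match k with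
  | none => rfl
  | some (Sum.inl i) => exact jet_pd_add hφ hψ i
  | some (Sum.inr (i, j)) =>
    show pd i (pd j (fun x => φ x + ψ x)) = fun x => pd i (pd j φ) x + pd i (pd j ψ) x
    rw [jet_pd_add hφ hψ j, jet_pd_add (jet_pd_contDiff hφ j) (jet_pd_contDiff hψ j) i]

theorem jet_comp_smul {d : ℕ} {φ : E d → ℝ} (hφ : ContDiff ℝ ∞ φ) (c : ℝ)
    (k : Idx d) : comp (fun x => c * φ x) k = fun x => c * comp φ k x := by
  match k with
  | none => rfl
  | some (Sum.inl i) => exact jet_pd_smul hφ c i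
  | some (Sum.inr (i, j)) =>
    show pd i (pd j (fun x => c * φ x)) = fun x => c * pd i (pd j φ) x
    rw [jet_pd_smul hφ c j, jet_pd_smul (jet_pd_contDiff hφ j) c i]

theorem jet_comp_memLp {d : ℕ} {Ω : Set (E d)} {φ : E d → ℝ} (h : Test Ω φ) (k : Idx d) :
    MemLp (comp φ k) 2 (volume : Measure (E d)) := by
  have h1 : HasCompactSupport (comp φ k) :=
    IsCompact.of_isClosed_subset h.compact (isClosed_tsupport _) (jet_comp_tsupport φ k)
  exact (jet_comp_contDiff h.smooth k).continuous.memLp_of_hasCompactSupport h1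

theorem exists_jet {d : ℕ} {Ω : Set (E d)} {φ : E d → ℝ} (h : Test Ω φ) :
    ∃ w : HS d, IsJet φ w :=
  ⟨WithLp.toLp 2 (fun k => (jet_comp_memLp h k).toLp (comp φ k)),
    fun k => (jet_comp_memLp h k).coeFn_toLp⟩

theorem jet_test_add {d : ℕ} {Ω : Set (E d)} {φ ψ : E d → ℝ} (hφ : Test Ω φ) (hψ : Test Ω ψ) :
    Test Ω (fun x => φ x + ψ x) where
  smooth := hφ.smooth.add hψ.smooth
  compact := HasCompactSupport.add hφ.compact hψ.compact
  supp := (tsupport_add φ ψ).trans (union_subset hφ.supp hψ.supp)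

theorem jet_test_smul {d : ℕ} {Ω : Set (E d)} {φ : E d → ℝ} (hφ : Test Ω φ) (c : ℝ) :
    Test Ω (fun x => c * φ x) where
  smooth := contDiff_const.mul hφ.smooth
  compact := HasCompactSupport.mul_left hφ.compact
  supp := (tsupport_mul_subset_right (f := fun _ => c) (g := φ)).trans hφ.supp

theorem jet_test_zero {d : ℕ} (Ω : Set (E d)) : Test Ω (fun _ => (0 : ℝ)) where
  smooth := contDiff_const
  compact := HasCompactSupport.zero
  supp := by
    have : tsupport (fun _ : E d => (0 : ℝ)) = ∅ := tsupport_eq_empty_iff.mpr rfl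
    rw [this]
    exact empty_subset _

theorem jet_comp_zero {d : ℕ} (k : Idx d) : comp (fun _ : E d => (0 : ℝ)) k = fun _ => 0 := by
  have h := jet_comp_smul (φ := fun _ : E d => (0 : ℝ)) contDiff_const 0 k
  simpa using h

/-- The subspace of jets of test functions. -/
noncomputable def jetSub {d : ℕ} (Ω : Set (E d)) : Submodule ℝ (HS d) where
  carrier := {w | ∃ φ, Test Ω φ ∧ IsJet φ w}
  add_mem' := by
    rintro v w ⟨φ, hφ, hv⟩ ⟨ψ, hψ, hw⟩
    refine ⟨_, jet_test_add hφ hψ, fun k => ?_⟩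
    have h1 : (v + w) k = v k + w k := rfl
    rw [h1, jet_comp_add hφ.smooth hψ.smooth k]
    filter_upwards [hv k, hw k, Lp.coeFn_add (v k) (w k)] with x h2 h3 h4
    rw [h4, Pi.add_apply, h2, h3]
  zero_mem' := by
    refine ⟨_, jet_test_zero Ω, fun k => ?_⟩
    have h1 : (0 : HS d) k = 0 := rfl
    rw [h1, jet_comp_zero]
    exact Lp.coeFn_zero ℝ 2 (volume : Measure (E d))
  smul_mem' := by
    rintro c w ⟨φ, hφ, hw⟩
    refine ⟨_, jet_test_smul hφ c, fun k => ?_⟩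
    have h1 : (c • w) k = c • w k := rfl
    rw [h1, jet_comp_smul hφ.smooth c k]
    filter_upwards [hw k, Lp.coeFn_smul c (w k)] with x h2 h4
    rw [h4, Pi.smul_apply, h2, smul_eq_mul]

theorem jet_span_eq {d : ℕ} (Ω : Set (E d)) :
    Submodule.span ℝ {w : HS d | ∃ φ, Test Ω φ ∧ IsJet φ w} = jetSub Ω :=
  Submodule.span_eq (jetSub Ω)

theorem mem_H20_iff {d : ℕ} {Ω : Set (E d)} (w : HS d) :
    w ∈ H20 Ω ↔ ∀ ε > 0, ∃ φ v, Test Ω φ ∧ IsJet φ v ∧ ‖w - v‖ < ε := by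
  unfold H20
  rw [jet_span_eq, ← SetLike.mem_coe, Submodule.topologicalClosure_coe, Metric.mem_closure_iff]
  constructor
  · intro h ε hε
    obtain ⟨v, ⟨φ, hφ, hv⟩, hd⟩ := h ε hε
    exact ⟨φ, v, hφ, hv, by rwa [← dist_eq_norm]⟩
  · intro h ε hε
    obtain ⟨φ, v, hφ, hv, hd⟩ := h ε hε
    exact ⟨v, ⟨φ, hφ, hv⟩, by rwa [dist_eq_norm]⟩

theorem H20_mono {d : ℕ} {Ω Ω' : Set (E d)} (h : Ω ⊆ Ω') : H20 Ω ≤ H20 Ω' := by
  intro w hw
  rw [mem_H20_iff] at hw ⊢
  intro ε hε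
  obtain ⟨φ, v, hφ, hv, hd⟩ := hw ε hε
  exact ⟨φ, v, ⟨hφ.smooth, hφ.compact, hφ.supp.trans h⟩, hv, hd⟩

theorem isClosed_H20 {d : ℕ} (Ω : Set (E d)) : IsClosed (H20 Ω : Set (HS d)) :=
  Submodule.isClosed_topologicalClosure _

theorem jet_isClosed_van {d : ℕ} (A : Set (E d)) :
    IsClosed {f : Lp ℝ 2 (volume : Measure (E d)) | ∀ᵐ x, x ∉ A → f x = 0} := by
  refine isClosed_of_closure_subset fun f hf => ?_
  rw [mem_closure_iff_seq_limit] at hf
  obtain ⟨u, hu, hlim⟩ := hf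
  have h1 : TendstoInMeasure volume (fun n => (u n : E d → ℝ)) atTop (f : E d → ℝ) :=
    tendstoInMeasure_of_tendsto_Lp hlim
  obtain ⟨ns, _, hns⟩ := h1.exists_seq_tendsto_ae
  have h2 : ∀ᵐ x, ∀ n, x ∉ A → u n x = 0 := by
    rw [ae_all_iff]
    exact hu
  show ∀ᵐ x, x ∉ A → f x = 0
  filter_upwards [hns, h2] with x hx hx2 hxA
  refine tendsto_nhds_unique hx ?_
  refine tendsto_const_nhds.congr fun n => ?_
  exact (hx2 (ns n) hxA).symm

theorem isClosed_X {d : ℕ} (A : Set (E d)) : IsClosed (X A : Set (HS d)) := by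
  have h : (X A : Set (HS d)) = (H20 (univ : Set (E d)) : Set (HS d)) ∩
      ⋂ k, (fun w : HS d => w k) ⁻¹'
        {f : Lp ℝ 2 (volume : Measure (E d)) | ∀ᵐ x, x ∉ A → f x = 0} := by
    ext w
    simp only [mem_inter_iff, mem_iInter, mem_preimage, mem_setOf_eq, SetLike.mem_coe]
    exact Iff.rfl
  rw [h]
  refine (isClosed_H20 _).inter (isClosed_iInter fun k => ?_)
  refine (jet_isClosed_van A).preimage ?_
  exact PiLp.continuous_apply 2 _ k

theorem H20_le_X {d : ℕ} (Ω : Set (E d)) : H20 Ω ≤ X Ω := by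
  unfold H20
  refine Submodule.topologicalClosure_minimal _ ?_ (isClosed_X Ω)
  rw [jet_span_eq]
  rintro w ⟨φ, hφ, hw⟩
  refine ⟨?_, fun k => ?_⟩
  · rw [mem_H20_iff]
    intro ε hε
    exact ⟨φ, w, ⟨hφ.smooth, hφ.compact, subset_univ _⟩, hw, by simpa using hε⟩
  · filter_upwards [hw k] with x hx hxΩ
    rw [hx]
    by_contra hne
    exact hxΩ (hφ.supp (jet_comp_tsupport φ k (subset_tsupport _ hne)))

theorem X_congr {d : ℕ} {A B : Set (E d)} (h : volume (A \ B) = 0) : X A ≤ X B := by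
  rintro w ⟨hw, hw'⟩
  refine ⟨hw, fun k => ?_⟩
  have h1 : ∀ᵐ x, x ∉ A \ B := measure_eq_zero_iff_ae_notMem.mp h
  filter_upwards [hw' k, h1] with x hx hx1 hxB
  exact hx fun hxA => hx1 ⟨hxA, hxB⟩

theorem X_univ {d : ℕ} : X (univ : Set (E d)) = H20 univ := by
  refine le_antisymm (fun w hw => hw.1) (fun w hw => ⟨hw, fun k => ?_⟩)
  exact Filter.Eventually.of_forall fun x hx => absurd (mem_univ x) hx

theorem lamS_anti {d : ℕ} (h : ℕ) {S S' : Submodule ℝ (HS d)} (hS : S ≤ S') :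
    lamS h S' ≤ lamS h S := by
  unfold lamS
  refine le_iInf₂ fun V hV => ?_
  exact iInf₂_le V ⟨hV.1.trans hS, hV.2⟩

theorem norm_sq_eq {d : ℕ} (w : HS d) : ‖w‖ ^ 2 = ‖w none‖ ^ 2 + qb w + qh w := by
  rw [PiLp.norm_sq_eq_of_L2, Fintype.sum_option, Fintype.sum_sum_type, Fintype.sum_prod_type]
  unfold qb qh
  ring

theorem qb_nonneg {d : ℕ} (w : HS d) : 0 ≤ qb w :=
  Finset.sum_nonneg fun _ _ => sq_nonneg _

theorem qa_nonneg {d : ℕ} (w : HS d) : 0 ≤ qa w := sq_nonneg _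

theorem qh_nonneg {d : ℕ} (w : HS d) : 0 ≤ qh w :=
  Finset.sum_nonneg fun _ _ => Finset.sum_nonneg fun _ _ => sq_nonneg _

theorem fa_self {d : ℕ} (w : HS d) : fa w w = qa w := real_inner_self_eq_norm_sq _

theorem fb_self {d : ℕ} (w : HS d) : fb w w = qb w :=
  Finset.sum_congr rfl fun _ _ => real_inner_self_eq_norm_sq _

theorem loc_nonneg {d : ℕ} (A : Set (E d)) (w : HS d) : 0 ≤ loc A w :=
  Finset.sum_nonneg fun _ _ => integral_nonneg fun _ => sq_nonneg _

theorem jet_integrable_sq {d : ℕ} (w : HS d) (k : Idx d) :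
    Integrable (fun x => (w k x) ^ 2) (volume : Measure (E d)) :=
  (Lp.memLp (w k)).integrable_sq

theorem loc_mono {d : ℕ} {A B : Set (E d)} (hB : MeasurableSet B) (h : A ⊆ B) (w : HS d) :
    loc A w ≤ loc B w := by
  refine Finset.sum_le_sum fun k _ => ?_
  refine setIntegral_mono_set (jet_integrable_sq w k).integrableOn ?_ h.eventuallyLE
  exact Filter.Eventually.of_forall fun _ => sq_nonneg _

theorem loc_univ {d : ℕ} (w : HS d) : loc univ w = ‖w‖ ^ 2 := by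
  rw [PiLp.norm_sq_eq_of_L2]
  refine Finset.sum_congr rfl fun k _ => ?_
  rw [← real_inner_self_eq_norm_sq, L2.inner_def, setIntegral_univ]
  refine integral_congr_ae (Filter.Eventually.of_forall fun x => ?_)
  simp only [real_inner_self_eq_norm_sq, Real.norm_eq_abs, sq_abs]

end Pool.Agent.Lib.Buck
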