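import Mathlib
import Pool.Agent.Lib.MP_17201e_an.Defs
import Pool.Agent.Lib.MP_17201e_an.Jet

/-!
# Translation estimates in `H¹` and `H²`
-/

set_option autoImplicit false

open MeasureTheory Set Filter Topology
open scoped ENNReal ContDiff

namespace Pool.Agent.Lib.Buck

theorem trans_fderiv_le {d : ℕ} (f : E d → ℝ) (y z : E d) :
    (fderiv ℝ f y z) ^ 2 ≤ ‖z‖ ^ 2 * ∑ i, (pd i f y) ^ 2 := by
  have h1 : fderiv ℝ f y z = ∑ i, z i * pd i f y := by
    have h2 : z = ∑ i, z i • EuclideanSpace.single i (1 : ℝ) := by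
      ext j
      simp [Finset.sum_apply, Pi.single_apply]
    conv_lhs => rw [h2]
    rw [map_sum]
    refine Finset.sum_congr rfl fun i _ => ?_
    rw [map_smul]
    rfl
  rw [h1, EuclideanSpace.norm_sq_eq]
  have h3 := Finset.sum_mul_sq_le_sq_mul_sq Finset.univ (fun i => z i) (fun i => pd i f y)
  simpa using h3

theorem trans_grad_cont {d : ℕ} {f : E d → ℝ} (hf : ContDiff ℝ 1 f) :
    Continuous fun x => ∑ i, (pd i f x) ^ 2 := by
  refine continuous_finsetSum _ fun i _ => ?_
  have h1 : Continuous (fderiv ℝ f) := hf.continuous_fderiv one_ne_zero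
  exact (h1.clm_apply continuous_const).pow 2

theorem trans_sq_integral_le {g : ℝ → ℝ} (hg : Continuous g) :
    (∫ t in (0 : ℝ)..1, g t) ^ 2 ≤ ∫ t in (0 : ℝ)..1, (g t) ^ 2 := by
  set c := ∫ t in (0 : ℝ)..1, g t with hc
  have h1 : 0 ≤ ∫ t in (0 : ℝ)..1, (g t - c) ^ 2 :=
    intervalIntegral.integral_nonneg (by norm_num) fun t _ => sq_nonneg _
  have h2 : ∫ t in (0 : ℝ)..1, (g t - c) ^ 2
      = (∫ t in (0 : ℝ)..1, (g t) ^ 2) - c ^ 2 := by
    have h3 : ∀ t, (g t - c) ^ 2 = (g t) ^ 2 - (2 * c * g t - c ^ 2) := fun t => by ring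
    simp_rw [h3]
    rw [intervalIntegral.integral_sub, intervalIntegral.integral_sub,
      intervalIntegral.integral_const_mul, ← hc]
    · simp only [intervalIntegral.integral_const, smul_eq_mul]
      ring
    · exact (continuous_const.mul hg).intervalIntegrable _ _
    · exact continuous_const.intervalIntegrable _ _
    · exact (hg.pow 2).intervalIntegrable _ _
    · exact ((continuous_const.mul hg).sub continuous_const).intervalIntegrable _ _
  linarith

theorem trans_pointwise {d : ℕ} {f : E d → ℝ} (hf : ContDiff ℝ 1 f) (x z : E d) :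
    (f (x + z) - f x) ^ 2
      ≤ ‖z‖ ^ 2 * ∫ t in (0 : ℝ)..1, ∑ i, (pd i f (x + t • z)) ^ 2 := by
  have hline : Continuous fun t : ℝ => x + t • z := by fun_prop
  have hfd : Continuous (fderiv ℝ f) := hf.continuous_fderiv one_ne_zero
  have hg : Continuous fun t : ℝ => fderiv ℝ f (x + t • z) z :=
    (hfd.comp hline).clm_apply continuous_const
  have h1 : ∫ t in (0 : ℝ)..1, fderiv ℝ f (x + t • z) z = f (x + z) - f x := by
    have h2 : ∀ t ∈ uIcc (0 : ℝ) 1,
        HasDerivAt (fun t : ℝ => f (x + t • z)) (fderiv ℝ f (x + t • z) z) t := by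
      intro t _
      have h3 : HasFDerivAt f (fderiv ℝ f (x + t • z)) (x + t • z) :=
        ((hf.differentiable (by simp)) _).hasFDerivAt
      have h4 : HasDerivAt (fun t : ℝ => x + t • z) z t := by
        simpa using ((hasDerivAt_id t).smul_const z).const_add x
      exact h3.comp_hasDerivAt t h4
    have h5 := intervalIntegral.integral_eq_sub_of_hasDerivAt h2 (hg.intervalIntegrable _ _)
    rw [h5]
    simp
  have hG : Continuous fun t : ℝ => ∑ i, (pd i f (x + t • z)) ^ 2 :=
    (trans_grad_cont hf).comp hline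
  rw [← h1]
  calc (∫ t in (0 : ℝ)..1, fderiv ℝ f (x + t • z) z) ^ 2
      ≤ ∫ t in (0 : ℝ)..1, (fderiv ℝ f (x + t • z) z) ^ 2 := trans_sq_integral_le hg
    _ ≤ ∫ t in (0 : ℝ)..1, ‖z‖ ^ 2 * ∑ i, (pd i f (x + t • z)) ^ 2 := by
        refine intervalIntegral.integral_mono_on (by norm_num) ((hg.pow 2).intervalIntegrable _ _)
          ((continuous_const.mul hG).intervalIntegrable _ _) fun t _ => trans_fderiv_le f _ z
    _ = ‖z‖ ^ 2 * ∫ t in (0 : ℝ)..1, ∑ i, (pd i f (x + t • z)) ^ 2 := by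
        rw [intervalIntegral.integral_const_mul]

theorem trans_pointwise_ennreal {d : ℕ} {f : E d → ℝ} (hf : ContDiff ℝ 1 f) (x z : E d) :
    ENNReal.ofReal ((f (x + z) - f x) ^ 2)
      ≤ ENNReal.ofReal (‖z‖ ^ 2)
        * ∫⁻ t in Icc (0 : ℝ) 1, ENNReal.ofReal (∑ i, (pd i f (x + t • z)) ^ 2) := by
  have hline : Continuous fun t : ℝ => x + t • z := by fun_prop
  have hG : Continuous fun t : ℝ => ∑ i, (pd i f (x + t • z)) ^ 2 :=
    (trans_grad_cont hf).comp hline
  have h1 : ∫⁻ t in Icc (0 : ℝ) 1, ENNReal.ofReal (∑ i, (pd i f (x + t • z)) ^ 2)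
      = ENNReal.ofReal (∫ t in (0 : ℝ)..1, ∑ i, (pd i f (x + t • z)) ^ 2) := by
    rw [intervalIntegral.integral_of_le (by norm_num), ← integral_Icc_eq_integral_Ioc,
      ofReal_integral_eq_lintegral_ofReal]
    · exact hG.continuousOn.integrableOn_compact isCompact_Icc
    · exact ae_of_all _ fun t => Finset.sum_nonneg fun i _ => sq_nonneg _
  rw [h1, ← ENNReal.ofReal_mul (by positivity)]
  exact ENNReal.ofReal_le_ofReal (trans_pointwise hf x z)

theorem trans_lintegral {d : ℕ} {f : E d → ℝ} (hf : ContDiff ℝ 1 f) (z : E d) {A A' : Set (E d)}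
    (hA : MeasurableSet A) (hA' : MeasurableSet A')
    (h : ∀ x ∈ A, ∀ t ∈ Icc (0 : ℝ) 1, x + t • z ∈ A') :
    ∫⁻ x in A, ENNReal.ofReal ((f (x + z) - f x) ^ 2)
      ≤ ENNReal.ofReal (‖z‖ ^ 2) * ∫⁻ x in A', ENNReal.ofReal (∑ i, (pd i f x) ^ 2) := by
  set G : E d → ℝ≥0∞ := fun x => ENNReal.ofReal (∑ i, (pd i f x) ^ 2) with hG
  have hGm : Measurable G := (trans_grad_cont hf).measurable.ennreal_ofReal
  calc ∫⁻ x in A, ENNReal.ofReal ((f (x + z) - f x) ^ 2)
      ≤ ∫⁻ x in A, ENNReal.ofReal (‖z‖ ^ 2) * ∫⁻ t in Icc (0 : ℝ) 1, G (x + t • z) :=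
        lintegral_mono fun x => trans_pointwise_ennreal hf x z
    _ = ENNReal.ofReal (‖z‖ ^ 2) * ∫⁻ x in A, ∫⁻ t in Icc (0 : ℝ) 1, G (x + t • z) :=
        lintegral_const_mul' _ _ ENNReal.ofReal_ne_top
    _ = ENNReal.ofReal (‖z‖ ^ 2) * ∫⁻ t in Icc (0 : ℝ) 1, ∫⁻ x in A, G (x + t • z) := by
        congr 1
        refine lintegral_lintegral_swap ?_
        refine Measurable.aemeasurable ?_
        exact hGm.comp (by fun_prop)
    _ ≤ ENNReal.ofReal (‖z‖ ^ 2) * ∫⁻ t in Icc (0 : ℝ) 1, ∫⁻ x in A', G x := by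
        gcongr ENNReal.ofReal (‖z‖ ^ 2) * ?_
        refine setLIntegral_mono' measurableSet_Icc fun t ht => ?_
        calc ∫⁻ x in A, G (x + t • z)
            = ∫⁻ x, A.indicator (fun x => G (x + t • z)) x := (lintegral_indicator hA _).symm
          _ ≤ ∫⁻ x, (A'.indicator G) (x + t • z) := by
              refine lintegral_mono fun x => ?_
              by_cases hx : x ∈ A
              · rw [indicator_of_mem hx, indicator_of_mem (h x hx t ht)]
              · rw [indicator_of_notMem hx]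
                exact zero_le
          _ = ∫⁻ x, A'.indicator G x := lintegral_add_right_eq_self _ _
          _ = ∫⁻ x in A', G x := lintegral_indicator hA' _
    _ = ENNReal.ofReal (‖z‖ ^ 2) * ∫⁻ x in A', G x := by
        simp

theorem trans_smooth {d : ℕ} {f : E d → ℝ} (hf : ContDiff ℝ 1 f) (hc : HasCompactSupport f)
    (z : E d) {A A' : Set (E d)}
    (hA : MeasurableSet A) (hA' : MeasurableSet A')
    (h : ∀ x ∈ A, ∀ t ∈ Icc (0 : ℝ) 1, x + t • z ∈ A') :
    ∫ x in A, (f (x + z) - f x) ^ 2 ≤ ‖z‖ ^ 2 * ∑ i, ∫ x in A', (pd i f x) ^ 2 := by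
  have hpc : ∀ i, Continuous (pd i f) := fun i =>
    (hf.continuous_fderiv one_ne_zero).clm_apply continuous_const
  have hps : ∀ i, HasCompactSupport (pd i f) := fun i =>
    IsCompact.of_isClosed_subset hc (isClosed_tsupport _) (jet_pd_tsupport f i)
  have hsq : ∀ i, HasCompactSupport fun x => (pd i f x) ^ 2 := fun i => by
    have h1 := (hps i).mul_left (f := pd i f)
    have h2 : (fun x => (pd i f x) ^ 2) = pd i f * pd i f := by
      funext x
      simp [pow_two]
    rw [h2]
    exact h1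
  have hint : ∀ i, Integrable (fun x => (pd i f x) ^ 2) (volume : Measure (E d)) := fun i =>
    ((hpc i).pow 2).integrable_of_hasCompactSupport (hsq i)
  have h1 : ∑ i, ∫ x in A', (pd i f x) ^ 2 = ∫ x in A', ∑ i, (pd i f x) ^ 2 :=
    (integral_finsetSum _ fun i _ => (hint i).integrableOn).symm
  have hint2 : Integrable (fun x => ∑ i, (pd i f x) ^ 2) (volume : Measure (E d)) :=
    integrable_finsetSum _ fun i _ => hint i
  rw [h1, integral_eq_lintegral_of_nonneg_ae (ae_of_all _ fun x => sq_nonneg _)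
    (by
      have : Continuous fun x => (f (x + z) - f x) ^ 2 :=
        ((hf.continuous.comp (by fun_prop)).sub hf.continuous).pow 2
      exact this.aestronglyMeasurable)]
  refine ENNReal.toReal_le_of_le_ofReal (by positivity) ?_
  refine (trans_lintegral hf z hA hA' h).trans (le_of_eq ?_)
  rw [ENNReal.ofReal_mul (by positivity), ofReal_integral_eq_lintegral_ofReal hint2.integrableOn
    (ae_of_all _ fun x => Finset.sum_nonneg fun i _ => sq_nonneg _)]

/-- The translation of an `L²` function. -/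
noncomputable def transT {d : ℕ} (z : E d) (g : Lp ℝ 2 (volume : Measure (E d))) :
    Lp ℝ 2 (volume : Measure (E d)) :=
  Lp.compMeasurePreserving (fun x => x + z) (measurePreserving_add_right volume z) g

theorem transT_coe {d : ℕ} (z : E d) (g : Lp ℝ 2 (volume : Measure (E d))) :
    transT z g =ᵐ[volume] fun x => g (x + z) :=
  Lp.coeFn_compMeasurePreserving g (measurePreserving_add_right volume z)

theorem transT_cont {d : ℕ} (z : E d) : Continuous (transT z) := by
  have h : Isometry (transT (d := d) z) :=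
    Lp.isometry_compMeasurePreserving (measurePreserving_add_right volume z)
  exact h.continuous

/-- The integral over `A` of the square of an `L²` function is a continuous function. -/
theorem trans_setIntegral_cont {d : ℕ} (A : Set (E d)) :
    Continuous fun g : Lp ℝ 2 (volume : Measure (E d)) => ∫ x in A, (g x) ^ 2 := by
  have h1 : ∀ g : Lp ℝ 2 (volume : Measure (E d)),
      ∫ x in A, (g x) ^ 2 = ‖LpToLpRestrictCLM (E d) ℝ ℝ volume 2 A g‖ ^ 2 := by
    intro g
    rw [← real_inner_self_eq_norm_sq, L2.inner_def]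
    refine integral_congr_ae ?_
    filter_upwards [LpToLpRestrictCLM_coeFn ℝ A g] with x hx
    rw [hx]
    simp [pow_two]
  simp_rw [h1]
  fun_prop

theorem trans_setIntegral_sub_cont {d : ℕ} (A : Set (E d)) (z : E d) :
    Continuous fun g : Lp ℝ 2 (volume : Measure (E d)) => ∫ x in A, (g (x + z) - g x) ^ 2 := by
  have h1 : ∀ g : Lp ℝ 2 (volume : Measure (E d)),
      ∫ x in A, (g (x + z) - g x) ^ 2 = ∫ x in A, ((transT z g - g : Lp ℝ 2 _) x) ^ 2 := by
    intro g
    refine integral_congr_ae (ae_restrict_of_ae ?_)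
    filter_upwards [transT_coe z g, Lp.coeFn_sub (transT z g) g] with x h2 h3
    rw [h3, Pi.sub_apply, h2]
  simp_rw [h1]
  exact (trans_setIntegral_cont A).comp ((transT_cont z).sub continuous_id)

theorem trans_comp_cont {d : ℕ} (k : Idx d) : Continuous fun w : HS d => w k :=
  (PiLp.continuous_ofLp 2 (fun _ : Idx d => Lp ℝ 2 (volume : Measure (E d)))).comp
    continuous_id |> fun h => (continuous_apply k).comp h

/-- General form: if the component `k` has partial derivatives the components `m i`. -/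
theorem trans_general {d : ℕ} {w : HS d} (hw : w ∈ H20 (univ : Set (E d))) (z : E d)
    {A A' : Set (E d)} (hA : MeasurableSet A) (hA' : MeasurableSet A')
    (h : ∀ x ∈ A, ∀ t ∈ Icc (0 : ℝ) 1, x + t • z ∈ A') (k : Idx d) (m : Fin d → Idx d)
    (hm : ∀ φ : E d → ℝ, ∀ i, comp φ (m i) = pd i (comp φ k)) :
    ∫ x in A, (w k (x + z) - w k x) ^ 2
      ≤ ‖z‖ ^ 2 * ∑ i, ∫ x in A', (w (m i) x) ^ 2 := by
  have hclosed : IsClosed {w : HS d | ∫ x in A, (w k (x + z) - w k x) ^ 2
      ≤ ‖z‖ ^ 2 * ∑ i, ∫ x in A', (w (m i) x) ^ 2} := by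
    refine isClosed_le ?_ ?_
    · exact (trans_setIntegral_sub_cont A z).comp (trans_comp_cont k)
    · refine continuous_const.mul (continuous_finsetSum _ fun i _ => ?_)
      exact (trans_setIntegral_cont A').comp (trans_comp_cont (m i))
  have hsub : w ∈ closure {v : HS d | ∃ φ, Test (univ : Set (E d)) φ ∧ IsJet φ v} := by
    rw [Metric.mem_closure_iff]
    intro ε hε
    obtain ⟨φ, v, h1, h2, h3⟩ := (mem_H20_iff w).1 hw ε hε
    exact ⟨v, ⟨φ, h1, h2⟩, by rwa [dist_eq_norm]⟩
  refine closure_minimal ?_ hclosed hsub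
  rintro v ⟨φ, hφ, hv⟩
  have hk1 : ContDiff ℝ 1 (comp φ k) := (jet_comp_contDiff hφ.smooth k).of_le (by simp)
  have hk2 : HasCompactSupport (comp φ k) :=
    IsCompact.of_isClosed_subset hφ.compact (isClosed_tsupport _) (jet_comp_tsupport φ k)
  have h5 := trans_smooth hk1 hk2 z hA hA' h
  have h6 : ∫ x in A, (v k (x + z) - v k x) ^ 2
      = ∫ x in A, (comp φ k (x + z) - comp φ k x) ^ 2 := by
    refine integral_congr_ae (ae_restrict_of_ae ?_)
    have h7 : ∀ᵐ x, v k (x + z) = comp φ k (x + z) :=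
      (measurePreserving_add_right volume z).quasiMeasurePreserving.ae (hv k)
    filter_upwards [hv k, h7] with x h8 h9
    rw [h8, h9]
  have h7 : ∀ i, ∫ x in A', (v (m i) x) ^ 2 = ∫ x in A', (pd i (comp φ k) x) ^ 2 := by
    intro i
    refine integral_congr_ae (ae_restrict_of_ae ?_)
    filter_upwards [hv (m i)] with x h8
    rw [h8, hm φ i]
  show ∫ x in A, (v k (x + z) - v k x) ^ 2 ≤ ‖z‖ ^ 2 * ∑ i, ∫ x in A', (v (m i) x) ^ 2
  rw [h6]
  simp_rw [h7]
  exact h5

theorem trans_u {d : ℕ} {w : HS d} (hw : w ∈ H20 (univ : Set (E d))) (z : E d) {A A' : Set (E d)}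
    (hA : MeasurableSet A) (hA' : MeasurableSet A')
    (h : ∀ x ∈ A, ∀ t ∈ Icc (0 : ℝ) 1, x + t • z ∈ A') :
    ∫ x in A, (w none (x + z) - w none x) ^ 2
      ≤ ‖z‖ ^ 2 * ∑ i, ∫ x in A', (w (some (Sum.inl i)) x) ^ 2 :=
  trans_general hw z hA hA' h none (fun i => some (Sum.inl i)) fun _ _ => rfl

theorem trans_g {d : ℕ} {w : HS d} (hw : w ∈ H20 (univ : Set (E d))) (z : E d) {A A' : Set (E d)}
    (hA : MeasurableSet A) (hA' : MeasurableSet A')
    (h : ∀ x ∈ A, ∀ t ∈ Icc (0 : ℝ) 1, x + t • z ∈ A') (j : Fin d) :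
    ∫ x in A, (w (some (Sum.inl j)) (x + z) - w (some (Sum.inl j)) x) ^ 2
      ≤ ‖z‖ ^ 2 * ∑ i, ∫ x in A', (w (some (Sum.inr (i, j))) x) ^ 2 :=
  trans_general hw z hA hA' h (some (Sum.inl j)) (fun i => some (Sum.inr (i, j))) fun _ _ => rfl

end Pool.Agent.Lib.Buck
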