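import Mathlib
import Pool.Agent.Lib.MP_17201e_an.Defs
import Pool.Agent.Lib.MP_17201e_an.Jet
import Pool.Agent.Lib.MP_17201e_an.Trans

/-!
# The Faber-Krahn inequality by averaging over translations
-/

set_option autoImplicit false

open MeasureTheory Set Filter Topology
open scoped ENNReal ContDiff

namespace Pool.Agent.Lib.Buck

theorem fk_norm_sq {d : ℕ} (g : Lp ℝ 2 (volume : Measure (E d))) : ‖g‖ ^ 2 = ∫ x, (g x) ^ 2 := by
  rw [← real_inner_self_eq_norm_sq, L2.inner_def]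
  simp [pow_two]

theorem fk_transT_norm {d : ℕ} (z : E d) (g : Lp ℝ 2 (volume : Measure (E d))) :
    ‖transT z g‖ = ‖g‖ :=
  Lp.norm_compMeasurePreserving g (measurePreserving_add_right volume z)

/-- The `L¹` norm of a function supported in `A`. -/
theorem fk_l1 {d : ℕ} (f : Lp ℝ 2 (volume : Measure (E d))) {A : Set (E d)}
    (hA : MeasurableSet A) (hf : ∀ᵐ x, x ∉ A → f x = 0) :
    (∫⁻ x, ‖f x‖ₑ) ^ 2 ≤ volume A * ENNReal.ofReal (‖f‖ ^ 2) := by
  have h1 : ∫⁻ x, ‖f x‖ₑ = ∫⁻ x in A, ‖f x‖ₑ := by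
    rw [← lintegral_indicator hA]
    refine lintegral_congr_ae ?_
    filter_upwards [hf] with x hx
    by_cases hxA : x ∈ A
    · rw [indicator_of_mem hxA]
    · rw [indicator_of_notMem hxA, hx hxA, enorm_zero]
  have hm : AEStronglyMeasurable f (volume.restrict A) :=
    (Lp.stronglyMeasurable f).aestronglyMeasurable
  have h2 : ∫⁻ x in A, ‖f x‖ₑ ≤ eLpNorm f 2 volume * volume A ^ (1 / 2 : ℝ) := by
    have h3 := eLpNorm_le_eLpNorm_mul_rpow_measure_univ (μ := volume.restrict A)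
      (p := 1) (q := 2) (by norm_num) hm
    rw [eLpNorm_one_eq_lintegral_enorm] at h3
    refine h3.trans ?_
    rw [Measure.restrict_apply_univ]
    have h4 : (1 / (1 : ℝ≥0∞).toReal - 1 / (2 : ℝ≥0∞).toReal : ℝ) = 1 / 2 := by norm_num
    rw [h4]
    gcongr
    exact Measure.restrict_le_self
  have h5 : eLpNorm f 2 volume = ENNReal.ofReal ‖f‖ := by
    rw [Lp.norm_def, ENNReal.ofReal_toReal (Lp.eLpNorm_ne_top f)]
  rw [h1]
  calc (∫⁻ x in A, ‖f x‖ₑ) ^ 2 ≤ (eLpNorm f 2 volume * volume A ^ (1 / 2 : ℝ)) ^ 2 := by gcongr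
    _ = volume A * ENNReal.ofReal (‖f‖ ^ 2) := by
        rw [mul_pow, h5, ← ENNReal.ofReal_pow (norm_nonneg _), mul_comm, ← ENNReal.rpow_natCast,
          ← ENNReal.rpow_mul]
        norm_num

theorem fk_swap {d : ℕ} (f : Lp ℝ 2 (volume : Measure (E d))) :
    ∫⁻ z : E d, ∫⁻ x, ‖f (x + z)‖ₑ * ‖f x‖ₑ = (∫⁻ x, ‖f x‖ₑ) ^ 2 := by
  have hm : Measurable fun x => ‖f x‖ₑ := (Lp.stronglyMeasurable f).enorm
  rw [lintegral_lintegral_swap]
  · have h1 : ∀ x : E d, ∫⁻ z : E d, ‖f (x + z)‖ₑ * ‖f x‖ₑ = (∫⁻ x, ‖f x‖ₑ) * ‖f x‖ₑ := by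
      intro x
      rw [lintegral_mul_const]
      · congr 1
        exact lintegral_add_left_eq_self (fun y => ‖f y‖ₑ) x
      · exact hm.comp (by fun_prop)
    simp_rw [h1]
    rw [lintegral_const_mul _ hm, pow_two]
  · refine Measurable.aemeasurable ?_
    exact (hm.comp (by fun_prop)).mul (hm.comp (by fun_prop))

theorem fk_exists_z {d : ℕ} (f : Lp ℝ 2 (volume : Measure (E d))) {A : Set (E d)}
    (hA : MeasurableSet A) (hf : ∀ᵐ x, x ∉ A → f x = 0) {r : ℝ}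
    (hr : volume (Metric.closedBall (0 : E d) r) = 2 * volume A) (h0 : volume A ≠ 0)
    (h1 : volume A ≠ ⊤) :
    ∃ z : E d, ‖z‖ ≤ r ∧ ∫⁻ x, ‖f (x + z)‖ₑ * ‖f x‖ₑ ≤ ENNReal.ofReal (‖f‖ ^ 2 / 2) := by
  have hm : Measurable fun x => ‖f x‖ₑ := (Lp.stronglyMeasurable f).enorm
  have hB0 : volume (Metric.closedBall (0 : E d) r) ≠ 0 := by
    rw [hr]; simp [h0]
  have hB1 : volume (Metric.closedBall (0 : E d) r) ≠ ⊤ := by
    rw [hr]; exact ENNReal.mul_ne_top (by norm_num) h1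
  have hmeas : Measurable fun z : E d => ∫⁻ x, ‖f (x + z)‖ₑ * ‖f x‖ₑ := by
    refine Measurable.lintegral_prod_right' (f := fun p : E d × E d => ‖f (p.2 + p.1)‖ₑ * ‖f p.2‖ₑ)
      ?_
    exact (hm.comp (by fun_prop)).mul (hm.comp (by fun_prop))
  obtain ⟨z, hz, hz2⟩ := exists_le_setLAverage hB0 hB1 hmeas.aemeasurable.restrict
  refine ⟨z, by simpa using hz, hz2.trans ?_⟩
  rw [setLAverage_eq, hr]
  calc (∫⁻ z in Metric.closedBall (0 : E d) r, ∫⁻ x, ‖f (x + z)‖ₑ * ‖f x‖ₑ) / (2 * volume A)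
      ≤ (∫⁻ z, ∫⁻ x, ‖f (x + z)‖ₑ * ‖f x‖ₑ) / (2 * volume A) := by
        gcongr
        exact Measure.restrict_le_self
    _ ≤ (volume A * ENNReal.ofReal (‖f‖ ^ 2)) / (2 * volume A) := by
        rw [fk_swap]
        gcongr
        exact fk_l1 f hA hf
    _ = ENNReal.ofReal (‖f‖ ^ 2 / 2) := by
        rw [mul_comm 2 (volume A), ENNReal.mul_div_mul_left _ _ h0 h1,
          ENNReal.ofReal_div_of_pos (by norm_num)]
        norm_num

theorem fk_main {d : ℕ} (f : Lp ℝ 2 (volume : Measure (E d))) {A : Set (E d)} {G : ℝ}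
    (hA : MeasurableSet A) (hf : ∀ᵐ x, x ∉ A → f x = 0) (hG : 0 ≤ G)
    (hz : ∀ z : E d, ∫ x, (f (x + z) - f x) ^ 2 ≤ ‖z‖ ^ 2 * G) {r : ℝ}
    (hr : volume (Metric.closedBall (0 : E d) r) = 2 * volume A) (h0 : volume A ≠ 0)
    (h1 : volume A ≠ ⊤) : ‖f‖ ^ 2 ≤ r ^ 2 * G := by
  obtain ⟨z, hzr, hz2⟩ := fk_exists_z f hA hf hr h0 h1
  have h2 : ∫ x, (f (x + z) - f x) ^ 2 = ‖transT z f - f‖ ^ 2 := by
    rw [fk_norm_sq]
    refine integral_congr_ae ?_
    filter_upwards [transT_coe z f, Lp.coeFn_sub (transT z f) f] with x h3 h4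
    rw [h4, Pi.sub_apply, h3]
  have h3 : inner ℝ (transT z f) f ≤ ‖f‖ ^ 2 / 2 := by
    have h4 : inner ℝ (transT z f) f = ∫ x, f (x + z) * f x := by
      rw [L2.inner_def]
      refine integral_congr_ae ?_
      filter_upwards [transT_coe z f] with x h5
      simp [h5, mul_comm]
    rw [h4]
    have h5 : ‖∫ x, f (x + z) * f x‖ ≤ (∫⁻ x, ‖f (x + z) * f x‖ₑ).toReal := by
      have h6 := enorm_integral_le_lintegral_enorm (μ := volume) fun x => f (x + z) * f x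
      have h7 : ∫⁻ x, ‖f (x + z) * f x‖ₑ ≠ ⊤ := by
        simp_rw [enorm_mul]
        exact ne_top_of_le_ne_top ENNReal.ofReal_ne_top hz2
      have h8 := ENNReal.toReal_mono h7 h6
      simpa using h8
    refine (Real.le_norm_self _).trans (h5.trans ?_)
    simp_rw [enorm_mul]
    exact ENNReal.toReal_le_of_le_ofReal (by positivity) hz2
  have h4 := hz z
  rw [h2, norm_sub_sq_real, fk_transT_norm] at h4
  have h5 : ‖z‖ ^ 2 ≤ r ^ 2 := by gcongr
  nlinarith [mul_le_mul_of_nonneg_right h5 hG]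

theorem fk_scalar (d : ℕ) (hd : 1 ≤ d) : ∃ C > 0, ∀ (f : Lp ℝ 2 (volume : Measure (E d)))
    (A : Set (E d)) (G : ℝ), MeasurableSet A → volume A < ⊤ → (∀ᵐ x, x ∉ A → f x = 0) → 0 ≤ G →
    (∀ z : E d, ∫ x, (f (x + z) - f x) ^ 2 ≤ ‖z‖ ^ 2 * G) →
    ‖f‖ ^ 2 ≤ C * (volume A).toReal ^ (2 / d : ℝ) * G := by
  set om : ℝ := (volume (Metric.ball (0 : E d) 1)).toReal with hom
  have hom1 : volume (Metric.ball (0 : E d) 1) ≠ ⊤ := measure_ball_lt_top.ne
  have hom0 : 0 < om := ENNReal.toReal_pos (Metric.measure_ball_pos _ _ one_pos).ne' hom1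
  refine ⟨(2 / om) ^ (2 / d : ℝ), by positivity, ?_⟩
  intro f A G hA hAfin hf hG hz
  by_cases h0 : volume A = 0
  · have h2 : f = 0 := by
      have h3 : ∀ᵐ x, x ∉ A := by
        rw [ae_iff]
        simpa using h0
      refine Lp.ext ?_
      filter_upwards [hf, h3, Lp.coeFn_zero ℝ 2 (volume : Measure (E d))] with x h4 h5 h6
      rw [h4 h5, h6]; rfl
    rw [h2]
    simp only [norm_zero, ne_eq, OfNat.ofNat_ne_zero, not_false_eq_true, zero_pow]
    positivity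
  have hd0 : (d : ℝ) ≠ 0 := by
    have : (1 : ℝ) ≤ d := by exact_mod_cast hd
    positivity
  set V : ℝ := (volume A).toReal with hV
  have hV0 : 0 < V := ENNReal.toReal_pos h0 hAfin.ne
  set r : ℝ := (2 * V / om) ^ (1 / d : ℝ) with hr
  have hr0 : 0 ≤ r := by positivity
  have hrd : r ^ d = 2 * V / om := by
    rw [hr, ← Real.rpow_natCast, ← Real.rpow_mul (by positivity), one_div, inv_mul_cancel₀ hd0,
      Real.rpow_one]
  have hball : volume (Metric.closedBall (0 : E d) r) = 2 * volume A := by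
    rw [Measure.addHaar_closedBall _ _ hr0, finrank_euclideanSpace_fin, hrd]
    rw [← ENNReal.ofReal_toReal hom1, ← hom, ← ENNReal.ofReal_mul (by positivity),
      div_mul_cancel₀ _ hom0.ne', ENNReal.ofReal_mul (by norm_num), hV,
      ENNReal.ofReal_toReal hAfin.ne]
    norm_num
  have h3 := fk_main f hA hf hG hz hball h0 hAfin.ne
  have h4 : r ^ 2 = (2 / om) ^ (2 / d : ℝ) * V ^ (2 / d : ℝ) := by
    rw [hr, ← Real.rpow_natCast, ← Real.rpow_mul (by positivity),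
      ← Real.mul_rpow (by positivity) hV0.le]
    congr 1
    · ring
    · push_cast; ring
  rw [← h4]
  exact h3

theorem faber_krahn (d : ℕ) (hd : 1 ≤ d) : ∃ C > 0, ∀ A : Set (E d), MeasurableSet A →
    volume A < ⊤ → ∀ w ∈ X A,
      ‖w none‖ ^ 2 ≤ C * (volume A).toReal ^ (2 / d : ℝ) * qb w ∧
      qb w ≤ C * (volume A).toReal ^ (2 / d : ℝ) * qh w := by
  obtain ⟨C, hC, h⟩ := fk_scalar d hd
  refine ⟨C, hC, fun A hA hAfin w hw => ⟨?_, ?_⟩⟩
  · refine h (w none) A (qb w) hA hAfin (hw.2 none) (qb_nonneg w) fun z => ?_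
    have h1 := trans_u hw.1 z MeasurableSet.univ MeasurableSet.univ fun _ _ _ _ => mem_univ _
    simp only [Measure.restrict_univ] at h1
    refine h1.trans (le_of_eq ?_)
    unfold qb
    simp_rw [fk_norm_sq]
  · have h2 : ∀ j, ‖w (some (Sum.inl j))‖ ^ 2
        ≤ C * (volume A).toReal ^ (2 / d : ℝ) * ∑ i, ‖w (some (Sum.inr (i, j)))‖ ^ 2 := by
      intro j
      refine h (w (some (Sum.inl j))) A _ hA hAfin (hw.2 _)
        (Finset.sum_nonneg fun i _ => sq_nonneg _) fun z => ?_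
      have h1 := trans_g hw.1 z MeasurableSet.univ MeasurableSet.univ
        (fun _ _ _ _ => mem_univ _) j
      simp only [Measure.restrict_univ] at h1
      refine h1.trans (le_of_eq ?_)
      simp_rw [fk_norm_sq]
    calc qb w = ∑ j, ‖w (some (Sum.inl j))‖ ^ 2 := rfl
      _ ≤ ∑ j, C * (volume A).toReal ^ (2 / d : ℝ) * ∑ i, ‖w (some (Sum.inr (i, j)))‖ ^ 2 :=
          Finset.sum_le_sum fun j _ => h2 j
      _ = C * (volume A).toReal ^ (2 / d : ℝ) * qh w := by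
          rw [← Finset.mul_sum, Finset.sum_comm]
          rfl

end Pool.Agent.Lib.Buck
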