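import Pool.Agent.Lib.MP_17201e_an.Defs

/-!
# Multiplication of 2-jets by a smooth bounded function
-/

set_option autoImplicit false

open MeasureTheory Set Filter Topology
open scoped ENNReal ContDiff

namespace Pool.Agent.Lib.Buck

/-! ## Multiplication by a bounded continuous function -/

theorem mult_memLp {d : ℕ} {g : E d → ℝ} {K : ℝ} (hg : Continuous g) (hb : ∀ x, |g x| ≤ K)
    (f : Lp ℝ 2 (volume : Measure (E d))) : MemLp (fun x => g x * f x) 2 volume := by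
  refine MemLp.of_le_mul (c := K) (Lp.memLp f)
    (hg.aestronglyMeasurable.mul (Lp.aestronglyMeasurable f)) (Eventually.of_forall fun x => ?_)
  rw [norm_mul, Real.norm_eq_abs]
  exact mul_le_mul_of_nonneg_right (hb x) (norm_nonneg _)

/-- Multiplication by a bounded continuous function. -/
noncomputable def multL {d : ℕ} (g : E d → ℝ) (K : ℝ) (hg : Continuous g)
    (hb : ∀ x, |g x| ≤ K) :
    Lp ℝ 2 (volume : Measure (E d)) →L[ℝ] Lp ℝ 2 (volume : Measure (E d)) :=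
  LinearMap.mkContinuous
    { toFun := fun f => (mult_memLp hg hb f).toLp _
      map_add' := fun f₁ f₂ => by
        refine Lp.ext ?_
        filter_upwards [(mult_memLp hg hb (f₁ + f₂)).coeFn_toLp,
          (mult_memLp hg hb f₁).coeFn_toLp, (mult_memLp hg hb f₂).coeFn_toLp,
          Lp.coeFn_add f₁ f₂, Lp.coeFn_add ((mult_memLp hg hb f₁).toLp _)
            ((mult_memLp hg hb f₂).toLp _)] with x h1 h2 h3 h4 h5
        rw [h1, h5, Pi.add_apply, h2, h3, h4, Pi.add_apply, mul_add]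
      map_smul' := fun c f => by
        refine Lp.ext ?_
        filter_upwards [(mult_memLp hg hb (c • f)).coeFn_toLp,
          (mult_memLp hg hb f).coeFn_toLp,
          Lp.coeFn_smul c f, Lp.coeFn_smul c ((mult_memLp hg hb f).toLp _)] with x h1 h2 h3 h4
        rw [h1, RingHom.id_apply, h4, Pi.smul_apply, h2, h3, Pi.smul_apply, smul_eq_mul,
          smul_eq_mul]
        ring }
    K (fun f => by
      refine Lp.norm_le_mul_norm_of_ae_le_mul ?_
      filter_upwards [(mult_memLp hg hb f).coeFn_toLp] with x h1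
      simp only [LinearMap.coe_mk, AddHom.coe_mk]
      rw [h1, norm_mul, Real.norm_eq_abs]
      exact mul_le_mul_of_nonneg_right (hb x) (norm_nonneg _))

theorem multL_coe {d : ℕ} (g : E d → ℝ) (K : ℝ) (hg : Continuous g)
    (hb : ∀ x, |g x| ≤ K) (f : Lp ℝ 2 (volume : Measure (E d))) :
    multL g K hg hb f =ᵐ[volume] fun x => g x * f x :=
  (mult_memLp hg hb f).coeFn_toLp

/-! ## Partial derivatives -/

theorem mult_contDiff_pd {d : ℕ} {φ : E d → ℝ} (h : ContDiff ℝ ∞ φ) (i : Fin d) :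
    ContDiff ℝ ∞ (pd i φ) := by
  have h1 : ContDiff ℝ ∞ (fderiv ℝ φ) := h.fderiv_right (by simp)
  exact h1.clm_apply contDiff_const

theorem mult_pd_mul {d : ℕ} {ψ φ : E d → ℝ} (hψ : ContDiff ℝ ∞ ψ) (hφ : ContDiff ℝ ∞ φ)
    (i : Fin d) : pd i (fun x => ψ x * φ x) = fun x => ψ x * pd i φ x + pd i ψ x * φ x := by
  funext x
  have h1 : DifferentiableAt ℝ ψ x := (hψ.differentiable (by simp)) x
  have h2 : DifferentiableAt ℝ φ x := (hφ.differentiable (by simp)) x
  unfold pd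
  rw [fderiv_fun_mul h1 h2]
  simp only [add_apply, smul_apply, smul_eq_mul]
  ring

theorem mult_pd_add {d : ℕ} {ψ φ : E d → ℝ} (hψ : ContDiff ℝ ∞ ψ) (hφ : ContDiff ℝ ∞ φ)
    (i : Fin d) : pd i (fun x => ψ x + φ x) = fun x => pd i ψ x + pd i φ x := by
  funext x
  have h1 : DifferentiableAt ℝ ψ x := (hψ.differentiable (by simp)) x
  have h2 : DifferentiableAt ℝ φ x := (hφ.differentiable (by simp)) x
  unfold pd
  rw [fderiv_fun_add h1 h2]
  rfl

theorem mult_pd_one_sub {d : ℕ} (ψ : E d → ℝ) (i : Fin d) :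
    pd i (fun x => 1 - ψ x) = fun x => - pd i ψ x := by
  funext x
  unfold pd
  rw [fderiv_const_sub]
  rfl

theorem mult_pd_neg {d : ℕ} (ψ : E d → ℝ) (i : Fin d) :
    pd i (fun x => - ψ x) = fun x => - pd i ψ x := by
  funext x
  unfold pd
  rw [fderiv_fun_neg]
  rfl

theorem mult_comp_mul {d : ℕ} {ψ φ : E d → ℝ} (hψ : ContDiff ℝ ∞ ψ) (hφ : ContDiff ℝ ∞ φ)
    (k : Idx d) : comp (fun x => ψ x * φ x) k = mulComp ψ (comp φ) k := by
  rcases k with _ | i | ⟨i, j⟩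
  · rfl
  · exact mult_pd_mul hψ hφ i
  · have hψj := mult_contDiff_pd hψ j
    have hφj := mult_contDiff_pd hφ j
    show pd i (pd j (fun x => ψ x * φ x)) = _
    rw [mult_pd_mul hψ hφ j, mult_pd_add (hψ.mul hφj) (hψj.mul hφ) i,
      mult_pd_mul hψ hφj i, mult_pd_mul hψj hφ i]
    funext x
    simp only [mulComp, comp]
    ring

theorem mult_pd_zero {d : ℕ} {ψ : E d → ℝ} {x : E d} (h : ψ =ᶠ[𝓝 x] 0) (i : Fin d) :
    pd i ψ =ᶠ[𝓝 x] 0 := by
  have h1 : fderiv ℝ ψ =ᶠ[𝓝 x] fderiv ℝ (0 : E d → ℝ) := h.fderiv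
  filter_upwards [h1] with y hy
  unfold pd
  rw [hy]
  simp

/-! ## Multiplication of jets -/

section

variable {d : ℕ} {ψ : E d → ℝ} {K₀ K₁ K₂ : ℝ}

/-- The components of multiplication by `ψ`. -/
noncomputable def multC (h : BC ψ K₀ K₁ K₂) :
    Idx d → (HS d →L[ℝ] Lp ℝ 2 (volume : Measure (E d)))
  | none => (multL ψ K₀ h.smooth.continuous h.b0).comp
      (PiLp.proj 2 (fun _ : Idx d => Lp ℝ 2 (volume : Measure (E d))) none)
  | some (Sum.inl i) => (multL ψ K₀ h.smooth.continuous h.b0).comp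
      (PiLp.proj 2 (fun _ : Idx d => Lp ℝ 2 (volume : Measure (E d))) (some (Sum.inl i))) +
      (multL (pd i ψ) K₁ (mult_contDiff_pd h.smooth i).continuous (h.b1 i)).comp
      (PiLp.proj 2 (fun _ : Idx d => Lp ℝ 2 (volume : Measure (E d))) none)
  | some (Sum.inr (i, j)) => (multL ψ K₀ h.smooth.continuous h.b0).comp
      (PiLp.proj 2 (fun _ : Idx d => Lp ℝ 2 (volume : Measure (E d))) (some (Sum.inr (i, j)))) +
      (multL (pd i ψ) K₁ (mult_contDiff_pd h.smooth i).continuous (h.b1 i)).comp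
      (PiLp.proj 2 (fun _ : Idx d => Lp ℝ 2 (volume : Measure (E d))) (some (Sum.inl j))) +
      (multL (pd j ψ) K₁ (mult_contDiff_pd h.smooth j).continuous (h.b1 j)).comp
      (PiLp.proj 2 (fun _ : Idx d => Lp ℝ 2 (volume : Measure (E d))) (some (Sum.inl i))) +
      (multL (pd i (pd j ψ)) K₂
        (mult_contDiff_pd (mult_contDiff_pd h.smooth j) i).continuous (h.b2 i j)).comp
      (PiLp.proj 2 (fun _ : Idx d => Lp ℝ 2 (volume : Measure (E d))) none)

theorem multC_coe (h : BC ψ K₀ K₁ K₂) (w : HS d) (k : Idx d) :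
    multC h k w =ᵐ[volume] mulComp ψ (fun k x => w k x) k := by
  rcases k with _ | i | ⟨i, j⟩
  · exact multL_coe ψ K₀ h.smooth.continuous h.b0 (w none)
  · have e : multC h (some (Sum.inl i)) w =
        multL ψ K₀ h.smooth.continuous h.b0 (w (some (Sum.inl i))) +
        multL (pd i ψ) K₁ (mult_contDiff_pd h.smooth i).continuous (h.b1 i) (w none) := rfl
    rw [e]
    filter_upwards [Lp.coeFn_add
        (multL ψ K₀ h.smooth.continuous h.b0 (w (some (Sum.inl i))))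
        (multL (pd i ψ) K₁ (mult_contDiff_pd h.smooth i).continuous (h.b1 i) (w none)),
      multL_coe ψ K₀ h.smooth.continuous h.b0 (w (some (Sum.inl i))),
      multL_coe (pd i ψ) K₁ (mult_contDiff_pd h.smooth i).continuous (h.b1 i) (w none)]
      with x h1 h2 h3
    rw [h1, Pi.add_apply, h2, h3]
    rfl
  · have hij := (mult_contDiff_pd (mult_contDiff_pd h.smooth j) i).continuous
    set a := multL ψ K₀ h.smooth.continuous h.b0 (w (some (Sum.inr (i, j)))) with ha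
    set b := multL (pd i ψ) K₁ (mult_contDiff_pd h.smooth i).continuous (h.b1 i)
      (w (some (Sum.inl j))) with hb
    set c := multL (pd j ψ) K₁ (mult_contDiff_pd h.smooth j).continuous (h.b1 j)
      (w (some (Sum.inl i))) with hc
    set e := multL (pd i (pd j ψ)) K₂ hij (h.b2 i j) (w none) with he
    have e1 : multC h (some (Sum.inr (i, j))) w = a + b + c + e := rfl
    rw [e1]
    filter_upwards [Lp.coeFn_add (a + b + c) e, Lp.coeFn_add (a + b) c, Lp.coeFn_add a b,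
      multL_coe ψ K₀ h.smooth.continuous h.b0 (w (some (Sum.inr (i, j)))),
      multL_coe (pd i ψ) K₁ (mult_contDiff_pd h.smooth i).continuous (h.b1 i)
        (w (some (Sum.inl j))),
      multL_coe (pd j ψ) K₁ (mult_contDiff_pd h.smooth j).continuous (h.b1 j)
        (w (some (Sum.inl i))),
      multL_coe (pd i (pd j ψ)) K₂ hij (h.b2 i j) (w none)] with x h1 h2 h3 h4 h5 h6 h7
    rw [h1, Pi.add_apply, h2, Pi.add_apply, h3, Pi.add_apply, h4, h5, h6, h7]
    rfl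

/-- Multiplication of jets. -/
noncomputable def multM (h : BC ψ K₀ K₁ K₂) : HS d →L[ℝ] HS d :=
  ((PiLp.continuousLinearEquiv 2 ℝ
    (fun _ : Idx d => Lp ℝ 2 (volume : Measure (E d)))).symm :
      (∀ _ : Idx d, Lp ℝ 2 (volume : Measure (E d))) →L[ℝ] HS d).comp
    (ContinuousLinearMap.pi (multC h))

theorem multM_isMul (h : BC ψ K₀ K₁ K₂) : IsMul ψ (multM h) := fun w k => multC_coe h w k

end

theorem mulJ_spec {d : ℕ} {ψ : E d → ℝ} {K₀ K₁ K₂ : ℝ} (h : BC ψ K₀ K₁ K₂) :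
    IsMul ψ (mulJ ψ) := by
  have hex : ∃ M, IsMul ψ M := ⟨multM h, multM_isMul h⟩
  unfold mulJ
  rw [dif_pos hex]
  exact hex.choose_spec

theorem mulJ_jet {d : ℕ} {ψ φ : E d → ℝ} {K₀ K₁ K₂ : ℝ} (h : BC ψ K₀ K₁ K₂)
    (hφ : ContDiff ℝ ∞ φ) {w : HS d} (hw : IsJet φ w) :
    IsJet (fun x => ψ x * φ x) (mulJ ψ w) := by
  intro k
  rw [mult_comp_mul h.smooth hφ k]
  refine (mulJ_spec h w k).trans ?_
  have hall : ∀ᵐ x, ∀ k, w k x = comp φ k x := by
    rw [ae_all_iff]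
    exact fun k => hw k
  filter_upwards [hall] with x hx
  rcases k with _ | i | ⟨i, j⟩
  · simp only [mulComp, hx]
  · simp only [mulComp, hx]
  · simp only [mulComp, hx]

theorem mulJ_mem_H20 {d : ℕ} {ψ : E d → ℝ} {K₀ K₁ K₂ : ℝ} (h : BC ψ K₀ K₁ K₂) {Ω Ω' : Set (E d)}
    (hs : tsupport ψ ∩ Ω ⊆ Ω') {w : HS d} (hw : w ∈ H20 Ω) : mulJ ψ w ∈ H20 Ω' := by
  have hspan : Submodule.span ℝ {w : HS d | ∃ φ, Test Ω φ ∧ IsJet φ w} ≤
      (Submodule.span ℝ {w : HS d | ∃ φ, Test Ω' φ ∧ IsJet φ w}).comap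
        (mulJ ψ : HS d →ₗ[ℝ] HS d) := by
    refine Submodule.span_le.mpr ?_
    rintro v ⟨φ, hφ, hv⟩
    refine Submodule.subset_span ⟨fun x => ψ x * φ x, ?_, mulJ_jet h hφ.smooth hv⟩
    refine ⟨h.smooth.mul hφ.smooth, hφ.compact.mul_left, ?_⟩
    intro x hx
    have h1 : x ∈ tsupport ψ := tsupport_mul_subset_left hx
    have h2 : x ∈ tsupport φ := tsupport_mul_subset_right hx
    exact hs ⟨h1, hφ.supp h2⟩
  have hw' : w ∈ closure ((Submodule.span ℝ {w : HS d | ∃ φ, Test Ω φ ∧ IsJet φ w} :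
      Submodule ℝ (HS d)) : Set (HS d)) := hw
  have h3 := map_mem_closure (mulJ ψ).continuous hw' (t := ((Submodule.span ℝ
    {w : HS d | ∃ φ, Test Ω' φ ∧ IsJet φ w} : Submodule ℝ (HS d)) : Set (HS d)))
    (fun v hv => hspan hv)
  exact h3

theorem mulJ_mem_X {d : ℕ} {ψ : E d → ℝ} {K₀ K₁ K₂ : ℝ} (h : BC ψ K₀ K₁ K₂) {A A' : Set (E d)}
    (hs : tsupport ψ ∩ A ⊆ A') {w : HS d} (hw : w ∈ X A) : mulJ ψ w ∈ X A' := by
  obtain ⟨hw1, hw2⟩ := hw
  refine ⟨mulJ_mem_H20 h (subset_univ _) hw1, fun k => ?_⟩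
  have hall : ∀ᵐ x, ∀ k, x ∉ A → w k x = 0 := by
    rw [ae_all_iff]
    exact hw2
  filter_upwards [mulJ_spec h w k, hall] with x h1 h2 hx
  rw [h1]
  by_cases hxs : x ∈ tsupport ψ
  · have hxA : x ∉ A := fun hA => hx (hs ⟨hxs, hA⟩)
    have h3 : ∀ k, w k x = 0 := fun k => h2 k hxA
    rcases k with _ | i | ⟨i, j⟩
    · simp only [mulComp, h3, mul_zero]
    · simp only [mulComp, h3, mul_zero, add_zero]
    · simp only [mulComp, h3, mul_zero, add_zero]
  · have h4 : ψ =ᶠ[𝓝 x] 0 := notMem_tsupport_iff_eventuallyEq.mp hxs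
    have h5 : ψ x = 0 := h4.self_of_nhds
    have h6 : ∀ i, pd i ψ x = 0 := fun i => (mult_pd_zero h4 i).self_of_nhds
    have h7 : ∀ i j, pd i (pd j ψ) x = 0 := fun i j =>
      (mult_pd_zero (mult_pd_zero h4 j) i).self_of_nhds
    rcases k with _ | i | ⟨i, j⟩
    · simp only [mulComp, h5, zero_mul]
    · simp only [mulComp, h5, h6, zero_mul, add_zero]
    · simp only [mulComp, h5, h6, h7, zero_mul, add_zero]

theorem BC.one_sub {d : ℕ} {ψ : E d → ℝ} {K₀ K₁ K₂ : ℝ} (h : BC ψ K₀ K₁ K₂) :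
    BC (fun x => 1 - ψ x) (1 + K₀) K₁ K₂ := by
  refine ⟨contDiff_const.sub h.smooth, fun x => ?_, fun i x => ?_, fun i j x => ?_⟩
  · calc |1 - ψ x| ≤ |(1 : ℝ)| + |ψ x| := abs_sub _ _
      _ ≤ 1 + K₀ := by rw [abs_one]; linarith [h.b0 x]
  · rw [mult_pd_one_sub, abs_neg]
    exact h.b1 i x
  · rw [mult_pd_one_sub, mult_pd_neg, abs_neg]
    exact h.b2 i j x

end Pool.Agent.Lib.Buck
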