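import Pool.Agent.Lib.MP_17201e_an.Defs

set_option autoImplicit false

open MeasureTheory Set Filter Topology
open scoped ENNReal ContDiff

namespace Pool.Agent.Lib.Buck

/-- a bounded sequence in a separable Hilbert space has a subsequence that is weakly Cauchy -/
theorem riesz_weak {H : Type*} [NormedAddCommGroup H] [InnerProductSpace ℝ H]
    [SecondCountableTopology H] (f : ℕ → H) (B : ℝ) (hB : ∀ n, ‖f n‖ ≤ B) :
    ∃ σ : ℕ → ℕ, StrictMono σ ∧ ∀ φ : H, CauchySeq (fun n => inner ℝ φ (f (σ n))) := by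
  let e : ℕ → H := TopologicalSpace.denseSeq H
  have he : DenseRange e := TopologicalSpace.denseRange_denseSeq H
  have hB0 : 0 ≤ B := (norm_nonneg _).trans (hB 0)
  have hcomp : IsCompact (Set.pi univ (fun k : ℕ => Icc (-(‖e k‖ * B)) (‖e k‖ * B))) :=
    isCompact_univ_pi fun k => isCompact_Icc
  obtain ⟨a, -, σ, hσ, hlim⟩ := hcomp.tendsto_subseq (x := fun n k => inner ℝ (e k) (f n))
    (fun n k _ => by
      have h1 : |inner ℝ (e k) (f n)| ≤ ‖e k‖ * B :=
        (abs_real_inner_le_norm _ _).trans (mul_le_mul_of_nonneg_left (hB n) (norm_nonneg _))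
      exact abs_le.mp h1)
  rw [tendsto_pi_nhds] at hlim
  refine ⟨σ, hσ, fun φ => ?_⟩
  rw [Metric.cauchySeq_iff']
  intro ε hε
  obtain ⟨k, hk⟩ := he.exists_dist_lt φ (ε := ε / (3 * (B + 1))) (by positivity)
  have hc : CauchySeq (fun n => inner ℝ (e k) (f (σ n))) := (hlim k).cauchySeq
  obtain ⟨N, hN⟩ := Metric.cauchySeq_iff'.mp hc (ε / 3) (by positivity)
  refine ⟨N, fun n hn => ?_⟩
  have h2 := hN n hn
  rw [Real.dist_eq] at h2 ⊢
  have h3 : ∀ m, |inner ℝ φ (f m) - inner ℝ (e k) (f m)| ≤ ε / 3 := by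
    intro m
    rw [← inner_sub_left]
    refine (abs_real_inner_le_norm _ _).trans ?_
    rw [dist_eq_norm] at hk
    calc ‖φ - e k‖ * ‖f m‖ ≤ (ε / (3 * (B + 1))) * B :=
          mul_le_mul hk.le (hB m) (norm_nonneg _) (by positivity)
      _ ≤ (ε / (3 * (B + 1))) * (B + 1) := by gcongr; linarith
      _ = ε / 3 := by field_simp
  have h4 := h3 (σ n)
  have h5 := h3 (σ N)
  rw [abs_le] at h4 h5
  rw [abs_lt] at h2 ⊢
  constructor <;> linarith [h4.1, h4.2, h5.1, h5.2, h2.1, h2.2]

/-- Cauchy-Schwarz on a finite measure space -/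
theorem riesz_cs {α : Type*} [MeasurableSpace α] (μ : Measure α) [IsFiniteMeasure μ] (k : α → ℝ)
    (h1 : Integrable k μ) (h2 : Integrable (fun x => k x ^ 2) μ) :
    (∫ x, k x ∂μ) ^ 2 ≤ μ.real univ * ∫ x, k x ^ 2 ∂μ := by
  set c := μ.real univ with hc
  have hc0 : 0 ≤ c := measureReal_nonneg
  rcases hc0.eq_or_lt with h0 | h0
  · have h3 : μ univ = 0 := by
      rw [← h0] at hc
      rw [eq_comm, Measure.real, ENNReal.toReal_eq_zero_iff] at hc
      exact hc.resolve_right (measure_ne_top _ _)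
    rw [Measure.measure_univ_eq_zero.mp h3]
    simp
  · set I := ∫ x, k x ∂μ with hI
    have h4 : 0 ≤ ∫ x, (c * k x - I) ^ 2 ∂μ := integral_nonneg fun x => sq_nonneg _
    have h5 : ∫ x, (c * k x - I) ^ 2 ∂μ = c ^ 2 * (∫ x, k x ^ 2 ∂μ) - 2 * c * I * I + I ^ 2 * c := by
      have h6 : (fun x => (c * k x - I) ^ 2) =
          fun x => (c ^ 2 * k x ^ 2 - 2 * c * I * k x) + I ^ 2 := by
        funext x; ring
      have i1 : Integrable (fun x => c ^ 2 * k x ^ 2) μ := h2.const_mul _
      have i2 : Integrable (fun x => 2 * c * I * k x) μ := h1.const_mul _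
      have i3 : Integrable (fun x => c ^ 2 * k x ^ 2 - 2 * c * I * k x) μ := i1.sub i2
      rw [h6, integral_add i3 (integrable_const _),
        integral_sub i1 i2, integral_const_mul, integral_const_mul,
        integral_const, ← hI]
      simp only [smul_eq_mul, ← hc]
      ring
    rw [h5] at h4
    have h7 : 0 ≤ c * (c * (∫ x, k x ^ 2 ∂μ) - I ^ 2) := by nlinarith
    have h8 := nonneg_of_mul_nonneg_right h7 h0
    linarith

variable {d : ℕ}

theorem riesz_memLp_shift (h : Lp ℝ 2 (volume : Measure (E d))) (z : E d) :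
    MemLp (fun x => h (x + z)) 2 (volume : Measure (E d)) :=
  (Lp.memLp h).comp_measurePreserving (measurePreserving_add_right volume z)

theorem riesz_memLp_shift' (h : Lp ℝ 2 (volume : Measure (E d))) (z : E d) :
    MemLp (fun x => h (z + x)) 2 (volume : Measure (E d)) :=
  (Lp.memLp h).comp_measurePreserving (measurePreserving_add_left volume z)

theorem riesz_norm_sq (h : Lp ℝ 2 (volume : Measure (E d))) : ‖h‖ ^ 2 = ∫ x, h x ^ 2 := by
  rw [← real_inner_self_eq_norm_sq, L2.inner_def]
  refine integral_congr_ae (Eventually.of_forall fun x => ?_)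
  simp [sq]

/-- the average over the ball of radius `δ`, as an inner product -/
theorem riesz_avg (h : Lp ℝ 2 (volume : Measure (E d))) (δ : ℝ) (x : E d) :
    ∫ z in Metric.closedBall (0 : E d) δ, h (x + z) =
      inner ℝ (indicatorConstLp 2 (μ := (volume : Measure (E d)))
        (Metric.isClosed_closedBall (x := x) (ε := δ)).measurableSet
        (measure_closedBall_lt_top).ne (1 : ℝ)) h := by
  rw [L2.inner_indicatorConstLp_one]
  have h1 := (measurePreserving_add_left (volume : Measure (E d)) x).setIntegral_preimage_emb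
    (MeasurableEquiv.addLeft x).measurableEmbedding (fun y => h y) (Metric.closedBall x δ)
  rw [← h1]
  have h2 : (fun y => x + y) ⁻¹' Metric.closedBall x δ = Metric.closedBall (0 : E d) δ := by
    ext y; simp [dist_eq_norm]
  rw [h2]

/-- the pointwise estimate -/
theorem riesz_pointwise (h : Lp ℝ 2 (volume : Measure (E d))) (δ : ℝ) (x : E d) :
    ((volume : Measure (E d)).real (Metric.closedBall 0 δ)) ^ 2 * h x ^ 2 ≤
      2 * (volume : Measure (E d)).real (Metric.closedBall 0 δ) *
        (∫ z in Metric.closedBall (0 : E d) δ, (h (x + z) - h x) ^ 2) +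
      2 * (∫ z in Metric.closedBall (0 : E d) δ, h (x + z)) ^ 2 := by
  set c := (volume : Measure (E d)).real (Metric.closedBall 0 δ) with hc
  have : IsFiniteMeasure ((volume : Measure (E d)).restrict (Metric.closedBall (0 : E d) δ)) :=
    ⟨by rw [Measure.restrict_apply_univ]; exact measure_closedBall_lt_top⟩
  have hm : MemLp (fun z => h (x + z)) 2
      ((volume : Measure (E d)).restrict (Metric.closedBall (0 : E d) δ)) :=
    (riesz_memLp_shift' h x).restrict _
  have hi : Integrable (fun z => h (x + z))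
      ((volume : Measure (E d)).restrict (Metric.closedBall (0 : E d) δ)) :=
    hm.integrable one_le_two
  have hm2 : MemLp (fun z => h (x + z) - h x) 2
      ((volume : Measure (E d)).restrict (Metric.closedBall (0 : E d) δ)) :=
    hm.sub (memLp_const _)
  have h1 : ∫ z in Metric.closedBall (0 : E d) δ, (h (x + z) - h x) =
      (∫ z in Metric.closedBall (0 : E d) δ, h (x + z)) - c * h x := by
    rw [integral_sub hi (integrable_const _)]
    simp [hc]
  have h2 := riesz_cs _ _ (hm2.integrable one_le_two) hm2.integrable_sq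
  rw [h1, measureReal_restrict_apply_univ, ← hc] at h2
  nlinarith [h2, sq_nonneg ((∫ z in Metric.closedBall (0 : E d) δ, h (x + z)) * 2 - c * h x)]

/-- the integrated estimate -/
theorem riesz_integrated (h : Lp ℝ 2 (volume : Measure (E d))) (δ η R : ℝ) (hδ : 0 < δ)
    (hη : ∀ z : E d, ‖z‖ ≤ δ → ∫ x, (h (x + z) - h x) ^ 2 ≤ η) :
    ENNReal.ofReal (∫ x in Metric.closedBall (0 : E d) R, h x ^ 2) ≤
      ENNReal.ofReal (2 * η) +
      ENNReal.ofReal (2 / ((volume : Measure (E d)).real (Metric.closedBall 0 δ)) ^ 2) *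
        ∫⁻ x in Metric.closedBall (0 : E d) R,
          ENNReal.ofReal ((∫ z in Metric.closedBall (0 : E d) δ, h (x + z)) ^ 2) := by
  set c := (volume : Measure (E d)).real (Metric.closedBall 0 δ) with hc
  have hcpos : 0 < c := by
    rw [hc, Measure.real, ENNReal.toReal_pos_iff]
    exact ⟨Metric.measure_closedBall_pos _ _ hδ, measure_closedBall_lt_top⟩
  have hmeas : Measurable (fun p : E d × E d => ENNReal.ofReal ((h (p.1 + p.2) - h p.1) ^ 2)) := by
    have hm : Measurable (h : E d → ℝ) := (Lp.stronglyMeasurable h).measurable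
    fun_prop
  have hint : ∀ z : E d, Integrable (fun x => (h (x + z) - h x) ^ 2) := fun z =>
    ((riesz_memLp_shift h z).sub (Lp.memLp h)).integrable_sq
  have hη0 : 0 ≤ η := (integral_nonneg fun x => sq_nonneg _).trans (hη 0 (by simpa using hδ.le))
  have hp : ∀ x : E d, ENNReal.ofReal (h x ^ 2) ≤
      ENNReal.ofReal (2 / c) * (∫⁻ z in Metric.closedBall (0 : E d) δ,
        ENNReal.ofReal ((h (x + z) - h x) ^ 2)) +
      ENNReal.ofReal (2 / c ^ 2) *
        ENNReal.ofReal ((∫ z in Metric.closedBall (0 : E d) δ, h (x + z)) ^ 2) := by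
    intro x
    have h1 := riesz_pointwise h δ x
    rw [← hc] at h1
    have hfin : IsFiniteMeasure ((volume : Measure (E d)).restrict (Metric.closedBall (0 : E d) δ)) :=
      ⟨by rw [Measure.restrict_apply_univ]; exact measure_closedBall_lt_top⟩
    have hm2 : MemLp (fun z => h (x + z) - h x) 2
        ((volume : Measure (E d)).restrict (Metric.closedBall (0 : E d) δ)) :=
      ((riesz_memLp_shift' h x).restrict _).sub (memLp_const _)
    rw [← ofReal_integral_eq_lintegral_ofReal hm2.integrable_sq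
      (Eventually.of_forall fun z => sq_nonneg _), ← ENNReal.ofReal_mul (by positivity),
      ← ENNReal.ofReal_mul (by positivity), ← ENNReal.ofReal_add
      (mul_nonneg (by positivity) (integral_nonneg fun z => sq_nonneg _)) (by positivity)]
    refine ENNReal.ofReal_le_ofReal ?_
    have h2 : h x ^ 2 = (c ^ 2 * h x ^ 2) / c ^ 2 := by field_simp
    rw [h2, div_le_iff₀ (by positivity)]
    refine h1.trans (le_of_eq ?_)
    field_simp
  have hswap : ∫⁻ x : E d, ∫⁻ z in Metric.closedBall (0 : E d) δ,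
      ENNReal.ofReal ((h (x + z) - h x) ^ 2) ≤ ENNReal.ofReal (c * η) := by
    rw [lintegral_lintegral_swap hmeas.aemeasurable]
    calc ∫⁻ z in Metric.closedBall (0 : E d) δ, ∫⁻ x : E d, ENNReal.ofReal ((h (x + z) - h x) ^ 2)
        ≤ ∫⁻ z in Metric.closedBall (0 : E d) δ, ENNReal.ofReal η := by
          refine setLIntegral_mono' Metric.isClosed_closedBall.measurableSet fun z hz => ?_
          rw [← ofReal_integral_eq_lintegral_ofReal (hint z)
            (Eventually.of_forall fun z => sq_nonneg _)]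
          refine ENNReal.ofReal_le_ofReal (hη z ?_)
          simpa using hz
      _ = ENNReal.ofReal (c * η) := by
          rw [setLIntegral_const, mul_comm, ENNReal.ofReal_mul hcpos.le, hc, Measure.real,
            ENNReal.ofReal_toReal measure_closedBall_lt_top.ne]
  rw [ofReal_integral_eq_lintegral_ofReal (Lp.memLp h).integrable_sq.integrableOn
    (Eventually.of_forall fun z => sq_nonneg _)]
  have hmeas1 : Measurable fun x : E d => ∫⁻ z in Metric.closedBall (0 : E d) δ,
      ENNReal.ofReal ((h (x + z) - h x) ^ 2) := hmeas.lintegral_prod_right'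
  calc ∫⁻ x in Metric.closedBall (0 : E d) R, ENNReal.ofReal (h x ^ 2)
      ≤ ∫⁻ x in Metric.closedBall (0 : E d) R, (ENNReal.ofReal (2 / c) *
        (∫⁻ z in Metric.closedBall (0 : E d) δ, ENNReal.ofReal ((h (x + z) - h x) ^ 2)) +
        ENNReal.ofReal (2 / c ^ 2) *
          ENNReal.ofReal ((∫ z in Metric.closedBall (0 : E d) δ, h (x + z)) ^ 2)) :=
        lintegral_mono fun x => hp x
    _ = ENNReal.ofReal (2 / c) * (∫⁻ x in Metric.closedBall (0 : E d) R,
          ∫⁻ z in Metric.closedBall (0 : E d) δ, ENNReal.ofReal ((h (x + z) - h x) ^ 2)) +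
        ENNReal.ofReal (2 / c ^ 2) * ∫⁻ x in Metric.closedBall (0 : E d) R,
          ENNReal.ofReal ((∫ z in Metric.closedBall (0 : E d) δ, h (x + z)) ^ 2) := by
        rw [lintegral_add_left (hmeas1.const_mul _), lintegral_const_mul _ hmeas1,
          lintegral_const_mul' _ _ ENNReal.ofReal_ne_top]
    _ ≤ ENNReal.ofReal (2 / c) * ENNReal.ofReal (c * η) +
        ENNReal.ofReal (2 / c ^ 2) * ∫⁻ x in Metric.closedBall (0 : E d) R,
          ENNReal.ofReal ((∫ z in Metric.closedBall (0 : E d) δ, h (x + z)) ^ 2) := by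
        gcongr
        exact (setLIntegral_le_lintegral _ _).trans hswap
    _ = _ := by
        rw [← ENNReal.ofReal_mul (by positivity)]
        congr 2
        field_simp

/-- the averages of a bounded weakly Cauchy sequence are Cauchy in `L²` of a ball -/
theorem riesz_avg_tendsto (g : ℕ → Lp ℝ 2 (volume : Measure (E d))) (B : ℝ)
    (hB : ∀ n, ‖g n‖ ≤ B) (hg : ∀ φ, CauchySeq (fun n => inner ℝ φ (g n))) (δ R : ℝ) :
    Tendsto (fun p : ℕ × ℕ => ∫⁻ x in Metric.closedBall (0 : E d) R,
      ENNReal.ofReal ((∫ z in Metric.closedBall (0 : E d) δ, (g p.1 - g p.2 : Lp ℝ 2 volume) (x + z)) ^ 2))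
      atTop (𝓝 0) := by
  set c := (volume : Measure (E d)).real (Metric.closedBall 0 δ) with hc
  have hlim := tendsto_lintegral_filter_of_dominated_convergence
    (μ := (volume : Measure (E d)).restrict (Metric.closedBall (0 : E d) R))
    (l := (atTop : Filter (ℕ × ℕ)))
    (F := fun p x => ENNReal.ofReal ((∫ z in Metric.closedBall (0 : E d) δ,
      (g p.1 - g p.2 : Lp ℝ 2 volume) (x + z)) ^ 2))
    (f := fun _ => 0)
    (fun _ => ENNReal.ofReal (c * (2 * B) ^ 2)) ?_ ?_ ?_ ?_
  · simpa using hlim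
  · refine Eventually.of_forall fun p => ?_
    have hm : StronglyMeasurable (fun q : E d × E d => (g p.1 - g p.2 : Lp ℝ 2 volume) (q.1 + q.2)) :=
      (Lp.stronglyMeasurable (g p.1 - g p.2)).comp_measurable (by fun_prop)
    have hm2 := hm.integral_prod_right'
      (ν := (volume : Measure (E d)).restrict (Metric.closedBall (0 : E d) δ))
    have hm3 := hm2.measurable
    fun_prop
  · refine Eventually.of_forall fun p => Eventually.of_forall fun x => ?_
    refine ENNReal.ofReal_le_ofReal ?_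
    rw [riesz_avg]
    have h1 := abs_real_inner_le_norm (indicatorConstLp 2 (μ := (volume : Measure (E d)))
        (Metric.isClosed_closedBall (x := x) (ε := δ)).measurableSet
        (measure_closedBall_lt_top).ne (1 : ℝ)) (g p.1 - g p.2)
    have h2 : ‖indicatorConstLp 2 (μ := (volume : Measure (E d)))
        (Metric.isClosed_closedBall (x := x) (ε := δ)).measurableSet
        (measure_closedBall_lt_top).ne (1 : ℝ)‖ ^ 2 = c := by
      rw [← real_inner_self_eq_norm_sq,
        L2.real_inner_indicatorConstLp_one_indicatorConstLp_one _ _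
          measure_closedBall_lt_top.ne measure_closedBall_lt_top.ne,
        inter_self, hc, Measure.real, Measure.real, Measure.addHaar_closedBall_center]
    have h3 : ‖g p.1 - g p.2‖ ≤ 2 * B := by
      refine (norm_sub_le _ _).trans ?_
      linarith [hB p.1, hB p.2]
    rw [← sq_abs, ← h2, ← mul_pow]
    refine pow_le_pow_left₀ (abs_nonneg _) (h1.trans ?_) 2
    exact mul_le_mul_of_nonneg_left h3 (norm_nonneg _)
  · rw [lintegral_const, Measure.restrict_apply_univ]
    exact ENNReal.mul_ne_top ENNReal.ofReal_ne_top measure_closedBall_lt_top.ne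
  · refine Eventually.of_forall fun x => ?_
    have h1 : Tendsto (fun p : ℕ × ℕ => (∫ z in Metric.closedBall (0 : E d) δ,
        (g p.1 - g p.2 : Lp ℝ 2 volume) (x + z))) atTop (𝓝 0) := by
      simp only [riesz_avg, inner_sub_right]
      have h2 := cauchySeq_iff_tendsto_dist_atTop_0.mp (hg (indicatorConstLp 2
        (μ := (volume : Measure (E d)))
        (Metric.isClosed_closedBall (x := x) (ε := δ)).measurableSet
        (measure_closedBall_lt_top).ne (1 : ℝ)))
      rw [tendsto_zero_iff_abs_tendsto_zero]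
      exact h2
    have h3 : Tendsto (fun p : ℕ × ℕ => ENNReal.ofReal ((∫ z in Metric.closedBall (0 : E d) δ,
        (g p.1 - g p.2 : Lp ℝ 2 volume) (x + z)) ^ 2)) atTop (𝓝 (ENNReal.ofReal (0 ^ 2))) :=
      ENNReal.tendsto_ofReal (h1.pow 2)
    simpa using h3

theorem kolmogorov_riesz (d : ℕ) (f : ℕ → Lp ℝ 2 (volume : Measure (E d))) (B : ℝ)
    (hB : ∀ n, ‖f n‖ ≤ B)
    (heq : ∀ η > 0, ∃ δ > 0, ∀ n, ∀ z : E d, ‖z‖ ≤ δ → ∫ x, (f n (x + z) - f n x) ^ 2 ≤ η)
    (htight : ∀ η > 0, ∃ R : ℝ, ∀ n, ∫ x in (Metric.closedBall 0 R)ᶜ, (f n x) ^ 2 ≤ η) :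
    ∃ σ : ℕ → ℕ, StrictMono σ ∧ ∃ g, Tendsto (fun n => f (σ n)) atTop (𝓝 g) := by
  have : Fact ((2 : ℝ≥0∞) ≠ ⊤) := ⟨by norm_num⟩
  obtain ⟨σ, hσ, hw⟩ := riesz_weak f B hB
  refine ⟨σ, hσ, ?_⟩
  suffices h : CauchySeq (fun n => f (σ n)) from cauchySeq_tendsto_of_complete h
  rw [cauchySeq_iff_tendsto_dist_atTop_0]
  -- enough to show that the squares of the norms tend to zero
  have key : Tendsto (fun p : ℕ × ℕ => ‖f (σ p.1) - f (σ p.2)‖ ^ 2) atTop (𝓝 0) := by
    have hsum : ∀ (n m : ℕ) (z : E d) (η : ℝ), ∫ x, (f n (x + z) - f n x) ^ 2 ≤ η →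
        ∫ x, (f m (x + z) - f m x) ^ 2 ≤ η →
        ∫ x, ((f n - f m : Lp ℝ 2 volume) (x + z) - (f n - f m : Lp ℝ 2 volume) x) ^ 2 ≤ 4 * η := by
      intro n m z η h1 h2
      have hae : ∀ᵐ x : E d, (f n - f m : Lp ℝ 2 volume) x = f n x - f m x :=
        Lp.coeFn_sub (f n) (f m)
      have hae' : ∀ᵐ x : E d, (f n - f m : Lp ℝ 2 volume) (x + z) = f n (x + z) - f m (x + z) :=
        (measurePreserving_add_right volume z).quasiMeasurePreserving.ae hae
      have i1 : Integrable (fun x => (f n (x + z) - f n x) ^ 2) :=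
        ((riesz_memLp_shift (f n) z).sub (Lp.memLp _)).integrable_sq
      have i2 : Integrable (fun x => (f m (x + z) - f m x) ^ 2) :=
        ((riesz_memLp_shift (f m) z).sub (Lp.memLp _)).integrable_sq
      have i3 : Integrable (fun x => ((f n - f m : Lp ℝ 2 volume) (x + z) -
          (f n - f m : Lp ℝ 2 volume) x) ^ 2) :=
        ((riesz_memLp_shift _ z).sub (Lp.memLp _)).integrable_sq
      calc ∫ x, ((f n - f m : Lp ℝ 2 volume) (x + z) - (f n - f m : Lp ℝ 2 volume) x) ^ 2
          ≤ ∫ x, (2 * (f n (x + z) - f n x) ^ 2 + 2 * (f m (x + z) - f m x) ^ 2) := by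
            refine integral_mono_ae i3 ((i1.const_mul 2).add (i2.const_mul 2)) ?_
            filter_upwards [hae, hae'] with x h3 h4
            rw [h3, h4]
            nlinarith [sq_nonneg ((f n (x + z) - f n x) + (f m (x + z) - f m x))]
        _ = 2 * (∫ x, (f n (x + z) - f n x) ^ 2) + 2 * ∫ x, (f m (x + z) - f m x) ^ 2 := by
            rw [integral_add (i1.const_mul 2) (i2.const_mul 2), integral_const_mul,
              integral_const_mul]
        _ ≤ 4 * η := by linarith
    have hsum2 : ∀ (n m : ℕ) (R η : ℝ), ∫ x in (Metric.closedBall (0 : E d) R)ᶜ, (f n x) ^ 2 ≤ η →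
        ∫ x in (Metric.closedBall (0 : E d) R)ᶜ, (f m x) ^ 2 ≤ η →
        ∫ x in (Metric.closedBall (0 : E d) R)ᶜ, ((f n - f m : Lp ℝ 2 volume) x) ^ 2 ≤ 4 * η := by
      intro n m R η h1 h2
      have hae : ∀ᵐ x ∂(volume.restrict (Metric.closedBall (0 : E d) R)ᶜ),
          (f n - f m : Lp ℝ 2 volume) x = f n x - f m x :=
        ae_restrict_of_ae (Lp.coeFn_sub (f n) (f m))
      have i1 : IntegrableOn (fun x => (f n x) ^ 2) (Metric.closedBall (0 : E d) R)ᶜ :=
        (Lp.memLp (f n)).integrable_sq.integrableOn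
      have i2 : IntegrableOn (fun x => (f m x) ^ 2) (Metric.closedBall (0 : E d) R)ᶜ :=
        (Lp.memLp (f m)).integrable_sq.integrableOn
      have i3 : IntegrableOn (fun x => ((f n - f m : Lp ℝ 2 volume) x) ^ 2)
          (Metric.closedBall (0 : E d) R)ᶜ := (Lp.memLp _).integrable_sq.integrableOn
      calc ∫ x in (Metric.closedBall (0 : E d) R)ᶜ, ((f n - f m : Lp ℝ 2 volume) x) ^ 2
          ≤ ∫ x in (Metric.closedBall (0 : E d) R)ᶜ, (2 * (f n x) ^ 2 + 2 * (f m x) ^ 2) := by
            refine integral_mono_ae i3 ((i1.const_mul 2).add (i2.const_mul 2)) ?_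
            filter_upwards [hae] with x h3
            rw [h3]
            nlinarith [sq_nonneg (f n x + f m x)]
        _ = 2 * (∫ x in (Metric.closedBall (0 : E d) R)ᶜ, (f n x) ^ 2) +
              2 * ∫ x in (Metric.closedBall (0 : E d) R)ᶜ, (f m x) ^ 2 := by
            rw [integral_add (i1.const_mul 2) (i2.const_mul 2), integral_const_mul,
              integral_const_mul]
        _ ≤ 4 * η := by linarith
    rw [Metric.tendsto_nhds]
    intro ε hε
    obtain ⟨δ, hδ, hδ'⟩ := heq (ε / 32) (by positivity)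
    obtain ⟨R, hR⟩ := htight (ε / 32) (by positivity)
    have hlim := riesz_avg_tendsto (fun n => f (σ n)) B (fun n => hB _) hw δ R
    set c := (volume : Measure (E d)).real (Metric.closedBall 0 δ) with hc
    have hlim2 := ENNReal.Tendsto.const_mul (a := ENNReal.ofReal (2 / c ^ 2)) hlim
      (Or.inr ENNReal.ofReal_ne_top)
    rw [mul_zero] at hlim2
    have hev := hlim2.eventually_lt_const (show (0 : ℝ≥0∞) < ENNReal.ofReal (ε / 4) by
      rw [ENNReal.ofReal_pos]; positivity)
    filter_upwards [hev] with p hp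
    have h1 := riesz_integrated (f (σ p.1) - f (σ p.2)) δ (4 * (ε / 32)) R hδ
      (fun z hz => hsum _ _ z _ (hδ' _ z hz) (hδ' _ z hz))
    have h2 := hsum2 (σ p.1) (σ p.2) R (ε / 32) (hR _) (hR _)
    have h3 : ENNReal.ofReal (∫ x in Metric.closedBall (0 : E d) R,
        (f (σ p.1) - f (σ p.2) : Lp ℝ 2 volume) x ^ 2) ≤ ENNReal.ofReal (ε / 4 + ε / 4) := by
      rw [ENNReal.ofReal_add (by positivity) (by positivity)]
      refine h1.trans (add_le_add (le_of_eq (by congr 1; ring)) hp.le)
    rw [ENNReal.ofReal_le_ofReal_iff (by positivity)] at h3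
    have h4 : ‖f (σ p.1) - f (σ p.2)‖ ^ 2 =
        (∫ x in Metric.closedBall (0 : E d) R, (f (σ p.1) - f (σ p.2) : Lp ℝ 2 volume) x ^ 2) +
        ∫ x in (Metric.closedBall (0 : E d) R)ᶜ, (f (σ p.1) - f (σ p.2) : Lp ℝ 2 volume) x ^ 2 := by
      rw [riesz_norm_sq, integral_add_compl Metric.isClosed_closedBall.measurableSet
        (Lp.memLp _).integrable_sq]
    rw [Real.dist_eq, sub_zero, abs_of_nonneg (sq_nonneg _), h4]
    linarith
  have h5 : Tendsto (fun p : ℕ × ℕ => Real.sqrt (‖f (σ p.1) - f (σ p.2)‖ ^ 2)) atTop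
      (𝓝 (Real.sqrt 0)) := (Real.continuous_sqrt.tendsto 0).comp key
  rw [Real.sqrt_zero] at h5
  refine h5.congr fun p => ?_
  rw [Real.sqrt_sq (norm_nonneg _), dist_eq_norm]

end Pool.Agent.Lib.Buck
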