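import Pool.Agent.Lib.MP_17201e_an.Defs
import Pool.Agent.Lib.MP_17201e_an.Jet
import Pool.Agent.Lib.MP_17201e_an.Mult
import Pool.Agent.Lib.MP_17201e_an.Cutoff
import Pool.Agent.Lib.MP_17201e_an.Trans
import Pool.Agent.Lib.MP_17201e_an.FaberKrahn
import Pool.Agent.Lib.MP_17201e_an.Riesz

/-!
# Compactness of the embedding of `X A` into `H¹` for sets `A` of finite measure
-/

set_option autoImplicit false

open MeasureTheory Set Filter Topology
open scoped ENNReal ContDiff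

namespace Pool.Agent.Lib.Buck

/-- components are bounded by the norm -/
theorem compactX_comp_le {d : ℕ} (w : HS d) (k : Idx d) : ‖w k‖ ≤ ‖w‖ :=
  PiLp.norm_apply_le w k

theorem compactX_norm_le3 {d : ℕ} (f g₀ g₁ g₂ g₃ : Lp ℝ 2 (volume : Measure (E d)))
    {a b c e : ℝ} (ha : 0 ≤ a) (hb : 0 ≤ b) (hc : 0 ≤ c) (he : 0 ≤ e)
    (h : ∀ᵐ x, |f x| ≤ a * |g₀ x| + b * |g₁ x| + c * |g₂ x| + e * |g₃ x|) :
    ‖f‖ ≤ a * ‖g₀‖ + b * ‖g₁‖ + c * ‖g₂‖ + e * ‖g₃‖ := by
  have h1 : ‖f‖ ≤ ‖a • |g₀| + b • |g₁| + c • |g₂| + e • |g₃|‖ := by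
    apply Lp.norm_le_norm_of_ae_le
    filter_upwards [h, Lp.coeFn_add (a • |g₀| + b • |g₁| + c • |g₂|) (e • |g₃|),
      Lp.coeFn_add (a • |g₀| + b • |g₁|) (c • |g₂|), Lp.coeFn_add (a • |g₀|) (b • |g₁|),
      Lp.coeFn_smul a |g₀|, Lp.coeFn_smul b |g₁|, Lp.coeFn_smul c |g₂|, Lp.coeFn_smul e |g₃|,
      Lp.coeFn_abs g₀, Lp.coeFn_abs g₁, Lp.coeFn_abs g₂, Lp.coeFn_abs g₃]
      with x h0 h1 h2 h3 h4 h5 h6 h7 h8 h9 h10 h11
    rw [h1, Pi.add_apply, h2, Pi.add_apply, h3, Pi.add_apply, h4, h5, h6, h7, Pi.smul_apply,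
      Pi.smul_apply, Pi.smul_apply, Pi.smul_apply, h8, h9, h10, h11, Real.norm_eq_abs,
      Real.norm_eq_abs]
    simp only [smul_eq_mul]
    refine h0.trans (le_abs_self _)
  refine h1.trans ?_
  have h2 : ∀ (t : ℝ) (g : Lp ℝ 2 (volume : Measure (E d))), 0 ≤ t → ‖t • |g|‖ = t * ‖g‖ := by
    intro t g ht
    rw [norm_smul, norm_abs_eq_norm, Real.norm_eq_abs, abs_of_nonneg ht]
  rw [← h2 a g₀ ha, ← h2 b g₁ hb, ← h2 c g₂ hc, ← h2 e g₃ he]
  exact (norm_add_le _ _).trans (add_le_add_left ((norm_add_le _ _).trans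
    (add_le_add_left (norm_add_le _ _) _)) _)

/-- uniform bound for multiplication of jets -/
theorem compactX_mul_bound {d : ℕ} {ψ : E d → ℝ} {K₀ K₁ K₂ : ℝ} (h : BC ψ K₀ K₁ K₂)
    (hK₀ : 0 ≤ K₀) (hK₁ : 0 ≤ K₁) (hK₂ : 0 ≤ K₂) (w : HS d) (k : Idx d) :
    ‖(mulJ ψ w) k‖ ≤ (K₀ + 2 * K₁ + K₂) * ‖w‖ := by
  have hspec := mulJ_spec h w k
  have hb : ∀ (c : ℝ) (K : ℝ) (y : ℝ), |c| ≤ K → |c * y| ≤ K * |y| := by
    intro c K y hc
    rw [abs_mul]; gcongr
  have hw : ∀ k, ‖w k‖ ≤ ‖w‖ := compactX_comp_le w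
  rcases k with _ | i | ⟨i, j⟩
  · have h1 := compactX_norm_le3 ((mulJ ψ w) none) (w none) (w none) (w none) (w none)
      hK₀ le_rfl le_rfl le_rfl (by
        filter_upwards [hspec] with x hx
        rw [hx]
        simp only [mulComp]
        have := hb (ψ x) K₀ (w none x) (h.b0 x)
        linarith)
    have h2 := mul_le_mul_of_nonneg_left (hw none) hK₀
    have h3 := norm_nonneg w
    nlinarith [mul_nonneg hK₁ h3, mul_nonneg hK₂ h3]
  · have h1 := compactX_norm_le3 ((mulJ ψ w) (some (Sum.inl i))) (w (some (Sum.inl i)))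
      (w none) (w none) (w none) hK₀ hK₁ le_rfl le_rfl (by
        filter_upwards [hspec] with x hx
        rw [hx]
        simp only [mulComp]
        have h1 := hb (ψ x) K₀ (w (some (Sum.inl i)) x) (h.b0 x)
        have h2 := hb (pd i ψ x) K₁ (w none x) (h.b1 i x)
        have h3 := abs_add_le (ψ x * w (some (Sum.inl i)) x) (pd i ψ x * w none x)
        linarith)
    have h2 := mul_le_mul_of_nonneg_left (hw (some (Sum.inl i))) hK₀
    have h2' := mul_le_mul_of_nonneg_left (hw none) hK₁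
    have h3 := norm_nonneg w
    nlinarith [mul_nonneg hK₁ h3, mul_nonneg hK₂ h3]
  · have h1 := compactX_norm_le3 ((mulJ ψ w) (some (Sum.inr (i, j)))) (w (some (Sum.inr (i, j))))
      (w (some (Sum.inl j))) (w (some (Sum.inl i))) (w none) hK₀ hK₁ hK₁ hK₂ (by
        filter_upwards [hspec] with x hx
        rw [hx]
        simp only [mulComp]
        have h1 := hb (ψ x) K₀ (w (some (Sum.inr (i, j))) x) (h.b0 x)
        have h2 := hb (pd i ψ x) K₁ (w (some (Sum.inl j)) x) (h.b1 i x)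
        have h3 := hb (pd j ψ x) K₁ (w (some (Sum.inl i)) x) (h.b1 j x)
        have h4 := hb (pd i (pd j ψ) x) K₂ (w none x) (h.b2 i j x)
        have h5 := abs_add_le (ψ x * w (some (Sum.inr (i, j))) x
          + pd i ψ x * w (some (Sum.inl j)) x + pd j ψ x * w (some (Sum.inl i)) x)
          (pd i (pd j ψ) x * w none x)
        have h6 := abs_add_le (ψ x * w (some (Sum.inr (i, j))) x
          + pd i ψ x * w (some (Sum.inl j)) x) (pd j ψ x * w (some (Sum.inl i)) x)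
        have h7 := abs_add_le (ψ x * w (some (Sum.inr (i, j))) x)
          (pd i ψ x * w (some (Sum.inl j)) x)
        linarith)
    have h2 := mul_le_mul_of_nonneg_left (hw (some (Sum.inr (i, j)))) hK₀
    have h3 := mul_le_mul_of_nonneg_left (hw (some (Sum.inl j))) hK₁
    have h4 := mul_le_mul_of_nonneg_left (hw (some (Sum.inl i))) hK₁
    have h5 := mul_le_mul_of_nonneg_left (hw none) hK₂
    nlinarith

theorem compactX_qb_le {d : ℕ} (w : HS d) {K : ℝ} (h : ∀ k, ‖w k‖ ≤ K) :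
    qb w ≤ d * K ^ 2 := by
  unfold qb
  calc ∑ i, ‖w (some (Sum.inl i))‖ ^ 2 ≤ ∑ _i : Fin d, K ^ 2 :=
        Finset.sum_le_sum fun i _ => by
          have h1 := h (some (Sum.inl i))
          gcongr
    _ = d * K ^ 2 := by simp

theorem compactX_qh_le {d : ℕ} (w : HS d) {K : ℝ} (h : ∀ k, ‖w k‖ ≤ K) :
    qh w ≤ d * (d * K ^ 2) := by
  unfold qh
  calc ∑ i, ∑ j, ‖w (some (Sum.inr (i, j)))‖ ^ 2 ≤ ∑ _i : Fin d, ∑ _j : Fin d, K ^ 2 :=
        Finset.sum_le_sum fun i _ => Finset.sum_le_sum fun j _ => by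
          gcongr
          exact h _
    _ = d * (d * K ^ 2) := by simp

/-- the measure of the part of `A` outside of large balls tends to zero -/
theorem compactX_tail {d : ℕ} {A : Set (E d)} (hA : MeasurableSet A) (hA' : volume A < ⊤) :
    Tendsto (fun n : ℕ => (volume (A \ Metric.closedBall 0 (n : ℝ))).toReal) atTop (𝓝 0) := by
  have h1 : Tendsto (fun n : ℕ => volume (A \ Metric.closedBall 0 (n : ℝ))) atTop
      (𝓝 (volume (⋂ n : ℕ, A \ Metric.closedBall 0 (n : ℝ)))) := by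
    apply tendsto_measure_iInter_atTop
    · intro n
      exact (hA.diff Metric.isClosed_closedBall.measurableSet).nullMeasurableSet
    · intro m n hmn
      refine sdiff_subset_sdiff_right (Metric.closedBall_subset_closedBall ?_)
      exact_mod_cast hmn
    · exact ⟨0, (lt_of_le_of_lt (measure_mono sdiff_subset) hA').ne⟩
  have h2 : (⋂ n : ℕ, A \ Metric.closedBall (0 : E d) (n : ℝ)) = ∅ := by
    rw [eq_empty_iff_forall_notMem]
    intro x hx
    obtain ⟨n, hn⟩ := exists_nat_ge ‖x‖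
    have := mem_iInter.mp hx n
    apply this.2
    simpa using hn
  rw [h2, measure_empty] at h1
  exact (ENNReal.tendsto_toReal ENNReal.zero_ne_top).comp h1

/-- Tightness of the functions and of their first derivatives. -/
theorem compactX_tight {d : ℕ} (hd : 1 ≤ d) {A : Set (E d)} (hA : MeasurableSet A)
    (hA' : volume A < ⊤) (B : ℝ) (η : ℝ) (hη : 0 < η) : ∃ R : ℝ, ∀ w ∈ X A, ‖w‖ ≤ B →
      ∫ x in (Metric.closedBall (0 : E d) R)ᶜ, (w none x) ^ 2 ≤ η ∧
      ∀ i, ∫ x in (Metric.closedBall (0 : E d) R)ᶜ, (w (some (Sum.inl i)) x) ^ 2 ≤ η := by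
  obtain ⟨C, hC, hcut⟩ := exists_cutoff d hd
  obtain ⟨C', hC', hfk⟩ := faber_krahn d hd
  set κ : ℝ := (1 + 1) + 2 * (C / 1) + C / 1 ^ 2 with hκ
  have hκ0 : 0 ≤ κ := by positivity
  -- choose `R`
  have h2d : (0 : ℝ) < 2 / d := by
    have : (0 : ℝ) < d := by exact_mod_cast hd
    positivity
  have hlim : Tendsto (fun n : ℕ => C' * (volume (A \ Metric.closedBall 0 (n : ℝ))).toReal ^
      (2 / d : ℝ) * (d * (d * (κ * B) ^ 2) + d * (κ * B) ^ 2)) atTop (𝓝 0) := by
    have h1 := (compactX_tail hA hA').rpow_const (p := (2 / d : ℝ)) (Or.inr h2d.le)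
    rw [Real.zero_rpow h2d.ne'] at h1
    have h2 := (h1.const_mul C').mul_const (d * (d * (κ * B) ^ 2) + d * (κ * B) ^ 2)
    simpa using h2
  obtain ⟨n, hn⟩ := (hlim.eventually (gt_mem_nhds hη)).exists
  obtain ⟨ψ, hψ, hψ0, hψ1, hψs⟩ := hcut (Metric.closedBall 0 (n : ℝ)) 1 one_pos
  have hφ := hψ.one_sub
  set φ : E d → ℝ := fun x => 1 - ψ x with hφdef
  refine ⟨n + 1, fun w hw hwB => ?_⟩
  have hB0 : 0 ≤ B := (norm_nonneg _).trans hwB
  -- `φ w` lives in `A \ closedBall 0 n`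
  have hsupp : tsupport φ ∩ A ⊆ A \ Metric.closedBall 0 (n : ℝ) := by
    rintro x ⟨hx, hxA⟩
    refine ⟨hxA, fun hxn => ?_⟩
    have h1 : x ∈ Metric.thickening ((1 : ℝ) / 4) (Metric.closedBall (0 : E d) (n : ℝ)) :=
      Metric.self_subset_thickening (by norm_num) _ hxn
    have h2 : φ =ᶠ[𝓝 x] 0 := by
      filter_upwards [Metric.isOpen_thickening.mem_nhds h1] with y hy
      simp [hφdef, hψ1 y hy]
    exact (notMem_tsupport_iff_eventuallyEq.mpr h2) hx
  have hmem : mulJ φ w ∈ X (A \ Metric.closedBall 0 (n : ℝ)) := mulJ_mem_X hφ hsupp hw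
  have hmeas : MeasurableSet (A \ Metric.closedBall (0 : E d) (n : ℝ)) :=
    hA.diff Metric.isClosed_closedBall.measurableSet
  have hfin : volume (A \ Metric.closedBall (0 : E d) (n : ℝ)) < ⊤ :=
    lt_of_le_of_lt (measure_mono sdiff_subset) hA'
  obtain ⟨hfk1, hfk2⟩ := hfk _ hmeas hfin _ hmem
  have hbd : ∀ k, ‖(mulJ φ w) k‖ ≤ κ * B := by
    intro k
    refine (compactX_mul_bound hφ (by norm_num) (by positivity) (by positivity) w k).trans ?_
    exact mul_le_mul_of_nonneg_left hwB hκ0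
  have hqb := compactX_qb_le (mulJ φ w) hbd
  have hqh := compactX_qh_le (mulJ φ w) hbd
  set v : ℝ := (volume (A \ Metric.closedBall (0 : E d) (n : ℝ))).toReal ^ (2 / d : ℝ) with hv
  have hv0 : 0 ≤ v := Real.rpow_nonneg ENNReal.toReal_nonneg _
  have hCv : 0 ≤ C' * v := by positivity
  have hQ1 : 0 ≤ (d : ℝ) * (κ * B) ^ 2 := by positivity
  have hQ2 : 0 ≤ (d : ℝ) * (d * (κ * B) ^ 2) := by positivity
  have e1 : ‖(mulJ φ w) none‖ ^ 2 ≤ η := by
    refine hfk1.trans (le_trans ?_ hn.le)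
    refine mul_le_mul_of_nonneg_left ?_ hCv
    linarith
  have e2 : ∀ i, ‖(mulJ φ w) (some (Sum.inl i))‖ ^ 2 ≤ η := by
    intro i
    have h1 : ‖(mulJ φ w) (some (Sum.inl i))‖ ^ 2 ≤ qb (mulJ φ w) := by
      unfold qb
      exact Finset.single_le_sum (f := fun i => ‖(mulJ φ w) (some (Sum.inl i))‖ ^ 2)
        (fun _ _ => sq_nonneg _) (Finset.mem_univ i)
    refine (h1.trans hfk2).trans (le_trans ?_ hn.le)
    refine mul_le_mul_of_nonneg_left ?_ hCv
    linarith
  -- outside of the ball of radius `n + 1` nothing changes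
  have hout : ∀ x ∈ (Metric.closedBall (0 : E d) ((n : ℝ) + 1))ᶜ, φ x = 1 ∧
      ∀ i, pd i φ x = 0 := by
    intro x hx
    have h1 : x ∉ tsupport ψ := by
      intro h
      have h2 := hψs h
      rw [Metric.mem_thickening_iff] at h2
      obtain ⟨y, hy, hxy⟩ := h2
      apply hx
      rw [mem_closedBall_zero_iff] at hy ⊢
      have h3 : ‖x‖ ≤ ‖y‖ + dist x y := by
        rw [dist_eq_norm]
        have := norm_add_le y (x - y)
        simpa using this
      linarith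
    have h2 : ψ =ᶠ[𝓝 x] 0 := notMem_tsupport_iff_eventuallyEq.mp h1
    constructor
    · simp only [hφdef]
      rw [h2.self_of_nhds]; simp
    · intro i
      have h3 : pd i φ x = - pd i ψ x := by rw [hφdef, mult_pd_one_sub]
      rw [h3, (mult_pd_zero h2 i).self_of_nhds]; simp
  have hSm : MeasurableSet (Metric.closedBall (0 : E d) ((n : ℝ) + 1))ᶜ :=
    Metric.isClosed_closedBall.measurableSet.compl
  have hfinal : ∀ k, (∀ᵐ x, x ∈ (Metric.closedBall (0 : E d) ((n : ℝ) + 1))ᶜ →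
      (mulJ φ w) k x = w k x) → ‖(mulJ φ w) k‖ ^ 2 ≤ η →
      ∫ x in (Metric.closedBall (0 : E d) ((n : ℝ) + 1))ᶜ, (w k x) ^ 2 ≤ η := by
    intro k hk1 hk2
    have h1 : ∫ x in (Metric.closedBall (0 : E d) ((n : ℝ) + 1))ᶜ, (w k x) ^ 2 =
        ∫ x in (Metric.closedBall (0 : E d) ((n : ℝ) + 1))ᶜ, ((mulJ φ w) k x) ^ 2 := by
      refine setIntegral_congr_ae hSm ?_
      filter_upwards [hk1] with x hx hxS
      rw [hx hxS]
    rw [h1]
    refine le_trans ?_ hk2
    rw [riesz_norm_sq]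
    exact setIntegral_le_integral (jet_integrable_sq (mulJ φ w) k)
      (Filter.Eventually.of_forall fun _ => sq_nonneg _)
  constructor
  · refine hfinal none ?_ e1
    filter_upwards [mulJ_spec hφ w none] with x hx hxS
    rw [hx]
    simp only [mulComp, (hout x hxS).1, one_mul]
  · intro i
    refine hfinal _ ?_ (e2 i)
    filter_upwards [mulJ_spec hφ w (some (Sum.inl i))] with x hx hxS
    rw [hx]
    simp only [mulComp, (hout x hxS).1, (hout x hxS).2, one_mul, zero_mul, add_zero]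

/-- simultaneous extraction of subsequences -/
theorem compactX_extract {ι : Type*} {Y : Type*} [TopologicalSpace Y] (s : Finset ι)
    (f : ι → ℕ → Y)
    (h : ∀ i ∈ s, ∀ τ : ℕ → ℕ, StrictMono τ → ∃ σ : ℕ → ℕ, StrictMono σ ∧
      ∃ g, Tendsto (fun n => f i (τ (σ n))) atTop (𝓝 g)) :
    ∃ σ : ℕ → ℕ, StrictMono σ ∧ ∀ i ∈ s, ∃ g, Tendsto (fun n => f i (σ n)) atTop (𝓝 g) := by
  classical
  induction s using Finset.induction_on with
  | empty => exact ⟨id, strictMono_id, fun i hi => absurd hi (Finset.notMem_empty i)⟩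
  | insert a s _ ih =>
    obtain ⟨τ, hτ, h1⟩ := ih fun i hi => h i (Finset.mem_insert_of_mem hi)
    obtain ⟨σ, hσ, g, hg⟩ := h a (Finset.mem_insert_self a s) τ hτ
    refine ⟨τ ∘ σ, hτ.comp hσ, fun i hi => ?_⟩
    rcases Finset.mem_insert.mp hi with rfl | hi
    · exact ⟨g, hg⟩
    · obtain ⟨g', hg'⟩ := h1 i hi
      exact ⟨g', hg'.comp hσ.tendsto_atTop⟩

theorem compact_X {d : ℕ} (hd : 1 ≤ d) {A : Set (E d)} (hA : MeasurableSet A) (hA' : volume A < ⊤)
    (w : ℕ → HS d) (hw : ∀ n, w n ∈ X A) (B : ℝ) (hB : ∀ n, ‖w n‖ ≤ B) :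
    ∃ σ : ℕ → ℕ, StrictMono σ ∧ (∃ g, Tendsto (fun n => w (σ n) none) atTop (𝓝 g)) ∧
      ∀ i, ∃ g, Tendsto (fun n => w (σ n) (some (Sum.inl i))) atTop (𝓝 g) := by
  have hB0 : 0 ≤ B := (norm_nonneg _).trans (hB 0)
  -- the index set
  let f : Option (Fin d) → ℕ → Lp ℝ 2 (volume : Measure (E d))
    | none => fun n => w n none
    | some i => fun n => w n (some (Sum.inl i))
  have hcomp : ∀ (n : ℕ) (k : Idx d), ‖w n k‖ ≤ B := fun n k =>
    (compactX_comp_le (w n) k).trans (hB n)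
  have hsum : ∀ (n : ℕ), (∑ i, ∫ x in (univ : Set (E d)), (w n (some (Sum.inl i)) x) ^ 2)
      ≤ d * B ^ 2 := by
    intro n
    have := compactX_qb_le (w n) (hcomp n)
    refine le_trans (le_of_eq ?_) this
    unfold qb
    refine Finset.sum_congr rfl fun i _ => ?_
    rw [setIntegral_univ, riesz_norm_sq]
  have hsum' : ∀ (n : ℕ) (j : Fin d),
      (∑ i, ∫ x in (univ : Set (E d)), (w n (some (Sum.inr (i, j))) x) ^ 2) ≤ d * B ^ 2 := by
    intro n j
    calc (∑ i, ∫ x in (univ : Set (E d)), (w n (some (Sum.inr (i, j))) x) ^ 2)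
        = ∑ i, ‖w n (some (Sum.inr (i, j)))‖ ^ 2 := by
          refine Finset.sum_congr rfl fun i _ => ?_
          rw [setIntegral_univ, riesz_norm_sq]
      _ ≤ ∑ _i : Fin d, B ^ 2 := Finset.sum_le_sum fun i _ => by
          gcongr
          exact hcomp n _
      _ = d * B ^ 2 := by simp
  have htr : ∀ (k : Option (Fin d)) (n : ℕ) (z : E d),
      ∫ x, (f k n (x + z) - f k n x) ^ 2 ≤ ‖z‖ ^ 2 * (d * B ^ 2) := by
    intro k n z
    have hz : 0 ≤ ‖z‖ ^ 2 := by positivity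
    rcases k with _ | j
    · have h1 := trans_u (hw n).1 z (A := univ) (A' := univ) MeasurableSet.univ
        MeasurableSet.univ (fun _ _ _ _ => mem_univ _)
      rw [setIntegral_univ] at h1
      exact h1.trans (mul_le_mul_of_nonneg_left (hsum n) hz)
    · have h1 := trans_g (hw n).1 z (A := univ) (A' := univ) MeasurableSet.univ
        MeasurableSet.univ (fun _ _ _ _ => mem_univ _) j
      rw [setIntegral_univ] at h1
      exact h1.trans (mul_le_mul_of_nonneg_left (hsum' n j) hz)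
  have hkey : ∀ k ∈ (Finset.univ : Finset (Option (Fin d))), ∀ τ : ℕ → ℕ, StrictMono τ →
      ∃ σ : ℕ → ℕ, StrictMono σ ∧ ∃ g, Tendsto (fun n => f k (τ (σ n))) atTop (𝓝 g) := by
    intro k _ τ _
    refine kolmogorov_riesz d (fun n => f k (τ n)) B ?_ ?_ ?_
    · intro n
      rcases k with _ | j
      · exact hcomp _ _
      · exact hcomp _ _
    · intro η hη
      have hD : 0 < (d : ℝ) * B ^ 2 + 1 := by positivity
      refine ⟨√(η / (d * B ^ 2 + 1)), Real.sqrt_pos.mpr (by positivity), fun n z hz => ?_⟩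
      refine (htr k (τ n) z).trans ?_
      have h1 : ‖z‖ ^ 2 ≤ η / (d * B ^ 2 + 1) := by
        calc ‖z‖ ^ 2 ≤ √(η / (d * B ^ 2 + 1)) ^ 2 := by gcongr
          _ = η / (d * B ^ 2 + 1) := Real.sq_sqrt (by positivity)
      calc ‖z‖ ^ 2 * (d * B ^ 2) ≤ (η / (d * B ^ 2 + 1)) * (d * B ^ 2 + 1) := by
            gcongr
            linarith
        _ = η := by field_simp
    · intro η hη
      obtain ⟨R, hR⟩ := compactX_tight hd hA hA' B η hη
      refine ⟨R, fun n => ?_⟩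
      have h1 := hR (w (τ n)) (hw _) (hB _)
      rcases k with _ | j
      · exact h1.1
      · exact h1.2 j
  obtain ⟨σ, hσ, h⟩ := compactX_extract Finset.univ f hkey
  exact ⟨σ, hσ, h none (Finset.mem_univ _), fun i => h (some i) (Finset.mem_univ _)⟩

end Pool.Agent.Lib.Buck
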