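import Pool.Agent.Lib.MP_17201e_an.Jet

/-!
# Module HL of `MP_17201e_an`

`∫ |D²u|² = ∫ (Δu)²` for `u ∈ H²(ℝ^d)`.
-/

set_option autoImplicit false

open MeasureTheory Set Filter Topology
open scoped ENNReal ContDiff

namespace Pool.Agent.Lib.Buck

variable {d : ℕ}

theorem hess_pd_smooth {φ : E d → ℝ} (h : ContDiff ℝ ∞ φ) (i : Fin d) : ContDiff ℝ ∞ (pd i φ) := by
  unfold pd
  exact (h.fderiv_right (m := ∞) (by simp)).clm_apply contDiff_const

theorem hess_pd_compact {φ : E d → ℝ} (h : HasCompactSupport φ) (i : Fin d) :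
    HasCompactSupport (pd i φ) :=
  h.fderiv_apply ℝ _

theorem hess_ibp {f g : E d → ℝ} (hf : ContDiff ℝ ∞ f) (hg : ContDiff ℝ ∞ g)
    (hfc : HasCompactSupport f) (i : Fin d) :
    ∫ x, f x * pd i g x = - ∫ x, pd i f x * g x := by
  have hfi : Continuous (pd i f) := (hess_pd_smooth hf i).continuous
  have hgi : Continuous (pd i g) := (hess_pd_smooth hg i).continuous
  refine integral_mul_fderiv_eq_neg_fderiv_mul_of_integrable ?_ ?_ ?_ ?_ ?_
  · exact (hfi.mul hg.continuous).integrable_of_hasCompactSupport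
      ((hess_pd_compact hfc i).mul_right)
  · exact (hf.continuous.mul hgi).integrable_of_hasCompactSupport hfc.mul_right
  · exact (hf.continuous.mul hg.continuous).integrable_of_hasCompactSupport hfc.mul_right
  · exact fun x _ => (hf.differentiable (by simp)).differentiableAt
  · exact fun x _ => (hg.differentiable (by simp)).differentiableAt

theorem hess_symm {φ : E d → ℝ} (h : ContDiff ℝ ∞ φ) (i j : Fin d) :
    pd i (pd j φ) = pd j (pd i φ) := by
  funext x
  have hd : Differentiable ℝ (fderiv ℝ φ) :=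
    (h.fderiv_right (m := ∞) (by simp)).differentiable (by simp)
  have key : ∀ u v : E d, fderiv ℝ (fun y => fderiv ℝ φ y u) x v =
      fderiv ℝ (fderiv ℝ φ) x v u := by
    intro u v
    rw [fderiv_clm_apply hd.differentiableAt (differentiableAt_const _)]
    simp
  unfold pd
  rw [key, key]
  have hs : IsSymmSndFDerivAt ℝ φ x :=
    (h.contDiffAt (x := x)).isSymmSndFDerivAt (by
      simp only [minSmoothness_of_isRCLikeNormedField]
      exact WithTop.coe_le_coe.2 (le_top : (2 : ℕ∞) ≤ ⊤))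
  exact hs _ _

theorem hess_test {φ : E d → ℝ} (h : ContDiff ℝ ∞ φ) (hc : HasCompactSupport φ) (i j : Fin d) :
    ∫ x, pd i (pd j φ) x * pd i (pd j φ) x = ∫ x, pd i (pd i φ) x * pd j (pd j φ) x := by
  have h1 := hess_ibp (hess_pd_smooth (hess_pd_smooth h j) i) (hess_pd_smooth h j)
    (hess_pd_compact (hess_pd_compact hc j) i) i
  have h2 := hess_ibp (hess_pd_smooth (hess_pd_smooth h i) i) (hess_pd_smooth h j)
    (hess_pd_compact (hess_pd_compact hc i) i) j
  have h3 : pd i (pd i (pd j φ)) = pd j (pd i (pd i φ)) := by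
    rw [hess_symm h i j, hess_symm (hess_pd_smooth h i) i j]
  rw [h1, h2, h3]

theorem hess_inner {f g : Lp ℝ 2 (volume : Measure (E d))} {F G : E d → ℝ}
    (hf : f =ᵐ[volume] F) (hg : g =ᵐ[volume] G) : inner ℝ f g = ∫ x, F x * G x := by
  rw [MeasureTheory.L2.inner_def]
  refine integral_congr_ae ?_
  filter_upwards [hf, hg] with x h1 h2
  rw [h1, h2]
  simp [mul_comm]

theorem hess_qh_qa_jet {φ : E d → ℝ} (h : ContDiff ℝ ∞ φ) (hc : HasCompactSupport φ) {w : HS d}
    (hw : IsJet φ w) : qh w = qa w := by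
  unfold qh qa lap
  rw [← real_inner_self_eq_norm_sq, sum_inner]
  refine Finset.sum_congr rfl fun i _ => ?_
  rw [inner_sum]
  refine Finset.sum_congr rfl fun j _ => ?_
  rw [← real_inner_self_eq_norm_sq, hess_inner (hw _) (hw _), hess_inner (hw _) (hw _)]
  exact hess_test h hc i j

theorem hess_continuous_qh : Continuous (qh : HS d → ℝ) := by
  unfold qh
  fun_prop

theorem hess_continuous_qa : Continuous (qa : HS d → ℝ) := by
  unfold qa lap
  fun_prop

theorem qh_eq_qa {d : ℕ} {w : HS d} (hw : w ∈ H20 (univ : Set (E d))) : qh w = qa w := by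
  have hcl : IsClosed {v : HS d | qh v = qa v} := isClosed_eq hess_continuous_qh hess_continuous_qa
  have h1 : w ∈ closure {v : HS d | qh v = qa v} := by
    rw [Metric.mem_closure_iff]
    intro ε hε
    obtain ⟨φ, v, hφ, hv, hwv⟩ := (mem_H20_iff w).1 hw ε hε
    exact ⟨v, hess_qh_qa_jet hφ.smooth hφ.compact hv, by rwa [dist_eq_norm]⟩
  rwa [hcl.closure_eq] at h1

end Pool.Agent.Lib.Buck
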