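import Pool.Agent.Lib.MP_17201e_an.Defs

set_option autoImplicit false

open MeasureTheory Set Filter Topology
open scoped ENNReal ContDiff

namespace Pool.Agent.Lib.Buck

section SpectralAux

variable {H K L : Type*} [NormedAddCommGroup H] [InnerProductSpace ℝ H] [CompleteSpace H]
    [NormedAddCommGroup K] [InnerProductSpace ℝ K] [NormedAddCommGroup L] [InnerProductSpace ℝ L]

/-- a quadratic polynomial without constant term that is nonnegative has no linear term -/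
theorem spectral_quad (p q : ℝ) (h : ∀ t : ℝ, 0 ≤ 2 * t * p + t ^ 2 * q) : p = 0 := by
  by_contra hp
  rcases le_or_gt q 0 with hq | hq
  · have h1 := h p
    have h2 := h (-p)
    have h3 : 0 < p ^ 2 := by positivity
    nlinarith
  · have h1 := h (-(p / q))
    have h3 : 0 < p ^ 2 := by positivity
    have h4 : 2 * -(p / q) * p + (-(p / q)) ^ 2 * q = -(p ^ 2 / q) := by
      field_simp; ring
    rw [h4] at h1
    have : 0 < p ^ 2 / q := by positivity
    linarith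

/-- minimisation of `‖a v‖² / ‖b v‖²` on a closed subspace -/
theorem spectral_min (a : H →L[ℝ] K) (b : H →L[ℝ] L) (S : Submodule ℝ H)
    (C : ℝ) (hC : ∀ w ∈ S, ‖w‖ ^ 2 ≤ C * ‖a w‖ ^ 2) (hb : ∀ w ∈ S, b w = 0 → w = 0)
    (hK : ∀ w : ℕ → H, (∀ n, w n ∈ S) → (∃ B, ∀ n, ‖w n‖ ≤ B) →
      ∃ σ : ℕ → ℕ, StrictMono σ ∧ CauchySeq (fun n => b (w (σ n))))
    (T : Submodule ℝ H) (hT : IsClosed (T : Set H)) (hTS : T ≤ S) (v₀ : H) (hv₀ : v₀ ∈ T)
    (hv₀0 : v₀ ≠ 0) :
    ∃ (u : H) (l : ℝ), u ∈ T ∧ ‖b u‖ = 1 ∧ 0 ≤ l ∧ (∀ v ∈ T, l * ‖b v‖ ^ 2 ≤ ‖a v‖ ^ 2) ∧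
      ∀ v ∈ T, inner ℝ (a u) (a v) = l * inner ℝ (b u) (b v) := by
  set A : Set ℝ := {r | ∃ v ∈ T, ‖b v‖ = 1 ∧ r = ‖a v‖ ^ 2} with hA
  have hbv₀ : b v₀ ≠ 0 := fun h => hv₀0 (hb v₀ (hTS hv₀) h)
  have hne : A.Nonempty := by
    refine ⟨_, (‖b v₀‖)⁻¹ • v₀, T.smul_mem _ hv₀, ?_, rfl⟩
    rw [map_smul, norm_smul, norm_inv, norm_norm]
    exact inv_mul_cancel₀ (norm_ne_zero_iff.mpr hbv₀)
  have hbdd : BddBelow A := ⟨0, by rintro r ⟨v, -, -, rfl⟩; positivity⟩
  set l := sInf A with hl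
  have hl0 : 0 ≤ l := le_csInf hne (by rintro r ⟨v, -, -, rfl⟩; positivity)
  have hlow : ∀ v ∈ T, l * ‖b v‖ ^ 2 ≤ ‖a v‖ ^ 2 := by
    intro v hv
    by_cases h0 : b v = 0
    · rw [h0, norm_zero]; simp
    · have hpos : 0 < ‖b v‖ := norm_pos_iff.mpr h0
      have h1 : l ≤ ‖a ((‖b v‖)⁻¹ • v)‖ ^ 2 := by
        refine csInf_le hbdd ⟨_, T.smul_mem _ hv, ?_, rfl⟩
        rw [map_smul, norm_smul, norm_inv, norm_norm]
        exact inv_mul_cancel₀ hpos.ne'
      rw [map_smul, norm_smul, norm_inv, norm_norm, mul_pow, inv_pow, inv_mul_eq_div,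
        le_div_iff₀ (by positivity)] at h1
      exact h1
  -- minimising sequence
  have hseq : ∀ n : ℕ, ∃ v ∈ T, ‖b v‖ = 1 ∧ ‖a v‖ ^ 2 < l + 1 / ((n : ℝ) + 1) := by
    intro n
    obtain ⟨r, ⟨v, hv, hv1, rfl⟩, hr⟩ := exists_lt_of_csInf_lt hne
      (show sInf A < l + 1 / ((n : ℝ) + 1) by rw [← hl]; linarith [Nat.one_div_pos_of_nat (α := ℝ) (n := n)])
    exact ⟨v, hv, hv1, hr⟩
  choose v hvT hvb hva using hseq
  have hone : ∀ n : ℕ, 1 / ((n : ℝ) + 1) ≤ 1 := fun n => by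
    rw [div_le_one (by positivity)]; linarith [Nat.cast_nonneg (α := ℝ) n]
  have hbound : ∀ n, ‖v n‖ ≤ Real.sqrt (|C| * (l + 1)) := by
    intro n
    refine Real.le_sqrt_of_sq_le ?_
    calc ‖v n‖ ^ 2 ≤ C * ‖a (v n)‖ ^ 2 := hC _ (hTS (hvT n))
      _ ≤ |C| * ‖a (v n)‖ ^ 2 := mul_le_mul_of_nonneg_right (le_abs_self C) (sq_nonneg _)
      _ ≤ |C| * (l + 1) := mul_le_mul_of_nonneg_left (by linarith [hva n, hone n]) (abs_nonneg C)
  obtain ⟨σ, hσ, hcau⟩ := hK v (fun n => hTS (hvT n)) ⟨_, hbound⟩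
  have hpar : ∀ n m, ‖a (v n - v m)‖ ^ 2 ≤
      2 * (1 / ((n : ℝ) + 1)) + 2 * (1 / ((m : ℝ) + 1)) + l * ‖b (v n) - b (v m)‖ ^ 2 := by
    intro n m
    have h1 := parallelogram_law_with_norm ℝ (a (v n)) (a (v m))
    have h2 := parallelogram_law_with_norm ℝ (b (v n)) (b (v m))
    have h3 := hlow _ (T.add_mem (hvT n) (hvT m))
    rw [hvb, hvb] at h2
    rw [map_add, map_add] at h3
    rw [map_sub]
    have h4 := hva n
    have h5 := hva m
    nlinarith
  have hlim0 : Tendsto (fun n : ℕ => 1 / ((n : ℝ) + 1)) atTop (𝓝 0) :=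
    tendsto_one_div_add_atTop_nhds_zero_nat
  have hcv : CauchySeq (fun n => v (σ n)) := by
    rw [cauchySeq_iff_tendsto_dist_atTop_0]
    have h1 : Tendsto (fun p : ℕ × ℕ => ‖b (v (σ p.1)) - b (v (σ p.2))‖) atTop (𝓝 0) := by
      have := cauchySeq_iff_tendsto_dist_atTop_0.mp hcau
      simpa only [dist_eq_norm] using this
    have h2 : Tendsto (fun p : ℕ × ℕ => 1 / (((σ p.1 : ℕ) : ℝ) + 1)) atTop (𝓝 0) :=
      hlim0.comp (hσ.tendsto_atTop.comp (by rw [← prod_atTop_atTop_eq]; exact tendsto_fst))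
    have h3 : Tendsto (fun p : ℕ × ℕ => 1 / (((σ p.2 : ℕ) : ℝ) + 1)) atTop (𝓝 0) :=
      hlim0.comp (hσ.tendsto_atTop.comp (by rw [← prod_atTop_atTop_eq]; exact tendsto_snd))
    have h4 : Tendsto (fun p : ℕ × ℕ => |C| * (2 * (1 / (((σ p.1 : ℕ) : ℝ) + 1)) +
        2 * (1 / (((σ p.2 : ℕ) : ℝ) + 1)) + l * ‖b (v (σ p.1)) - b (v (σ p.2))‖ ^ 2))
        atTop (𝓝 (|C| * (2 * 0 + 2 * 0 + l * 0 ^ 2))) :=
      (((h2.const_mul 2).add (h3.const_mul 2)).add ((h1.pow 2).const_mul l)).const_mul _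
    have h5 : |C| * (2 * 0 + 2 * 0 + l * 0 ^ 2) = 0 := by ring
    rw [h5] at h4
    have h6 : Tendsto (fun p : ℕ × ℕ => ‖v (σ p.1) - v (σ p.2)‖ ^ 2) atTop (𝓝 0) := by
      refine squeeze_zero (fun p => sq_nonneg _) (fun p => ?_) h4
      calc ‖v (σ p.1) - v (σ p.2)‖ ^ 2 ≤ C * ‖a (v (σ p.1) - v (σ p.2))‖ ^ 2 :=
            hC _ (hTS (T.sub_mem (hvT _) (hvT _)))
        _ ≤ |C| * ‖a (v (σ p.1) - v (σ p.2))‖ ^ 2 :=
            mul_le_mul_of_nonneg_right (le_abs_self C) (sq_nonneg _)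
        _ ≤ _ := mul_le_mul_of_nonneg_left (hpar _ _) (abs_nonneg C)
    have h7 := (Real.continuous_sqrt.tendsto 0).comp h6
    rw [Real.sqrt_zero] at h7
    refine h7.congr fun p => ?_
    simp only [Function.comp_apply]
    rw [Real.sqrt_sq (norm_nonneg _), dist_eq_norm]
  obtain ⟨u, hu⟩ := cauchySeq_tendsto_of_complete hcv
  have huT : u ∈ T := hT.mem_of_tendsto hu (Eventually.of_forall fun n => hvT _)
  have hbu : ‖b u‖ = 1 := by
    have h1 : Tendsto (fun n => ‖b (v (σ n))‖) atTop (𝓝 ‖b u‖) :=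
      ((b.continuous.tendsto u).comp hu).norm
    have h2 : (fun n => ‖b (v (σ n))‖) = fun _ => (1 : ℝ) := by funext n; exact hvb _
    rw [h2] at h1
    exact (tendsto_nhds_unique h1 tendsto_const_nhds)
  have hau : ‖a u‖ ^ 2 = l := by
    refine le_antisymm ?_ ?_
    · have h1 : Tendsto (fun n => ‖a (v (σ n))‖ ^ 2) atTop (𝓝 (‖a u‖ ^ 2)) :=
        (((a.continuous.tendsto u).comp hu).norm).pow 2
      have h2 : Tendsto (fun n => l + 1 / (((σ n : ℕ) : ℝ) + 1)) atTop (𝓝 (l + 0)) :=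
        (hlim0.comp hσ.tendsto_atTop).const_add l
      rw [add_zero] at h2
      exact le_of_tendsto_of_tendsto' h1 h2 fun n => (hva _).le
    · have := hlow u huT
      rw [hbu] at this
      linarith
  refine ⟨u, l, huT, hbu, hl0, hlow, fun w hw => ?_⟩
  have hq : ∀ t : ℝ, 0 ≤ 2 * t * (inner ℝ (a u) (a w) - l * inner ℝ (b u) (b w)) +
      t ^ 2 * (‖a w‖ ^ 2 - l * ‖b w‖ ^ 2) := by
    intro t
    have h1 := hlow (u + t • w) (T.add_mem huT (T.smul_mem t hw))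
    rw [map_add, map_smul, map_add, map_smul, norm_add_sq_real, norm_add_sq_real,
      inner_smul_right, inner_smul_right, norm_smul, norm_smul, hbu, hau, mul_pow, mul_pow,
      Real.norm_eq_abs, sq_abs] at h1
    nlinarith
  have := spectral_quad _ _ hq
  linarith

omit [CompleteSpace H] in
/-- a subspace of dimension `h` contains a nonzero vector satisfying `k < h` linear equations -/
theorem spectral_exists (b : H →L[ℝ] L) (V : Submodule ℝ H) (h k : ℕ) (hk : k < h)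
    (hVh : Module.finrank ℝ V = h) (u : ℕ → H) :
    ∃ v ∈ V, v ≠ 0 ∧ ∀ j < k, inner ℝ (b (u j)) (b v) = 0 := by
  have : Module.Finite ℝ V := Module.finite_of_finrank_pos (by omega)
  let φ : V →ₗ[ℝ] (Fin k → ℝ) := LinearMap.pi fun j =>
    ((innerSL ℝ (b (u j))).toLinearMap ∘ₗ b.toLinearMap) ∘ₗ V.subtype
  have h1 : LinearMap.ker φ ≠ ⊥ := by
    apply LinearMap.ker_ne_bot_of_finrank_lt
    rw [hVh, Module.finrank_fin_fun]
    exact hk
  obtain ⟨v, hv, hv0⟩ := Submodule.exists_mem_ne_zero_of_ne_bot h1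
  refine ⟨v, v.2, fun h => hv0 (Subtype.ext h), fun j hj => ?_⟩
  have h2 := congrFun (LinearMap.mem_ker.mp hv) ⟨j, hj⟩
  simpa [φ] using h2

theorem spectral_ind (a : H →L[ℝ] K) (b : H →L[ℝ] L) (S : Submodule ℝ H)
    (hS : IsClosed (S : Set H))
    (C : ℝ) (hC : ∀ w ∈ S, ‖w‖ ^ 2 ≤ C * ‖a w‖ ^ 2) (hb : ∀ w ∈ S, b w = 0 → w = 0)
    (hK : ∀ w : ℕ → H, (∀ n, w n ∈ S) → (∃ B, ∀ n, ‖w n‖ ≤ B) →
      ∃ σ : ℕ → ℕ, StrictMono σ ∧ CauchySeq (fun n => b (w (σ n))))
    (h : ℕ) (V : Submodule ℝ H) (hV : V ≤ S) (hVh : Module.finrank ℝ V = h) (k : ℕ) (hk : k ≤ h) :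
    ∃ (u : ℕ → H) (l : ℕ → ℝ), (∀ i < k, u i ∈ S) ∧
      (∀ i < k, ∀ j < k, inner ℝ (b (u i)) (b (u j)) = if i = j then (1 : ℝ) else 0) ∧
      (∀ i < k, 0 ≤ l i) ∧
      (∀ i < k, ∀ v ∈ S, inner ℝ (a (u i)) (a v) = l i * inner ℝ (b (u i)) (b v)) ∧
      (∀ i < k, ∀ v ∈ S, (∀ j < i, inner ℝ (b (u j)) (b v) = 0) → l i * ‖b v‖ ^ 2 ≤ ‖a v‖ ^ 2) := by
  induction k with
  | zero => exact ⟨fun _ => 0, fun _ => 0, by simp, by simp, by simp, by simp, by simp⟩
  | succ k ih =>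
    obtain ⟨u, l, h1, h2, h3, h4, h5⟩ := ih (by omega)
    let T : Submodule ℝ H :=
      { carrier := {v | v ∈ S ∧ ∀ j < k, inner ℝ (b (u j)) (b v) = 0}
        add_mem' := by
          rintro v w ⟨hv, hv'⟩ ⟨hw, hw'⟩
          refine ⟨S.add_mem hv hw, fun j hj => ?_⟩
          rw [map_add, inner_add_right, hv' j hj, hw' j hj, add_zero]
        zero_mem' := ⟨S.zero_mem, fun j _ => by rw [map_zero, inner_zero_right]⟩
        smul_mem' := by
          rintro c w ⟨hw, hw'⟩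
          refine ⟨S.smul_mem c hw, fun j hj => ?_⟩
          rw [map_smul, inner_smul_right, hw' j hj, mul_zero] }
    have hTmem : ∀ v, v ∈ T ↔ v ∈ S ∧ ∀ j < k, inner ℝ (b (u j)) (b v) = 0 := fun v => Iff.rfl
    have hTc : IsClosed (T : Set H) := by
      have : (T : Set H) = (S : Set H) ∩ ⋂ j ∈ {j | j < k}, {v | inner ℝ (b (u j)) (b v) = 0} := by
        ext v; simp [hTmem]
      rw [this]
      refine hS.inter (isClosed_biInter fun j _ => ?_)
      exact isClosed_eq (by fun_prop) continuous_const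
    obtain ⟨v₀, hv₀V, hv₀0, hv₀⟩ := spectral_exists b V h k (by omega) hVh u
    obtain ⟨w, m, hwT, hbw, hm, hlow, heig⟩ := spectral_min a b S C hC hb hK T hTc
      (fun v hv => hv.1) v₀ ⟨hV hv₀V, hv₀⟩ hv₀0
    -- the eigenvalue equation on all of `S`
    have heigS : ∀ v ∈ S, inner ℝ (a w) (a v) = m * inner ℝ (b w) (b v) := by
      intro v hv
      set p : H := ∑ j ∈ Finset.range k, inner ℝ (b (u j)) (b v) • u j with hp
      have hpS : p ∈ S := S.sum_mem fun j hj => S.smul_mem _ (h1 j (Finset.mem_range.mp hj))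
      have hbp : ∀ i < k, inner ℝ (b (u i)) (b p) = inner ℝ (b (u i)) (b v) := by
        intro i hi
        rw [hp, map_sum, inner_sum, Finset.sum_eq_single i]
        · rw [map_smul, inner_smul_right, h2 i hi i hi, if_pos rfl, mul_one]
        · intro j hj hji
          rw [map_smul, inner_smul_right, h2 i hi j (Finset.mem_range.mp hj), if_neg (Ne.symm hji),
            mul_zero]
        · intro hi'
          exact absurd (Finset.mem_range.mpr hi) hi'
      have hvp : v - p ∈ T := by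
        refine ⟨S.sub_mem hv hpS, fun j hj => ?_⟩
        rw [map_sub, inner_sub_right, hbp j hj, sub_self]
      have e1 := heig _ hvp
      have e2 : inner ℝ (a w) (a p) = 0 := by
        rw [hp, map_sum, inner_sum]
        refine Finset.sum_eq_zero fun j hj => ?_
        have hj' := Finset.mem_range.mp hj
        rw [map_smul, inner_smul_right, real_inner_comm (a (u j)) (a w), h4 j hj' w hwT.1,
          hwT.2 j hj', mul_zero, mul_zero]
      have e3 : inner ℝ (b w) (b p) = 0 := by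
        rw [hp, map_sum, inner_sum]
        refine Finset.sum_eq_zero fun j hj => ?_
        have hj' := Finset.mem_range.mp hj
        rw [map_smul, inner_smul_right, real_inner_comm (b (u j)) (b w), hwT.2 j hj', mul_zero]
      rw [map_sub, map_sub, inner_sub_right, inner_sub_right, e2, e3, sub_zero, sub_zero] at e1
      exact e1
    refine ⟨Function.update u k w, Function.update l k m, ?_, ?_, ?_, ?_, ?_⟩
    · intro i hi
      rcases Nat.lt_succ_iff_lt_or_eq.mp hi with hi | rfl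
      · rw [Function.update_of_ne hi.ne]; exact h1 i hi
      · rw [Function.update_self]; exact hwT.1
    · intro i hi j hj
      rcases Nat.lt_succ_iff_lt_or_eq.mp hi with hi | rfl
      · rcases Nat.lt_succ_iff_lt_or_eq.mp hj with hj | rfl
        · rw [Function.update_of_ne hi.ne, Function.update_of_ne hj.ne]; exact h2 i hi j hj
        · rw [Function.update_of_ne hi.ne, Function.update_self, hwT.2 i hi, if_neg hi.ne]
      · rcases Nat.lt_succ_iff_lt_or_eq.mp hj with hj | rfl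
        · rw [Function.update_of_ne hj.ne, Function.update_self, real_inner_comm (b (u j)) (b w),
            hwT.2 j hj,
            if_neg hj.ne']
        · rw [Function.update_self, if_pos rfl, real_inner_self_eq_norm_sq, hbw, one_pow]
    · intro i hi
      rcases Nat.lt_succ_iff_lt_or_eq.mp hi with hi | rfl
      · rw [Function.update_of_ne hi.ne]; exact h3 i hi
      · rw [Function.update_self]; exact hm
    · intro i hi v hv
      rcases Nat.lt_succ_iff_lt_or_eq.mp hi with hi | rfl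
      · rw [Function.update_of_ne hi.ne, Function.update_of_ne hi.ne]; exact h4 i hi v hv
      · rw [Function.update_self, Function.update_self]; exact heigS v hv
    · intro i hi v hv hvj
      rcases Nat.lt_succ_iff_lt_or_eq.mp hi with hi | rfl
      · rw [Function.update_of_ne hi.ne]
        refine h5 i hi v hv fun j hj => ?_
        have := hvj j hj
        rwa [Function.update_of_ne (hj.trans hi).ne] at this
      · rw [Function.update_self]
        refine hlow v ⟨hv, fun j hj => ?_⟩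
        have := hvj j hj
        rwa [Function.update_of_ne hj.ne] at this

end SpectralAux

theorem spectral {H K L : Type*} [NormedAddCommGroup H] [InnerProductSpace ℝ H] [CompleteSpace H]
    [NormedAddCommGroup K] [InnerProductSpace ℝ K] [NormedAddCommGroup L] [InnerProductSpace ℝ L]
    (a : H →L[ℝ] K) (b : H →L[ℝ] L) (S : Submodule ℝ H) (hS : IsClosed (S : Set H))
    (C : ℝ) (hC : ∀ w ∈ S, ‖w‖ ^ 2 ≤ C * ‖a w‖ ^ 2) (hb : ∀ w ∈ S, b w = 0 → w = 0)
    (hK : ∀ w : ℕ → H, (∀ n, w n ∈ S) → (∃ B, ∀ n, ‖w n‖ ≤ B) →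
      ∃ σ : ℕ → ℕ, StrictMono σ ∧ CauchySeq (fun n => b (w (σ n))))
    (h : ℕ) (hh : 1 ≤ h) (V : Submodule ℝ H) (hV : V ≤ S) (hVh : Module.finrank ℝ V = h) :
    ∃ (u : Fin h → H) (l : Fin h → ℝ), (∀ i, u i ∈ S) ∧
      (∀ i j, inner ℝ (b (u i)) (b (u j)) = if i = j then (1 : ℝ) else 0) ∧ (∀ i, 0 ≤ l i) ∧
      (∀ i, ∀ v ∈ S, inner ℝ (a (u i)) (a v) = l i * inner ℝ (b (u i)) (b v)) ∧
      (∀ i, ∀ V' : Submodule ℝ H, V' ≤ S → Module.finrank ℝ V' = h →
        ∃ v ∈ V', v ≠ 0 ∧ l i * ‖b v‖ ^ 2 ≤ ‖a v‖ ^ 2) := by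
  obtain ⟨u, l, h1, h2, h3, h4, h5⟩ := spectral_ind a b S hS C hC hb hK h V hV hVh h le_rfl
  refine ⟨fun i => u i, fun i => l i, fun i => h1 i i.2, fun i j => ?_, fun i => h3 i i.2,
    fun i => h4 i i.2, fun i V' hV' hV'h => ?_⟩
  · rw [h2 i i.2 j j.2]
    simp only [Fin.ext_iff]
  · obtain ⟨v, hv, hv0, hvj⟩ := spectral_exists b V' h i i.2 hV'h u
    exact ⟨v, hv, hv0, h5 i i.2 v (hV' hv) hvj⟩

end Pool.Agent.Lib.Buck
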