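import Mathlib
import Pool.Agent.Lib.MP_17201e_an.Defs
import Pool.Agent.Lib.MP_17201e_an.Jet
import Pool.Agent.Lib.MP_17201e_an.Hess
import Pool.Agent.Lib.MP_17201e_an.Spectral
import Pool.Agent.Lib.MP_17201e_an.FaberKrahn
import Pool.Agent.Lib.MP_17201e_an.CompactX

/-!
# Eigenfunctions of closed subspaces of `X A`
-/

set_option autoImplicit false

open MeasureTheory Set Filter Topology
open scoped ENNReal ContDiff

namespace Pool.Agent.Lib.Buck

theorem eig_pd_contDiff {d : ℕ} {φ : E d → ℝ} (h : ContDiff ℝ ∞ φ) (i : Fin d) :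
    ContDiff ℝ ∞ (pd i φ) :=
  (h.fderiv_right (m := ∞) (by simp)).clm_apply contDiff_const

theorem eig_pd_compact {d : ℕ} {φ : E d → ℝ} (h : HasCompactSupport φ) (i : Fin d) :
    HasCompactSupport (pd i φ) :=
  h.of_isClosed_subset (isClosed_tsupport _) (tsupport_fderiv_apply_subset ℝ _)

/-- Integration by parts on test functions. -/
theorem eig_ibp {d : ℕ} {θ φ : E d → ℝ} (hθ : ContDiff ℝ ∞ θ) (hθ' : HasCompactSupport θ)
    (hφ : ContDiff ℝ ∞ φ) (i : Fin d) :
    ∫ x, θ x * pd i φ x = - ∫ x, pd i θ x * φ x := by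
  have c1 : Continuous θ := hθ.continuous
  have c2 : Continuous (pd i θ) := (eig_pd_contDiff hθ i).continuous
  have c3 : Continuous φ := hφ.continuous
  have c4 : Continuous (pd i φ) := (eig_pd_contDiff hφ i).continuous
  have i1 : Integrable (fun x => pd i θ x * φ x) (volume : Measure (E d)) :=
    (c2.mul c3).integrable_of_hasCompactSupport ((eig_pd_compact hθ' i).mul_right)
  have i2 : Integrable (fun x => θ x * pd i φ x) (volume : Measure (E d)) :=
    (c1.mul c4).integrable_of_hasCompactSupport (hθ'.mul_right)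
  have i3 : Integrable (fun x => θ x * φ x) (volume : Measure (E d)) :=
    (c1.mul c3).integrable_of_hasCompactSupport (hθ'.mul_right)
  exact integral_mul_fderiv_eq_neg_fderiv_mul_of_integrable (μ := (volume : Measure (E d)))
    (f := θ) (g := φ) (v := EuclideanSpace.single i 1) i1 i2 i3
    (fun x _ => (hθ.differentiable (by simp)) x) (fun x _ => (hφ.differentiable (by simp)) x)

/-- The pairing with a test function. -/
theorem eig_inner {d : ℕ} {θ : E d → ℝ} {f g : Lp ℝ 2 (volume : Measure (E d))}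
    (hf : f =ᵐ[volume] θ) : inner ℝ f g = ∫ x, θ x * g x := by
  rw [L2.inner_def]
  refine integral_congr_ae ?_
  filter_upwards [hf] with x hx
  simp only [hx]
  simp [mul_comm]

/-- The second derivatives are the derivatives of the first derivatives. -/
theorem eig_weak {d : ℕ} {w : HS d} (hw : w ∈ H20 (univ : Set (E d))) {θ : E d → ℝ}
    (hθ : Test univ θ) {t : HS d} (ht : IsJet θ t) (i j : Fin d) :
    inner ℝ (t none) (w (some (Sum.inr (i, j)))) +
      inner ℝ (t (some (Sum.inl i))) (w (some (Sum.inl j))) = 0 := by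
  set F : HS d →L[ℝ] ℝ :=
    (innerSL ℝ (t none)).comp (PiLp.proj 2 _ (some (Sum.inr (i, j)))) +
    (innerSL ℝ (t (some (Sum.inl i)))).comp (PiLp.proj 2 _ (some (Sum.inl j))) with hF
  have hFw : ∀ v : HS d, F v = inner ℝ (t none) (v (some (Sum.inr (i, j)))) +
      inner ℝ (t (some (Sum.inl i))) (v (some (Sum.inl j))) := fun v => rfl
  rw [← hFw]
  have hle : H20 (univ : Set (E d)) ≤ LinearMap.ker (F : HS d →ₗ[ℝ] ℝ) := by
    unfold H20
    refine Submodule.topologicalClosure_minimal _ ?_ F.isClosed_ker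
    rw [Submodule.span_le]
    rintro v ⟨φ, hφ, hv⟩
    rw [SetLike.mem_coe, LinearMap.mem_ker]
    show F v = 0
    rw [hFw]
    have h1 : (t none) =ᵐ[volume] θ := ht none
    have h2 : (t (some (Sum.inl i))) =ᵐ[volume] pd i θ := ht (some (Sum.inl i))
    rw [eig_inner h1, eig_inner h2]
    have h3 : ∫ x, θ x * (v (some (Sum.inr (i, j)))) x = ∫ x, θ x * pd i (pd j φ) x := by
      refine integral_congr_ae ?_
      filter_upwards [hv (some (Sum.inr (i, j)))] with x hx
      rw [hx]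
      rfl
    have h4 : ∫ x, pd i θ x * (v (some (Sum.inl j))) x = ∫ x, pd i θ x * pd j φ x := by
      refine integral_congr_ae ?_
      filter_upwards [hv (some (Sum.inl j))] with x hx
      rw [hx]
      rfl
    rw [h3, h4, eig_ibp hθ.smooth hθ.compact (eig_pd_contDiff hφ.smooth j) i]
    ring
  exact hle hw

/-- A 2-jet of `H²` with vanishing first derivatives has vanishing second derivatives. -/
theorem eig_second_zero {d : ℕ} {w : HS d} (hw : w ∈ H20 (univ : Set (E d)))
    (h : ∀ i, w (some (Sum.inl i)) = 0) (i j : Fin d) : w (some (Sum.inr (i, j))) = 0 := by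
  have h1 : ∀ᵐ x, (w (some (Sum.inr (i, j)))) x = 0 := by
    refine ae_eq_zero_of_integral_contDiff_smul_eq_zero
      ((Lp.memLp (w (some (Sum.inr (i, j))))).locallyIntegrable (by norm_num)) ?_
    intro g hg hg'
    have hT : Test (univ : Set (E d)) g := ⟨hg, hg', subset_univ _⟩
    obtain ⟨t, ht⟩ := exists_jet hT
    have h2 := eig_weak hw hT ht i j
    rw [h j, inner_zero_right, add_zero, eig_inner (show (t none) =ᵐ[volume] g from ht none)] at h2
    exact h2
  exact (Lp.eq_zero_iff_ae_eq_zero).mpr h1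

/-- The Laplacian as a continuous linear map. -/
noncomputable def eigLap (d : ℕ) : HS d →L[ℝ] Lp ℝ 2 (volume : Measure (E d)) :=
  ∑ i : Fin d, PiLp.proj 2 _ (some (Sum.inr (i, i)))

theorem eigLap_apply {d : ℕ} (w : HS d) : eigLap d w = lap w := by
  unfold eigLap lap
  rw [sum_apply]
  rfl

/-- The gradient as a continuous linear map. -/
noncomputable def eigGrad (d : ℕ) :
    HS d →L[ℝ] PiLp 2 (fun _ : Fin d => Lp ℝ 2 (volume : Measure (E d))) :=
  ((PiLp.continuousLinearEquiv 2 ℝ (fun _ : Fin d => Lp ℝ 2 (volume : Measure (E d)))).symm :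
    (∀ _ : Fin d, Lp ℝ 2 (volume : Measure (E d))) →L[ℝ] _).comp
    (ContinuousLinearMap.pi fun i : Fin d => PiLp.proj 2 _ (some (Sum.inl i)))

theorem eigGrad_apply {d : ℕ} (w : HS d) (i : Fin d) : eigGrad d w i = w (some (Sum.inl i)) :=
  rfl

theorem eigGrad_norm {d : ℕ} (w : HS d) : ‖eigGrad d w‖ ^ 2 = qb w := by
  rw [PiLp.norm_sq_eq_of_L2]
  rfl

theorem eigGrad_inner {d : ℕ} (v w : HS d) : inner ℝ (eigGrad d v) (eigGrad d w) = fb v w := by
  rw [PiLp.inner_apply]
  rfl

theorem eig_grad_zero {d : ℕ} (hd : 1 ≤ d) {A : Set (E d)} (hA : MeasurableSet A)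
    (hA' : volume A < ⊤) {w : HS d} (hw : w ∈ X A) (h : qb w = 0) : w = 0 := by
  obtain ⟨C, _, hC⟩ := faber_krahn d hd
  have h1 := (hC A hA hA' w hw).1
  rw [h, mul_zero] at h1
  have h2 : w none = 0 := by
    have : ‖w none‖ ^ 2 = 0 := le_antisymm h1 (sq_nonneg _)
    simpa using this
  have h3 : ∀ i, w (some (Sum.inl i)) = 0 := by
    intro i
    unfold qb at h
    have := (Finset.sum_eq_zero_iff_of_nonneg (fun i _ => sq_nonneg _)).mp h i (Finset.mem_univ i)
    simpa using this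
  ext1 k
  rcases k with _ | (i | ⟨i, j⟩)
  · exact h2
  · exact h3 i
  · exact eig_second_zero hw.1 h3 i j

theorem exists_eig {d : ℕ} (hd : 1 ≤ d) {h : ℕ} (hh : 1 ≤ h) {A : Set (E d)}
    (hA : MeasurableSet A) (hA' : volume A < ⊤) {S : Submodule ℝ (HS d)}
    (hS : IsClosed (S : Set (HS d))) (hSA : S ≤ X A) (hfin : lamS h S < ⊤) :
    ∃ u l, Eig h S (lamS h S).toReal u l := by
  obtain ⟨C, hCpos, hC⟩ := faber_krahn d hd
  set c : ℝ := C * (volume A).toReal ^ (2 / d : ℝ) with hc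
  have hc0 : 0 ≤ c := by positivity
  obtain ⟨V, hV, hVh⟩ : ∃ V : Submodule ℝ (HS d), V ≤ S ∧ Module.finrank ℝ V = h := by
    unfold lamS at hfin
    rw [iInf_lt_iff] at hfin
    obtain ⟨V, hV⟩ := hfin
    rw [iInf_lt_iff] at hV
    obtain ⟨hV, _⟩ := hV
    exact ⟨V, hV⟩
  obtain ⟨u, l, hu, horth, hl, heig, hcomp⟩ := spectral (eigLap d) (eigGrad d) S hS
    (c ^ 2 + c + 1) (by
      intro w hw
      have h1 := hC A hA hA' w (hSA hw)
      have h2 := qh_eq_qa (hSA hw).1
      have h3 : ‖eigLap d w‖ ^ 2 = qa w := by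
        rw [eigLap_apply]
        rfl
      rw [h3, norm_sq_eq, ← h2]
      have h4 := h1.1
      have h5 := h1.2
      have h6 : c * qb w ≤ c * (c * qh w) := mul_le_mul_of_nonneg_left h5 hc0
      rw [← hc] at h4 h5
      nlinarith) (by
      intro w hw hbw
      refine eig_grad_zero hd hA hA' (hSA hw) ?_
      rw [← eigGrad_norm, hbw, norm_zero]
      norm_num) (by
      rintro w hw ⟨B, hB⟩
      obtain ⟨σ, hσ, _, hlim⟩ := compact_X hd hA hA' w (fun n => hSA (hw n)) B hB
      refine ⟨σ, hσ, ?_⟩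
      choose g hg using hlim
      have : Tendsto (fun n => eigGrad d (w (σ n))) atTop (𝓝 (WithLp.toLp 2 g)) := by
        have h1 : Tendsto (fun n => (fun i => w (σ n) (some (Sum.inl i)))) atTop (𝓝 g) :=
          tendsto_pi_nhds.mpr hg
        exact ((PiLp.continuous_toLp 2 _).tendsto g).comp h1
      exact this.cauchySeq) h hh V hV hVh
  refine ⟨u, l, ⟨hu, fun i j => ?_, hl, fun i => ?_, fun i v hv => ?_⟩⟩
  · rw [← eigGrad_inner, horth]
  · rw [← ENNReal.ofReal_le_iff_le_toReal hfin.ne]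
    unfold lamS
    refine le_iInf₂ fun V' hV' => ?_
    obtain ⟨v, hv, hv0, hle⟩ := hcomp i V' hV'.1 hV'.2
    rw [eigGrad_norm, eigLap_apply] at hle
    refine le_trans ?_ (le_iSup₂ (f := fun (w : HS d) (_ : w ∈ V' ∧ w ≠ 0) =>
      ENNReal.ofReal (qa w) / ENNReal.ofReal (qb w)) v ⟨hv, hv0⟩)
    have hpos : 0 < qb v := by
      refine lt_of_le_of_ne (qb_nonneg v) ?_
      intro h0
      exact hv0 (eig_grad_zero hd hA hA' (hSA (hV'.1 hv)) h0.symm)
    rw [← ENNReal.ofReal_div_of_pos hpos]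
    refine ENNReal.ofReal_le_ofReal ?_
    rw [le_div_iff₀ hpos]
    exact hle
  · have := heig i v hv
    rw [eigLap_apply, eigLap_apply, eigGrad_inner] at this
    exact this

theorem eig_norm (d : ℕ) (hd : 1 ≤ d) : ∃ C > 0, ∀ (A : Set (E d)), MeasurableSet A →
    volume A < ⊤ → ∀ (h : ℕ) (S : Submodule ℝ (HS d)), S ≤ X A → ∀ (L : ℝ) (u : Fin h → HS d)
    (l : Fin h → ℝ), Eig h S L u l → ∀ i, ‖u i‖ ^ 2 ≤ 1 + L + C * (volume A).toReal ^ (2 / d : ℝ) := by
  obtain ⟨C, hCpos, hC⟩ := faber_krahn d hd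
  refine ⟨C, hCpos, fun A hA hA' h S hSA L u l hE i => ?_⟩
  have h1 := (hC A hA hA' (u i) (hSA (hE.mem i))).1
  have h2 := qh_eq_qa (hSA (hE.mem i)).1
  have h3 : qb (u i) = 1 := by
    rw [← fb_self, hE.orth, if_pos rfl]
  have h4 : qa (u i) = l i := by
    rw [← fa_self, hE.eig i _ (hE.mem i), fb_self, h3, mul_one]
  have h5 := hE.le i
  rw [norm_sq_eq, h2, h3, h4]
  rw [h3, mul_one] at h1
  linarith

end Pool.Agent.Lib.Buck
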