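import Pool.Agent.Lib.MP_17201e_an.Defs

set_option autoImplicit false

open MeasureTheory Set Filter Topology
open scoped ENNReal ContDiff

namespace Pool.Agent.Lib.Buck

theorem exists_mem_convexHull {H : Type*} [NormedAddCommGroup H] [InnerProductSpace ℝ H]
    [CompleteSpace H] (x : ℕ → H) (B : ℝ) (hB : ∀ n, ‖x n‖ ≤ B) :
    ∃ y, ∀ n, y ∈ closure (convexHull ℝ {z | ∃ m ≥ n, z = x m}) := by
  set K : ℕ → Set H := fun n => closure (convexHull ℝ {z | ∃ m ≥ n, z = x m}) with hK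
  have hKc : ∀ n, Convex ℝ (K n) := fun n => (convex_convexHull ℝ _).closure
  have hKcl : ∀ n, IsClosed (K n) := fun n => isClosed_closure
  have hKx : ∀ n, x n ∈ K n := fun n => subset_closure (subset_convexHull ℝ _ ⟨n, le_rfl, rfl⟩)
  have hKanti : ∀ n m, n ≤ m → K m ⊆ K n := by
    intro n m hnm
    refine closure_mono (convexHull_mono ?_)
    rintro z ⟨k, hk, rfl⟩
    exact ⟨k, hnm.trans hk, rfl⟩
  have hmin : ∀ n, ∃ p ∈ K n, ∀ w ∈ K n, ‖p‖ ≤ ‖w‖ := by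
    intro n
    obtain ⟨p, hp, hpn⟩ := exists_norm_eq_iInf_of_complete_convex ⟨x n, hKx n⟩
      (hKcl n).isComplete (hKc n) 0
    refine ⟨p, hp, fun w hw => ?_⟩
    rw [zero_sub, norm_neg] at hpn
    rw [hpn]
    have hbdd : BddBelow (range fun w : K n => ‖0 - (w : H)‖) :=
      ⟨0, by rintro r ⟨w, rfl⟩; exact norm_nonneg _⟩
    refine (ciInf_le hbdd ⟨w, hw⟩).trans ?_
    simp
  choose p hpK hpmin using hmin
  have hmono : Monotone fun n => ‖p n‖ := fun n m hnm => hpmin n _ (hKanti n m hnm (hpK m))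
  have hbd : ∀ n, ‖p n‖ ≤ B := fun n => (hpmin n _ (hKx n)).trans (hB n)
  have hlim := tendsto_atTop_ciSup hmono ⟨B, by rintro r ⟨n, rfl⟩; exact hbd n⟩
  have hlim2 : Tendsto (fun n => ‖p n‖ ^ 2) atTop (𝓝 ((⨆ n, ‖p n‖) ^ 2)) := hlim.pow 2
  have hpar : ∀ n m, n ≤ m → ‖p m - p n‖ ^ 2 ≤ 2 * ‖p m‖ ^ 2 - 2 * ‖p n‖ ^ 2 := by
    intro n m hnm
    have h1 := parallelogram_law_with_norm ℝ (p m) (p n)
    have h2 : (1 / 2 : ℝ) • p m + (1 / 2 : ℝ) • p n ∈ K n :=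
      hKc n (hKanti n m hnm (hpK m)) (hpK n) (by norm_num) (by norm_num) (by norm_num)
    have h3 := hpmin n _ h2
    rw [← smul_add, norm_smul] at h3
    have h4 : 2 * ‖p n‖ ≤ ‖p m + p n‖ := by
      rw [Real.norm_of_nonneg (by norm_num)] at h3
      linarith
    have h5 : (2 * ‖p n‖) ^ 2 ≤ ‖p m + p n‖ ^ 2 := pow_le_pow_left₀ (by positivity) h4 2
    nlinarith
  have hcau : CauchySeq p := by
    rw [Metric.cauchySeq_iff']
    intro ε hε
    have h1 := hlim2.eventually (Metric.ball_mem_nhds _ (show (0:ℝ) < ε ^ 2 / 4 by positivity))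
    obtain ⟨N, hN⟩ := eventually_atTop.mp h1
    refine ⟨N, fun n hn => ?_⟩
    have h2 := hN n hn
    have h3 := hN N le_rfl
    rw [Real.dist_eq, abs_lt] at h2 h3
    have h4 := hpar N n hn
    rw [dist_eq_norm]
    have h5 : ‖p n - p N‖ ^ 2 < ε ^ 2 := by linarith [h2.1, h2.2, h3.1, h3.2]
    exact lt_of_pow_lt_pow_left₀ 2 hε.le h5
  obtain ⟨y, hy⟩ := cauchySeq_tendsto_of_complete hcau
  refine ⟨y, fun n => (hKcl n).mem_of_tendsto hy ?_⟩
  filter_upwards [eventually_ge_atTop n] with m hm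
  exact hKanti n m hm (hpK m)

end Pool.Agent.Lib.Buck
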