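import Mathlib
import Pool.Agent.Lib.MP_17201e_an.Jet
import Pool.Agent.Lib.MP_17201e_an.CompactX
import Pool.Agent.Lib.MP_17201e_an.Eig
import Pool.Agent.Lib.MP_17201e_an.WeakLim

/-!
# Lower semicontinuity of the eigenvalues
-/

set_option autoImplicit false

open MeasureTheory Set Filter Topology
open scoped ENNReal ContDiff

namespace Pool.Agent.Lib.Buck

theorem lsc_ball {H F : Type*} [NormedAddCommGroup H] [NormedSpace ℝ H] [NormedAddCommGroup F]
    [NormedSpace ℝ F] (T : H →L[ℝ] F) {x : ℕ → H} {y : H} {n : ℕ}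
    (hy : y ∈ closure (convexHull ℝ {z | ∃ m ≥ n, z = x m})) (g : F) (r : ℝ)
    (h : ∀ m ≥ n, ‖T (x m) - g‖ ≤ r) : ‖T y - g‖ ≤ r := by
  have hc : IsClosed (T ⁻¹' Metric.closedBall g r) :=
    Metric.isClosed_closedBall.preimage T.continuous
  have hconv : Convex ℝ (T ⁻¹' Metric.closedBall g r) :=
    (convex_closedBall g r).linear_preimage T.toLinearMap
  have h1 : closure (convexHull ℝ {z | ∃ m ≥ n, z = x m}) ⊆ T ⁻¹' Metric.closedBall g r := by
    refine closure_minimal (convexHull_min ?_ hconv) hc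
    rintro z ⟨m, hm, rfl⟩
    rw [mem_preimage, mem_closedBall_iff_norm]
    exact h m hm
  have h2 := h1 hy
  rwa [mem_preimage, mem_closedBall_iff_norm] at h2

theorem lsc_sub {H F : Type*} [NormedAddCommGroup H] [NormedSpace ℝ H] [NormedAddCommGroup F]
    [NormedSpace ℝ F] (T : H →L[ℝ] F) {x : ℕ → H} {y : H} {n : ℕ}
    (hy : y ∈ closure (convexHull ℝ {z | ∃ m ≥ n, z = x m})) (S : Submodule ℝ F)
    (hS : IsClosed (S : Set F)) (h : ∀ m ≥ n, T (x m) ∈ S) : T y ∈ S := by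
  have hc : IsClosed (T ⁻¹' (S : Set F)) := hS.preimage T.continuous
  have hconv : Convex ℝ (T ⁻¹' (S : Set F)) := S.convex.linear_preimage T.toLinearMap
  have h1 : closure (convexHull ℝ {z | ∃ m ≥ n, z = x m}) ⊆ T ⁻¹' (S : Set F) := by
    refine closure_minimal (convexHull_min ?_ hconv) hc
    rintro z ⟨m, hm, rfl⟩
    exact h m hm
  exact h1 hy

theorem lsc_norm_sq_sum {F ι : Type*} [NormedAddCommGroup F] [InnerProductSpace ℝ F]
    (s : Finset ι) (c : ι → ℝ) (x : ι → F) :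
    ‖∑ i ∈ s, c i • x i‖ ^ 2 = ∑ i ∈ s, ∑ j ∈ s, c i * c j * inner ℝ (x i) (x j) := by
  rw [← real_inner_self_eq_norm_sq, sum_inner]
  refine Finset.sum_congr rfl fun i _ => ?_
  rw [inner_sum]
  refine Finset.sum_congr rfl fun j _ => ?_
  rw [real_inner_smul_left, real_inner_smul_right]
  ring

/-- The Laplacian as a continuous linear map. -/
noncomputable def lscLap (d : ℕ) : HS d →L[ℝ] Lp ℝ 2 (volume : Measure (E d)) :=
  ∑ i : Fin d, PiLp.proj 2 (fun _ : Idx d => Lp ℝ 2 (volume : Measure (E d)))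
    (some (Sum.inr (i, i)))

theorem lscLap_apply {d : ℕ} (w : HS d) : lscLap d w = lap w := by
  unfold lscLap lap
  rw [ContinuousLinearMap.sum_apply]
  rfl

theorem lsc_hs_sum_apply {d h : ℕ} (c : Fin h → ℝ) (v : Fin h → HS d) (k : Idx d) :
    (∑ i, c i • v i) k = ∑ i, c i • v i k := by
  have := map_sum (PiLp.proj (𝕜 := ℝ) 2 (fun _ : Idx d => Lp ℝ 2 (volume : Measure (E d))) k)
    (fun i => c i • v i) Finset.univ
  exact this

theorem lsc_qa_sum {d h : ℕ} (c : Fin h → ℝ) (v : Fin h → HS d) :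
    qa (∑ i, c i • v i) = ∑ i, ∑ j, c i * c j * fa (v i) (v j) := by
  unfold qa fa
  rw [← lscLap_apply, map_sum]
  simp only [map_smul]
  rw [lsc_norm_sq_sum]
  simp only [lscLap_apply]

theorem lsc_qb_sum {d h : ℕ} (c : Fin h → ℝ) (v : Fin h → HS d) :
    qb (∑ i, c i • v i) = ∑ i, ∑ j, c i * c j * fb (v i) (v j) := by
  unfold qb fb
  simp only [lsc_hs_sum_apply, lsc_norm_sq_sum, Finset.mul_sum]
  rw [Finset.sum_comm]
  refine Finset.sum_congr rfl fun i _ => ?_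
  rw [Finset.sum_comm]

theorem lsc_sum_delta {h : ℕ} (c b : Fin h → ℝ) (f : Fin h → Fin h → ℝ)
    (hf : ∀ i j, f i j = b i * (if i = j then 1 else 0)) :
    ∑ i, ∑ j, c i * c j * f i j = ∑ i, b i * c i ^ 2 := by
  refine Finset.sum_congr rfl fun i _ => ?_
  rw [Finset.sum_eq_single i]
  · rw [hf]
    simp
    ring
  · intro j _ hji
    rw [hf, if_neg (Ne.symm hji)]
    ring
  · intro hi
    exact absurd (Finset.mem_univ i) hi

theorem lsc_subseq {d : ℕ} (hd : 1 ≤ d) {h : ℕ} {A : Set (E d)} (hA : MeasurableSet A)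
    (hA' : volume A < ⊤) (u : ℕ → Fin h → HS d) (hu : ∀ n i, u n i ∈ X A) (B : ℝ)
    (hB : ∀ n i, ‖u n i‖ ≤ B) (s : Finset (Fin h)) :
    ∃ σ : ℕ → ℕ, StrictMono σ ∧ ∀ i ∈ s, ∀ j, ∃ g,
      Tendsto (fun n => u (σ n) i (some (Sum.inl j))) atTop (𝓝 g) := by
  classical
  induction s using Finset.induction_on with
  | empty => exact ⟨id, strictMono_id, fun i hi => absurd hi (Finset.notMem_empty i)⟩
  | insert a s _ ih =>
    obtain ⟨σ, hσ, hs⟩ := ih
    obtain ⟨τ, hτ, _, h2⟩ := compact_X hd hA hA' (fun n => u (σ n) a) (fun n => hu _ _) B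
      (fun n => hB _ _)
    refine ⟨σ ∘ τ, hσ.comp hτ, fun i hi j => ?_⟩
    rcases Finset.mem_insert.mp hi with rfl | hi
    · exact h2 j
    · obtain ⟨g, hg⟩ := hs i hi j
      exact ⟨g, hg.comp hτ.tendsto_atTop⟩

/-- Conclusion from an orthonormal system of the first order form. -/
theorem lsc_concl {d h : ℕ} {S : Submodule ℝ (HS d)} {L : ℝ} (hL : 0 ≤ L) (v : Fin h → HS d)
    (hv : ∀ i, v i ∈ S) (hb : ∀ i j, fb (v i) (v j) = if i = j then 1 else 0)
    (ha : ∀ c : Fin h → ℝ, qa (∑ i, c i • v i) ≤ L * ∑ i, c i ^ 2) :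
    lamS h S ≤ ENNReal.ofReal L := by
  have hqb : ∀ c : Fin h → ℝ, qb (∑ i, c i • v i) = ∑ i, c i ^ 2 := by
    intro c
    rw [lsc_qb_sum, lsc_sum_delta c (fun _ => 1) _ (fun i j => by rw [hb i j, one_mul])]
    simp
  have hli : LinearIndependent ℝ v := by
    rw [Fintype.linearIndependent_iff]
    intro c hc i
    have h1 := hqb c
    rw [hc] at h1
    have h2 : qb (0 : HS d) = 0 := by
      unfold qb
      refine Finset.sum_eq_zero fun j _ => ?_
      have : (0 : HS d) (some (Sum.inl j)) = 0 := rfl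
      rw [this, norm_zero]
      ring
    rw [h2] at h1
    have h3 := (Finset.sum_eq_zero_iff_of_nonneg (fun i _ => sq_nonneg (c i))).mp h1.symm i
      (Finset.mem_univ i)
    exact pow_eq_zero_iff (two_ne_zero) |>.mp h3
  have hfr : Module.finrank ℝ (Submodule.span ℝ (Set.range v)) = h := by
    rw [finrank_span_eq_card hli, Fintype.card_fin]
  have hle : Submodule.span ℝ (Set.range v) ≤ S := by
    rw [Submodule.span_le]
    rintro _ ⟨i, rfl⟩
    exact hv i
  unfold lamS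
  refine (iInf₂_le (Submodule.span ℝ (Set.range v)) ⟨hle, hfr⟩).trans ?_
  refine iSup₂_le fun w hw => ?_
  obtain ⟨hw, -⟩ := hw
  obtain ⟨c, rfl⟩ := (Submodule.mem_span_range_iff_exists_fun ℝ).mp hw
  refine ENNReal.div_le_of_le_mul ?_
  rw [← ENNReal.ofReal_mul hL]
  refine ENNReal.ofReal_le_ofReal ?_
  rw [hqb c]
  exact ha c

theorem lsc_tuple_norm {d h : ℕ} (u : Fin h → HS d) {B : ℝ} (hB : 0 ≤ B) (h1 : ∀ i, ‖u i‖ ≤ B) :
    ‖(WithLp.toLp 2 u : PiLp 2 (fun _ : Fin h => HS d))‖ ≤ Real.sqrt (h * B ^ 2) := by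
  refine Real.le_sqrt_of_sq_le ?_
  rw [PiLp.norm_sq_eq_of_L2]
  calc ∑ i, ‖u i‖ ^ 2 ≤ ∑ _i : Fin h, B ^ 2 :=
        Finset.sum_le_sum fun i _ => pow_le_pow_left₀ (norm_nonneg _) (h1 i) 2
    _ = h * B ^ 2 := by
        rw [Finset.sum_const, Finset.card_univ, Fintype.card_fin, nsmul_eq_mul]

theorem lsc_mem_limit {d : ℕ} (A : ℕ → Set (E d)) (A' : Set (E d))
    (hsum : ∑' n, volume (A n \ A') ≠ ⊤) {w : HS d} (h : ∀ n, w ∈ X (A' ∪ ⋃ m ≥ n, A m)) :
    w ∈ X A' := by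
  refine ⟨(h 0).1, fun k => ?_⟩
  have h1 : ∀ᵐ x, ∀ n, x ∉ (A' ∪ ⋃ m ≥ n, A m) → w k x = 0 := by
    rw [ae_all_iff]
    exact fun n => (h n).2 k
  filter_upwards [h1, ae_eventually_notMem hsum] with x hx1 hx2 hxA
  obtain ⟨n, hn⟩ := eventually_atTop.mp hx2
  refine hx1 n ?_
  rintro (hx | hx)
  · exact hxA hx
  · simp only [mem_iUnion] at hx
    obtain ⟨m, hm, hxm⟩ := hx
    exact hn m hm ⟨hxm, hxA⟩

theorem lamX_lsc {d : ℕ} (hd : 1 ≤ d) {h : ℕ} (hh : 1 ≤ h) (R : ℝ) (A : ℕ → Set (E d))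
    (A' : Set (E d)) (hA : ∀ n, MeasurableSet (A n)) (hAR : ∀ n, A n ⊆ Metric.ball 0 R)
    (hA' : MeasurableSet A')
    (hlim : Tendsto (fun n => volume (symmDiff (A n) A')) atTop (𝓝 0)) (l : ℝ≥0∞)
    (hl : ∀ n, lamS h (X (A n)) ≤ l) : lamS h (X A') ≤ l := by
  classical
  rcases eq_or_ne l ⊤ with rfl | hlt
  · exact le_top
  set L : ℝ := l.toReal with hLdef
  have hL : 0 ≤ L := ENNReal.toReal_nonneg
  have hLl : ENNReal.ofReal L = l := ENNReal.ofReal_toReal hlt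
  have hball : volume (Metric.ball (0 : E d) R) < ⊤ := measure_ball_lt_top
  have hAfin : ∀ n, volume (A n) < ⊤ := fun n => (measure_mono (hAR n)).trans_lt hball
  have hex : ∀ n, ∃ (u : Fin h → HS d) (b : Fin h → ℝ),
      Eig h (X (A n)) (lamS h (X (A n))).toReal u b := fun n =>
    exists_eig hd hh (hA n) (hAfin n) (isClosed_X _) le_rfl ((hl n).trans_lt hlt.lt_top)
  choose u b hub using hex
  have hbL : ∀ n i, b n i ≤ L := fun n i =>
    ((hub n).le i).trans (ENNReal.toReal_mono hlt (hl n))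
  obtain ⟨C, hC, hCn⟩ := eig_norm d hd
  set B : ℝ := Real.sqrt (1 + L + C * (volume (Metric.ball (0 : E d) R)).toReal ^ (2 / d : ℝ))
    with hB
  have huB : ∀ n i, ‖u n i‖ ≤ B := by
    intro n i
    refine Real.le_sqrt_of_sq_le ?_
    refine (hCn (A n) (hA n) (hAfin n) h (X (A n)) le_rfl _ _ _ (hub n) i).trans ?_
    have h1 : (lamS h (X (A n))).toReal ≤ L := ENNReal.toReal_mono hlt (hl n)
    have h2 : (volume (A n)).toReal ^ (2 / d : ℝ) ≤
        (volume (Metric.ball (0 : E d) R)).toReal ^ (2 / d : ℝ) := by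
      refine Real.rpow_le_rpow ENNReal.toReal_nonneg ?_ (by positivity)
      exact ENNReal.toReal_mono hball.ne (measure_mono (hAR n))
    have h3 := mul_le_mul_of_nonneg_left h2 hC.le
    linarith
  -- subsequence with small differences
  have hsub : ∃ τ : ℕ → ℕ, StrictMono τ ∧
      ∀ n, volume (symmDiff (A (τ n)) A') ≤ ENNReal.ofReal ((1 / 2) ^ n) := by
    have h1 : ∀ n : ℕ, ∀ᶠ m in atTop,
        volume (symmDiff (A m) A') ≤ ENNReal.ofReal ((1 / 2) ^ n) := by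
      intro n
      have hp : (0 : ℝ≥0∞) < ENNReal.ofReal ((1 / 2) ^ n) :=
        ENNReal.ofReal_pos.mpr (by positivity)
      exact (hlim.eventually_lt_const hp).mono fun m hm => hm.le
    obtain ⟨τ, hτ, hτ2⟩ := extraction_forall_of_eventually h1
    exact ⟨τ, hτ, hτ2⟩
  obtain ⟨τ, hτ, hτ2⟩ := hsub
  have huX : ∀ n i, u (τ n) i ∈ X (Metric.ball (0 : E d) R) := by
    intro n i
    have h1 : X (A (τ n)) ≤ X (Metric.ball (0 : E d) R) := X_congr (by
      rw [diff_eq_empty.mpr (hAR (τ n))]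
      exact measure_empty)
    exact h1 ((hub (τ n)).mem i)
  obtain ⟨σ, hσ, hσ2⟩ := lsc_subseq hd measurableSet_ball hball (fun n => u (τ n)) huX B
    (fun n i => huB _ i) Finset.univ
  choose g hg using fun (i : Fin h) (j : Fin d) => hσ2 i (Finset.mem_univ i) j
  set ρ : ℕ → ℕ := fun n => τ (σ n) with hρ
  have hsum : ∑' n, volume (A (ρ n) \ A') ≠ ⊤ := by
    have h1 : ∀ n, volume (A (ρ n) \ A') ≤ ENNReal.ofReal ((1 / 2) ^ n) := by
      intro n
      refine (measure_mono ?_).trans ((hτ2 (σ n)).trans ?_)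
      · exact fun x hx => Or.inl hx
      · refine ENNReal.ofReal_le_ofReal ?_
        exact pow_le_pow_of_le_one (by norm_num) (by norm_num) (hσ.id_le n)
    have h2 : ∑' n : ℕ, ENNReal.ofReal ((1 / 2 : ℝ) ^ n) ≠ ⊤ := by
      rw [← ENNReal.ofReal_tsum_of_nonneg (fun n => by positivity) summable_geometric_two]
      exact ENNReal.ofReal_ne_top
    exact ne_top_of_le_ne_top h2 (ENNReal.tsum_le_tsum h1)
  let x : ℕ → PiLp 2 (fun _ : Fin h => HS d) := fun n => WithLp.toLp 2 (u (ρ n))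
  have hxB : ∀ n, ‖x n‖ ≤ Real.sqrt (h * B ^ 2) := fun n =>
    lsc_tuple_norm _ (Real.sqrt_nonneg _) (fun i => huB _ i)
  obtain ⟨y, hy⟩ := exists_mem_convexHull x _ hxB
  let P : ∀ i : Fin h, PiLp 2 (fun _ : Fin h => HS d) →L[ℝ] HS d := fun i => PiLp.proj 2 _ i
  have hPx : ∀ i n, P i (x n) = u (ρ n) i := fun i n => rfl
  have hmem : ∀ i, P i y ∈ X A' := by
    intro i
    refine lsc_mem_limit (fun n => A (ρ n)) A' hsum fun n => ?_
    refine lsc_sub (P i) (hy n) _ (isClosed_X _) fun m hm => ?_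
    rw [hPx]
    have h1 : X (A (ρ m)) ≤ X (A' ∪ ⋃ m ≥ n, A (ρ m)) := X_congr (by
      rw [diff_eq_empty.mpr]
      · exact measure_empty
      · intro z hz
        refine Or.inr ?_
        simp only [mem_iUnion]
        exact ⟨m, hm, hz⟩)
    exact h1 ((hub (ρ m)).mem i)
  have hfirst : ∀ i j, (P i y) (some (Sum.inl j)) = g i j := by
    intro i j
    have h1 : ∀ ε > 0, ‖(P i y) (some (Sum.inl j)) - g i j‖ ≤ ε := by
      intro ε hε
      obtain ⟨n, hn⟩ := (Metric.tendsto_atTop.mp (hg i j)) ε hε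
      refine lsc_ball ((PiLp.proj (𝕜 := ℝ) 2
        (fun _ : Idx d => Lp ℝ 2 (volume : Measure (E d))) (some (Sum.inl j))).comp (P i))
        (hy n) (g i j) ε fun m hm => ?_
      have h2 := (hn m hm).le
      rw [dist_eq_norm] at h2
      exact h2
    have h2 : ‖(P i y) (some (Sum.inl j)) - g i j‖ ≤ 0 :=
      le_of_forall_pos_le_add fun ε hε => by simpa using h1 ε hε
    exact sub_eq_zero.mp (norm_le_zero_iff.mp h2)
  have horth : ∀ i j, fb (P i y) (P j y) = if i = j then 1 else 0 := by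
    intro i j
    have h1 : Tendsto (fun n => fb (u (ρ n) i) (u (ρ n) j)) atTop (𝓝 (fb (P i y) (P j y))) := by
      unfold fb
      refine tendsto_finset_sum _ fun k _ => ?_
      rw [hfirst i k, hfirst j k]
      exact (hg i k).inner (hg j k)
    refine tendsto_nhds_unique h1 ?_
    refine tendsto_const_nhds.congr fun n => ?_
    exact ((hub (ρ n)).orth i j).symm
  rw [← hLl]
  refine lsc_concl hL (fun i => P i y) hmem horth fun c => ?_
  set T : PiLp 2 (fun _ : Fin h => HS d) →L[ℝ] Lp ℝ 2 (volume : Measure (E d)) :=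
    (lscLap d).comp (∑ i, c i • P i) with hT
  have hTz : ∀ z, T z = lap (∑ i, c i • P i z) := by
    intro z
    rw [hT, ContinuousLinearMap.comp_apply, lscLap_apply, ContinuousLinearMap.sum_apply]
    rfl
  have hcn : 0 ≤ ∑ i, c i ^ 2 := Finset.sum_nonneg fun i _ => sq_nonneg _
  have hbound : ∀ m, ‖T (x m) - 0‖ ≤ Real.sqrt (L * ∑ i, c i ^ 2) := by
    intro m
    rw [sub_zero, hTz]
    refine Real.le_sqrt_of_sq_le ?_
    have h1 : ‖lap (∑ i, c i • P i (x m))‖ ^ 2 = qa (∑ i, c i • u (ρ m) i) := rfl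
    rw [h1, lsc_qa_sum, lsc_sum_delta c (b (ρ m)) _ (fun i j => by
      rw [(hub (ρ m)).eig i _ ((hub (ρ m)).mem j), (hub (ρ m)).orth i j]), Finset.mul_sum]
    refine Finset.sum_le_sum fun i _ => ?_
    exact mul_le_mul_of_nonneg_right (hbL _ i) (sq_nonneg _)
  have h1 := lsc_ball T (hy 0) 0 _ fun m _ => hbound m
  rw [sub_zero, hTz] at h1
  have h2 : qa (∑ i, c i • P i y) ≤ Real.sqrt (L * ∑ i, c i ^ 2) ^ 2 :=
    pow_le_pow_left₀ (norm_nonneg _) h1 2
  rwa [Real.sq_sqrt (mul_nonneg hL hcn)] at h2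

end Pool.Agent.Lib.Buck
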