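import Pool.Agent.Lib.MP_17201e_an.Defs

/-!
Module PER for `MP_17201e_an`: basic properties of the perimeter.
-/

set_option autoImplicit false

open MeasureTheory Set Filter Topology
open scoped ENNReal ContDiff Pointwise

namespace Pool.Agent.Lib.Buck

/-- Admissible vector fields. -/
def PerAdm {d : ℕ} (F : E d → E d) : Prop :=
  ContDiff ℝ 1 F ∧ HasCompactSupport F ∧ ∀ x, ‖F x‖ ≤ 1

theorem per_le_of {d : ℕ} {A : Set (E d)} {F : E d → E d} (hF : PerAdm F) :
    ENNReal.ofReal (∫ x in A, dvg F x) ≤ per A :=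
  le_iSup₂_of_le F hF le_rfl

theorem per_iff {d : ℕ} {A : Set (E d)} {c : ℝ≥0∞} :
    per A ≤ c ↔ ∀ F : E d → E d, PerAdm F → ENNReal.ofReal (∫ x in A, dvg F x) ≤ c :=
  iSup₂_le_iff

theorem per_hasFDerivAt {d : ℕ} {F : E d → E d} (hF : ContDiff ℝ 1 F) (x : E d) :
    HasFDerivAt F (fderiv ℝ F x) x :=
  (hF.differentiable (by norm_num) x).hasFDerivAt

theorem per_dvg_continuous {d : ℕ} {F : E d → E d} (hF : ContDiff ℝ 1 F) :
    Continuous (dvg F) := by
  unfold dvg
  refine continuous_finsetSum _ fun i _ => ?_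
  have h1 : Continuous fun x => fderiv ℝ F x (EuclideanSpace.single i (1 : ℝ)) :=
    (hF.continuous_fderiv (by norm_num)).clm_apply continuous_const
  exact (EuclideanSpace.proj (𝕜 := ℝ) i).continuous.comp h1

theorem per_dvg_compact {d : ℕ} {F : E d → E d} (hc : HasCompactSupport F) :
    HasCompactSupport (dvg F) := by
  have h := (hc.fderiv (𝕜 := ℝ)).comp_left
    (g := fun L : E d →L[ℝ] E d => ∑ i, (L (EuclideanSpace.single i (1 : ℝ))) i) (by simp)
  exact h

theorem per_dvg_integrable {d : ℕ} {F : E d → E d} (hF : ContDiff ℝ 1 F)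
    (hc : HasCompactSupport F) : Integrable (dvg F) :=
  (per_dvg_continuous hF).integrable_of_hasCompactSupport (per_dvg_compact hc)

theorem per_integral_zero {d : ℕ} {F : E d → E d} (hF : ContDiff ℝ 1 F)
    (hc : HasCompactSupport F) : ∫ x, dvg F x = 0 := by
  unfold dvg
  have hcF : ∀ i : Fin d, Continuous fun x => (fderiv ℝ F x (EuclideanSpace.single i (1 : ℝ))) i := by
    intro i
    have h1 : Continuous fun x => fderiv ℝ F x (EuclideanSpace.single i (1 : ℝ)) :=
      (hF.continuous_fderiv (by norm_num)).clm_apply continuous_const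
    exact (EuclideanSpace.proj (𝕜 := ℝ) i).continuous.comp h1
  have hcs : ∀ i : Fin d,
      HasCompactSupport fun x => (fderiv ℝ F x (EuclideanSpace.single i (1 : ℝ))) i := by
    intro i
    exact (hc.fderiv (𝕜 := ℝ)).comp_left
      (g := fun L : E d →L[ℝ] E d => (L (EuclideanSpace.single i (1 : ℝ))) i) (by simp)
  rw [integral_finsetSum _ fun i _ => (hcF i).integrable_of_hasCompactSupport (hcs i)]
  refine Finset.sum_eq_zero fun i _ => ?_
  have hg : ContDiff ℝ 1 fun x => F x i :=
    (EuclideanSpace.proj (𝕜 := ℝ) i : E d →L[ℝ] ℝ).contDiff.comp hF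
  have hgc : HasCompactSupport fun x => F x i :=
    hc.comp_left (g := fun y : E d => y i) (by simp)
  have hgd : ∀ x, fderiv ℝ (fun x => F x i) x (EuclideanSpace.single i (1 : ℝ)) =
      (fderiv ℝ F x (EuclideanSpace.single i (1 : ℝ))) i := by
    intro x
    have h1 : HasFDerivAt (fun x => F x i)
        ((EuclideanSpace.proj (𝕜 := ℝ) i : E d →L[ℝ] ℝ).comp (fderiv ℝ F x)) x :=
      (EuclideanSpace.proj (𝕜 := ℝ) i : E d →L[ℝ] ℝ).hasFDerivAt.comp x
        (per_hasFDerivAt hF x)
    rw [h1.fderiv]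
    rfl
  have h := integral_mul_fderiv_eq_neg_fderiv_mul_of_integrable (𝕜 := ℝ) (E := E d)
    (μ := volume) (f := fun _ => (1 : ℝ)) (g := fun x => F x i)
    (v := EuclideanSpace.single i (1 : ℝ)) ?_ ?_ ?_ ?_ ?_
  · simp only [hgd, one_mul] at h
    rw [h]
    simp
  · simp
  · simp only [hgd, one_mul]
    exact (hcF i).integrable_of_hasCompactSupport (hcs i)
  · simp only [one_mul]
    exact hg.continuous.integrable_of_hasCompactSupport hgc
  · intro x _
    exact differentiableAt_const _
  · intro x _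
    exact hg.differentiable (by norm_num) x

theorem per_congr {d : ℕ} {A B : Set (E d)} (h : A =ᵐ[volume] B) : per A = per B := by
  unfold per
  congr! 4 with F hF
  rw [setIntegral_congr_set h]

theorem per_neg {d : ℕ} {F : E d → E d} (hF : PerAdm F) : PerAdm (fun x => -F x) :=
  ⟨hF.1.neg, hF.2.1.comp_left (g := fun y : E d => -y) (by simp), fun x => by
    rw [norm_neg]; exact hF.2.2 x⟩

theorem per_dvg_neg {d : ℕ} {F : E d → E d} (hF : ContDiff ℝ 1 F) (x : E d) :
    dvg (fun x => -F x) x = -dvg F x := by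
  unfold dvg
  have h1 : HasFDerivAt (fun x => -F x) (-fderiv ℝ F x) x := (per_hasFDerivAt hF x).neg
  rw [h1.fderiv, ← Finset.sum_neg_distrib]
  rfl

theorem per_compl_le {d : ℕ} {A : Set (E d)} (hA : MeasurableSet A) : per Aᶜ ≤ per A := by
  rw [per_iff]
  intro F hF
  refine le_trans (le_of_eq ?_) (per_le_of (per_neg hF))
  congr 1
  have h1 := integral_add_compl hA (per_dvg_integrable hF.1 hF.2.1)
  rw [per_integral_zero hF.1 hF.2.1] at h1
  simp only [per_dvg_neg hF.1]
  rw [integral_neg]
  linarith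

theorem per_compl {d : ℕ} {A : Set (E d)} (hA : MeasurableSet A) : per Aᶜ = per A := by
  refine le_antisymm (per_compl_le hA) ?_
  have h := per_compl_le hA.compl
  rwa [compl_compl] at h

theorem per_univ {d : ℕ} : per (univ : Set (E d)) = 0 := by
  rw [← nonpos_iff_eq_zero, per_iff]
  intro F hF
  rw [Measure.restrict_univ, per_integral_zero hF.1 hF.2.1, ENNReal.ofReal_zero]

theorem per_shift_le {d : ℕ} (z : E d) (A : Set (E d)) :
    per ((fun x => x + z) ⁻¹' A) ≤ per A := by
  rw [per_iff]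
  intro F hF
  have hG : PerAdm (fun x => F (x - z)) := by
    refine ⟨hF.1.comp (by fun_prop), ?_, fun x => hF.2.2 _⟩
    have h := hF.2.1.comp_homeomorph (Homeomorph.addRight (-z))
    simpa [sub_eq_add_neg, Function.comp_def] using h
  refine le_trans (le_of_eq ?_) (per_le_of hG)
  congr 1
  have h1 : ∀ x, dvg (fun x => F (x - z)) x = dvg F (x - z) := by
    intro x
    unfold dvg
    have h2 : HasFDerivAt (fun x => F (x - z)) (fderiv ℝ F (x - z)) x := by
      have h3 : HasFDerivAt (fun x : E d => x - z) (ContinuousLinearMap.id ℝ (E d)) x :=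
        (hasFDerivAt_id x).sub_const _
      have h4 := (per_hasFDerivAt hF.1 (x - z)).comp x h3
      rw [ContinuousLinearMap.comp_id] at h4
      exact h4
    rw [h2.fderiv]
  simp only [h1]
  have hmp : MeasurePreserving (fun x : E d => x + z) volume volume :=
    measurePreserving_add_right volume z
  have h5 := hmp.setIntegral_preimage_emb (MeasurableEquiv.addRight z).measurableEmbedding
    (fun x => dvg F (x - z)) A
  simp only [add_sub_cancel_right] at h5
  exact h5

theorem per_shift {d : ℕ} (z : E d) (A : Set (E d)) : per ((fun x => x + z) ⁻¹' A) = per A := by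
  refine le_antisymm (per_shift_le z A) ?_
  have h := per_shift_le (-z) ((fun x => x + z) ⁻¹' A)
  rw [← preimage_comp] at h
  have h2 : ((fun x : E d => x + z) ∘ fun x => x + -z) = id := by
    ext1 x
    simp
  rwa [h2, preimage_id] at h

theorem per_scale_le {d : ℕ} (hd : 1 ≤ d) {t : ℝ} (ht : 0 < t) (A : Set (E d)) :
    per ((fun x => t⁻¹ • x) ⁻¹' A) ≤ ENNReal.ofReal (t ^ (d - 1)) * per A := by
  rw [per_iff]
  intro F hF
  have hG : PerAdm (fun x => F (t • x)) := by
    refine ⟨hF.1.comp (by fun_prop), ?_, fun x => hF.2.2 _⟩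
    have h := hF.2.1.comp_homeomorph (Homeomorph.smulOfNeZero t ht.ne')
    exact h
  have h1 : ∀ x, dvg (fun x => F (t • x)) x = t * dvg F (t • x) := by
    intro x
    unfold dvg
    have h3 : HasFDerivAt (fun x : E d => t • x) (t • ContinuousLinearMap.id ℝ (E d)) x :=
      (hasFDerivAt_id x).const_smul t
    have h4 := (per_hasFDerivAt hF.1 (t • x)).comp x h3
    have h5 : fderiv ℝ (fun x => F (t • x)) x =
        (fderiv ℝ F (t • x)).comp (t • ContinuousLinearMap.id ℝ (E d)) := h4.fderiv
    rw [h5, Finset.mul_sum]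
    refine Finset.sum_congr rfl fun i _ => ?_
    simp
  have h2 := per_le_of (A := A) hG
  simp only [h1] at h2
  rw [integral_const_mul] at h2
  have h6 := Measure.setIntegral_comp_smul_of_pos (volume : Measure (E d)) (dvg F) A ht
  rw [preimage_smul_inv₀ ht.ne']
  rw [finrank_euclideanSpace, Fintype.card_fin, smul_eq_mul] at h6
  rw [h6] at h2
  have h7 : ∫ x in t • A, dvg F x = t ^ (d - 1) * (t * ((t ^ d)⁻¹ * ∫ x in t • A, dvg F x)) := by
    have h8 : t ^ d = t ^ (d - 1) * t := by
      rw [← pow_succ]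
      congr 1
      omega
    rw [h8]
    field_simp
  rw [h7, ENNReal.ofReal_mul (by positivity)]
  exact mul_le_mul_right h2 _

theorem per_scale {d : ℕ} (hd : 1 ≤ d) {t : ℝ} (ht : 0 < t) (A : Set (E d)) :
    per ((fun x => t⁻¹ • x) ⁻¹' A) = ENNReal.ofReal (t ^ (d - 1)) * per A := by
  refine le_antisymm (per_scale_le hd ht A) ?_
  have h := per_scale_le hd (inv_pos.2 ht) ((fun x => t⁻¹ • x) ⁻¹' A)
  rw [← preimage_comp] at h
  have h2 : ((fun x : E d => t⁻¹ • x) ∘ fun x => t⁻¹⁻¹ • x) = id := by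
    ext1 x
    simp [smul_smul, inv_mul_cancel₀ ht.ne']
  rw [h2, preimage_id] at h
  calc ENNReal.ofReal (t ^ (d - 1)) * per A ≤ ENNReal.ofReal (t ^ (d - 1)) *
        (ENNReal.ofReal (t⁻¹ ^ (d - 1)) * per ((fun x => t⁻¹ • x) ⁻¹' A)) :=
        mul_le_mul_right h _
    _ = per ((fun x => t⁻¹ • x) ⁻¹' A) := by
      rw [← mul_assoc, ← ENNReal.ofReal_mul (by positivity), ← mul_pow,
        mul_inv_cancel₀ ht.ne', one_pow, ENNReal.ofReal_one, one_mul]

theorem per_lsc {d : ℕ} (A : ℕ → Set (E d)) (A' : Set (E d)) (hA : ∀ n, MeasurableSet (A n))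
    (hA' : MeasurableSet A') (hlim : Tendsto (fun n => volume (symmDiff (A n) A')) atTop (𝓝 0))
    (c : ℝ≥0∞) (hc : ∀ n, per (A n) ≤ c) : per A' ≤ c := by
  rw [per_iff]
  intro F hF
  have hint := per_dvg_integrable hF.1 hF.2.1
  have h1 : Tendsto (fun n => ∫ x in symmDiff (A n) A', ‖dvg F x‖) atTop (𝓝 0) :=
    hint.norm.tendsto_setIntegral_nhds_zero hlim
  have h2 : ∀ n, |(∫ x in A n, dvg F x) - ∫ x in A', dvg F x| ≤
      ∫ x in symmDiff (A n) A', ‖dvg F x‖ := by
    intro n
    rw [← integral_indicator (hA n), ← integral_indicator hA', ← integral_sub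
      (hint.indicator (hA n)) (hint.indicator hA'), ← integral_indicator
      ((hA n).symmDiff hA'), ← Real.norm_eq_abs]
    refine (norm_integral_le_integral_norm _).trans (le_of_eq ?_)
    congr 1
    ext x
    by_cases h3 : x ∈ A n <;> by_cases h4 : x ∈ A' <;> simp [h3, h4, mem_symmDiff]
  have h3 : Tendsto (fun n => ∫ x in A n, dvg F x) atTop (𝓝 (∫ x in A', dvg F x)) := by
    rw [tendsto_iff_dist_tendsto_zero]
    refine squeeze_zero (fun n => dist_nonneg) (fun n => ?_) h1
    rw [Real.dist_eq]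
    exact h2 n
  have h4 := (ENNReal.continuous_ofReal.tendsto _).comp h3
  exact le_of_tendsto h4 (Eventually.of_forall fun n => (per_le_of hF).trans (hc n))

/-- The cutoff in the direction of the coordinate `j`. -/
noncomputable def perChi {d : ℕ} (j : Fin d) (a b : ℝ) (x : E d) : ℝ :=
  Real.smoothTransition ((b - x j) / (b - a))

theorem perChi_contDiff {d : ℕ} (j : Fin d) (a b : ℝ) : ContDiff ℝ 1 (perChi j a b) := by
  unfold perChi
  refine Real.smoothTransition.contDiff.comp ?_
  have h : ContDiff ℝ 1 fun x : E d => x j :=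
    (EuclideanSpace.proj (𝕜 := ℝ) j : E d →L[ℝ] ℝ).contDiff
  exact (contDiff_const.sub h).div_const _

theorem perChi_one {d : ℕ} (j : Fin d) {a b : ℝ} (hab : a < b) (x : E d) (hx : x j ≤ a) :
    perChi j a b x = 1 := by
  unfold perChi
  apply Real.smoothTransition.one_of_one_le
  rw [one_le_div (by linarith)]
  linarith

theorem perChi_zero {d : ℕ} (j : Fin d) {a b : ℝ} (hab : a < b) (x : E d) (hx : b ≤ x j) :
    perChi j a b x = 0 := by
  unfold perChi
  apply Real.smoothTransition.zero_of_nonpos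
  exact div_nonpos_of_nonpos_of_nonneg (by linarith) (by linarith)

/-- The glued field. -/
noncomputable def perGlue {d : ℕ} (j : Fin d) (a b : ℝ) (F G : E d → E d) (x : E d) : E d :=
  perChi j a b x • F x + (1 - perChi j a b x) • G x

theorem perGlue_adm {d : ℕ} (j : Fin d) (a b : ℝ) {F G : E d → E d} (hF : PerAdm F)
    (hG : PerAdm G) : PerAdm (perGlue j a b F G) := by
  have hc := perChi_contDiff j a b
  refine ⟨?_, ?_, ?_⟩
  · exact (hc.smul hF.1).add ((contDiff_const.sub hc).smul hG.1)
  · exact (HasCompactSupport.smul_left (f := perChi j a b) hF.2.1).add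
      (HasCompactSupport.smul_left (f := fun x => 1 - perChi j a b x) hG.2.1)
  · intro x
    have h0 : 0 ≤ perChi j a b x := Real.smoothTransition.nonneg _
    have h1 : perChi j a b x ≤ 1 := Real.smoothTransition.le_one _
    calc ‖perGlue j a b F G x‖ ≤ ‖perChi j a b x • F x‖ + ‖(1 - perChi j a b x) • G x‖ :=
        norm_add_le _ _
      _ = perChi j a b x * ‖F x‖ + (1 - perChi j a b x) * ‖G x‖ := by
        rw [norm_smul, norm_smul, Real.norm_eq_abs, Real.norm_eq_abs, abs_of_nonneg h0,
          abs_of_nonneg (by linarith)]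
      _ ≤ perChi j a b x * 1 + (1 - perChi j a b x) * 1 :=
        add_le_add (mul_le_mul_of_nonneg_left (hF.2.2 x) h0)
          (mul_le_mul_of_nonneg_left (hG.2.2 x) (by linarith))
      _ = 1 := by ring

theorem perGlue_left {d : ℕ} (j : Fin d) {a b : ℝ} (hab : a < b) (F G : E d → E d) (x : E d)
    (hx : x j < a) : dvg (perGlue j a b F G) x = dvg F x := by
  have h : perGlue j a b F G =ᶠ[𝓝 x] F := by
    have hc : Continuous fun y : E d => y j :=
      (EuclideanSpace.proj (𝕜 := ℝ) j : E d →L[ℝ] ℝ).continuous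
    filter_upwards [(isOpen_Iio.preimage hc).mem_nhds (show x ∈ _ from hx)] with y hy
    unfold perGlue
    rw [perChi_one j hab y (le_of_lt hy)]
    simp
  unfold dvg
  rw [h.fderiv_eq]

theorem perGlue_right {d : ℕ} (j : Fin d) {a b : ℝ} (hab : a < b) (F G : E d → E d) (x : E d)
    (hx : b < x j) : dvg (perGlue j a b F G) x = dvg G x := by
  have h : perGlue j a b F G =ᶠ[𝓝 x] G := by
    have hc : Continuous fun y : E d => y j :=
      (EuclideanSpace.proj (𝕜 := ℝ) j : E d →L[ℝ] ℝ).continuous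
    filter_upwards [(isOpen_Ioi.preimage hc).mem_nhds (show x ∈ _ from hx)] with y hy
    unfold perGlue
    rw [perChi_zero j hab y (le_of_lt hy)]
    simp
  unfold dvg
  rw [h.fderiv_eq]

theorem perAdm_zero {d : ℕ} : PerAdm (fun _ : E d => (0 : E d)) :=
  ⟨contDiff_const, HasCompactSupport.zero, fun x => by simp⟩

theorem per_nonneg_field {d : ℕ} (A : Set (E d)) {F : E d → E d} (hF : PerAdm F) :
    ∃ G : E d → E d, PerAdm G ∧ 0 ≤ ∫ x in A, dvg G x ∧
      ENNReal.ofReal (∫ x in A, dvg F x) = ENNReal.ofReal (∫ x in A, dvg G x) := by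
  by_cases h : 0 ≤ ∫ x in A, dvg F x
  · exact ⟨F, hF, h, rfl⟩
  · refine ⟨fun _ => 0, perAdm_zero, ?_, ?_⟩
    · have h1 : ∀ x, dvg (fun _ : E d => (0 : E d)) x = 0 := by
        intro x
        unfold dvg
        simp
      simp [h1]
    · have h1 : ∀ x, dvg (fun _ : E d => (0 : E d)) x = 0 := by
        intro x
        unfold dvg
        simp
      rw [ENNReal.ofReal_of_nonpos (not_le.1 h).le]
      simp [h1]

theorem per_union_slab {d : ℕ} {A B : Set (E d)} (hA : MeasurableSet A) (hB : MeasurableSet B)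
    (j : Fin d) {a b : ℝ} (hab : a < b) (hAa : ∀ x ∈ A, x j ≤ a) (hBb : ∀ x ∈ B, b ≤ x j) :
    per (A ∪ B) = per A + per B := by
  have hdisj : Disjoint A B := by
    rw [Set.disjoint_left]
    intro x hx hx'
    have h1 := hAa x hx
    have h2 := hBb x hx'
    linarith
  apply le_antisymm
  · rw [per_iff]
    intro F hF
    have hint := per_dvg_integrable hF.1 hF.2.1
    rw [setIntegral_union hdisj hB hint.integrableOn hint.integrableOn]
    exact ENNReal.ofReal_add_le.trans (add_le_add (per_le_of hF) (per_le_of hF))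
  · unfold per
    refine ENNReal.biSup_add_biSup_le' (p := fun F : E d → E d => PerAdm F)
      (q := fun F : E d → E d => PerAdm F) ⟨_, perAdm_zero⟩ ⟨_, perAdm_zero⟩ ?_
    intro F hF G hG
    obtain ⟨F', hF', hF0, hFe⟩ := per_nonneg_field A hF
    obtain ⟨G', hG', hG0, hGe⟩ := per_nonneg_field B hG
    rw [hFe, hGe, ← ENNReal.ofReal_add hF0 hG0]
    set a' : ℝ := (2 * a + b) / 3 with ha'
    set b' : ℝ := (a + 2 * b) / 3 with hb'
    have hab' : a' < b' := by rw [ha', hb']; linarith
    have haa' : a < a' := by rw [ha']; linarith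
    have hbb' : b' < b := by rw [hb']; linarith
    have hH := perGlue_adm j a' b' hF' hG'
    refine le_trans (le_of_eq ?_) (per_le_of hH)
    congr 1
    have hint := per_dvg_integrable hH.1 hH.2.1
    rw [setIntegral_union hdisj hB hint.integrableOn hint.integrableOn]
    congr 1
    · refine setIntegral_congr_fun hA fun x hx => ?_
      exact (perGlue_left j hab' F' G' x (lt_of_le_of_lt (hAa x hx) haa')).symm
    · refine setIntegral_congr_fun hB fun x hx => ?_
      exact (perGlue_right j hab' F' G' x (lt_of_lt_of_le hbb' (hBb x hx))).symm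

end Pool.Agent.Lib.Buck
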