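import Pool.Agent.Lib.MP_17201e_an.Defs

/-!
Module PERT for `MP_17201e_an`: translation estimate for sets of finite perimeter.
-/

set_option autoImplicit false

open MeasureTheory Set Filter Topology
open scoped ENNReal ContDiff Convolution

namespace Pool.Agent.Lib.Buck

/-- The average of `ψ` along the segment `[y - z, y]`. -/
noncomputable def pertAvg {d : ℕ} (ψ : E d → ℝ) (z y : E d) : ℝ :=
  ∫ t in (0 : ℝ)..1, ψ (y - t • z)

theorem pertAvg_hasFDerivAt {d : ℕ} {ψ : E d → ℝ} (hψ : ContDiff ℝ 1 ψ)
    (hc : HasCompactSupport ψ) (z y : E d) :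
    HasFDerivAt (pertAvg ψ z) (∫ t in (0 : ℝ)..1, fderiv ℝ ψ (y - t • z)) y := by
  obtain ⟨C, hC⟩ := (hc.fderiv (𝕜 := ℝ)).exists_bound_of_continuous
    (hψ.continuous_fderiv (by norm_num))
  have hd : ∀ x, HasFDerivAt ψ (fderiv ℝ ψ x) x := fun x =>
    (hψ.differentiable (by norm_num) x).hasFDerivAt
  have hcont : ∀ x : E d, Continuous fun t : ℝ => ψ (x - t • z) := fun x =>
    hψ.continuous.comp (by fun_prop)
  have hcont' : ∀ x : E d, Continuous fun t : ℝ => fderiv ℝ ψ (x - t • z) := fun x =>
    (hψ.continuous_fderiv (by norm_num)).comp (by fun_prop)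
  have h := intervalIntegral.hasFDerivAt_integral_of_dominated_of_fderiv_le (𝕜 := ℝ)
    (μ := volume) (a := 0) (b := 1) (F := fun (x : E d) (t : ℝ) => ψ (x - t • z))
    (F' := fun (x : E d) (t : ℝ) => fderiv ℝ ψ (x - t • z)) (x₀ := y) (s := univ)
    (bound := fun _ => C) Filter.univ_mem
    (Eventually.of_forall fun x => (hcont x).aestronglyMeasurable)
    ((hcont y).intervalIntegrable _ _)
    ((hcont' y).aestronglyMeasurable)
    (Eventually.of_forall fun t _ x _ => hC _)
    (by simp)
    (Eventually.of_forall fun t _ x _ => ?_)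
  · exact h
  · have h1 : HasFDerivAt (fun x : E d => x - t • z) (ContinuousLinearMap.id ℝ (E d)) x :=
      (hasFDerivAt_id x).sub_const _
    have h2 := (hd (x - t • z)).comp x h1
    rw [ContinuousLinearMap.comp_id] at h2
    exact h2

theorem pertAvg_contDiff {d : ℕ} {ψ : E d → ℝ} (hψ : ContDiff ℝ 1 ψ)
    (hc : HasCompactSupport ψ) (z : E d) : ContDiff ℝ 1 (pertAvg ψ z) := by
  rw [contDiff_one_iff_fderiv]
  refine ⟨fun y => (pertAvg_hasFDerivAt hψ hc z y).differentiableAt, ?_⟩
  have h : fderiv ℝ (pertAvg ψ z) = fun y => ∫ t in (0 : ℝ)..1, fderiv ℝ ψ (y - t • z) :=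
    funext fun y => (pertAvg_hasFDerivAt hψ hc z y).fderiv
  rw [h]
  refine intervalIntegral.continuous_parametric_intervalIntegral_of_continuous' ?_ 0 1
  exact (hψ.continuous_fderiv (by norm_num)).comp (by fun_prop)

theorem pertAvg_fderiv {d : ℕ} {ψ : E d → ℝ} (hψ : ContDiff ℝ 1 ψ)
    (hc : HasCompactSupport ψ) (z y : E d) :
    fderiv ℝ (pertAvg ψ z) y z = ψ y - ψ (y - z) := by
  rw [(pertAvg_hasFDerivAt hψ hc z y).fderiv]
  have hcont' : Continuous fun t : ℝ => fderiv ℝ ψ (y - t • z) :=
    (hψ.continuous_fderiv (by norm_num)).comp (by fun_prop)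
  rw [ContinuousLinearMap.intervalIntegral_apply (hcont'.intervalIntegrable _ _)]
  have h1 : ∀ t : ℝ, HasDerivAt (fun t : ℝ => ψ (y - t • z)) (-(fderiv ℝ ψ (y - t • z) z)) t := by
    intro t
    have h2 : HasDerivAt (fun t : ℝ => y - t • z) (-z) t := by
      have h3 := ((hasDerivAt_id t).smul_const z).const_sub y
      simpa using h3
    have h4 := ((hψ.differentiable (by norm_num) (y - t • z)).hasFDerivAt).comp_hasDerivAt t h2
    rw [map_neg] at h4
    exact h4
  have h5 := intervalIntegral.integral_eq_sub_of_hasDerivAt (a := 0) (b := 1)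
    (fun t _ => h1 t) ?_
  · rw [intervalIntegral.integral_neg] at h5
    simp only [one_smul, zero_smul, sub_zero] at h5
    linarith
  · exact ((hcont'.clm_apply continuous_const).neg).intervalIntegrable _ _

theorem pertAvg_le {d : ℕ} {ψ : E d → ℝ} (hb : ∀ x, |ψ x| ≤ 1) (z y : E d) :
    |pertAvg ψ z y| ≤ 1 := by
  have h := intervalIntegral.norm_integral_le_of_norm_le_const (a := 0) (b := 1) (C := 1)
    (f := fun t : ℝ => ψ (y - t • z)) (fun t _ => hb _)
  simpa [pertAvg] using h

theorem pertAvg_compact {d : ℕ} {ψ : E d → ℝ} (hc : HasCompactSupport ψ) (z : E d) :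
    HasCompactSupport (pertAvg ψ z) := by
  have hK : IsCompact ((fun p : E d × ℝ => p.1 + p.2 • z) '' (tsupport ψ ×ˢ Icc (0 : ℝ) 1)) :=
    (hc.isCompact.prod isCompact_Icc).image (by fun_prop)
  refine HasCompactSupport.intro hK fun y hy => ?_
  unfold pertAvg
  rw [intervalIntegral.integral_congr (g := fun _ => (0 : ℝ))]
  · simp
  · intro t ht
    rw [uIcc_of_le zero_le_one] at ht
    by_contra hne
    apply hy
    refine ⟨(y - t • z, t), ⟨subset_tsupport _ hne, ht⟩, ?_⟩
    simp

theorem pert_field {d : ℕ} {ψ : E d → ℝ} (hψ : ContDiff ℝ 1 ψ)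
    (hc : HasCompactSupport ψ) (hb : ∀ x, |ψ x| ≤ 1) (z : E d) :
    ∃ Φ : E d → E d, ContDiff ℝ 1 Φ ∧ HasCompactSupport Φ ∧ (∀ x, ‖Φ x‖ ≤ ‖z‖) ∧
      ∀ x, dvg Φ x = ψ (x - z) - ψ x := by
  refine ⟨fun y => -(pertAvg ψ z y • z), ?_, ?_, ?_, ?_⟩
  · exact ((pertAvg_contDiff hψ hc z).smul contDiff_const).neg
  · have h := (pertAvg_compact hc z).comp_left (g := fun r : ℝ => -(r • z)) (by simp)
    exact h
  · intro x
    rw [norm_neg, norm_smul, Real.norm_eq_abs]
    calc |pertAvg ψ z x| * ‖z‖ ≤ 1 * ‖z‖ :=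
        mul_le_mul_of_nonneg_right (pertAvg_le hb z x) (norm_nonneg _)
      _ = ‖z‖ := one_mul _
  · intro x
    have h1 : HasFDerivAt (fun y => -(pertAvg ψ z y • z))
        (-((fderiv ℝ (pertAvg ψ z) x).smulRight z)) x :=
      (((pertAvg_contDiff hψ hc z).differentiable (by norm_num) x).hasFDerivAt.smul_const z).neg
    unfold dvg
    rw [h1.fderiv]
    have h2 : ∀ i : Fin d, ((-((fderiv ℝ (pertAvg ψ z) x).smulRight z))
        (EuclideanSpace.single i (1 : ℝ))) i =
        -(fderiv ℝ (pertAvg ψ z) x (z i • EuclideanSpace.single i (1 : ℝ))) := by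
      intro i
      simp [mul_comm]
    rw [Finset.sum_congr rfl fun i _ => h2 i, Finset.sum_neg_distrib, ← map_sum]
    have h3 : ∑ i : Fin d, z i • (EuclideanSpace.single i (1 : ℝ) : E d) = z := by
      ext j
      simp [Finset.sum_apply, Pi.single_apply]
    rw [h3, pertAvg_fderiv hψ hc]
    ring

theorem pert_le_per {d : ℕ} {A : Set (E d)} (F : E d → E d) (hF : ContDiff ℝ 1 F)
    (hc : HasCompactSupport F) (M : ℝ) (hM : 0 < M) (hb : ∀ x, ‖F x‖ ≤ M) :
    ENNReal.ofReal (∫ x in A, dvg F x) ≤ ENNReal.ofReal M * per A := by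
  have h1 : ENNReal.ofReal (∫ x in A, dvg (fun x => M⁻¹ • F x) x) ≤ per A := by
    unfold per
    refine le_iSup₂_of_le (fun x => M⁻¹ • F x) ⟨hF.const_smul _, ?_, ?_⟩ le_rfl
    · exact hc.comp_left (g := fun r : E d => M⁻¹ • r) (by simp)
    · intro x
      rw [norm_smul, norm_inv, Real.norm_eq_abs, abs_of_pos hM]
      rw [inv_mul_le_iff₀ hM, mul_one]
      exact hb x
  have h2 : ∀ x, dvg (fun x => M⁻¹ • F x) x = M⁻¹ * dvg F x := by
    intro x
    unfold dvg
    have h3 : HasFDerivAt (fun x => M⁻¹ • F x) (M⁻¹ • fderiv ℝ F x) x :=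
      (hF.differentiable (by norm_num) x).hasFDerivAt.const_smul M⁻¹
    rw [h3.fderiv, Finset.mul_sum]
    rfl
  simp only [h2] at h1
  rw [integral_const_mul] at h1
  have h4 : ∫ x in A, dvg F x = M * (M⁻¹ * ∫ x in A, dvg F x) := by
    field_simp
  rw [h4, ENNReal.ofReal_mul hM.le]
  exact mul_le_mul_right h1 _

/-- The difference of the two indicator functions. -/
noncomputable def pertF {d : ℕ} (A : Set (E d)) (z x : E d) : ℝ :=
  A.indicator 1 (x + z) - A.indicator 1 x

theorem pertF_le {d : ℕ} (A : Set (E d)) (z x : E d) : |pertF A z x| ≤ 1 := by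
  unfold pertF
  by_cases h1 : x + z ∈ A <;> by_cases h2 : x ∈ A <;> simp [h1, h2]

theorem pertF_abs {d : ℕ} (A : Set (E d)) (z x : E d) :
    pertF A z x * pertF A z x = (symmDiff ((fun x => x + z) ⁻¹' A) A).indicator 1 x := by
  unfold pertF
  by_cases h1 : x + z ∈ A <;> by_cases h2 : x ∈ A <;> simp [h1, h2, mem_symmDiff]

theorem pertF_meas {d : ℕ} {A : Set (E d)} (hA : MeasurableSet A) (z : E d) :
    Measurable (pertF A z) := by
  unfold pertF
  exact ((measurable_one.indicator hA).comp (measurable_add_const z)).sub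
    (measurable_one.indicator hA)

/-- Step 1. -/
theorem pert_step {d : ℕ} {A : Set (E d)} (hA : MeasurableSet A) {z : E d} (hz : z ≠ 0)
    {ψ : E d → ℝ} (hψ : ContDiff ℝ 1 ψ)
    (hc : HasCompactSupport ψ) (hb : ∀ x, |ψ x| ≤ 1) :
    ENNReal.ofReal (∫ x, pertF A z x * ψ x) ≤ ENNReal.ofReal ‖z‖ * per A := by
  obtain ⟨Φ, h1, h2, h3, h4⟩ := pert_field hψ hc hb z
  have h5 := pert_le_per (A := A) Φ h1 h2 ‖z‖ (norm_pos_iff.2 hz) h3
  have hint : Integrable ψ := hψ.continuous.integrable_of_hasCompactSupport hc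
  have hint2 : Integrable (fun x => ψ (x - z)) := hint.comp_sub_right z
  have h6 : ∫ x, pertF A z x * ψ x = ∫ x in A, dvg Φ x := by
    simp only [h4]
    rw [integral_sub hint2.integrableOn hint.integrableOn]
    have h7 : ∀ x, pertF A z x * ψ x = (A.indicator (fun x => ψ (x - z))) (x + z) -
        (A.indicator ψ) x := by
      intro x
      unfold pertF
      by_cases h1 : x + z ∈ A <;> by_cases h2 : x ∈ A <;> simp [h1, h2]
    simp only [h7]
    rw [integral_sub]
    · rw [integral_add_right_eq_self (fun x => (A.indicator (fun x => ψ (x - z))) x) z,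
        integral_indicator hA, integral_indicator hA]
    · exact (hint2.indicator hA).comp_add_right z
    · exact hint.indicator hA
  rw [h6]
  exact h5

/-- The truncated function. -/
noncomputable def pertG {d : ℕ} (A : Set (E d)) (z : E d) (R : ℝ) : E d → ℝ :=
  (Metric.closedBall 0 R).indicator (pertF A z)

theorem pertG_le {d : ℕ} (A : Set (E d)) (z : E d) (R : ℝ) (x : E d) : |pertG A z R x| ≤ 1 := by
  unfold pertG
  by_cases h : x ∈ Metric.closedBall (0 : E d) R
  · rw [indicator_of_mem h]; exact pertF_le A z x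
  · rw [indicator_of_notMem h]; simp

theorem pertG_int {d : ℕ} {A : Set (E d)} (hA : MeasurableSet A) (z : E d) (R : ℝ) :
    Integrable (pertG A z R) := by
  unfold pertG
  rw [integrable_indicator_iff Metric.isClosed_closedBall.measurableSet]
  refine Measure.integrableOn_of_bounded (M := 1) ?_ (pertF_meas hA z).aestronglyMeasurable ?_
  · exact (isCompact_closedBall 0 R).measure_lt_top.ne
  · exact Eventually.of_forall fun x => pertF_le A z x

theorem pertG_compact {d : ℕ} (A : Set (E d)) (z : E d) (R : ℝ) :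
    HasCompactSupport (pertG A z R) :=
  HasCompactSupport.intro (isCompact_closedBall 0 R) fun x hx => by
    unfold pertG
    rw [indicator_of_notMem hx]

/-- A sequence of bump functions. -/
noncomputable def pertBump (d : ℕ) (n : ℕ) : ContDiffBump (0 : E d) where
  rIn := 1 / (2 * (n + 1 : ℝ))
  rOut := 1 / (n + 1 : ℝ)
  rIn_pos := by positivity
  rIn_lt_rOut := by
    apply one_div_lt_one_div_of_lt
    · positivity
    · have : (0 : ℝ) < n + 1 := by positivity
      linarith

/-- The mollified function. -/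
noncomputable def pertM {d : ℕ} (A : Set (E d)) (z : E d) (R : ℝ) (n : ℕ) : E d → ℝ :=
  (pertBump d n).normed volume ⋆[ContinuousLinearMap.lsmul ℝ ℝ, volume] (pertG A z R)

theorem pertM_tendsto {d : ℕ} {A : Set (E d)} (hA : MeasurableSet A) (z : E d) (R : ℝ) :
    ∀ᵐ x, Tendsto (fun n => pertM A z R n x) atTop (𝓝 (pertG A z R x)) := by
  unfold pertM
  refine ContDiffBump.ae_convolution_tendsto_right_of_locallyIntegrable (K := 2) ?_ ?_
    (pertG_int hA z R).locallyIntegrable
  · exact tendsto_one_div_add_atTop_nhds_zero_nat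
  · refine Eventually.of_forall fun n => ?_
    change 1 / (n + 1 : ℝ) ≤ 2 * (1 / (2 * (n + 1 : ℝ)))
    have : (0 : ℝ) < n + 1 := by positivity
    field_simp
    exact le_rfl

theorem pertM_contDiff {d : ℕ} {A : Set (E d)} (hA : MeasurableSet A) (z : E d) (R : ℝ)
    (n : ℕ) : ContDiff ℝ 1 (pertM A z R n) := by
  have h := ((pertBump d n).hasCompactSupport_normed (μ := volume)).contDiff_convolution_left
    (ContinuousLinearMap.lsmul ℝ ℝ) (n := 1) ((pertBump d n).contDiff_normed)
    (pertG_int hA z R).locallyIntegrable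
  exact h

theorem pertM_compact {d : ℕ} (A : Set (E d)) (z : E d) (R : ℝ)
    (n : ℕ) : HasCompactSupport (pertM A z R n) :=
  HasCompactSupport.convolution _ ((pertBump d n).hasCompactSupport_normed)
    (pertG_compact A z R)

theorem pertM_le {d : ℕ} (A : Set (E d)) (z : E d) (R : ℝ) (n : ℕ) (x : E d) :
    |pertM A z R n x| ≤ 1 := by
  have h1 : pertM A z R n x = ∫ t, (pertBump d n).normed volume t * pertG A z R (x - t) := rfl
  rw [h1, ← Real.norm_eq_abs]
  calc ‖∫ t, (pertBump d n).normed volume t * pertG A z R (x - t)‖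
      ≤ ∫ t, (pertBump d n).normed volume t := by
        refine norm_integral_le_of_norm_le ((pertBump d n).integrable_normed) ?_
        refine Eventually.of_forall fun t => ?_
        rw [norm_mul, Real.norm_eq_abs, Real.norm_eq_abs,
          abs_of_nonneg ((pertBump d n).nonneg_normed t)]
        exact mul_le_of_le_one_right ((pertBump d n).nonneg_normed t) (pertG_le A z R _)
    _ = 1 := (pertBump d n).integral_normed

theorem pertM_supp {d : ℕ} (A : Set (E d)) (z : E d) (R : ℝ) (n : ℕ) (x : E d)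
    (hx : x ∉ Metric.closedBall (0 : E d) (R + 1)) : pertM A z R n x = 0 := by
  have h1 : pertM A z R n x = ∫ t, (pertBump d n).normed volume t * pertG A z R (x - t) := rfl
  rw [h1]
  have h2 : ∀ t, (pertBump d n).normed volume t * pertG A z R (x - t) = 0 := by
    intro t
    by_cases ht : t ∈ Metric.ball (0 : E d) (pertBump d n).rOut
    · have h3 : (pertBump d n).rOut ≤ 1 := by
        change 1 / (n + 1 : ℝ) ≤ 1
        rw [div_le_one (by positivity)]
        have : (0 : ℝ) ≤ n := by positivity
        linarith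
      have h4 : x - t ∉ Metric.closedBall (0 : E d) R := by
        intro h5
        apply hx
        rw [mem_closedBall_zero_iff] at h5 ⊢
        rw [mem_ball_zero_iff] at ht
        have h6 : ‖x‖ ≤ ‖x - t‖ + ‖t‖ := by
          have := norm_add_le (x - t) t
          rwa [sub_add_cancel] at this
        linarith
      unfold pertG
      rw [indicator_of_notMem h4, mul_zero]
    · have h3 : (pertBump d n).normed volume t = 0 := by
        have h4 : t ∉ Function.support ((pertBump d n).normed volume) := by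
          rw [(pertBump d n).support_normed_eq]
          exact ht
        simpa using h4
      rw [h3, zero_mul]
  simp [h2]

theorem pertM_lim {d : ℕ} {A : Set (E d)} (hA : MeasurableSet A) (z : E d) (R : ℝ) :
    Tendsto (fun n => ∫ x, pertF A z x * pertM A z R n x) atTop
      (𝓝 (∫ x, pertF A z x * pertG A z R x)) := by
  refine tendsto_integral_of_dominated_convergence
    ((Metric.closedBall (0 : E d) (R + 1)).indicator 1) ?_ ?_ ?_ ?_
  · intro n
    exact (pertF_meas hA z).aestronglyMeasurable.mul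
      (pertM_contDiff hA z R n).continuous.aestronglyMeasurable
  · rw [integrable_indicator_iff Metric.isClosed_closedBall.measurableSet]
    exact integrableOn_const (isCompact_closedBall (0 : E d) (R + 1)).measure_lt_top.ne
  · intro n
    refine Eventually.of_forall fun x => ?_
    by_cases hx : x ∈ Metric.closedBall (0 : E d) (R + 1)
    · rw [indicator_of_mem hx, norm_mul, Real.norm_eq_abs, Real.norm_eq_abs]
      exact mul_le_one₀ (pertF_le A z x) (abs_nonneg _) (pertM_le A z R n x)
    · rw [indicator_of_notMem hx, pertM_supp A z R n x hx, mul_zero, norm_zero]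
  · filter_upwards [pertM_tendsto hA z R] with x hx
    exact hx.const_mul _

theorem pert_ball {d : ℕ} {A : Set (E d)} (hA : MeasurableSet A) {z : E d} (hz : z ≠ 0)
    (R : ℝ) : volume (symmDiff ((fun x => x + z) ⁻¹' A) A ∩ Metric.closedBall 0 R) ≤
      ENNReal.ofReal ‖z‖ * per A := by
  have hS : MeasurableSet (symmDiff ((fun x => x + z) ⁻¹' A) A) :=
    (hA.preimage (measurable_add_const z)).symmDiff hA
  have h1 : ENNReal.ofReal (∫ x, pertF A z x * pertG A z R x) ≤ ENNReal.ofReal ‖z‖ * per A := by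
    have h2 := (ENNReal.continuous_ofReal.tendsto _).comp (pertM_lim hA z R)
    refine le_of_tendsto h2 (Eventually.of_forall fun n => ?_)
    exact pert_step hA hz (pertM_contDiff hA z R n) (pertM_compact A z R n) (pertM_le A z R n)
  have h3 : ∀ x, pertF A z x * pertG A z R x =
      (symmDiff ((fun x => x + z) ⁻¹' A) A ∩ Metric.closedBall 0 R).indicator 1 x := by
    intro x
    unfold pertG
    by_cases hx : x ∈ Metric.closedBall (0 : E d) R
    · rw [indicator_of_mem hx, pertF_abs]
      by_cases h4 : x ∈ symmDiff ((fun x => x + z) ⁻¹' A) A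
      · rw [indicator_of_mem h4, indicator_of_mem (mem_inter h4 hx)]
      · rw [indicator_of_notMem h4, indicator_of_notMem fun h => h4 h.1]
    · rw [indicator_of_notMem hx, mul_zero, indicator_of_notMem fun h => hx h.2]
  simp only [h3] at h1
  rw [integral_indicator_one (hS.inter Metric.isClosed_closedBall.measurableSet)] at h1
  rw [Measure.real, ENNReal.ofReal_toReal] at h1
  · exact h1
  · exact ((measure_mono inter_subset_right).trans_lt
      (isCompact_closedBall (0 : E d) R).measure_lt_top).ne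

theorem per_transl {d : ℕ} {A : Set (E d)} (hA : MeasurableSet A) (z : E d) :
    volume (symmDiff ((fun x => x + z) ⁻¹' A) A) ≤ ENNReal.ofReal ‖z‖ * per A := by
  by_cases hz : z = 0
  · subst hz
    simp
  · have h1 : symmDiff ((fun x => x + z) ⁻¹' A) A =
        ⋃ n : ℕ, symmDiff ((fun x => x + z) ⁻¹' A) A ∩ Metric.closedBall 0 (n : ℝ) := by
      rw [← inter_iUnion, Metric.iUnion_closedBall_nat, inter_univ]
    rw [h1, Monotone.measure_iUnion]
    · exact iSup_le fun n => pert_ball hA hz n
    · intro m n hmn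
      refine inter_subset_inter_right _ (Metric.closedBall_subset_closedBall ?_)
      exact_mod_cast hmn

end Pool.Agent.Lib.Buck
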