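import Pool.Agent.Lib.MP_17201e_an.Defs
import Pool.Agent.Lib.MP_17201e_an.PerTransl
import Pool.Agent.Lib.MP_17201e_an.Riesz

set_option autoImplicit false

open MeasureTheory Set Filter Topology
open scoped ENNReal ContDiff

namespace Pool.Agent.Lib.Buck

theorem compact_sets {d : ℕ} (hd : 1 ≤ d) (R : ℝ) (A : ℕ → Set (E d))
    (hA : ∀ n, MeasurableSet (A n)) (hAR : ∀ n, A n ⊆ Metric.ball 0 R) (c : ℝ≥0∞) (hc : c < ⊤)
    (hper : ∀ n, per (A n) ≤ c) :
    ∃ σ : ℕ → ℕ, StrictMono σ ∧ ∃ A' : Set (E d), MeasurableSet A' ∧ A' ⊆ Metric.ball 0 R ∧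
      Tendsto (fun n => volume (symmDiff (A (σ n)) A')) atTop (𝓝 0) := by
  have hfin : ∀ n, volume (A n) ≠ ⊤ := fun n =>
    (lt_of_le_of_lt (measure_mono (hAR n)) measure_ball_lt_top).ne
  set f : ℕ → Lp ℝ 2 (volume : Measure (E d)) := fun n => indicatorConstLp 2 (hA n) (hfin n) (1 : ℝ)
    with hf
  have hfe : ∀ n, ∀ᵐ x, f n x = (A n).indicator (fun _ => (1 : ℝ)) x := fun n =>
    indicatorConstLp_coeFn
  have hBn : ∀ n, ‖f n‖ ≤ Real.sqrt (volume.real (Metric.ball (0 : E d) R)) := by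
    intro n
    refine Real.le_sqrt_of_sq_le ?_
    rw [← real_inner_self_eq_norm_sq, hf]
    simp only
    rw [L2.real_inner_indicatorConstLp_one_indicatorConstLp_one _ _ (hfin n) (hfin n), inter_self]
    exact measureReal_mono (hAR n) measure_ball_lt_top.ne
  have hsh : ∀ n (z : E d), ∫ x, (f n (x + z) - f n x) ^ 2 ≤ ‖z‖ * c.toReal := by
    intro n z
    have hae : ∀ᵐ x : E d, (f n (x + z) - f n x) ^ 2 =
        (symmDiff ((fun x => x + z) ⁻¹' A n) (A n)).indicator (fun _ => (1 : ℝ)) x := by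
      have h2 : ∀ᵐ x : E d, f n (x + z) = (A n).indicator (fun _ => (1 : ℝ)) (x + z) :=
        (measurePreserving_add_right volume z).quasiMeasurePreserving.ae (hfe n)
      filter_upwards [hfe n, h2] with x h3 h4
      rw [h3, h4]
      by_cases h5 : x ∈ A n <;> by_cases h6 : x + z ∈ A n <;>
        simp [Set.indicator, Set.mem_symmDiff, h5, h6]
    rw [integral_congr_ae hae]
    have hms : MeasurableSet (symmDiff ((fun x => x + z) ⁻¹' A n) (A n)) :=
      ((measurable_add_const z) (hA n)).symmDiff (hA n)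
    rw [integral_indicator_const (1 : ℝ) hms, smul_eq_mul, mul_one]
    have h7 : volume (symmDiff ((fun x => x + z) ⁻¹' A n) (A n)) ≤ ENNReal.ofReal ‖z‖ * c :=
      (per_transl (hA n) z).trans (by gcongr; exact hper n)
    have h8 := ENNReal.toReal_mono (ENNReal.mul_ne_top ENNReal.ofReal_ne_top hc.ne) h7
    rw [ENNReal.toReal_mul, ENNReal.toReal_ofReal (norm_nonneg z)] at h8
    exact h8
  obtain ⟨σ, hσ, g, hg⟩ := kolmogorov_riesz d f _ hBn
    (by
      intro η hη
      refine ⟨η / (c.toReal + 1), by positivity, fun n z hz => (hsh n z).trans ?_⟩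
      have hc0 : 0 ≤ c.toReal := ENNReal.toReal_nonneg
      calc ‖z‖ * c.toReal ≤ (η / (c.toReal + 1)) * c.toReal := by gcongr
        _ ≤ (η / (c.toReal + 1)) * (c.toReal + 1) := by gcongr; linarith
        _ = η := by field_simp)
    (by
      intro η hη
      refine ⟨R, fun n => ?_⟩
      have h1 : ∫ x in (Metric.closedBall 0 R)ᶜ, (f n x) ^ 2 = 0 := by
        rw [← integral_zero (E d) ℝ (μ := volume.restrict (Metric.closedBall (0 : E d) R)ᶜ)]
        refine setIntegral_congr_ae Metric.isClosed_closedBall.measurableSet.compl ?_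
        filter_upwards [hfe n] with x hx hxR
        rw [hx, Set.indicator_of_notMem (fun h => hxR (Metric.ball_subset_closedBall (hAR n h)))]
        ring
      rw [h1]; exact hη.le)
  have hgm : Measurable (g : E d → ℝ) := (Lp.stronglyMeasurable g).measurable
  refine ⟨σ, hσ, {x | 1 / 2 < g x} ∩ Metric.ball 0 R,
    (measurableSet_lt measurable_const hgm).inter Metric.isOpen_ball.measurableSet,
    inter_subset_right, ?_⟩
  have hle : ∀ n, volume (symmDiff (A (σ n)) ({x | 1 / 2 < g x} ∩ Metric.ball 0 R)) ≤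
      ENNReal.ofReal (4 * ‖f (σ n) - g‖ ^ 2) := by
    intro n
    have hint : Integrable (fun x => ((f (σ n) - g : Lp ℝ 2 volume) x) ^ 2) :=
      (Lp.memLp (f (σ n) - g)).integrable_sq
    have hmeas : AEMeasurable (fun x => ENNReal.ofReal (((f (σ n) - g : Lp ℝ 2 volume) x) ^ 2))
        (volume : Measure (E d)) := hint.aestronglyMeasurable.aemeasurable.ennreal_ofReal
    have h1 := mul_meas_ge_le_lintegral₀ hmeas (ENNReal.ofReal (1 / 4))
    rw [← ofReal_integral_eq_lintegral_ofReal hint (Eventually.of_forall fun x => sq_nonneg _),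
      ← riesz_norm_sq] at h1
    have h2 : volume (symmDiff (A (σ n)) ({x | 1 / 2 < g x} ∩ Metric.ball 0 R)) ≤
        volume {x | ENNReal.ofReal (1 / 4) ≤
          ENNReal.ofReal (((f (σ n) - g : Lp ℝ 2 volume) x) ^ 2)} := by
      refine measure_mono_ae ?_
      filter_upwards [hfe (σ n), Lp.coeFn_sub (f (σ n)) g] with x h3 h4 h5
      show ENNReal.ofReal (1 / 4) ≤ ENNReal.ofReal (((f (σ n) - g : Lp ℝ 2 volume) x) ^ 2)
      refine ENNReal.ofReal_le_ofReal ?_
      rw [h4, Pi.sub_apply, h3]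
      rcases (Set.mem_symmDiff.mp h5) with ⟨h6, h7⟩ | ⟨h6, h7⟩
      · rw [Set.indicator_of_mem h6]
        have h8 : g x ≤ 1 / 2 := by
          by_contra h9
          exact h7 ⟨not_le.mp h9, hAR _ h6⟩
        nlinarith
      · rw [Set.indicator_of_notMem h7]
        have h8 : 1 / 2 < g x := h6.1
        nlinarith
    have h3 : ENNReal.ofReal (4 * ‖f (σ n) - g‖ ^ 2) =
        ENNReal.ofReal 4 * ENNReal.ofReal (‖f (σ n) - g‖ ^ 2) :=
      ENNReal.ofReal_mul (by norm_num)
    rw [h3]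
    calc volume (symmDiff (A (σ n)) ({x | 1 / 2 < g x} ∩ Metric.ball 0 R))
        = ENNReal.ofReal 4 * (ENNReal.ofReal (1 / 4) *
          volume (symmDiff (A (σ n)) ({x | 1 / 2 < g x} ∩ Metric.ball 0 R))) := by
          rw [← mul_assoc, ← ENNReal.ofReal_mul (by norm_num)]
          norm_num
      _ ≤ ENNReal.ofReal 4 * ENNReal.ofReal (‖f (σ n) - g‖ ^ 2) := by
          gcongr
          exact (mul_le_mul_right h2 _).trans h1
  have hlim : Tendsto (fun n => ENNReal.ofReal (4 * ‖f (σ n) - g‖ ^ 2)) atTop (𝓝 0) := by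
    have h1 : Tendsto (fun n => ‖f (σ n) - g‖) atTop (𝓝 0) := by
      have := tendsto_iff_norm_sub_tendsto_zero.mp hg
      exact this
    have h2 : Tendsto (fun n => ENNReal.ofReal (4 * ‖f (σ n) - g‖ ^ 2)) atTop
        (𝓝 (ENNReal.ofReal (4 * 0 ^ 2))) :=
      ENNReal.tendsto_ofReal ((h1.pow 2).const_mul 4)
    simpa using h2
  exact tendsto_of_tendsto_of_tendsto_of_le_of_le tendsto_const_nhds hlim (fun n => zero_le) hle

end Pool.Agent.Lib.Buck
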