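import Mathlib
import Pool.Agent.Lib.MP_17201e_an.Defs
import Pool.Agent.Lib.MP_17201e_an.Lsc
import Pool.Agent.Lib.MP_17201e_an.Per
import Pool.Agent.Lib.MP_17201e_an.Sets

/-!
# Minimisers in a ball
-/

set_option autoImplicit false

open MeasureTheory Set Filter Topology
open scoped ENNReal ContDiff

namespace Pool.Agent.Lib.Buck

/-- Lower semicontinuity along a convergent sequence of values, from the version with a uniform
bound. -/
theorem ballMin_lsc {d : ℕ} (F : Set (E d) → ℝ≥0∞) (A : ℕ → Set (E d)) (A' : Set (E d))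
    (hF : ∀ (k : ℕ) (c : ℝ≥0∞), (∀ n, F (A (n + k)) ≤ c) → F A' ≤ c)
    {l : ℝ≥0∞} (hl : Tendsto (fun n => F (A n)) atTop (𝓝 l)) : F A' ≤ l := by
  refine le_of_forall_gt_imp_ge_of_dense fun c hc => ?_
  have h1 : ∀ᶠ n in atTop, F (A n) < c := hl.eventually (gt_mem_nhds hc)
  obtain ⟨k, hk⟩ := eventually_atTop.mp h1
  exact hF k c fun n => (hk _ (Nat.le_add_left k n)).le

theorem exists_min_ball {d : ℕ} (hd : 1 ≤ d) {h : ℕ} (hh : 1 ≤ h) (R : ℝ) :
    ∃ A : Set (E d), MeasurableSet A ∧ A ⊆ Metric.ball 0 R ∧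
      ∀ B : Set (E d), MeasurableSet B → B ⊆ Metric.ball 0 R → Fn h A ≤ Fn h B := by
  set m : ℝ≥0∞ := ⨅ (B : Set (E d)) (_ : MeasurableSet B ∧ B ⊆ Metric.ball 0 R), Fn h B with hm
  have hle : ∀ B : Set (E d), MeasurableSet B → B ⊆ Metric.ball 0 R → m ≤ Fn h B :=
    fun B hB hB' => iInf₂_le B ⟨hB, hB'⟩
  rcases eq_or_ne m ⊤ with htop | htop
  · refine ⟨∅, MeasurableSet.empty, empty_subset _, fun B hB hB' => ?_⟩
    have := hle B hB hB'
    rw [htop, top_le_iff] at this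
    rw [this]
    exact le_top
  have hex : ∀ n : ℕ, ∃ B : Set (E d), (MeasurableSet B ∧ B ⊆ Metric.ball 0 R) ∧
      Fn h B < m + ((n : ℝ≥0∞) + 1)⁻¹ := by
    intro n
    have h1 : m < m + ((n : ℝ≥0∞) + 1)⁻¹ := by
      refine ENNReal.lt_add_right htop ?_
      simp
    rw [hm, iInf_lt_iff] at h1
    obtain ⟨B, hB⟩ := h1
    rw [iInf_lt_iff] at hB
    obtain ⟨hB, hB'⟩ := hB
    exact ⟨B, hB, hB'⟩
  choose B hB hBm using hex
  have hone : ∀ n : ℕ, ((n : ℝ≥0∞) + 1)⁻¹ ≤ 1 := by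
    intro n
    rw [ENNReal.inv_le_one]
    exact le_add_self
  obtain ⟨σ, hσ, A', hA', hA'R, hlim⟩ := compact_sets hd R B (fun n => (hB n).1)
    (fun n => (hB n).2) (m + 1) (by
      rw [lt_top_iff_ne_top]
      exact ENNReal.add_ne_top.mpr ⟨htop, ENNReal.one_ne_top⟩) (by
      intro n
      refine le_trans ?_ ((hBm n).le.trans (add_le_add_right (hone n) m))
      exact le_add_self)
  obtain ⟨q, τ, hτ, hq⟩ := CompactSpace.tendsto_subseq
    (fun n => (lamS h (X (B (σ n))), per (B (σ n))))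
  have hq1 : Tendsto (fun n => lamS h (X (B (σ (τ n))))) atTop (𝓝 q.1) :=
    (continuous_fst.tendsto q).comp hq
  have hq2 : Tendsto (fun n => per (B (σ (τ n)))) atTop (𝓝 q.2) :=
    (continuous_snd.tendsto q).comp hq
  have hsum : Tendsto (fun n => Fn h (B (σ (τ n)))) atTop (𝓝 (q.1 + q.2)) := hq1.add hq2
  have hsum' : q.1 + q.2 ≤ m := by
    have h1 : Tendsto (fun n : ℕ => m + (((σ (τ n) : ℕ) : ℝ≥0∞) + 1)⁻¹) atTop (𝓝 (m + 0)) := by
      refine tendsto_const_nhds.add ?_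
      have h2 : Tendsto (fun n : ℕ => ((n : ℝ≥0∞) + 1)⁻¹) atTop (𝓝 0) := by
        have h3 := ENNReal.tendsto_inv_nat_nhds_zero.comp (tendsto_add_atTop_nat 1)
        refine h3.congr fun n => ?_
        simp
      exact h2.comp ((hσ.comp hτ).tendsto_atTop)
    rw [add_zero] at h1
    exact le_of_tendsto_of_tendsto' hsum h1 fun n => (hBm _).le
  have hlim' : Tendsto (fun n => volume (symmDiff (B (σ (τ n))) A')) atTop (𝓝 0) :=
    hlim.comp hτ.tendsto_atTop
  have e1 : lamS h (X A') ≤ q.1 := by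
    refine ballMin_lsc (fun A => lamS h (X A)) (fun n => B (σ (τ n))) A' ?_ hq1
    intro k c hc
    exact lamX_lsc hd hh R (fun n => B (σ (τ (n + k)))) A' (fun n => (hB _).1)
      (fun n => (hB _).2) hA' (hlim'.comp (tendsto_add_atTop_nat k)) c hc
  have e2 : per A' ≤ q.2 := by
    refine ballMin_lsc (fun A => per A) (fun n => B (σ (τ n))) A' ?_ hq2
    intro k c hc
    exact per_lsc (fun n => B (σ (τ (n + k)))) A' (fun n => (hB _).1) hA'
      (hlim'.comp (tendsto_add_atTop_nat k)) c hc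
  refine ⟨A', hA', hA'R, fun C hC hC' => ?_⟩
  calc Fn h A' = lamS h (X A') + per A' := rfl
    _ ≤ q.1 + q.2 := add_le_add e1 e2
    _ ≤ m := hsum'
    _ ≤ Fn h C := hle C hC hC'

end Pool.Agent.Lib.Buck
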