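import Pool.Agent.Lib.MP_17201e_an.Defs

/-! MP_17201e_an, module CUTPER: perimeter of a set cut by a ball of good radius. -/

set_option autoImplicit false

open MeasureTheory Set Filter Topology
open scoped ENNReal ContDiff

namespace Pool.Agent.Lib.Buck

/-! ### The profile -/

/-- The bump `6 t (1 - t)` on `[0,1]`, extended by zero. -/
noncomputable def cutPerG (t : ℝ) : ℝ := max 0 (6 * (t * (1 - t)))

/-- The profile: `1` for `t ≤ 0`, `0` for `t ≥ 1`, of class `C^1`. -/
noncomputable def cutPerP (t : ℝ) : ℝ := 1 - ∫ u in (0 : ℝ)..t, cutPerG u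

theorem cutPer_G_cont : Continuous cutPerG := by
  unfold cutPerG
  fun_prop

theorem cutPer_G_nonneg (t : ℝ) : 0 ≤ cutPerG t := le_max_left _ _

theorem cutPer_G_le (t : ℝ) : cutPerG t ≤ 3 / 2 := by
  unfold cutPerG
  apply max_le
  · norm_num
  · nlinarith [sq_nonneg (2 * t - 1)]

theorem cutPer_G_zero_left {t : ℝ} (h : t ≤ 0) : cutPerG t = 0 := by
  unfold cutPerG
  apply max_eq_left
  nlinarith

theorem cutPer_G_zero_right {t : ℝ} (h : 1 ≤ t) : cutPerG t = 0 := by
  unfold cutPerG
  apply max_eq_left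
  nlinarith

theorem cutPer_G_mid {t : ℝ} (h : t ∈ Icc (0 : ℝ) 1) : cutPerG t = 6 * (t * (1 - t)) := by
  unfold cutPerG
  apply max_eq_right
  have := h.1
  have := h.2
  have : 0 ≤ t * (1 - t) := mul_nonneg h.1 (by linarith)
  linarith

theorem cutPer_P_hasDerivAt (t : ℝ) : HasDerivAt cutPerP (-cutPerG t) t := by
  unfold cutPerP
  have h := intervalIntegral.integral_hasDerivAt_right
    (cutPer_G_cont.intervalIntegrable (0 : ℝ) t)
    (cutPer_G_cont.stronglyMeasurableAtFilter volume (𝓝 t)) cutPer_G_cont.continuousAt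
  exact h.const_sub 1

theorem cutPer_P_deriv : deriv cutPerP = fun t => -cutPerG t :=
  funext fun t => (cutPer_P_hasDerivAt t).deriv

theorem cutPer_P_contDiff : ContDiff ℝ 1 cutPerP := by
  rw [contDiff_one_iff_deriv]
  refine ⟨fun t => (cutPer_P_hasDerivAt t).differentiableAt, ?_⟩
  rw [cutPer_P_deriv]
  exact cutPer_G_cont.neg

theorem cutPer_P_anti : Antitone cutPerP := by
  apply antitone_of_deriv_nonpos
  · intro t
    exact (cutPer_P_hasDerivAt t).differentiableAt
  · intro t
    rw [cutPer_P_deriv]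
    have := cutPer_G_nonneg t
    simp only
    linarith

theorem cutPer_P_left {t : ℝ} (h : t ≤ 0) : cutPerP t = 1 := by
  unfold cutPerP
  have h1 : ∫ u in (0 : ℝ)..t, cutPerG u = ∫ u in (0 : ℝ)..t, (0 : ℝ) := by
    apply intervalIntegral.integral_congr
    intro u hu
    rw [uIcc_of_ge h] at hu
    exact cutPer_G_zero_left hu.2
  rw [h1]
  simp

theorem cutPer_P_one : cutPerP 1 = 0 := by
  unfold cutPerP
  have h1 : ∫ u in (0 : ℝ)..1, cutPerG u = ∫ u in (0 : ℝ)..1, (6 * u - 6 * u ^ 2) := by
    apply intervalIntegral.integral_congr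
    intro u hu
    rw [uIcc_of_le (by norm_num)] at hu
    show cutPerG u = _
    rw [cutPer_G_mid hu]
    ring
  rw [h1, intervalIntegral.integral_sub (by apply Continuous.intervalIntegrable; fun_prop)
    (by apply Continuous.intervalIntegrable; fun_prop)]
  rw [intervalIntegral.integral_const_mul, intervalIntegral.integral_const_mul, integral_pow,
    integral_id]
  norm_num

theorem cutPer_P_right {t : ℝ} (h : 1 ≤ t) : cutPerP t = 0 := by
  have h2 : cutPerP t = cutPerP 1 - ∫ u in (1 : ℝ)..t, cutPerG u := by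
    unfold cutPerP
    rw [← intervalIntegral.integral_add_adjacent_intervals
      (cutPer_G_cont.intervalIntegrable (0 : ℝ) 1) (cutPer_G_cont.intervalIntegrable 1 t)]
    ring
  have h1 : ∫ u in (1 : ℝ)..t, cutPerG u = ∫ u in (1 : ℝ)..t, (0 : ℝ) := by
    apply intervalIntegral.integral_congr
    intro u hu
    rw [uIcc_of_le h] at hu
    exact cutPer_G_zero_right hu.1
  rw [h2, h1, cutPer_P_one]
  simp

theorem cutPer_P_nonneg (t : ℝ) : 0 ≤ cutPerP t := by
  rcases le_total t 1 with h | h
  · calc (0 : ℝ) = cutPerP 1 := cutPer_P_one.symm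
      _ ≤ cutPerP t := cutPer_P_anti h
  · exact (cutPer_P_right h).ge

theorem cutPer_P_le (t : ℝ) : cutPerP t ≤ 1 := by
  rcases le_total t 0 with h | h
  · exact (cutPer_P_left h).le
  · calc cutPerP t ≤ cutPerP 0 := cutPer_P_anti h
      _ = 1 := cutPer_P_left le_rfl

theorem cutPer_P_lip : LipschitzWith (3 / 2) cutPerP := by
  apply lipschitzWith_of_nnnorm_deriv_le
  · intro t
    exact (cutPer_P_hasDerivAt t).differentiableAt
  · intro t
    rw [cutPer_P_deriv]
    rw [← NNReal.coe_le_coe]
    simp only [coe_nnnorm, norm_neg, Real.norm_eq_abs, NNReal.coe_div, NNReal.coe_ofNat]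
    rw [abs_of_nonneg (cutPer_G_nonneg t)]
    exact cutPer_G_le t

/-! ### The cutoff -/

/-- The radial cutoff. -/
noncomputable def cutPerEta {d : ℕ} (x : E d) (ρ e : ℝ) (y : E d) : ℝ :=
  cutPerP ((‖y - x‖ - ρ) / e)

theorem cutPer_eta_nonneg {d : ℕ} (x : E d) (ρ e : ℝ) (y : E d) : 0 ≤ cutPerEta x ρ e y :=
  cutPer_P_nonneg _

theorem cutPer_eta_le {d : ℕ} (x : E d) (ρ e : ℝ) (y : E d) : cutPerEta x ρ e y ≤ 1 :=
  cutPer_P_le _

theorem cutPer_eta_one {d : ℕ} (x : E d) {ρ e : ℝ} (he : 0 < e) {y : E d} (hy : ‖y - x‖ ≤ ρ) :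
    cutPerEta x ρ e y = 1 := by
  apply cutPer_P_left
  apply div_nonpos_of_nonpos_of_nonneg _ he.le
  linarith

theorem cutPer_eta_zero {d : ℕ} (x : E d) {ρ e : ℝ} (he : 0 < e) {y : E d}
    (hy : ρ + e ≤ ‖y - x‖) : cutPerEta x ρ e y = 0 := by
  apply cutPer_P_right
  rw [le_div_iff₀ he]
  linarith

theorem cutPer_eta_contDiff {d : ℕ} (x : E d) {ρ e : ℝ} (hρ : 0 < ρ) (he : 0 < e) :
    ContDiff ℝ 1 (cutPerEta x ρ e) := by
  rw [contDiff_iff_contDiffAt]
  intro y
  by_cases hy : y = x
  · subst hy
    have h1 : cutPerEta y ρ e =ᶠ[𝓝 y] fun _ => (1 : ℝ) := by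
      filter_upwards [Metric.ball_mem_nhds y hρ] with z hz
      apply cutPer_eta_one _ he
      rw [← dist_eq_norm]
      exact (Metric.mem_ball.mp hz).le
    exact contDiffAt_const.congr_of_eventuallyEq h1
  · have h1 : ContDiffAt ℝ 1 (fun z : E d => ‖z - x‖) y := by
      apply ContDiffAt.norm ℝ
      · fun_prop
      · exact sub_ne_zero.mpr hy
    have h2 : ContDiffAt ℝ 1 (fun z : E d => (‖z - x‖ - ρ) / e) y := by
      apply ContDiffAt.div_const
      exact h1.sub contDiffAt_const
    exact cutPer_P_contDiff.contDiffAt.comp y h2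

theorem cutPer_eta_lip {d : ℕ} (x : E d) {ρ e : ℝ} (he : 0 < e) :
    LipschitzWith (Real.toNNReal (3 / 2 / e)) (cutPerEta x ρ e) := by
  apply LipschitzWith.of_dist_le_mul
  intro y z
  rw [Real.coe_toNNReal _ (by positivity)]
  have h1 := cutPer_P_lip.dist_le_mul ((‖y - x‖ - ρ) / e) ((‖z - x‖ - ρ) / e)
  have h2 : dist ((‖y - x‖ - ρ) / e) ((‖z - x‖ - ρ) / e) ≤ dist y z / e := by
    rw [Real.dist_eq, ← sub_div, abs_div, abs_of_pos he]
    apply div_le_div_of_nonneg_right _ he.le
    have h3 : ‖y - x‖ - ρ - (‖z - x‖ - ρ) = ‖y - x‖ - ‖z - x‖ := by ring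
    rw [h3, dist_eq_norm]
    have h4 := abs_norm_sub_norm_le (y - x) (z - x)
    have h5 : y - x - (z - x) = y - z := by abel
    rwa [h5] at h4
  have h3 : ((3 / 2 : NNReal) : ℝ) = 3 / 2 := by norm_num
  rw [h3] at h1
  calc dist (cutPerEta x ρ e y) (cutPerEta x ρ e z)
      ≤ 3 / 2 * dist ((‖y - x‖ - ρ) / e) ((‖z - x‖ - ρ) / e) := h1
    _ ≤ 3 / 2 * (dist y z / e) := by
        apply mul_le_mul_of_nonneg_left h2 (by norm_num)
    _ = 3 / 2 / e * dist y z := by ring

theorem cutPer_eta_fderiv_le {d : ℕ} (x : E d) {ρ e : ℝ} (he : 0 < e) (y : E d) :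
    ‖fderiv ℝ (cutPerEta x ρ e) y‖ ≤ 3 / 2 / e := by
  have h := norm_fderiv_le_of_lipschitz ℝ (cutPer_eta_lip (ρ := ρ) x he) (x₀ := y)
  rwa [Real.coe_toNNReal _ (by positivity)] at h

theorem cutPer_eta_fderiv_in {d : ℕ} (x : E d) {ρ e : ℝ} (he : 0 < e) {y : E d}
    (hy : ‖y - x‖ ≤ ρ) : fderiv ℝ (cutPerEta x ρ e) y = 0 := by
  apply IsLocalMax.fderiv_eq_zero
  filter_upwards with z
  rw [cutPer_eta_one x he hy]
  exact cutPer_eta_le x ρ e z

theorem cutPer_eta_fderiv_out {d : ℕ} (x : E d) {ρ e : ℝ} (he : 0 < e) {y : E d}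
    (hy : ρ + e ≤ ‖y - x‖) : fderiv ℝ (cutPerEta x ρ e) y = 0 := by
  apply IsLocalMin.fderiv_eq_zero
  filter_upwards with z
  rw [cutPer_eta_zero x he hy]
  exact cutPer_eta_nonneg x ρ e z

/-! ### Admissible fields -/

/-- Admissible fields in the definition of the perimeter. -/
def CutPerAdm {d : ℕ} (F : E d → E d) : Prop :=
  ContDiff ℝ 1 F ∧ HasCompactSupport F ∧ ∀ x, ‖F x‖ ≤ 1

theorem cutPer_adm_zero {d : ℕ} : CutPerAdm (fun _ : E d => (0 : E d)) :=
  ⟨contDiff_const, HasCompactSupport.zero, fun x => by simp⟩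

theorem cutPer_dvg_zero {d : ℕ} (x : E d) : dvg (fun _ : E d => (0 : E d)) x = 0 := by
  unfold dvg
  simp

theorem cutPer_dvg_cont {d : ℕ} {F : E d → E d} (hF : ContDiff ℝ 1 F) : Continuous (dvg F) := by
  unfold dvg
  apply continuous_finsetSum
  intro i _
  have h1 : Continuous (fderiv ℝ F) := hF.continuous_fderiv one_ne_zero
  have h2 : Continuous fun x => (fderiv ℝ F x) (EuclideanSpace.single i 1) :=
    h1.clm_apply continuous_const
  have h3 : Continuous fun v : E d => v i := by fun_prop
  exact h3.comp h2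

theorem cutPer_dvg_supp {d : ℕ} {F : E d → E d} (hF : HasCompactSupport F) :
    HasCompactSupport (dvg F) := by
  apply HasCompactSupport.mono (f := fderiv ℝ F) (hF.fderiv ℝ)
  intro x hx
  rw [Function.mem_support] at hx ⊢
  intro h0
  apply hx
  unfold dvg
  rw [h0]
  simp

theorem cutPer_dvg_integrable {d : ℕ} {F : E d → E d} (hF : CutPerAdm F) :
    Integrable (dvg F) (volume : Measure (E d)) :=
  (cutPer_dvg_cont hF.1).integrable_of_hasCompactSupport (cutPer_dvg_supp hF.2.1)

/-- The combined field. -/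
noncomputable def cutPerH {d : ℕ} (x : E d) (ρ e : ℝ) (F G : E d → E d) (y : E d) : E d :=
  cutPerEta x ρ e y • F y + (1 - cutPerEta x ρ e y) • G y

theorem cutPer_H_adm {d : ℕ} (x : E d) {ρ e : ℝ} (hρ : 0 < ρ) (he : 0 < e) {F G : E d → E d}
    (hF : CutPerAdm F) (hG : CutPerAdm G) : CutPerAdm (cutPerH x ρ e F G) := by
  refine ⟨?_, ?_, ?_⟩
  · unfold cutPerH
    have h1 := cutPer_eta_contDiff x hρ he
    exact (h1.smul hF.1).add ((contDiff_const.sub h1).smul hG.1)
  · have h1 : HasCompactSupport (cutPerEta x ρ e • F) := hF.2.1.smul_left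
    have h2 : HasCompactSupport ((fun y => 1 - cutPerEta x ρ e y) • G) := hG.2.1.smul_left
    exact h1.add h2
  · intro y
    unfold cutPerH
    have h0 := cutPer_eta_nonneg x ρ e y
    have h1 := cutPer_eta_le x ρ e y
    calc ‖cutPerEta x ρ e y • F y + (1 - cutPerEta x ρ e y) • G y‖
        ≤ ‖cutPerEta x ρ e y • F y‖ + ‖(1 - cutPerEta x ρ e y) • G y‖ := norm_add_le _ _
      _ = cutPerEta x ρ e y * ‖F y‖ + (1 - cutPerEta x ρ e y) * ‖G y‖ := by
          rw [norm_smul, norm_smul, Real.norm_of_nonneg h0,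
            Real.norm_of_nonneg (sub_nonneg.mpr h1)]
      _ ≤ cutPerEta x ρ e y * 1 + (1 - cutPerEta x ρ e y) * 1 := by
          apply add_le_add
          · exact mul_le_mul_of_nonneg_left (hF.2.2 y) h0
          · exact mul_le_mul_of_nonneg_left (hG.2.2 y) (sub_nonneg.mpr h1)
      _ = 1 := by ring

theorem cutPer_sum_single {d : ℕ} (v : E d) :
    v = ∑ i, v i • (EuclideanSpace.single i (1 : ℝ) : E d) := by
  have h := (EuclideanSpace.basisFun (Fin d) ℝ).sum_repr v
  simpa using h.symm

theorem cutPer_dvg_H {d : ℕ} (x : E d) {ρ e : ℝ} (hρ : 0 < ρ) (he : 0 < e) {F G : E d → E d}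
    (hF : CutPerAdm F) (hG : CutPerAdm G) (y : E d) :
    dvg (cutPerH x ρ e F G) y = cutPerEta x ρ e y * dvg F y + (1 - cutPerEta x ρ e y) * dvg G y
      + fderiv ℝ (cutPerEta x ρ e) y (F y - G y) := by
  have hη : DifferentiableAt ℝ (cutPerEta x ρ e) y :=
    (cutPer_eta_contDiff x hρ he).differentiable one_ne_zero y
  have hF' : DifferentiableAt ℝ F y := hF.1.differentiable one_ne_zero y
  have hG' : DifferentiableAt ℝ G y := hG.1.differentiable one_ne_zero y
  have h1 : HasFDerivAt (cutPerH x ρ e F G)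
      ((cutPerEta x ρ e y • fderiv ℝ F y + (fderiv ℝ (cutPerEta x ρ e) y).smulRight (F y))
        + ((1 - cutPerEta x ρ e y) • fderiv ℝ G y
          + (-(fderiv ℝ (cutPerEta x ρ e) y)).smulRight (G y))) y := by
    unfold cutPerH
    exact (hη.hasFDerivAt.smul hF'.hasFDerivAt).add
      ((hη.hasFDerivAt.const_sub 1).smul hG'.hasFDerivAt)
  have h2 : ∀ v : E d, fderiv ℝ (cutPerEta x ρ e) y v
      = ∑ i, v i * fderiv ℝ (cutPerEta x ρ e) y (EuclideanSpace.single i 1) := by
    intro v
    conv_lhs => rw [cutPer_sum_single v]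
    rw [map_sum]
    simp
  unfold dvg
  rw [h1.fderiv, h2 (F y - G y), Finset.mul_sum, Finset.mul_sum, ← Finset.sum_add_distrib,
    ← Finset.sum_add_distrib]
  apply Finset.sum_congr rfl
  intro i _
  simp
  ring

/-! ### Choice of the radius -/

theorem cutPer_radius {M : ℝ → ℝ} (hM : Monotone M) {r s c : ℝ} (hrs : r < s)
    (hc : M s - M r < c * (s - r)) :
    ∃ ρ ∈ Ioo r s, ∀ δ > 0, ∃ e, 0 < e ∧ e < δ ∧ M (ρ + e) - M ρ ≤ 4 / 3 * c * e := by
  by_contra hcon
  push Not at hcon
  have hc0 : 0 < c := by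
    have h1 := hM hrs.le
    by_contra h
    push Not at h
    have : c * (s - r) ≤ 0 := mul_nonpos_of_nonpos_of_nonneg h (by linarith)
    linarith
  have key : ∀ a b, r < a → a ≤ b → b < s → 4 / 3 * c * (b - a) ≤ M b - M a := by
    intro a b hra hab hbs
    let T : Set ℝ := {t | t ∈ Icc a b ∧ 4 / 3 * c * (t - a) ≤ M t - M a}
    have hTa : a ∈ T := ⟨⟨le_rfl, hab⟩, by simp⟩
    have hTb : BddAbove T := ⟨b, fun t ht => ht.1.2⟩
    have hle : sSup T ≤ b := csSup_le ⟨a, hTa⟩ fun t ht => ht.1.2
    have hge : a ≤ sSup T := le_csSup hTb hTa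
    have hmem : 4 / 3 * c * (sSup T - a) ≤ M (sSup T) - M a := by
      by_contra h
      push Not at h
      -- choose t in T close to the supremum
      have h1 : ∃ t ∈ T, (M (sSup T) - M a) / (4 / 3 * c) + a < t := by
        apply exists_lt_of_lt_csSup ⟨a, hTa⟩
        have h3 : (M (sSup T) - M a) / (4 / 3 * c) < sSup T - a := by
          rw [div_lt_iff₀ (by positivity)]
          linarith
        linarith
      obtain ⟨t, ht, h2⟩ := h1
      have h3 : (M (sSup T) - M a) / (4 / 3 * c) < t - a := by linarith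
      rw [div_lt_iff₀ (by positivity)] at h3
      have h4 := ht.2
      have h5 := hM (le_csSup hTb ht)
      linarith
    rcases hle.eq_or_lt with heq | hlt
    · rw [heq] at hmem
      exact hmem
    · exfalso
      obtain ⟨δ, hδ, h1⟩ := hcon (sSup T) ⟨by linarith, by linarith⟩
      set e := min (δ / 2) (b - sSup T) with he
      have he0 : 0 < e := lt_min (by linarith) (by linarith)
      have he1 : e < δ := lt_of_le_of_lt (min_le_left _ _) (by linarith)
      have he2 : e ≤ b - sSup T := min_le_right _ _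
      have h2 := h1 e he0 he1
      have h3 : sSup T + e ∈ T := by
        refine ⟨⟨by linarith, by linarith⟩, ?_⟩
        nlinarith
      have h4 := le_csSup hTb h3
      linarith
  have h1 := key (r + (s - r) / 8) (s - (s - r) / 8) (by linarith) (by linarith) (by linarith)
  have h2 : M (s - (s - r) / 8) ≤ M s := hM (by linarith)
  have h3 : M r ≤ M (r + (s - r) / 8) := hM (by linarith)
  nlinarith

/-! ### The main estimate -/

theorem cutPer_core {d : ℕ} {A : Set (E d)} (hA : MeasurableSet A) (x : E d)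
    {ρ c : ℝ} (hρ : 0 < ρ) (hper : per A < ⊤)
    (hrad : ∀ δ > 0, ∃ e, 0 < e ∧ e < δ ∧ (volume (A ∩ Metric.closedBall x (ρ + e))).toReal
      - (volume (A ∩ Metric.closedBall x ρ)).toReal ≤ 4 / 3 * c * e)
    {F G : E d → E d} (hF : CutPerAdm F) (hG : CutPerAdm G) :
    (∫ y in A ∩ Metric.closedBall x ρ, dvg F y) + ∫ y in A \ Metric.closedBall x ρ, dvg G y
      ≤ (per A).toReal + 4 * c := by
  choose! e he0 he1 he2 using hrad
  let ε : ℕ → ℝ := fun n => e (1 / ((n : ℝ) + 1))
  have hn : ∀ n : ℕ, (0 : ℝ) < 1 / ((n : ℝ) + 1) := fun n => by positivity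
  have hε0 : ∀ n, 0 < ε n := fun n => he0 _ (hn n)
  have hε1 : ∀ n, ε n < 1 / ((n : ℝ) + 1) := fun n => he1 _ (hn n)
  have hε2 : ∀ n, (volume (A ∩ Metric.closedBall x (ρ + ε n))).toReal
      - (volume (A ∩ Metric.closedBall x ρ)).toReal ≤ 4 / 3 * c * ε n := fun n => he2 _ (hn n)
  have hεlim : Tendsto ε atTop (𝓝 0) :=
    squeeze_zero (fun n => (hε0 n).le) (fun n => (hε1 n).le) tendsto_one_div_add_atTop_nhds_zero_nat
  have hball : MeasurableSet (Metric.closedBall x ρ) := Metric.isClosed_closedBall.measurableSet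
  have hFi := cutPer_dvg_integrable hF
  have hGi := cutPer_dvg_integrable hG
  -- the estimate for every `n`
  have hstep : ∀ n, ∫ y in A, (cutPerEta x ρ (ε n) y * dvg F y
      + (1 - cutPerEta x ρ (ε n) y) * dvg G y) ≤ (per A).toReal + 4 * c := by
    intro n
    have hadm := cutPer_H_adm x hρ (hε0 n) hF hG
    have h1 : ∫ y in A, dvg (cutPerH x ρ (ε n) F G) y ≤ (per A).toReal := by
      rw [← ENNReal.ofReal_le_iff_le_toReal hper.ne]
      unfold per
      exact le_iSup₂ (f := fun (F : E d → E d) (_ : ContDiff ℝ 1 F ∧ HasCompactSupport F ∧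
        ∀ x, ‖F x‖ ≤ 1) => ENNReal.ofReal (∫ x in A, dvg F x)) (cutPerH x ρ (ε n) F G) hadm
    have hHi := cutPer_dvg_integrable hadm
    have h2 : ∀ y, cutPerEta x ρ (ε n) y * dvg F y + (1 - cutPerEta x ρ (ε n) y) * dvg G y
        = dvg (cutPerH x ρ (ε n) F G) y
          - fderiv ℝ (cutPerEta x ρ (ε n)) y (F y - G y) := by
      intro y
      rw [cutPer_dvg_H x hρ (hε0 n) hF hG y]
      ring
    let S : Set (E d) := Metric.closedBall x (ρ + ε n) \ Metric.closedBall x ρ
    have hSm : MeasurableSet S := Metric.isClosed_closedBall.measurableSet.diff hball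
    have h3 : ∀ y, |fderiv ℝ (cutPerEta x ρ (ε n)) y (F y - G y)|
        ≤ S.indicator (fun _ => 3 / ε n) y := by
      intro y
      by_cases hyS : y ∈ S
      · rw [indicator_of_mem hyS]
        calc |fderiv ℝ (cutPerEta x ρ (ε n)) y (F y - G y)|
            ≤ ‖fderiv ℝ (cutPerEta x ρ (ε n)) y‖ * ‖F y - G y‖ :=
              (fderiv ℝ (cutPerEta x ρ (ε n)) y).le_opNorm _
          _ ≤ (3 / 2 / ε n) * 2 := by
              apply mul_le_mul (cutPer_eta_fderiv_le x (hε0 n) y) _ (norm_nonneg _)
                (by have := hε0 n; positivity)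
              calc ‖F y - G y‖ ≤ ‖F y‖ + ‖G y‖ := norm_sub_le _ _
                _ ≤ 2 := by have := hF.2.2 y; have := hG.2.2 y; linarith
          _ = 3 / ε n := by ring
      · rw [indicator_of_notMem hyS]
        have h4 : fderiv ℝ (cutPerEta x ρ (ε n)) y = 0 := by
          by_cases h5 : ‖y - x‖ ≤ ρ
          · exact cutPer_eta_fderiv_in x (hε0 n) h5
          · apply cutPer_eta_fderiv_out x (hε0 n)
            by_contra h6
            apply hyS
            refine ⟨?_, ?_⟩
            · rw [Metric.mem_closedBall, dist_eq_norm]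
              linarith
            · rw [Metric.mem_closedBall, dist_eq_norm]
              exact h5
        rw [h4]
        simp
    have hSfin : volume S < ⊤ :=
      lt_of_le_of_lt (measure_mono sdiff_subset) measure_closedBall_lt_top
    have hcont : Continuous fun y => fderiv ℝ (cutPerEta x ρ (ε n)) y (F y - G y) :=
      ((cutPer_eta_contDiff x hρ (hε0 n)).continuous_fderiv one_ne_zero).clm_apply
        (hF.1.continuous.sub hG.1.continuous)
    have hind : Integrable (S.indicator (fun _ => 3 / ε n)) (volume : Measure (E d)) := by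
      rw [integrable_indicator_iff hSm]
      exact integrableOn_const hSfin.ne
    have h4i : Integrable (fun y => fderiv ℝ (cutPerEta x ρ (ε n)) y (F y - G y))
        (volume : Measure (E d)) :=
      hind.mono' hcont.aestronglyMeasurable (Eventually.of_forall h3)
    have h5 : |∫ y in A, fderiv ℝ (cutPerEta x ρ (ε n)) y (F y - G y)| ≤ 4 * c := by
      calc |∫ y in A, fderiv ℝ (cutPerEta x ρ (ε n)) y (F y - G y)|
          ≤ ∫ y in A, S.indicator (fun _ => 3 / ε n) y := by
            rw [← Real.norm_eq_abs]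
            exact norm_integral_le_of_norm_le hind.restrict (Eventually.of_forall h3)
        _ = 3 / ε n * (volume (A ∩ S)).toReal := by
            rw [integral_indicator hSm, Measure.restrict_restrict hSm, setIntegral_const,
              inter_comm S A]
            simp only [Measure.real, smul_eq_mul]
            ring
        _ = 3 / ε n * ((volume (A ∩ Metric.closedBall x (ρ + ε n))).toReal
              - (volume (A ∩ Metric.closedBall x ρ)).toReal) := by
            congr 1
            have h6 : A ∩ S = (A ∩ Metric.closedBall x (ρ + ε n))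
                \ (A ∩ Metric.closedBall x ρ) := by
              ext z
              simp only [S, mem_inter_iff, Set.mem_sdiff]
              tauto
            rw [h6]
            have h7 : A ∩ Metric.closedBall x ρ ⊆ A ∩ Metric.closedBall x (ρ + ε n) :=
              inter_subset_inter_right _ (Metric.closedBall_subset_closedBall
                (by have := hε0 n; linarith))
            have h8 : volume (A ∩ Metric.closedBall x ρ) ≠ ⊤ :=
              (lt_of_le_of_lt (measure_mono inter_subset_right) measure_closedBall_lt_top).ne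
            have h9 : volume (A ∩ Metric.closedBall x (ρ + ε n)) ≠ ⊤ :=
              (lt_of_le_of_lt (measure_mono inter_subset_right) measure_closedBall_lt_top).ne
            rw [measure_sdiff h7 (hA.inter hball).nullMeasurableSet h8,
              ENNReal.toReal_sub_of_le (measure_mono h7) h9]
        _ ≤ 3 / ε n * (4 / 3 * c * ε n) := by
            apply mul_le_mul_of_nonneg_left (hε2 n)
            have := hε0 n
            positivity
        _ = 4 * c := by
            have := (hε0 n).ne'
            field_simp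
    calc ∫ y in A, (cutPerEta x ρ (ε n) y * dvg F y + (1 - cutPerEta x ρ (ε n) y) * dvg G y)
        = ∫ y in A, (dvg (cutPerH x ρ (ε n) F G) y
            - fderiv ℝ (cutPerEta x ρ (ε n)) y (F y - G y)) := by
          simp_rw [h2]
      _ = (∫ y in A, dvg (cutPerH x ρ (ε n) F G) y)
            - ∫ y in A, fderiv ℝ (cutPerEta x ρ (ε n)) y (F y - G y) :=
          integral_sub hHi.restrict h4i.restrict
      _ ≤ (per A).toReal + 4 * c := by
          have := (abs_le.mp h5).1
          linarith
  -- the limit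
  have hlim : Tendsto (fun n => ∫ y in A, (cutPerEta x ρ (ε n) y * dvg F y
      + (1 - cutPerEta x ρ (ε n) y) * dvg G y)) atTop
      (𝓝 (∫ y in A, ((Metric.closedBall x ρ).indicator (dvg F) y
        + (Metric.closedBall x ρ)ᶜ.indicator (dvg G) y))) := by
    apply tendsto_integral_of_dominated_convergence (fun y => |dvg F y| + |dvg G y|)
    · intro n
      have h1 := (cutPer_eta_contDiff x hρ (hε0 n)).continuous
      have h2 := cutPer_dvg_cont hF.1
      have h3 := cutPer_dvg_cont hG.1
      exact ((h1.mul h2).add ((continuous_const.sub h1).mul h3)).aestronglyMeasurable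
    · exact (hFi.abs.add hGi.abs).restrict
    · intro n
      apply Eventually.of_forall
      intro y
      have h0 := cutPer_eta_nonneg x ρ (ε n) y
      have h1 := cutPer_eta_le x ρ (ε n) y
      rw [Real.norm_eq_abs]
      calc |cutPerEta x ρ (ε n) y * dvg F y + (1 - cutPerEta x ρ (ε n) y) * dvg G y|
          ≤ |cutPerEta x ρ (ε n) y * dvg F y| + |(1 - cutPerEta x ρ (ε n) y) * dvg G y| :=
            abs_add_le _ _
        _ = cutPerEta x ρ (ε n) y * |dvg F y| + (1 - cutPerEta x ρ (ε n) y) * |dvg G y| := by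
            rw [abs_mul, abs_mul, abs_of_nonneg h0, abs_of_nonneg (sub_nonneg.mpr h1)]
        _ ≤ 1 * |dvg F y| + 1 * |dvg G y| := by
            apply add_le_add
            · exact mul_le_mul_of_nonneg_right h1 (abs_nonneg _)
            · exact mul_le_mul_of_nonneg_right (by linarith) (abs_nonneg _)
        _ = |dvg F y| + |dvg G y| := by ring
    · apply Eventually.of_forall
      intro y
      by_cases hy : ‖y - x‖ ≤ ρ
      · have hmem : y ∈ Metric.closedBall x ρ := by
          rwa [Metric.mem_closedBall, dist_eq_norm]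
        rw [indicator_of_mem hmem, indicator_of_notMem (by simpa using hmem)]
        have h1 : (fun n => cutPerEta x ρ (ε n) y * dvg F y
            + (1 - cutPerEta x ρ (ε n) y) * dvg G y) = fun _ => dvg F y + 0 := by
          funext n
          rw [cutPer_eta_one x (hε0 n) hy]
          ring
        rw [h1]
        exact tendsto_const_nhds
      · have hmem : y ∉ Metric.closedBall x ρ := by
          rwa [Metric.mem_closedBall, dist_eq_norm]
        rw [indicator_of_notMem hmem, indicator_of_mem (by simpa using hmem)]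
        push Not at hy
        have h2 : ∀ᶠ n in atTop, ε n < ‖y - x‖ - ρ :=
          hεlim.eventually (gt_mem_nhds (by linarith))
        apply tendsto_const_nhds.congr'
        filter_upwards [h2] with n hn2
        rw [cutPer_eta_zero x (hε0 n) (by linarith)]
        ring
  have hfin := le_of_tendsto' hlim hstep
  have hval : ∫ y in A, ((Metric.closedBall x ρ).indicator (dvg F) y
        + (Metric.closedBall x ρ)ᶜ.indicator (dvg G) y)
      = (∫ y in A ∩ Metric.closedBall x ρ, dvg F y)
        + ∫ y in A \ Metric.closedBall x ρ, dvg G y := by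
    rw [integral_add (hFi.indicator hball).restrict (hGi.indicator hball.compl).restrict,
      integral_indicator hball, integral_indicator hball.compl,
      Measure.restrict_restrict hball, Measure.restrict_restrict hball.compl,
      inter_comm _ A, inter_comm _ A, Set.sdiff_eq]
  rw [hval] at hfin
  exact hfin

theorem per_cut {d : ℕ} (hd : 1 ≤ d) {A : Set (E d)} (hA : MeasurableSet A) (x : E d)
    {r s c : ℝ} (hr : 0 ≤ r) (hrs : r < s)
    (hc : (volume (A ∩ Metric.closedBall x s)).toReal
      - (volume (A ∩ Metric.closedBall x r)).toReal < c * (s - r)) :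
    ∃ ρ ∈ Ioo r s, per (A ∩ Metric.closedBall x ρ) + per (A \ Metric.closedBall x ρ)
      ≤ per A + ENNReal.ofReal (4 * c) := by
  let M : ℝ → ℝ := fun t => (volume (A ∩ Metric.closedBall x t)).toReal
  have hM : Monotone M := by
    intro a b hab
    apply ENNReal.toReal_mono
    · exact (lt_of_le_of_lt (measure_mono inter_subset_right) measure_closedBall_lt_top).ne
    · exact measure_mono (inter_subset_inter_right _ (Metric.closedBall_subset_closedBall hab))
  obtain ⟨ρ, hρ, hrad⟩ := cutPer_radius hM hrs hc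
  refine ⟨ρ, hρ, ?_⟩
  by_cases hper : per A < ⊤
  swap
  · rw [not_lt_top_iff] at hper
    rw [hper]
    simp
  have hρ0 : 0 < ρ := lt_of_le_of_lt hr hρ.1
  have hc0 : 0 < c := by
    have h1 := hM hrs.le
    by_contra h
    push Not at h
    have : c * (s - r) ≤ 0 := mul_nonpos_of_nonpos_of_nonneg h (by linarith)
    have h2 : M s - M r < c * (s - r) := hc
    linarith
  have core : ∀ F G : E d → E d, CutPerAdm F → CutPerAdm G →
      ENNReal.ofReal ((∫ y in A ∩ Metric.closedBall x ρ, dvg F y)
        + ∫ y in A \ Metric.closedBall x ρ, dvg G y) ≤ per A + ENNReal.ofReal (4 * c) := by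
    intro F G hF hG
    have h1 := cutPer_core hA x hρ0 hper hrad hF hG
    calc ENNReal.ofReal ((∫ y in A ∩ Metric.closedBall x ρ, dvg F y)
          + ∫ y in A \ Metric.closedBall x ρ, dvg G y)
        ≤ ENNReal.ofReal ((per A).toReal + 4 * c) := ENNReal.ofReal_le_ofReal h1
      _ = per A + ENNReal.ofReal (4 * c) := by
          rw [ENNReal.ofReal_add ENNReal.toReal_nonneg (by positivity),
            ENNReal.ofReal_toReal hper.ne]
  have hz : ∀ B : Set (E d), ∫ y in B, dvg (fun _ : E d => (0 : E d)) y = 0 := by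
    intro B
    simp [cutPer_dvg_zero]
  unfold per at core ⊢
  apply ENNReal.biSup_add_biSup_le' ⟨_, cutPer_adm_zero⟩ ⟨_, cutPer_adm_zero⟩
  intro F hF G hG
  rcases le_or_gt 0 (∫ y in A ∩ Metric.closedBall x ρ, dvg F y) with h1 | h1
  · rcases le_or_gt 0 (∫ y in A \ Metric.closedBall x ρ, dvg G y) with h2 | h2
    · rw [← ENNReal.ofReal_add h1 h2]
      exact core F G hF hG
    · rw [ENNReal.ofReal_of_nonpos h2.le, add_zero]
      have h3 := core F _ hF cutPer_adm_zero
      rw [hz, add_zero] at h3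
      exact h3
  · rw [ENNReal.ofReal_of_nonpos h1.le, zero_add]
    have h3 := core _ G cutPer_adm_zero hG
    rw [hz, zero_add] at h3
    exact h3

end Pool.Agent.Lib.Buck
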