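import Pool.Agent.Lib.MP_17201e_an.Defs
import Pool.Agent.Lib.MP_17201e_an.Jet
import Pool.Agent.Lib.MP_17201e_an.Hess
import Pool.Agent.Lib.MP_17201e_an.FaberKrahn
import Pool.Agent.Lib.MP_17201e_an.Per
import Pool.Agent.Lib.MP_17201e_an.CutPer

/-!
# Competitors and positivity
-/

set_option autoImplicit false

open MeasureTheory Set Filter Topology
open scoped ENNReal ContDiff

namespace Pool.Agent.Lib.Buck

/-! ## Jets of linear combinations -/

theorem comp_contDiff_pd {d : ℕ} {φ : E d → ℝ} (h : ContDiff ℝ ∞ φ) (i : Fin d) :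
    ContDiff ℝ ∞ (pd i φ) := by
  have h1 : ContDiff ℝ ∞ (fderiv ℝ φ) := h.fderiv_right (by simp)
  exact h1.clm_apply contDiff_const

theorem comp_pd_sum {d : ℕ} {ι : Type*} (s : Finset ι) (c : ι → ℝ) {φ : ι → E d → ℝ}
    (hφ : ∀ a, ContDiff ℝ ∞ (φ a)) (i : Fin d) :
    pd i (fun x => ∑ a ∈ s, c a * φ a x) = fun x => ∑ a ∈ s, c a * pd i (φ a) x := by
  funext x
  have h1 : ∀ a ∈ s, DifferentiableAt ℝ (fun x => c a * φ a x) x := fun a _ =>
    (((hφ a).differentiable (by simp)) x).const_mul (c a)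
  unfold pd
  rw [fderiv_fun_sum h1]
  rw [sum_apply]
  refine Finset.sum_congr rfl fun a _ => ?_
  rw [fderiv_const_mul (((hφ a).differentiable (by simp)) x)]
  rfl

theorem comp_sum_jet {d : ℕ} {ι : Type*} (s : Finset ι) (c : ι → ℝ) {φ : ι → E d → ℝ}
    (hφ : ∀ a, ContDiff ℝ ∞ (φ a)) {w : ι → HS d} (hw : ∀ a, IsJet (φ a) (w a)) :
    IsJet (fun x => ∑ a ∈ s, c a * φ a x) (∑ a ∈ s, c a • w a) := by
  intro k
  have h1 : ∀ k : Idx d, (∑ a ∈ s, c a • w a : HS d) k = ∑ a ∈ s, c a • w a k := by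
    intro k
    rw [WithLp.ofLp_sum, Finset.sum_apply]
    rfl
  have h2 : comp (fun x => ∑ a ∈ s, c a * φ a x) k =
      fun x => ∑ a ∈ s, c a * comp (φ a) k x := by
    rcases k with _ | i | ⟨i, j⟩
    · rfl
    · exact comp_pd_sum s c hφ i
    · show pd i (pd j (fun x => ∑ a ∈ s, c a * φ a x)) = _
      rw [comp_pd_sum s c hφ j, comp_pd_sum s c (fun a => comp_contDiff_pd (hφ a) j) i]
      rfl
  rw [h1, h2]
  clear h1 h2
  have h3 : ((∑ a ∈ s, c a • w a k : Lp ℝ 2 (volume : Measure (E d))) : E d → ℝ)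
      =ᵐ[volume] fun x => ∑ a ∈ s, c a * w a k x := by
    classical
    induction s using Finset.induction_on with
    | empty =>
      simp only [Finset.sum_empty]
      exact Lp.coeFn_zero ℝ 2 _
    | insert a s ha ih =>
      rw [Finset.sum_insert ha]
      filter_upwards [Lp.coeFn_add (c a • w a k) (∑ a ∈ s, c a • w a k),
        Lp.coeFn_smul (c a) (w a k), ih] with x e1 e2 e3
      rw [e1, Pi.add_apply, e2, e3, Finset.sum_insert ha]
      rfl
  refine h3.trans ?_
  have h4 : ∀ a ∈ s, ∀ᵐ x, w a k x = comp (φ a) k x := fun a _ => hw a k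
  filter_upwards [(ae_ball_iff s.countable_toSet).mpr h4] with x hx
  exact Finset.sum_congr rfl fun a ha => by rw [hx a ha]

theorem comp_jet_zero {d : ℕ} {φ : E d → ℝ} (hφ : ContDiff ℝ ∞ φ) (k : Idx d)
    {f : Lp ℝ 2 (volume : Measure (E d))} (hf : f =ᵐ[volume] comp φ k) (hf0 : f = 0) :
    comp φ k = 0 := by
  have h1 : Continuous (comp φ k) := by
    rcases k with _ | i | ⟨i, j⟩
    · exact hφ.continuous
    · exact (comp_contDiff_pd hφ i).continuous
    · exact (comp_contDiff_pd (comp_contDiff_pd hφ j) i).continuous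
  have h2 : comp φ k =ᵐ[volume] (0 : E d → ℝ) := by
    refine hf.symm.trans ?_
    rw [hf0]
    exact Lp.coeFn_zero ℝ 2 _
  exact Continuous.ae_eq_iff_eq volume h1 continuous_zero |>.mp h2

/-- A compactly supported smooth function with vanishing partial derivatives is zero. -/
theorem comp_grad_zero {d : ℕ} (hd : 1 ≤ d) {φ : E d → ℝ} (hφ : ContDiff ℝ ∞ φ)
    (hc : HasCompactSupport φ) (h : ∀ i, pd i φ = 0) : φ = 0 := by
  have hdiff : Differentiable ℝ φ := hφ.differentiable (by simp)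
  have h1 : ∀ x, fderiv ℝ φ x = 0 := by
    intro x
    refine ContinuousLinearMap.ext fun v => ?_
    have h2 : v = ∑ i, v i • (EuclideanSpace.single i (1 : ℝ) : E d) := by
      ext j
      rw [WithLp.ofLp_sum, Finset.sum_apply]
      simp
    rw [h2, map_sum]
    refine Finset.sum_eq_zero fun i _ => ?_
    have h3 : fderiv ℝ φ x (EuclideanSpace.single i 1) = 0 := congrFun (h i) x
    rw [map_smul, h3, smul_zero]
  have : Nonempty (Fin d) := ⟨⟨0, hd⟩⟩
  have : NoncompactSpace (E d) := inferInstance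
  obtain ⟨y, hy⟩ : ∃ y, φ y = 0 := by
    by_contra hcon
    push Not at hcon
    have h4 : tsupport φ = univ := by
      refine eq_univ_of_forall fun x => subset_tsupport φ ?_
      exact hcon x
    have h5 : IsCompact (univ : Set (E d)) := h4 ▸ hc
    exact noncompact_univ (E d) h5
  funext x
  rw [is_const_of_fderiv_eq_zero hdiff h1 x y, hy]
  rfl

/-! ## Bumps -/

theorem comp_exists_bumps {d : ℕ} (hd : 1 ≤ d) (h : ℕ) {R : ℝ} (hR : 0 < R) :
    ∃ φ : Fin h → E d → ℝ, (∀ a, Test (Metric.ball (0 : E d) R) (φ a)) ∧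
      ∃ p : Fin h → E d, ∀ a b, φ a (p b) = if a = b then 1 else 0 := by
  classical
  have hh : (0 : ℝ) < h + 1 := by positivity
  set s : ℝ := R / (2 * (h + 1)) with hs
  have hs0 : 0 < s := by positivity
  set e : E d := EuclideanSpace.single ⟨0, hd⟩ (1 : ℝ) with he
  have hen : ‖e‖ = 1 := by rw [he, PiLp.norm_single, norm_one]
  let p : Fin h → E d := fun a => (s * (a : ℕ)) • e
  have hdist : ∀ a b : Fin h, a ≠ b → s ≤ dist (p b) (p a) := by
    intro a b hab
    have h1 : p b - p a = (s * (((b : ℕ) : ℝ) - ((a : ℕ) : ℝ))) • e := by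
      simp only [p]
      rw [← sub_smul]
      congr 1
      ring
    rw [dist_eq_norm, h1, norm_smul, hen, mul_one, Real.norm_eq_abs, abs_mul, abs_of_pos hs0]
    have h2 : (1 : ℝ) ≤ |((b : ℕ) : ℝ) - ((a : ℕ) : ℝ)| := by
      have h3 : ((b : ℕ) : ℤ) - ((a : ℕ) : ℤ) ≠ 0 := by
        intro h4
        apply hab
        apply Fin.ext
        omega
      have h5 := Int.one_le_abs h3
      have h6 : ((1 : ℤ) : ℝ) ≤ ((|((b : ℕ) : ℤ) - ((a : ℕ) : ℤ)| : ℤ) : ℝ) :=
        Int.cast_le.mpr h5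
      push_cast at h6
      exact h6
    calc s = s * 1 := (mul_one s).symm
      _ ≤ _ := mul_le_mul_of_nonneg_left h2 hs0.le
  let f : ∀ a : Fin h, ContDiffBump (p a) := fun a => ⟨s / 4, s / 2, by positivity, by linarith⟩
  refine ⟨fun a => f a, fun a => ⟨(f a).contDiff, (f a).hasCompactSupport, ?_⟩, p, ?_⟩
  · rw [(f a).tsupport_eq]
    intro x hx
    rw [Metric.mem_closedBall] at hx
    rw [Metric.mem_ball, dist_zero_right]
    have h1 : ‖x‖ ≤ ‖x - p a‖ + ‖p a‖ := by
      calc ‖x‖ = ‖(x - p a) + p a‖ := by rw [sub_add_cancel]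
        _ ≤ _ := norm_add_le _ _
    have h2 : ‖x - p a‖ ≤ s / 2 := by rw [← dist_eq_norm]; exact hx
    have h3 : ‖p a‖ = s * (a : ℕ) := by
      simp only [p]
      rw [norm_smul, hen, mul_one, Real.norm_of_nonneg (by positivity)]
    have h4 : ((a : ℕ) : ℝ) + 1 ≤ h := by exact_mod_cast a.2
    have h5 : s * (2 * (h + 1)) = R := by
      rw [hs]; field_simp
    nlinarith
  · intro a b
    split_ifs with hab
    · subst hab
      exact (f a).one_of_mem_closedBall (Metric.mem_closedBall_self (by positivity))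
    · refine (f a).zero_of_le_dist ?_
      have h1 := hdist a b hab
      have h2 : (f a).rOut = s / 2 := rfl
      rw [h2]
      linarith

theorem lam_ball_finite {d : ℕ} (hd : 1 ≤ d) {h : ℕ} (hh : 1 ≤ h) {R : ℝ} (hR : 0 < R) :
    lam h (Metric.ball (0 : E d) R) < ⊤ := by
  classical
  obtain ⟨φ, hφ, p, hp⟩ := comp_exists_bumps hd h hR
  choose w hw using fun a => exists_jet (hφ a)
  have hsm : ∀ a, ContDiff ℝ ∞ (φ a) := fun a => (hφ a).smooth
  -- the function of a combination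
  have hcs : ∀ c : Fin h → ℝ, HasCompactSupport (fun x => ∑ a, c a * φ a x) := by
    intro c
    have h1 : (fun x => ∑ a, c a * φ a x) = ∑ a, fun x => c a * φ a x := by
      funext x; rw [Finset.sum_apply]
    rw [h1]
    refine Finset.sum_induction (fun a => fun x => c a * φ a x)
      (fun g => HasCompactSupport g) (fun g g' hg hg' => hg.add hg') ?_ ?_
    · exact HasCompactSupport.zero
    · intro a _
      exact (hφ a).compact.mul_left
  have hcd : ∀ c : Fin h → ℝ, ContDiff ℝ ∞ (fun x => ∑ a, c a * φ a x) := fun c =>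
    ContDiff.sum fun a _ => contDiff_const.mul (hsm a)
  have hzero : ∀ c : Fin h → ℝ, (fun x => ∑ a, c a * φ a x) = 0 → c = 0 := by
    intro c hc
    funext b
    have h1 := congrFun hc (p b)
    simp only [hp, mul_ite, mul_one, mul_zero, Finset.sum_ite_eq', Finset.mem_univ,
      if_true, Pi.zero_apply] at h1
    exact h1
  have hgrad : ∀ c : Fin h → ℝ, (∀ i, (∑ a, c a • w a : HS d) (some (Sum.inl i)) = 0) →
      c = 0 := by
    intro c hc
    refine hzero c (comp_grad_zero hd (hcd c) (hcs c) fun i => ?_)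
    have h1 := comp_sum_jet Finset.univ c hsm hw (some (Sum.inl i))
    exact comp_jet_zero (hcd c) (some (Sum.inl i)) h1 (hc i)
  have hli : LinearIndependent ℝ w := by
    rw [Fintype.linearIndependent_iff]
    intro c hc
    have h1 := hgrad c (fun i => by rw [hc]; rfl)
    intro a
    rw [h1]
    rfl
  set V : Submodule ℝ (HS d) := Submodule.span ℝ (Set.range w) with hV
  have hVfin : Module.finrank ℝ V = h := by
    rw [hV, finrank_span_eq_card hli, Fintype.card_fin]
  have hVle : V ≤ H20 (Metric.ball (0 : E d) R) := by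
    rw [hV, Submodule.span_le]
    rintro _ ⟨a, rfl⟩
    exact Submodule.le_topologicalClosure _ (Submodule.subset_span ⟨φ a, hφ a, hw a⟩)
  have : FiniteDimensional ℝ V := FiniteDimensional.span_of_finite ℝ (Set.finite_range w)
  -- the gradient map
  let P : ∀ i : Fin d, HS d →L[ℝ] Lp ℝ 2 (volume : Measure (E d)) := fun i =>
    PiLp.proj 2 (fun _ : Idx d => Lp ℝ 2 (volume : Measure (E d))) (some (Sum.inl i))
  let b : V →ₗ[ℝ] (Fin d → Lp ℝ 2 (volume : Measure (E d))) :=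
    (LinearMap.pi fun i => ((P i : HS d →ₗ[ℝ] Lp ℝ 2 (volume : Measure (E d))))).comp V.subtype
  have hb : ∀ (v : V) (i : Fin d), b v i = (v : HS d) (some (Sum.inl i)) := fun v i => rfl
  have hker : LinearMap.ker b = ⊥ := by
    rw [LinearMap.ker_eq_bot']
    intro v hv
    obtain ⟨c, hc⟩ : ∃ c : Fin h → ℝ, ∑ a, c a • w a = (v : HS d) := by
      have h1 : (v : HS d) ∈ Submodule.span ℝ (Set.range w) := v.2
      exact (Submodule.mem_span_range_iff_exists_fun ℝ).mp h1
    have h1 : c = 0 := by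
      refine hgrad c fun i => ?_
      rw [hc, ← hb, hv]
      rfl
    refine Subtype.ext ?_
    rw [← hc, h1]
    simp
  obtain ⟨K, hK0, hK⟩ := b.exists_antilipschitzWith hker
  have hbound : ∀ v ∈ V, ‖v‖ ^ 2 ≤ (K : ℝ) ^ 2 * qb v := by
    intro v hv
    have h1 : ‖v‖ ≤ K * ‖b ⟨v, hv⟩‖ := by
      have h0 := hK.le_mul_dist (⟨v, hv⟩ : V) 0
      rw [map_zero, dist_zero_right, dist_zero_right] at h0
      exact h0
    have h2 : ‖b ⟨v, hv⟩‖ ^ 2 ≤ qb v := by
      have h3 : ‖b ⟨v, hv⟩‖ ≤ Real.sqrt (qb v) := by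
        rw [pi_norm_le_iff_of_nonneg (Real.sqrt_nonneg _)]
        intro i
        rw [hb]
        refine Real.le_sqrt_of_sq_le ?_
        exact Finset.single_le_sum (f := fun i => ‖v (some (Sum.inl i))‖ ^ 2)
          (fun _ _ => sq_nonneg _) (Finset.mem_univ i)
      calc ‖b ⟨v, hv⟩‖ ^ 2 ≤ Real.sqrt (qb v) ^ 2 :=
            pow_le_pow_left₀ (norm_nonneg _) h3 2
        _ = qb v := Real.sq_sqrt (qb_nonneg v)
    calc ‖v‖ ^ 2 ≤ (K * ‖b ⟨v, hv⟩‖) ^ 2 := pow_le_pow_left₀ (norm_nonneg _) h1 2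
      _ = (K : ℝ) ^ 2 * ‖b ⟨v, hv⟩‖ ^ 2 := by ring
      _ ≤ _ := mul_le_mul_of_nonneg_left h2 (sq_nonneg _)
  have hqa : ∀ v : HS d, qa v ≤ (d * ‖v‖) ^ 2 := by
    intro v
    have h1 : ‖lap v‖ ≤ d * ‖v‖ := by
      calc ‖lap v‖ ≤ ∑ i, ‖v (some (Sum.inr (i, i)))‖ := norm_sum_le _ _
        _ ≤ ∑ _i : Fin d, ‖v‖ := Finset.sum_le_sum fun i _ => PiLp.norm_apply_le v _
        _ = d * ‖v‖ := by rw [Finset.sum_const, Finset.card_univ, Fintype.card_fin, nsmul_eq_mul]
    exact pow_le_pow_left₀ (norm_nonneg _) h1 2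
  set C : ℝ := (d : ℝ) ^ 2 * (K : ℝ) ^ 2 with hC
  have hfinal : lam h (Metric.ball (0 : E d) R) ≤ ENNReal.ofReal C := by
    unfold lam lamS
    refine iInf_le_of_le V (iInf_le_of_le ⟨hVle, hVfin⟩ ?_)
    refine iSup_le fun v => iSup_le fun hv => ?_
    refine ENNReal.div_le_of_le_mul ?_
    rw [← ENNReal.ofReal_mul (by positivity)]
    refine ENNReal.ofReal_le_ofReal ?_
    have h1 := hqa v
    have h2 := hbound v hv.1
    calc qa v ≤ (d * ‖v‖) ^ 2 := h1
      _ = (d : ℝ) ^ 2 * ‖v‖ ^ 2 := by ring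
      _ ≤ (d : ℝ) ^ 2 * ((K : ℝ) ^ 2 * qb v) := mul_le_mul_of_nonneg_left h2 (sq_nonneg _)
      _ = C * qb v := by rw [hC]; ring
  exact lt_of_le_of_lt hfinal ENNReal.ofReal_lt_top

theorem exists_competitor {d : ℕ} (hd : 1 ≤ d) {h : ℕ} (hh : 1 ≤ h) :
    ∃ R > 0, Fn h (Metric.closedBall (0 : E d) R) < ⊤ := by
  set c : ℝ := (volume (univ ∩ Metric.closedBall (0 : E d) 2)).toReal
      - (volume (univ ∩ Metric.closedBall (0 : E d) 1)).toReal + 1 with hc
  obtain ⟨ρ, hρ, hper⟩ := per_cut hd (A := univ) MeasurableSet.univ (0 : E d) (r := 1) (s := 2)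
    (c := c) zero_le_one one_lt_two (by rw [hc]; linarith)
  have hρ0 : 0 < ρ := lt_trans zero_lt_one hρ.1
  refine ⟨ρ, hρ0, ?_⟩
  unfold Fn
  refine ENNReal.add_lt_top.mpr ⟨?_, ?_⟩
  · refine lt_of_le_of_lt (lamS_anti h ?_) (lam_ball_finite hd hh hρ0)
    refine (H20_le_X _).trans (X_congr ?_)
    rw [sdiff_eq_empty.mpr Metric.ball_subset_closedBall, measure_empty]
  · rw [univ_inter, per_univ, zero_add] at hper
    exact lt_of_le_of_lt (le_self_add.trans hper) ENNReal.ofReal_lt_top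

/-- A space of positive dimension contains a nonzero vector. -/
theorem comp_exists_ne {d : ℕ} {h : ℕ} (hh : 1 ≤ h) {V : Submodule ℝ (HS d)}
    (hV : Module.finrank ℝ V = h) : ∃ w ∈ V, w ≠ 0 := by
  have h1 : V ≠ ⊥ := by
    rintro rfl
    rw [finrank_bot] at hV
    omega
  exact Submodule.exists_mem_ne_zero_of_ne_bot h1

theorem lamS_pos {d : ℕ} (hd : 1 ≤ d) {h : ℕ} (hh : 1 ≤ h) {A : Set (E d)} (hA : MeasurableSet A)
    (hfin : volume A < ⊤) {S : Submodule ℝ (HS d)} (hS : S ≤ X A) : 0 < lamS h S := by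
  obtain ⟨C, hC0, hC⟩ := faber_krahn d hd
  set c : ℝ := C * (volume A).toReal ^ (2 / d : ℝ) with hc
  have hc0 : 0 ≤ c := by positivity
  have hlow : ENNReal.ofReal (1 / (c + 1)) ≤ lamS h S := by
    unfold lamS
    refine le_iInf fun V => le_iInf fun hV => ?_
    obtain ⟨w, hwV, hw0⟩ := comp_exists_ne hh hV.2
    refine le_iSup_of_le w (le_iSup_of_le ⟨hwV, hw0⟩ ?_)
    have hwX : w ∈ X A := hS (hV.1 hwV)
    obtain ⟨h1, h2⟩ := hC A hA hfin w hwX
    rw [← hc] at h1 h2
    have h3 : qh w = qa w := qh_eq_qa hwX.1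
    have hqa0 : 0 < qa w := by
      rcases (qa_nonneg w).lt_or_eq with h4 | h4
      · exact h4
      · exfalso
        have h5 : qh w = 0 := by rw [h3, ← h4]
        have h6 : qb w = 0 := le_antisymm (by rw [h5, mul_zero] at h2; exact h2) (qb_nonneg w)
        have h7 : ‖w none‖ ^ 2 = 0 :=
          le_antisymm (by rw [h6, mul_zero] at h1; exact h1) (sq_nonneg _)
        have h8 := norm_sq_eq w
        rw [h5, h6, h7] at h8
        have h9 : ‖w‖ = 0 := by
          have : ‖w‖ ^ 2 = 0 := by rw [h8]; ring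
          exact pow_eq_zero_iff (two_ne_zero) |>.mp this
        exact hw0 (norm_eq_zero.mp h9)
    rw [ENNReal.le_div_iff_mul_le (Or.inr (by simpa using hqa0)) (Or.inl ENNReal.ofReal_ne_top),
      ← ENNReal.ofReal_mul (by positivity)]
    refine ENNReal.ofReal_le_ofReal ?_
    rw [one_div, inv_mul_le_iff₀ (by positivity)]
    rw [h3] at h2
    nlinarith
  exact lt_of_lt_of_le (ENNReal.ofReal_pos.mpr (by positivity)) hlow

theorem volume_pos_of_finite {d : ℕ} {h : ℕ} (hh : 1 ≤ h) {A : Set (E d)}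
    {S : Submodule ℝ (HS d)} (hS : S ≤ X A) (hfin : lamS h S < ⊤) : 0 < volume A := by
  rw [pos_iff_ne_zero]
  intro h0
  have hXA : ∀ w ∈ X A, w = 0 := by
    intro w hw
    have hae : ∀ᵐ x, x ∉ A := measure_eq_zero_iff_ae_notMem.mp h0
    refine PiLp.ext fun k => ?_
    refine Lp.ext ?_
    have h1 : (0 : HS d) k = 0 := rfl
    rw [h1]
    filter_upwards [hw.2 k, hae, Lp.coeFn_zero ℝ 2 (volume : Measure (E d))] with x e1 e2 e3
    rw [e1 e2, e3]
    rfl
  have htop : lamS h S = ⊤ := by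
    unfold lamS
    refine iInf_eq_top.mpr fun V => iInf_eq_top.mpr fun hV => ?_
    exfalso
    obtain ⟨w, hwV, hw0⟩ := comp_exists_ne hh hV.2
    exact hw0 (hXA w (hS (hV.1 hwV)))
  rw [htop] at hfin
  exact lt_irrefl _ hfin

end Pool.Agent.Lib.Buck
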