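import Pool.Agent.Lib.MP_17201e_an.Jet

/-!
# Covering by few balls
-/

set_option autoImplicit false

open MeasureTheory Set Filter Topology
open scoped ENNReal ContDiff

namespace Pool.Agent.Lib.Buck

theorem cover_loc_sum {d : ℕ} (s : Finset (E d)) (B : E d → Set (E d))
    (hB : ∀ c, MeasurableSet (B c)) (hd : (s : Set (E d)).Pairwise (Function.onFun Disjoint B))
    (w : HS d) : ∑ c ∈ s, loc (B c) w ≤ ‖w‖ ^ 2 := by
  have h1 : ∑ c ∈ s, loc (B c) w = loc (⋃ c ∈ s, B c) w := by
    unfold loc
    rw [Finset.sum_comm]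
    refine Finset.sum_congr rfl fun k _ => ?_
    rw [integral_biUnion_finset s (fun c _ => hB c) hd]
    intro c _
    exact (Lp.memLp (w k)).integrable_sq.integrableOn
  rw [h1, ← loc_univ]
  exact loc_mono MeasurableSet.univ (subset_univ _) w

theorem cover {d h : ℕ} (A : Set (E d)) (hA : MeasurableSet A) (hfin : volume A < ⊤)
    (u : Fin h → HS d) (M ε₀ : ℝ) (hε : 0 < ε₀) (hM : (volume A).toReal + ∑ i, ‖u i‖ ^ 2 ≤ M)
    (hloc : ∀ x : E d, (volume (A ∩ Metric.ball x 2)).toReal
      + ∑ i, loc (Metric.ball x 2) (u i) ≤ ε₀ → volume (A ∩ Metric.ball x 1) = 0) :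
    ∃ s : Finset (E d), (s.card : ℝ) ≤ M / ε₀ ∧ volume (A \ ⋃ c ∈ s, Metric.ball c 4) = 0 := by
  classical
  set m : E d → ℝ := fun x => (volume (A ∩ Metric.ball x 2)).toReal
      + ∑ i, loc (Metric.ball x 2) (u i) with hm
  set P : Finset (E d) → Prop := fun s => (∀ c ∈ s, ε₀ < m c) ∧
    ∀ c ∈ s, ∀ c' ∈ s, c ≠ c' → 4 ≤ dist c c' with hP
  have hbound : ∀ s, P s → (s.card : ℝ) ≤ M / ε₀ := by
    rintro s ⟨hs1, hs2⟩
    have hdisj : (s : Set (E d)).Pairwise (Function.onFun Disjoint fun c => Metric.ball c 2) := by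
      intro c hc c' hc' hne
      refine Metric.ball_disjoint_ball ?_
      have := hs2 c hc c' hc' hne
      linarith
    have hdisjA : (s : Set (E d)).Pairwise
        (Function.onFun Disjoint fun c => A ∩ Metric.ball c 2) := by
      intro c hc c' hc' hne
      exact (hdisj hc hc' hne).mono inter_subset_right inter_subset_right
    have h1 : ∑ c ∈ s, (volume (A ∩ Metric.ball c 2)).toReal ≤ (volume A).toReal := by
      rw [← ENNReal.toReal_sum fun c _ =>
        ((measure_mono inter_subset_left).trans_lt hfin).ne,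
        ← measure_biUnion_finset hdisjA fun c _ => hA.inter Metric.isOpen_ball.measurableSet]
      refine ENNReal.toReal_mono hfin.ne (measure_mono ?_)
      exact iUnion₂_subset fun c _ => inter_subset_left
    have h2 : ∑ c ∈ s, ∑ i, loc (Metric.ball c 2) (u i) ≤ ∑ i, ‖u i‖ ^ 2 := by
      rw [Finset.sum_comm]
      exact Finset.sum_le_sum fun i _ => cover_loc_sum s (fun c => Metric.ball c 2)
        (fun c => Metric.isOpen_ball.measurableSet) hdisj (u i)
    have h3 : ∑ c ∈ s, m c ≤ M := by
      rw [hm]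
      simp only
      rw [Finset.sum_add_distrib]
      linarith
    have h4 : (s.card : ℝ) * ε₀ ≤ ∑ c ∈ s, m c := by
      rw [← nsmul_eq_mul, ← Finset.sum_const]
      exact Finset.sum_le_sum fun c hc => (hs1 c hc).le
    rw [le_div_iff₀ hε]
    linarith
  have hne : {n : ℕ | ∃ s, P s ∧ s.card = n}.Nonempty :=
    ⟨0, ∅, ⟨fun c hc => absurd hc (Finset.notMem_empty c),
      fun c hc => absurd hc (Finset.notMem_empty c)⟩, Finset.card_empty⟩
  have hbdd : BddAbove {n : ℕ | ∃ s, P s ∧ s.card = n} := by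
    refine ⟨⌊M / ε₀⌋₊, ?_⟩
    rintro n ⟨s, hs, rfl⟩
    exact Nat.le_floor (hbound s hs)
  obtain ⟨s, hs, hcard⟩ := Nat.sSup_mem hne hbdd
  refine ⟨s, hbound s hs, ?_⟩
  refine measure_null_of_locally_null _ fun x hx => ?_
  refine ⟨A ∩ Metric.ball x 1, ?_, ?_⟩
  · rw [mem_nhdsWithin]
    exact ⟨Metric.ball x 1, Metric.isOpen_ball, Metric.mem_ball_self one_pos,
      fun y hy => ⟨hy.2.1, hy.1⟩⟩
  · apply hloc
    by_contra hcon
    push Not at hcon
    have hfar : ∀ c ∈ s, 4 ≤ dist x c := by
      intro c hc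
      by_contra hlt
      push Not at hlt
      exact hx.2 (mem_iUnion₂.mpr ⟨c, hc, hlt⟩)
    have hxs : x ∉ s := by
      intro hxs
      have := hfar x hxs
      rw [dist_self] at this
      linarith
    have hP' : P (insert x s) := by
      refine ⟨?_, ?_⟩
      · intro c hc
        rcases Finset.mem_insert.mp hc with rfl | hc
        · exact hcon
        · exact hs.1 c hc
      · intro c hc c' hc' hne'
        rcases Finset.mem_insert.mp hc with h1 | h1
        · rcases Finset.mem_insert.mp hc' with h2 | h2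
          · exact absurd (h1.trans h2.symm) hne'
          · rw [h1]; exact hfar c' h2
        · rcases Finset.mem_insert.mp hc' with h2 | h2
          · rw [h2, dist_comm]; exact hfar c h1
          · exact hs.2 c h1 c' h2 hne'
    have h1 : (insert x s).card ≤ sSup {n : ℕ | ∃ s, P s ∧ s.card = n} :=
      le_csSup hbdd ⟨insert x s, hP', rfl⟩
    rw [← hcard, Finset.card_insert_of_notMem hxs] at h1
    omega

end Pool.Agent.Lib.Buck
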