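import Pool.Agent.Lib.MP_17201e_an.Defs
import Pool.Agent.Lib.MP_17201e_an.PerTransl

/-!
Module ISO for `MP_17201e_an`: isoperimetric inequality by averaging.
-/

set_option autoImplicit false

open MeasureTheory Set Filter Topology
open scoped ENNReal ContDiff

namespace Pool.Agent.Lib.Buck

theorem iso_avg {d : ℕ} {A : Set (E d)} (hA : MeasurableSet A) (r : ℝ) :
    volume A * (volume (Metric.ball (0 : E d) r) - volume A) ≤
      ENNReal.ofReal r * per A * volume (Metric.ball (0 : E d) r) := by
  have hAc := hA.compl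
  have hB : MeasurableSet (Metric.ball (0 : E d) r) := measurableSet_ball
  have hm : Measurable fun p : E d × E d => A.indicator (1 : E d → ℝ≥0∞) p.2 *
      Aᶜ.indicator (1 : E d → ℝ≥0∞) (p.2 + p.1) := by
    refine Measurable.mul ?_ ?_
    · exact (measurable_one.indicator hA).comp measurable_snd
    · exact (measurable_one.indicator hAc).comp (measurable_snd.add measurable_fst)
  -- upper bound
  have h1 : ∫⁻ z in Metric.ball (0 : E d) r, ∫⁻ x, A.indicator (1 : E d → ℝ≥0∞) x *
      Aᶜ.indicator (1 : E d → ℝ≥0∞) (x + z) ≤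
      ENNReal.ofReal r * per A * volume (Metric.ball (0 : E d) r) := by
    rw [← setLIntegral_const]
    refine setLIntegral_mono measurable_const fun z hz => ?_
    have h2 : ∀ x, A.indicator (1 : E d → ℝ≥0∞) x * Aᶜ.indicator (1 : E d → ℝ≥0∞) (x + z) ≤
        (symmDiff ((fun x => x + z) ⁻¹' A) A).indicator 1 x := by
      intro x
      by_cases h3 : x ∈ A <;> by_cases h4 : x + z ∈ A <;> simp [h3, h4, mem_symmDiff]
    have hS : MeasurableSet (symmDiff ((fun x => x + z) ⁻¹' A) A) :=
      (hA.preimage (measurable_add_const z)).symmDiff hA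
    calc ∫⁻ x, A.indicator (1 : E d → ℝ≥0∞) x * Aᶜ.indicator (1 : E d → ℝ≥0∞) (x + z)
        ≤ ∫⁻ x, (symmDiff ((fun x => x + z) ⁻¹' A) A).indicator 1 x := lintegral_mono h2
      _ = volume (symmDiff ((fun x => x + z) ⁻¹' A) A) := lintegral_indicator_one hS
      _ ≤ ENNReal.ofReal ‖z‖ * per A := per_transl hA z
      _ ≤ ENNReal.ofReal r * per A := by
        refine mul_le_mul_left (ENNReal.ofReal_le_ofReal ?_) _
        exact (mem_ball_zero_iff.1 hz).le
  -- lower bound
  have h5 : volume A * (volume (Metric.ball (0 : E d) r) - volume A) ≤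
      ∫⁻ x, ∫⁻ z in Metric.ball (0 : E d) r, A.indicator (1 : E d → ℝ≥0∞) x *
      Aᶜ.indicator (1 : E d → ℝ≥0∞) (x + z) := by
    have h6 : ∀ x, A.indicator (fun _ => volume (Metric.ball (0 : E d) r) - volume A) x ≤
        ∫⁻ z in Metric.ball (0 : E d) r, A.indicator (1 : E d → ℝ≥0∞) x *
        Aᶜ.indicator (1 : E d → ℝ≥0∞) (x + z) := by
      intro x
      by_cases h3 : x ∈ A
      · rw [indicator_of_mem h3, indicator_of_mem h3]
        simp only [Pi.one_apply, one_mul]
        have h7 : ∀ z, Aᶜ.indicator (1 : E d → ℝ≥0∞) (x + z) =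
            ((fun z => x + z) ⁻¹' Aᶜ).indicator (1 : E d → ℝ≥0∞) z := fun z => rfl
        simp only [h7]
        rw [lintegral_indicator_one (hAc.preimage (measurable_const_add x)),
          Measure.restrict_apply (hAc.preimage (measurable_const_add x))]
        have h8 : (fun z => x + z) ⁻¹' Aᶜ ∩ Metric.ball (0 : E d) r =
            Metric.ball (0 : E d) r \ (fun z => x + z) ⁻¹' A := by
          ext z
          simp [and_comm]
        rw [h8]
        refine le_trans ?_ le_measure_sdiff
        rw [measure_preimage_add]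
      · rw [indicator_of_notMem h3]
        exact zero_le
    calc volume A * (volume (Metric.ball (0 : E d) r) - volume A)
        = ∫⁻ x, A.indicator (fun _ => volume (Metric.ball (0 : E d) r) - volume A) x := by
          rw [lintegral_indicator_const hA, mul_comm]
      _ ≤ _ := lintegral_mono h6
  rw [lintegral_lintegral_swap] at h1
  · exact h5.trans h1
  · exact hm.aemeasurable

theorem isoperimetric (d : ℕ) (hd : 2 ≤ d) : ∃ c > 0, ∀ A : Set (E d), MeasurableSet A →
    volume A < ⊤ →
    ENNReal.ofReal (c * (volume A).toReal ^ (((d : ℝ) - 1) / d)) ≤ per A := by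
  have hd0 : (0 : ℝ) < d := by
    have : 0 < d := by omega
    exact_mod_cast this
  have hd1 : (0 : ℝ) < (d : ℝ) - 1 := by
    have : (2 : ℝ) ≤ d := by exact_mod_cast hd
    linarith
  have hball : volume (Metric.ball (0 : E d) 1) ≠ ⊤ := measure_ball_lt_top.ne
  have hball0 : volume (Metric.ball (0 : E d) 1) ≠ 0 :=
    (Metric.measure_ball_pos volume (0 : E d) one_pos).ne'
  set w : ℝ := (volume (Metric.ball (0 : E d) 1)).toReal with hw
  have hw0 : 0 < w := ENNReal.toReal_pos hball0 hball
  refine ⟨1 / 2 * (w / 2) ^ (1 / (d : ℝ)), by positivity, fun A hA hfin => ?_⟩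
  set M : ℝ := (volume A).toReal with hM
  have hMA : volume A = ENNReal.ofReal M := (ENNReal.ofReal_toReal hfin.ne).symm
  rcases (ENNReal.toReal_nonneg : 0 ≤ (volume A).toReal).eq_or_lt with h0 | h0
  · rw [← hM] at h0
    rw [← h0, Real.zero_rpow (by positivity), mul_zero, ENNReal.ofReal_zero]
    exact zero_le
  · rw [← hM] at h0
    set r : ℝ := (2 * M / w) ^ (1 / (d : ℝ)) with hr
    have hr0 : 0 < r := by positivity
    have hrd : r ^ d = 2 * M / w := by
      rw [hr, ← Real.rpow_natCast, ← Real.rpow_mul (by positivity), one_div,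
        inv_mul_cancel₀ hd0.ne', Real.rpow_one]
    have hBr : volume (Metric.ball (0 : E d) r) = ENNReal.ofReal (2 * M) := by
      rw [Measure.addHaar_ball_of_pos volume _ hr0, finrank_euclideanSpace, Fintype.card_fin, hrd,
        ← ENNReal.ofReal_toReal hball, ← hw, ← ENNReal.ofReal_mul (by positivity)]
      congr 1
      field_simp
    have h1 := iso_avg hA r
    rw [hBr, hMA, ← ENNReal.ofReal_sub _ h0.le] at h1
    have h2 : 2 * M - M = M := by ring
    rw [h2] at h1
    have h3 : ENNReal.ofReal r * per A * ENNReal.ofReal (2 * M) =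
        ENNReal.ofReal M * (ENNReal.ofReal (2 * r) * per A) := by
      rw [ENNReal.ofReal_mul (by norm_num : (0 : ℝ) ≤ 2),
        ENNReal.ofReal_mul (by norm_num : (0 : ℝ) ≤ 2)]
      ring
    rw [h3] at h1
    have hM0 : ENNReal.ofReal M ≠ 0 := (ENNReal.ofReal_pos.2 h0).ne'
    have h4 : ENNReal.ofReal M ≤ ENNReal.ofReal (2 * r) * per A :=
      (ENNReal.mul_le_mul_iff_right hM0 ENNReal.ofReal_ne_top).1 h1
    have h5 : ENNReal.ofReal (M / (2 * r)) ≤ per A := by
      rw [ENNReal.ofReal_div_of_pos (by positivity)]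
      exact ENNReal.div_le_of_le_mul' h4
    refine le_trans (le_of_eq ?_) h5
    congr 1
    have h6 : M ^ (((d : ℝ) - 1) / d) = M / M ^ (1 / (d : ℝ)) := by
      rw [sub_div, div_self hd0.ne', Real.rpow_sub h0, Real.rpow_one]
    have e1 : (w / 2) ^ (1 / (d : ℝ)) = w ^ (1 / (d : ℝ)) / 2 ^ (1 / (d : ℝ)) :=
      Real.div_rpow (by positivity) (by positivity) _
    have e2 : (2 * M / w) ^ (1 / (d : ℝ)) =
        2 ^ (1 / (d : ℝ)) * M ^ (1 / (d : ℝ)) / w ^ (1 / (d : ℝ)) := by
      rw [Real.div_rpow (by positivity) (by positivity),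
        Real.mul_rpow (by positivity) (by positivity)]
    rw [h6, hr, e1, e2]
    have h7 : (0 : ℝ) < 2 ^ (1 / (d : ℝ)) := by positivity
    have h8 : (0 : ℝ) < M ^ (1 / (d : ℝ)) := by positivity
    have h9 : (0 : ℝ) < w ^ (1 / (d : ℝ)) := by positivity
    field_simp

end Pool.Agent.Lib.Buck
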