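import Pool.Agent.Lib.MP_17201e_an.Jet
import Pool.Agent.Lib.MP_17201e_an.Hess
import Pool.Agent.Lib.MP_17201e_an.Mult
import Pool.Agent.Lib.MP_17201e_an.Cutoff
import Pool.Agent.Lib.MP_17201e_an.FaberKrahn

/-!
# Module CACC of `MP_17201e_an`

A Caccioppoli inequality with a gain of a power of the volume.
-/

set_option autoImplicit false

open MeasureTheory Set Filter Topology
open scoped ENNReal ContDiff

namespace Pool.Agent.Lib.Buck

/-! ### Pointwise facts -/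

theorem cacc_pd_const {d : ℕ} {ψ : E d → ℝ} {x : E d} {c : ℝ} (h : ψ =ᶠ[𝓝 x] fun _ => c)
    (i : Fin d) : pd i ψ =ᶠ[𝓝 x] fun _ => 0 := by
  have h1 : fderiv ℝ ψ =ᶠ[𝓝 x] fderiv ℝ (fun _ : E d => c) := h.fderiv
  filter_upwards [h1] with y hy
  unfold pd
  rw [hy]
  simp

theorem cacc_mulComp_one {d : ℕ} {ψ : E d → ℝ} {x : E d} (h : ψ =ᶠ[𝓝 x] fun _ => 1)
    (w : Idx d → E d → ℝ) (k : Idx d) : mulComp ψ w k x = w k x := by
  have h0 : ψ x = 1 := h.self_of_nhds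
  have h1 : ∀ i, pd i ψ x = 0 := fun i => (cacc_pd_const h i).self_of_nhds
  have h2 : ∀ i j, pd i (pd j ψ) x = 0 := fun i j =>
    (cacc_pd_const (cacc_pd_const h j) i).self_of_nhds
  rcases k with _ | i | ⟨i, j⟩
  · simp [mulComp, h0]
  · simp [mulComp, h0, h1]
  · simp [mulComp, h0, h1, h2]

theorem cacc_zero {d : ℕ} {ψ : E d → ℝ} {x : E d} (h : x ∉ tsupport ψ) :
    ψ x = 0 ∧ (∀ i, pd i ψ x = 0) ∧ ∀ i j, pd i (pd j ψ) x = 0 := by
  have h' : ψ =ᶠ[𝓝 x] fun _ => 0 := notMem_tsupport_iff_eventuallyEq.1 h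
  exact ⟨h'.self_of_nhds, fun i => (cacc_pd_const h' i).self_of_nhds, fun i j =>
    (cacc_pd_const (cacc_pd_const h' j) i).self_of_nhds⟩

theorem cacc_sq_mul {a M : ℝ} (w : ℝ) (h : |a| ≤ M) : (a * w) ^ 2 ≤ M ^ 2 * w ^ 2 := by
  rw [mul_pow]
  have : a ^ 2 ≤ M ^ 2 := sq_le_sq' (by linarith [neg_abs_le a]) (by linarith [le_abs_self a])
  gcongr

/-! ### Integrals -/

theorem cacc_norm_sq {d : ℕ} (f : Lp ℝ 2 (volume : Measure (E d))) {F : E d → ℝ}
    (hf : f =ᵐ[volume] F) : ‖f‖ ^ 2 = ∫ x, (F x) ^ 2 := by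
  rw [← real_inner_self_eq_norm_sq, MeasureTheory.L2.inner_def]
  refine integral_congr_ae ?_
  filter_upwards [hf] with x h1
  rw [h1, real_inner_self_eq_norm_sq, Real.norm_eq_abs, sq_abs]

theorem cacc_inner {d : ℕ} {f g : Lp ℝ 2 (volume : Measure (E d))} {F G : E d → ℝ}
    (hf : f =ᵐ[volume] F) (hg : g =ᵐ[volume] G) : inner ℝ f g = ∫ x, F x * G x := by
  rw [MeasureTheory.L2.inner_def]
  refine integral_congr_ae ?_
  filter_upwards [hf, hg] with x h1 h2
  rw [h1, h2]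
  simp [mul_comm]

theorem cacc_integrable_mul {d : ℕ} {f g : Lp ℝ 2 (volume : Measure (E d))} {F G : E d → ℝ}
    (hf : f =ᵐ[volume] F) (hg : g =ᵐ[volume] G) : Integrable (fun x => F x * G x) := by
  have h1 : MemLp F 2 (volume : Measure (E d)) := (memLp_congr_ae hf).1 (Lp.memLp f)
  have h2 : MemLp G 2 (volume : Measure (E d)) := (memLp_congr_ae hg).1 (Lp.memLp g)
  exact h1.integrable_mul h2

theorem cacc_integrable_sq {d : ℕ} (w : HS d) (k : Idx d) :
    Integrable (fun x => (w k x) ^ 2) (volume : Measure (E d)) :=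
  (Lp.memLp (w k)).integrable_sq

theorem cacc_comp_le_loc {d : ℕ} (B : Set (E d)) (w : HS d) (k : Idx d) :
    ∫ x in B, (w k x) ^ 2 ≤ loc B w := by
  unfold loc
  exact Finset.single_le_sum (f := fun k => ∫ x in B, (w k x) ^ 2)
    (fun _ _ => integral_nonneg fun _ => sq_nonneg _) (Finset.mem_univ k)

theorem cacc_sum_inl_le_loc {d : ℕ} (B : Set (E d)) (w : HS d) :
    ∑ i, ∫ x in B, (w (some (Sum.inl i)) x) ^ 2 ≤ loc B w := by
  unfold loc
  rw [Fintype.sum_option, Fintype.sum_sum_type]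
  have h1 : 0 ≤ ∫ x in B, (w none x) ^ 2 := integral_nonneg fun _ => sq_nonneg _
  have h2 : 0 ≤ ∑ p : Fin d × Fin d, ∫ x in B, (w (some (Sum.inr p)) x) ^ 2 :=
    Finset.sum_nonneg fun _ _ => integral_nonneg fun _ => sq_nonneg _
  linarith

theorem cacc_sum_diag_le_loc {d : ℕ} (B : Set (E d)) (w : HS d) :
    ∑ i, ∫ x in B, (w (some (Sum.inr (i, i))) x) ^ 2 ≤ loc B w := by
  unfold loc
  rw [Fintype.sum_option, Fintype.sum_sum_type, Fintype.sum_prod_type]
  have h1 : 0 ≤ ∫ x in B, (w none x) ^ 2 := integral_nonneg fun _ => sq_nonneg _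
  have h2 : 0 ≤ ∑ i, ∫ x in B, (w (some (Sum.inl i)) x) ^ 2 :=
    Finset.sum_nonneg fun _ _ => integral_nonneg fun _ => sq_nonneg _
  have h3 : ∑ i, ∫ x in B, (w (some (Sum.inr (i, i))) x) ^ 2 ≤
      ∑ i, ∑ j, ∫ x in B, (w (some (Sum.inr (i, j))) x) ^ 2 :=
    Finset.sum_le_sum fun i _ => Finset.single_le_sum
      (f := fun j => ∫ x in B, (w (some (Sum.inr (i, j))) x) ^ 2)
      (fun _ _ => integral_nonneg fun _ => sq_nonneg _) (Finset.mem_univ i)
  linarith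

theorem cacc_loc_eq {d : ℕ} (B : Set (E d)) (w : HS d) :
    loc B w = (∫ x in B, (w none x) ^ 2) + ((∑ i, ∫ x in B, (w (some (Sum.inl i)) x) ^ 2) +
      ∑ i, ∑ j, ∫ x in B, (w (some (Sum.inr (i, j))) x) ^ 2) := by
  unfold loc
  rw [Fintype.sum_option, Fintype.sum_sum_type, Fintype.sum_prod_type]

/-- Where `ψ` is one, the multiple of the jet agrees with the jet. -/
theorem cacc_restrict {d : ℕ} {ψ : E d → ℝ} {K₀ K₁ K₂ : ℝ} (h : BC ψ K₀ K₁ K₂) {B : Set (E d)}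
    (hB : MeasurableSet B) (h1 : ∀ x ∈ B, ψ =ᶠ[𝓝 x] fun _ => 1) (w : HS d) (k : Idx d) :
    ∫ x in B, (w k x) ^ 2 ≤ ‖(mulJ ψ w) k‖ ^ 2 := by
  rw [cacc_norm_sq _ (Filter.EventuallyEq.refl _ _)]
  have e : ∫ x in B, (w k x) ^ 2 = ∫ x in B, ((mulJ ψ w) k x) ^ 2 := by
    refine setIntegral_congr_ae hB ?_
    filter_upwards [mulJ_spec h w k] with x hx hxB
    rw [hx, cacc_mulComp_one (h1 x hxB)]
  rw [e]
  exact setIntegral_le_integral (cacc_integrable_sq _ k)
    (Eventually.of_forall fun x => sq_nonneg _)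

theorem cacc_int3 {d : ℕ} {μ : Measure (E d)} {f g h : E d → ℝ} (hf : Integrable f μ)
    (hg : Integrable g μ) (hh : Integrable h μ) (a b c : ℝ) :
    Integrable (fun x => a * f x + (b * g x + c * h x)) μ ∧
      ∫ x, (a * f x + (b * g x + c * h x)) ∂μ =
        a * ∫ x, f x ∂μ + (b * ∫ x, g x ∂μ + c * ∫ x, h x ∂μ) := by
  have h1 : Integrable (fun x => b * g x + c * h x) μ := (hg.const_mul b).add (hh.const_mul c)
  refine ⟨(hf.const_mul a).add h1, ?_⟩
  rw [integral_add (hf.const_mul a) h1, integral_add (hg.const_mul b) (hh.const_mul c),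
    integral_const_mul, integral_const_mul, integral_const_mul]

/-- The density of `loc`. -/
noncomputable def caccS {d : ℕ} (w : HS d) (x : E d) : ℝ := ∑ k, (w k x) ^ 2

theorem caccS_integrable {d : ℕ} (w : HS d) : Integrable (caccS w) := by
  unfold caccS
  exact integrable_finsetSum _ fun k _ => cacc_integrable_sq w k

theorem caccS_integral {d : ℕ} (w : HS d) (B : Set (E d)) : ∫ x in B, caccS w x = loc B w := by
  unfold caccS loc
  exact integral_finsetSum _ fun k _ => (cacc_integrable_sq w k).integrableOn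

theorem caccS_ge {d : ℕ} (w : HS d) (x : E d) (k : Idx d) : (w k x) ^ 2 ≤ caccS w x :=
  Finset.single_le_sum (f := fun k => (w k x) ^ 2) (fun _ _ => sq_nonneg _) (Finset.mem_univ k)

theorem caccS_nonneg {d : ℕ} (w : HS d) (x : E d) : 0 ≤ caccS w x :=
  Finset.sum_nonneg fun _ _ => sq_nonneg _

/-- The second derivatives of a multiple of a jet. -/
theorem cacc_hess {d : ℕ} {ψ : E d → ℝ} {K₀ K₁ K₂ M : ℝ} (h : BC ψ K₀ K₁ K₂) (h0 : K₀ ≤ M)
    (h1 : K₁ ≤ M) (h2 : K₂ ≤ M) {B : Set (E d)} (hB : MeasurableSet B) (hs : tsupport ψ ⊆ B)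
    (w : HS d) (i j : Fin d) :
    ‖(mulJ ψ w) (some (Sum.inr (i, j)))‖ ^ 2 ≤ 16 * M ^ 2 * loc B w := by
  rw [cacc_norm_sq _ (mulJ_spec h w (some (Sum.inr (i, j))))]
  have key : ∀ x, (mulComp ψ (fun k x => w k x) (some (Sum.inr (i, j))) x) ^ 2 ≤
      B.indicator (fun x => 16 * M ^ 2 * caccS w x) x := by
    intro x
    by_cases hx : x ∈ B
    · rw [indicator_of_mem hx]
      have a1 := cacc_sq_mul (w (some (Sum.inr (i, j))) x) ((h.b0 x).trans h0)
      have a2 := cacc_sq_mul (w (some (Sum.inl j)) x) ((h.b1 i x).trans h1)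
      have a3 := cacc_sq_mul (w (some (Sum.inl i)) x) ((h.b1 j x).trans h1)
      have a4 := cacc_sq_mul (w none x) ((h.b2 i j x).trans h2)
      have a5 : ∀ a b c e : ℝ, (a + b + c + e) ^ 2 ≤ 4 * (a ^ 2 + b ^ 2 + c ^ 2 + e ^ 2) := by
        intro a b c e
        nlinarith [sq_nonneg (a - b), sq_nonneg (a - c), sq_nonneg (a - e), sq_nonneg (b - c),
          sq_nonneg (b - e), sq_nonneg (c - e)]
      have c1 := mul_le_mul_of_nonneg_left (caccS_ge w x (some (Sum.inr (i, j)))) (sq_nonneg M)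
      have c2 := mul_le_mul_of_nonneg_left (caccS_ge w x (some (Sum.inl j))) (sq_nonneg M)
      have c3 := mul_le_mul_of_nonneg_left (caccS_ge w x (some (Sum.inl i))) (sq_nonneg M)
      have c4 := mul_le_mul_of_nonneg_left (caccS_ge w x none) (sq_nonneg M)
      refine (a5 _ _ _ _).trans ?_
      linarith
    · rw [indicator_of_notMem hx]
      obtain ⟨z0, z1, z2⟩ := cacc_zero fun hh => hx (hs hh)
      simp [mulComp, z0, z1, z2]
  refine (integral_mono_of_nonneg (Eventually.of_forall fun x => sq_nonneg _)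
    (((caccS_integrable w).const_mul (16 * M ^ 2)).indicator hB)
    (Eventually.of_forall key)).trans ?_
  rw [integral_indicator hB, integral_const_mul, caccS_integral]

theorem cacc_qh {d : ℕ} {ψ : E d → ℝ} {K₀ K₁ K₂ M : ℝ} (h : BC ψ K₀ K₁ K₂) (h0 : K₀ ≤ M)
    (h1 : K₁ ≤ M) (h2 : K₂ ≤ M) {B : Set (E d)} (hB : MeasurableSet B) (hs : tsupport ψ ⊆ B)
    (w : HS d) : qh (mulJ ψ w) ≤ 16 * (d : ℝ) ^ 2 * M ^ 2 * loc B w := by
  unfold qh
  refine (Finset.sum_le_sum fun i _ => Finset.sum_le_sum fun j _ =>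
    cacc_hess h h0 h1 h2 hB hs w i j).trans_eq ?_
  simp only [Finset.sum_const, Finset.card_univ, Fintype.card_fin, nsmul_eq_mul]
  ring

/-! ### The Laplacians -/

theorem cacc_lap_coe {d : ℕ} (w : HS d) :
    lap w =ᵐ[volume] fun x => ∑ i, w (some (Sum.inr (i, i))) x := by
  unfold lap
  filter_upwards [Lp.coeFn_finsetSum Finset.univ fun i => w (some (Sum.inr (i, i)))] with x hx
  rw [hx]
  simp

/-- `Δu`. -/
noncomputable def caccL {d : ℕ} (u : Idx d → E d → ℝ) (x : E d) : ℝ :=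
  ∑ i, u (some (Sum.inr (i, i))) x

/-- `2 ∇ψ · ∇u + u Δψ`. -/
noncomputable def caccP {d : ℕ} (ψ : E d → ℝ) (u : Idx d → E d → ℝ) (x : E d) : ℝ :=
  ∑ i, (2 * pd i ψ x * u (some (Sum.inl i)) x + pd i (pd i ψ) x * u none x)

/-- `|∇ψ|²`. -/
noncomputable def caccG {d : ℕ} (ψ : E d → ℝ) (x : E d) : ℝ := ∑ i, (pd i ψ x) ^ 2

theorem cacc_lap_mul {d : ℕ} (ψ : E d → ℝ) (u : Idx d → E d → ℝ) (x : E d) :
    ∑ i, mulComp ψ u (some (Sum.inr (i, i))) x = ψ x * caccL u x + caccP ψ u x := by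
  unfold caccL caccP
  rw [Finset.mul_sum, ← Finset.sum_add_distrib]
  refine Finset.sum_congr rfl fun i _ => ?_
  simp only [mulComp]
  ring

theorem cacc_lap_mul2 {d : ℕ} (ψ : E d → ℝ) (u : Idx d → E d → ℝ) (x : E d) :
    ∑ i, mulComp ψ (mulComp ψ u) (some (Sum.inr (i, i))) x =
      ψ x ^ 2 * caccL u x + 2 * ψ x * caccP ψ u x + 2 * u none x * caccG ψ x := by
  unfold caccL caccP caccG
  rw [Finset.mul_sum, Finset.mul_sum, Finset.mul_sum, ← Finset.sum_add_distrib,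
    ← Finset.sum_add_distrib]
  refine Finset.sum_congr rfl fun i _ => ?_
  simp only [mulComp]
  ring

theorem cacc_mulComp_congr {d : ℕ} {ψ : E d → ℝ} {w w' : Idx d → E d → ℝ} {x : E d}
    (h : ∀ k, w k x = w' k x) (k : Idx d) : mulComp ψ w k x = mulComp ψ w' k x := by
  rcases k with _ | i | ⟨i, j⟩
  · simp only [mulComp, h]
  · simp only [mulComp, h]
  · simp only [mulComp, h]

section

variable {d : ℕ} {ψ : E d → ℝ} {K₀ K₁ K₂ : ℝ}

theorem cacc_mul2 (h : BC ψ K₀ K₁ K₂) (u : HS d) (k : Idx d) :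
    (mulJ ψ (mulJ ψ u)) k =ᵐ[volume] mulComp ψ (mulComp ψ fun k x => u k x) k := by
  filter_upwards [mulJ_spec h (mulJ ψ u) k, ae_all_iff.2 (mulJ_spec h u)] with x h1 h2
  rw [h1]
  exact cacc_mulComp_congr h2 k

theorem cacc_lap1 (h : BC ψ K₀ K₁ K₂) (u : HS d) :
    lap (mulJ ψ u) =ᵐ[volume] fun x => ψ x * caccL (fun k x => u k x) x +
      caccP ψ (fun k x => u k x) x := by
  filter_upwards [cacc_lap_coe (mulJ ψ u), ae_all_iff.2 (mulJ_spec h u)] with x h1 h2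
  rw [h1, ← cacc_lap_mul]
  exact Finset.sum_congr rfl fun i _ => h2 _

theorem cacc_lap2 (h : BC ψ K₀ K₁ K₂) (u : HS d) :
    lap (mulJ ψ (mulJ ψ u)) =ᵐ[volume] fun x => ψ x ^ 2 * caccL (fun k x => u k x) x +
      2 * ψ x * caccP ψ (fun k x => u k x) x + 2 * u none x * caccG ψ x := by
  filter_upwards [cacc_lap_coe (mulJ ψ (mulJ ψ u)), ae_all_iff.2 (cacc_mul2 h u)] with x h1 h2
  rw [h1]
  refine Eq.trans ?_ (cacc_lap_mul2 ψ (fun k x => u k x) x)
  exact Finset.sum_congr rfl fun i _ => h2 _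

variable {M : ℝ} {B : Set (E d)}

/-- The estimate of `∫ (Δ(ψu))² - Δu Δ(ψ²u)`. -/
theorem cacc_qa_sub_fa (h : BC ψ K₀ K₁ K₂) (h1 : K₁ ≤ M) (h2 : K₂ ≤ M)
    (hB : MeasurableSet B) (hs : tsupport ψ ⊆ B) (u : HS d) {t : ℝ} (ht : 0 < t) :
    qa (mulJ ψ u) - fa u (mulJ ψ (mulJ ψ u)) ≤
      d * M ^ 2 * (8 * (∑ i, ∫ x in B, (u (some (Sum.inl i)) x) ^ 2) +
        2 * d * ∫ x in B, (u none x) ^ 2) +
      d * M ^ 2 * ((∫ x in B, (u none x) ^ 2) / t + t * (d * loc B u)) := by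
  set U : Idx d → E d → ℝ := fun k x => u k x with hU
  have hu : lap u =ᵐ[volume] fun x => caccL U x := cacc_lap_coe u
  have e1 : qa (mulJ ψ u) = ∫ x, (ψ x * caccL U x + caccP ψ U x) ^ 2 :=
    cacc_norm_sq _ (cacc_lap1 h u)
  have e2 : fa u (mulJ ψ (mulJ ψ u)) = ∫ x, caccL U x * (ψ x ^ 2 * caccL U x +
      2 * ψ x * caccP ψ U x + 2 * U none x * caccG ψ x) := cacc_inner hu (cacc_lap2 h u)
  have i1 : Integrable (fun x => (ψ x * caccL U x + caccP ψ U x) ^ 2) := by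
    simpa only [sq] using cacc_integrable_mul (cacc_lap1 h u) (cacc_lap1 h u)
  have i2 : Integrable (fun x => caccL U x * (ψ x ^ 2 * caccL U x +
      2 * ψ x * caccP ψ U x + 2 * U none x * caccG ψ x)) :=
    cacc_integrable_mul hu (cacc_lap2 h u)
  rw [e1, e2, ← integral_sub i1 i2]
  set f : E d → ℝ := fun x => (U none x) ^ 2 with hf
  set g : E d → ℝ := fun x => ∑ i, (U (some (Sum.inl i)) x) ^ 2 with hg
  have If : Integrable f := cacc_integrable_sq u none
  have Ig : Integrable g := integrable_finsetSum _ fun i _ => cacc_integrable_sq u _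
  have Ih : Integrable (caccS u) := caccS_integrable u
  have hR := cacc_int3 (μ := volume.restrict B) If.integrableOn Ig.integrableOn Ih.integrableOn
    (d * M ^ 2 * (2 * d) + d * M ^ 2 / t) (d * M ^ 2 * 8) (d * M ^ 2 * (t * d))
  have key : ∀ x, (ψ x * caccL U x + caccP ψ U x) ^ 2 - caccL U x * (ψ x ^ 2 * caccL U x +
      2 * ψ x * caccP ψ U x + 2 * U none x * caccG ψ x) ≤
      B.indicator (fun x => (d * M ^ 2 * (2 * d) + d * M ^ 2 / t) * f x +
        (d * M ^ 2 * 8 * g x + d * M ^ 2 * (t * d) * caccS u x)) x := by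
    intro x
    by_cases hx : x ∈ B
    · rw [indicator_of_mem hx]
      have id1 : (ψ x * caccL U x + caccP ψ U x) ^ 2 - caccL U x * (ψ x ^ 2 * caccL U x +
        2 * ψ x * caccP ψ U x + 2 * U none x * caccG ψ x) =
        (caccP ψ U x) ^ 2 - 2 * U none x * caccL U x * caccG ψ x := by ring
      have p1 : (caccP ψ U x) ^ 2 ≤ d * (M ^ 2 * (8 * g x + 2 * d * f x)) := by
        have c1 := sq_sum_le_card_mul_sum_sq (s := (Finset.univ : Finset (Fin d)))
          (f := fun i => 2 * pd i ψ x * U (some (Sum.inl i)) x + pd i (pd i ψ) x * U none x)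
        rw [Finset.card_univ, Fintype.card_fin] at c1
        refine c1.trans ?_
        gcongr
        have c2 : ∀ i ∈ (Finset.univ : Finset (Fin d)),
            (2 * pd i ψ x * U (some (Sum.inl i)) x + pd i (pd i ψ) x * U none x) ^ 2 ≤
            M ^ 2 * (8 * (U (some (Sum.inl i)) x) ^ 2 + 2 * f x) := by
          intro i _
          have a1 := cacc_sq_mul (U (some (Sum.inl i)) x) ((h.b1 i x).trans h1)
          have a2 := cacc_sq_mul (U none x) ((h.b2 i i x).trans h2)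
          have a3 : ∀ a b : ℝ, (2 * a + b) ^ 2 ≤ 8 * a ^ 2 + 2 * b ^ 2 := by
            intro a b; nlinarith [sq_nonneg (2 * a - b)]
          have a4 := a3 (pd i ψ x * U (some (Sum.inl i)) x) (pd i (pd i ψ) x * U none x)
          rw [← mul_assoc] at a4
          refine a4.trans ?_
          simp only [hf]
          linarith
        refine (Finset.sum_le_sum c2).trans_eq ?_
        rw [← Finset.mul_sum, Finset.sum_add_distrib, ← Finset.mul_sum, Finset.sum_const,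
          Finset.card_univ, Fintype.card_fin, nsmul_eq_mul]
        simp only [hg]
        ring
      have p2 : caccG ψ x ≤ d * M ^ 2 := by
        unfold caccG
        have : ∀ i ∈ (Finset.univ : Finset (Fin d)), (pd i ψ x) ^ 2 ≤ M ^ 2 := fun i _ => by
          have := (h.b1 i x).trans h1
          exact sq_le_sq' (by linarith [neg_abs_le (pd i ψ x)])
            (by linarith [le_abs_self (pd i ψ x)])
        refine (Finset.sum_le_sum this).trans_eq ?_
        simp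
      have p3 : 0 ≤ caccG ψ x := Finset.sum_nonneg fun _ _ => sq_nonneg _
      have p4 : (caccL U x) ^ 2 ≤ d * caccS u x := by
        have c1 := sq_sum_le_card_mul_sum_sq (s := (Finset.univ : Finset (Fin d)))
          (f := fun i => U (some (Sum.inr (i, i))) x)
        rw [Finset.card_univ, Fintype.card_fin] at c1
        refine c1.trans ?_
        gcongr
        unfold caccS
        rw [Fintype.sum_option, Fintype.sum_sum_type, Fintype.sum_prod_type]
        have q1 : ∑ i, (U (some (Sum.inr (i, i))) x) ^ 2 ≤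
            ∑ i, ∑ j, (u (some (Sum.inr (i, j))) x) ^ 2 :=
          Finset.sum_le_sum fun i _ => Finset.single_le_sum
            (f := fun j => (u (some (Sum.inr (i, j))) x) ^ 2)
            (fun _ _ => sq_nonneg _) (Finset.mem_univ i)
        have q2 : 0 ≤ ∑ i, (u (some (Sum.inl i)) x) ^ 2 :=
          Finset.sum_nonneg fun _ _ => sq_nonneg _
        have q3 : 0 ≤ (u none x) ^ 2 := sq_nonneg _
        linarith
      have p5 : -(2 * U none x * caccL U x) ≤ f x / t + t * (caccL U x) ^ 2 := by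
        have : 0 ≤ (U none x + t * caccL U x) ^ 2 / t := by positivity
        have e : (U none x + t * caccL U x) ^ 2 / t =
            f x / t + t * (caccL U x) ^ 2 + 2 * U none x * caccL U x := by
          simp only [hf]
          field_simp
          ring
        linarith
      have p6 : -(2 * U none x * caccL U x) * caccG ψ x ≤
          (f x / t + t * (d * caccS u x)) * (d * M ^ 2) := by
        have r1 : f x / t + t * (caccL U x) ^ 2 ≤ f x / t + t * (d * caccS u x) := by gcongr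
        have r0 : 0 ≤ f x / t + t * (d * caccS u x) := by
          have := caccS_nonneg u x
          have : 0 ≤ f x := sq_nonneg _
          positivity
        calc -(2 * U none x * caccL U x) * caccG ψ x
            ≤ (f x / t + t * (d * caccS u x)) * caccG ψ x := by
              gcongr
              exact p5.trans r1
          _ ≤ (f x / t + t * (d * caccS u x)) * (d * M ^ 2) := by gcongr
      rw [id1]
      have e7 : (d * M ^ 2 * (2 * d) + d * M ^ 2 / t) * f x +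
        (d * M ^ 2 * 8 * g x + d * M ^ 2 * (t * d) * caccS u x) =
          d * (M ^ 2 * (8 * g x + 2 * d * f x)) +
          (f x / t + t * (d * caccS u x)) * (d * M ^ 2) := by
        field_simp
        ring
      rw [e7]
      linarith
    · rw [indicator_of_notMem hx]
      obtain ⟨z0, z1, z2⟩ := cacc_zero fun hh => hx (hs hh)
      simp [caccP, caccG, z0, z1, z2]
  refine (integral_mono (i1.sub i2) ((integrable_indicator_iff hB).2 hR.1) key).trans ?_
  have e8 : ∫ x in B, g x = ∑ i, ∫ x in B, (u (some (Sum.inl i)) x) ^ 2 :=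
    integral_finsetSum _ fun i _ => (cacc_integrable_sq u _).integrableOn
  rw [integral_indicator hB, hR.2, caccS_integral, e8]
  refine le_of_eq ?_
  ring

/-- The estimate of `∫ ∇u · ∇(ψ²u)`. -/
theorem cacc_fb_le (h : BC ψ K₀ K₁ K₂) (h0 : K₀ ≤ 1) (h1 : K₁ ≤ M) (hM : 1 ≤ M)
    (hB : MeasurableSet B) (hs : tsupport ψ ⊆ B) (u : HS d) :
    fb u (mulJ ψ (mulJ ψ u)) ≤
      M * (2 * (∑ i, ∫ x in B, (u (some (Sum.inl i)) x) ^ 2) +
        d * ∫ x in B, (u none x) ^ 2) := by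
  have step : ∀ i : Fin d, inner ℝ (u (some (Sum.inl i)))
      ((mulJ ψ (mulJ ψ u)) (some (Sum.inl i))) ≤
      M * (2 * (∫ x in B, (u (some (Sum.inl i)) x) ^ 2) + ∫ x in B, (u none x) ^ 2) := by
    intro i
    have hi := cacc_mul2 h u (some (Sum.inl i))
    rw [cacc_inner (Filter.EventuallyEq.refl _ _) hi]
    have i1 := cacc_integrable_mul (Filter.EventuallyEq.refl (ae volume)
      (u (some (Sum.inl i)) : E d → ℝ)) hi
    have If := cacc_integrable_sq u (some (Sum.inl i))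
    have Ig := cacc_integrable_sq u none
    have hR := cacc_int3 (μ := volume.restrict B) If.integrableOn Ig.integrableOn
      Ig.integrableOn (2 * M) M 0
    have key : ∀ x, (u (some (Sum.inl i)) x) *
        mulComp ψ (mulComp ψ fun k x => u k x) (some (Sum.inl i)) x ≤
        B.indicator (fun x => 2 * M * (u (some (Sum.inl i)) x) ^ 2 +
          (M * (u none x) ^ 2 + 0 * (u none x) ^ 2)) x := by
      intro x
      by_cases hx : x ∈ B
      · rw [indicator_of_mem hx]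
        simp only [mulComp]
        have a1 : (ψ x) ^ 2 ≤ 1 := by
          have := (h.b0 x).trans h0
          nlinarith [abs_nonneg (ψ x), sq_abs (ψ x)]
        have a2 : |ψ x * pd i ψ x| ≤ M := by
          rw [abs_mul]
          calc |ψ x| * |pd i ψ x| ≤ 1 * M := by
                gcongr
                · exact (h.b0 x).trans h0
                · exact (h.b1 i x).trans h1
            _ = M := one_mul M
        have a3 : 2 * (ψ x * pd i ψ x) * (u none x * u (some (Sum.inl i)) x) ≤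
            M * ((u none x) ^ 2 + (u (some (Sum.inl i)) x) ^ 2) := by
          have b1 : |2 * (u none x * u (some (Sum.inl i)) x)| ≤
              (u none x) ^ 2 + (u (some (Sum.inl i)) x) ^ 2 := by
            rw [abs_le]
            constructor <;> nlinarith [sq_nonneg (u none x - u (some (Sum.inl i)) x),
              sq_nonneg (u none x + u (some (Sum.inl i)) x)]
          calc 2 * (ψ x * pd i ψ x) * (u none x * u (some (Sum.inl i)) x)
              = (ψ x * pd i ψ x) * (2 * (u none x * u (some (Sum.inl i)) x)) := by ring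
            _ ≤ |(ψ x * pd i ψ x) * (2 * (u none x * u (some (Sum.inl i)) x))| := le_abs_self _
            _ = |ψ x * pd i ψ x| * |2 * (u none x * u (some (Sum.inl i)) x)| := abs_mul _ _
            _ ≤ M * ((u none x) ^ 2 + (u (some (Sum.inl i)) x) ^ 2) := by gcongr
        have a4 : (ψ x) ^ 2 * (u (some (Sum.inl i)) x) ^ 2 ≤ M * (u (some (Sum.inl i)) x) ^ 2 := by
          gcongr
          exact a1.trans hM
        nlinarith
      · rw [indicator_of_notMem hx]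
        obtain ⟨z0, z1, z2⟩ := cacc_zero fun hh => hx (hs hh)
        simp [mulComp, z0, z1]
    refine (integral_mono i1 ((integrable_indicator_iff hB).2 hR.1) key).trans ?_
    rw [integral_indicator hB, hR.2]
    refine le_of_eq ?_
    ring
  unfold fb
  refine (Finset.sum_le_sum fun i _ => step i).trans_eq ?_
  rw [← Finset.mul_sum, Finset.sum_add_distrib, ← Finset.mul_sum, Finset.sum_const,
    Finset.card_univ, Fintype.card_fin, nsmul_eq_mul]

end


theorem cacc_le_of_forall {X Z W : ℝ} (hW : 0 ≤ W) (h : ∀ s > 0, X ≤ Z + s * W) : X ≤ Z := by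
  refine le_of_forall_pos_le_add fun ε hε => (h (ε / (W + 1)) (by positivity)).trans ?_
  have : ε / (W + 1) * W ≤ ε := by
    rw [div_mul_eq_mul_div, div_le_iff₀ (by positivity)]
    nlinarith
  linarith

theorem cacc_cutoff_one {d : ℕ} {ψ : E d → ℝ} {A : Set (E d)} {ε : ℝ} (hε : 0 < ε)
    (h : ∀ x ∈ Metric.thickening (ε / 4) A, ψ x = 1) : ∀ x ∈ A, ψ =ᶠ[𝓝 x] fun _ => 1 := by
  intro x hx
  have : Metric.thickening (ε / 4) A ∈ 𝓝 x :=
    Metric.isOpen_thickening.mem_nhds (Metric.self_subset_thickening (by positivity) A hx)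
  filter_upwards [this] with y hy using h y hy

/-- The arithmetic of the proof, first part. -/
theorem cacc_arith1 {d F K D μ e b0 b1 qbv qhv nv : ℝ} (hF : 0 < F)
    (hμ0 : 0 ≤ μ) (hμ1 : μ ≤ 1) (he : 0 ≤ e)
    (q0 : qhv ≤ 16 * d ^ 2 * (K * D) ^ 2 * e) (_ : 0 ≤ qhv)
    (b0v : b0 ≤ nv) (b1v : b1 ≤ qbv) (fk0 : nv ≤ F * μ ^ 2 * qbv)
    (fk1 : qbv ≤ F * μ ^ 2 * qhv) :
    b0 ≤ (F + F ^ 2) * (16 * d ^ 2 * K ^ 2) * D ^ 2 * μ ^ 2 * e ∧
      b1 ≤ (F + F ^ 2) * (16 * d ^ 2 * K ^ 2) * D ^ 2 * μ ^ 2 * e := by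
  have hμsq : μ ^ 2 ≤ 1 := by nlinarith
  obtain ⟨Q, hQ⟩ : ∃ Q, Q = 16 * d ^ 2 * (K * D) ^ 2 * e := ⟨_, rfl⟩
  have hQ0 : 0 ≤ Q := by rw [hQ]; positivity
  have e0 : (F + F ^ 2) * (16 * d ^ 2 * K ^ 2) * D ^ 2 * μ ^ 2 * e =
      (F + F ^ 2) * (μ ^ 2 * Q) := by rw [hQ]; ring
  rw [← hQ] at q0
  rw [e0]
  have h1 : 0 ≤ μ ^ 2 * Q := by positivity
  have h2 : 0 ≤ F ^ 2 := by positivity
  have h3 : F * μ ^ 2 * qhv ≤ F * (μ ^ 2 * Q) := by
    rw [mul_assoc]
    gcongr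
  constructor
  · have h4 : F * μ ^ 2 * qbv ≤ F ^ 2 * (μ ^ 2 * Q) := by
      calc F * μ ^ 2 * qbv ≤ F * μ ^ 2 * (F * (μ ^ 2 * Q)) := by
            gcongr
            exact fk1.trans h3
        _ = F ^ 2 * (μ ^ 2 * Q) * μ ^ 2 := by ring
        _ ≤ F ^ 2 * (μ ^ 2 * Q) * 1 := by gcongr
        _ = _ := by ring
    nlinarith
  · nlinarith

/-- The arithmetic of the proof, second part. -/
theorem cacc_arith2 {d c K D μ e l L I0 I1 I2 b0 b1 fb fa qa e1 : ℝ} (hd : 0 < d) (hc : 0 < c)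
    (hK : 1 ≤ K) (hD : 1 ≤ D) (hμ0 : 0 ≤ μ) (hμ1 : μ ≤ 1) (he : 0 ≤ e) (hl : 0 ≤ l) (hL : l ≤ L)
    (b0n : 0 ≤ b0) (b1n : 0 ≤ b1)
    (hb0 : b0 ≤ c * D ^ 2 * μ ^ 2 * e) (hb1 : b1 ≤ c * D ^ 2 * μ ^ 2 * e)
    (i0 : I0 ≤ b0) (i1 : I1 ≤ b1) (i2 : I2 ≤ qa)
    (f1 : fb ≤ (K * D) * (2 * b1 + d * b0)) (hfa : fa = l * fb)
    (g2 : ∀ t > 0, qa - fa ≤ d * (K * D) ^ 2 * (8 * b1 + 2 * d * b0) +
      d * (K * D) ^ 2 * (b0 / t + t * (d * e1))) (he1 : e1 ≤ e) :
    I0 + (I1 + I2) ≤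
      (2 * c + K * (2 + d) * c + d * (8 + 2 * d) * K ^ 2 * c + d * K ^ 2 * (c + d)) *
      (1 + L) * D ^ 4 * μ * e := by
  have hK0 : 0 < K := by linarith
  have hD0 : 0 < D := by linarith
  have hL0 : 0 ≤ L := hl.trans hL
  have hμsq : μ ^ 2 ≤ μ := by nlinarith
  obtain ⟨β, hβ⟩ : ∃ β, β = c * D ^ 2 * μ ^ 2 * e := ⟨_, rfl⟩
  obtain ⟨M, hM⟩ : ∃ M, M = K * D := ⟨_, rfl⟩
  have hM0 : 0 < M := by rw [hM]; positivity
  have hβ0 : 0 ≤ β := by rw [hβ]; positivity
  rw [← hβ] at hb0 hb1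
  rw [← hM] at f1 g2
  have f2 : fa ≤ L * (M * ((2 + d) * β)) := by
    rw [hfa]
    calc l * fb ≤ l * (M * (2 * b1 + d * b0)) := by gcongr
      _ ≤ L * (M * (2 * b1 + d * b0)) := by gcongr
      _ ≤ L * (M * ((2 + d) * β)) := by
          have : 2 * b1 + d * b0 ≤ (2 + d) * β := by nlinarith
          gcongr
  have g1 : qa ≤ L * (M * ((2 + d) * β)) + d * M ^ 2 * ((8 + 2 * d) * β) +
      d * M ^ 2 * (c * D * μ * e + μ * D * (d * e)) := by
    refine cacc_le_of_forall (W := d * M ^ 2 * (d * e)) (by positivity) fun s hs => ?_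
    have ht : 0 < μ * D + s := by positivity
    have g2 := g2 _ ht
    have g3 : d * M ^ 2 * (8 * b1 + 2 * d * b0) ≤ d * M ^ 2 * ((8 + 2 * d) * β) := by
      have : 8 * b1 + 2 * d * b0 ≤ (8 + 2 * d) * β := by nlinarith
      gcongr
    have g4 : b0 / (μ * D + s) ≤ c * D * μ * e := by
      rw [div_le_iff₀ ht]
      refine hb0.trans ?_
      have : β = c * D * μ * e * (μ * D) := by rw [hβ]; ring
      rw [this]
      gcongr
      linarith
    have g5 : d * M ^ 2 * (b0 / (μ * D + s) + (μ * D + s) * (d * e1)) ≤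
        d * M ^ 2 * (c * D * μ * e + μ * D * (d * e)) + s * (d * M ^ 2 * (d * e)) := by
      calc d * M ^ 2 * (b0 / (μ * D + s) + (μ * D + s) * (d * e1)) ≤
          d * M ^ 2 * (c * D * μ * e + (μ * D + s) * (d * e)) := by gcongr
        _ = _ := by ring
    linarith
  have D2 : D ^ 2 ≤ D ^ 4 := pow_le_pow_right₀ hD (by norm_num)
  have D3 : D ^ 3 ≤ D ^ 4 := pow_le_pow_right₀ hD (by norm_num)
  obtain ⟨G, hG⟩ : ∃ G, G = D ^ 4 * μ * e := ⟨_, rfl⟩
  have hG0 : 0 ≤ G := by rw [hG]; positivity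
  have j1 : β ≤ c * G := by
    calc β = c * (D ^ 2 * μ ^ 2 * e) := by rw [hβ]; ring
      _ ≤ c * (D ^ 4 * μ * e) := by gcongr
      _ = c * G := by rw [hG]
  have j2 : L * (M * ((2 + d) * β)) ≤ L * (K * (2 + d) * c * G) := by
    calc L * (M * ((2 + d) * β)) = L * (K * (2 + d) * c * (D ^ 3 * μ ^ 2 * e)) := by
          rw [hβ, hM]; ring
      _ ≤ L * (K * (2 + d) * c * (D ^ 4 * μ * e)) := by gcongr
      _ = _ := by rw [hG]
  have j3 : d * M ^ 2 * ((8 + 2 * d) * β) ≤ d * (8 + 2 * d) * K ^ 2 * c * G := by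
    calc d * M ^ 2 * ((8 + 2 * d) * β) = d * (8 + 2 * d) * K ^ 2 * c * (D ^ 4 * μ ^ 2 * e) := by
          rw [hβ, hM]; ring
      _ ≤ d * (8 + 2 * d) * K ^ 2 * c * (D ^ 4 * μ * e) := by gcongr
      _ = _ := by rw [hG]
  have j4 : d * M ^ 2 * (c * D * μ * e + μ * D * (d * e)) ≤ d * K ^ 2 * (c + d) * G := by
    calc d * M ^ 2 * (c * D * μ * e + μ * D * (d * e)) =
          d * K ^ 2 * (c + d) * (D ^ 3 * μ * e) := by
          rw [hM]; ring
      _ ≤ d * K ^ 2 * (c + d) * (D ^ 4 * μ * e) := by gcongr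
      _ = _ := by rw [hG]
  have tot : I0 + (I1 + I2) ≤
      2 * (c * G) + (L * (K * (2 + d) * c * G) + d * (8 + 2 * d) * K ^ 2 * c * G +
        d * K ^ 2 * (c + d) * G) := by linarith
  refine tot.trans ?_
  have fin : (2 * c + K * (2 + d) * c + d * (8 + 2 * d) * K ^ 2 * c + d * K ^ 2 * (c + d)) *
      (1 + L) * D ^ 4 * μ * e =
      (2 * (c * G) + (L * (K * (2 + d) * c * G) + d * (8 + 2 * d) * K ^ 2 * c * G +
        d * K ^ 2 * (c + d) * G)) + (K * (2 + d) * c * G + L * (2 * (c * G) +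
        d * (8 + 2 * d) * K ^ 2 * c * G + d * K ^ 2 * (c + d) * G)) := by
    rw [hG]; ring
  rw [fin]
  have : 0 ≤ K * (2 + d) * c * G + L * (2 * (c * G) +
        d * (8 + 2 * d) * K ^ 2 * c * G + d * K ^ 2 * (c + d) * G) := by positivity
  linarith

theorem caccioppoli (d : ℕ) (hd : 2 ≤ d) : ∃ C > 0, ∀ (A : Set (E d)) (S : Submodule ℝ (HS d))
    (u : HS d) (l L : ℝ), MeasurableSet A → S ≤ X A →
    (∀ ψ K₀ K₁ K₂, BC ψ K₀ K₁ K₂ → ∀ w ∈ S, mulJ ψ w ∈ S) → u ∈ S → 0 ≤ l → l ≤ L →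
    (∀ v ∈ S, fa u v = l * fb u v) →
    ∀ (x : E d) (r δ : ℝ), 0 ≤ r → 0 < δ → δ ≤ 1 →
      (volume (A ∩ Metric.ball x (r + 2 * δ))).toReal ≤ 1 →
      loc (Metric.ball x r) u ≤ C * (1 + L) * δ ^ (-8 : ℤ)
        * (volume (A ∩ Metric.ball x (r + 2 * δ))).toReal ^ (1 / d : ℝ)
        * loc (Metric.ball x (r + 2 * δ)) u := by
  have hd0 : (0 : ℝ) < d := by exact_mod_cast (by omega : 0 < d)
  obtain ⟨Cc, hCc, hcut⟩ := exists_cutoff d (by omega)
  obtain ⟨F, hF, hfk⟩ := faber_krahn d (by omega)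
  obtain ⟨K, hK⟩ : ∃ K, K = max 1 Cc := ⟨_, rfl⟩
  have hK1 : 1 ≤ K := hK ▸ le_max_left _ _
  have hKC : Cc ≤ K := hK ▸ le_max_right _ _
  have hK0 : 0 < K := by linarith
  obtain ⟨c, hc⟩ : ∃ c : ℝ, c = (F + F ^ 2) * (16 * d ^ 2 * K ^ 2) := ⟨_, rfl⟩
  have hc0 : 0 < c := by rw [hc]; positivity
  refine ⟨2 * c + K * (2 + d) * c + d * (8 + 2 * d) * K ^ 2 * c + d * K ^ 2 * (c + d),
    by positivity, ?_⟩
  intro A S u l L hA hSX hst hu hl hlL heig x r δ hr hδ hδ1 hm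
  have mB0 : MeasurableSet (Metric.ball x r) := measurableSet_ball
  have mB1 : MeasurableSet (Metric.ball x (r + δ)) := measurableSet_ball
  have mB2 : MeasurableSet (Metric.ball x (r + 2 * δ)) := measurableSet_ball
  have s01 : Metric.ball x r ⊆ Metric.ball x (r + δ) := Metric.ball_subset_ball (by linarith)
  have s12 : Metric.ball x (r + δ) ⊆ Metric.ball x (r + 2 * δ) :=
    Metric.ball_subset_ball (by linarith)
  obtain ⟨m, hmdef⟩ : ∃ m, m = (volume (A ∩ Metric.ball x (r + 2 * δ))).toReal := ⟨_, rfl⟩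
  rw [← hmdef] at hm ⊢
  have hm0 : 0 ≤ m := hmdef ▸ ENNReal.toReal_nonneg
  obtain ⟨μ, hμ⟩ : ∃ μ, μ = m ^ (1 / d : ℝ) := ⟨_, rfl⟩
  rw [← hμ]
  have hμ0 : 0 ≤ μ := hμ ▸ Real.rpow_nonneg hm0 _
  have hμ1 : μ ≤ 1 := hμ ▸ Real.rpow_le_one hm0 hm (by positivity)
  have hμ2 : m ^ (2 / d : ℝ) = μ ^ 2 := by
    rw [hμ, ← Real.rpow_natCast, ← Real.rpow_mul hm0]
    congr 1
    push_cast
    ring
  obtain ⟨D, hD⟩ : ∃ D, D = (δ ^ 2)⁻¹ := ⟨_, rfl⟩
  have hδ2 : 0 < δ ^ 2 := by positivity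
  have hD0 : 0 < D := by rw [hD]; positivity
  have hD1 : 1 ≤ D := by
    rw [hD]
    exact (one_le_inv₀ hδ2).2 (by nlinarith)
  have hD8 : δ ^ (-8 : ℤ) = D ^ 4 := by
    rw [hD, inv_pow, ← pow_mul]
    rw [zpow_neg]
    norm_cast
  have hM1 : 1 ≤ K * D := by nlinarith
  have k1 : Cc / δ ≤ K * D := by
    rw [div_eq_mul_inv]
    have : δ⁻¹ ≤ D := by
      rw [hD]
      exact (inv_le_inv₀ hδ hδ2).2 (by nlinarith)
    gcongr
  have k2 : Cc / δ ^ 2 ≤ K * D := by
    rw [div_eq_mul_inv, ← hD]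
    gcongr
  -- step (a)
  obtain ⟨ψ₂, hψ₂, -, hψ₂1, hψ₂s⟩ := hcut (Metric.ball x (r + δ)) δ hδ
  have hs2 : tsupport ψ₂ ⊆ Metric.ball x (r + 2 * δ) := by
    refine hψ₂s.trans ((Metric.thickening_ball x δ (r + δ)).trans ?_)
    exact Metric.ball_subset_ball (by linarith)
  have hsA : tsupport ψ₂ ∩ A ⊆ A ∩ Metric.ball x (r + 2 * δ) := fun y hy => ⟨hy.2, hs2 hy.1⟩
  have hvX : mulJ ψ₂ u ∈ X (A ∩ Metric.ball x (r + 2 * δ)) := mulJ_mem_X hψ₂ hsA (hSX hu)
  have hfin : volume (A ∩ Metric.ball x (r + 2 * δ)) < ⊤ :=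
    (measure_mono inter_subset_right).trans_lt measure_ball_lt_top
  obtain ⟨fk0, fk1⟩ := hfk (A ∩ Metric.ball x (r + 2 * δ)) (hA.inter mB2) hfin _ hvX
  rw [← hmdef, hμ2] at fk0 fk1
  have q0 := cacc_qh hψ₂ hM1 k1 k2 mB2 hs2 u
  have q0' : 0 ≤ qh (mulJ ψ₂ u) := qh_nonneg _
  have one2 := cacc_cutoff_one hδ hψ₂1
  have b0v := cacc_restrict hψ₂ mB1 one2 u none
  have b1v : ∑ i, ∫ x in Metric.ball x (r + δ), (u (some (Sum.inl i)) x) ^ 2 ≤
      qb (mulJ ψ₂ u) := by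
    unfold qb
    exact Finset.sum_le_sum fun i _ => cacc_restrict hψ₂ mB1 one2 u _
  have he0 : 0 ≤ loc (Metric.ball x (r + 2 * δ)) u := loc_nonneg _ _
  have ar1 := cacc_arith1 hF hμ0 hμ1 he0 q0 q0' b0v b1v fk0 fk1
  rw [← hc] at ar1
  -- step (b)
  obtain ⟨ψ, hψ, -, hψ1, hψs⟩ := hcut (Metric.ball x r) δ hδ
  have hs1 : tsupport ψ ⊆ Metric.ball x (r + δ) := by
    refine hψs.trans ((Metric.thickening_ball x δ r).trans ?_)
    exact Metric.ball_subset_ball (by linarith)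
  have one1 := cacc_cutoff_one hδ hψ1
  have hv1S : mulJ ψ u ∈ S := hst ψ _ _ _ hψ u hu
  have hv2S : mulJ ψ (mulJ ψ u) ∈ S := hst ψ _ _ _ hψ _ hv1S
  have hqq : qh (mulJ ψ u) = qa (mulJ ψ u) := qh_eq_qa (hSX hv1S).1
  have e1 := loc_mono mB2 s12 u
  have f1 := cacc_fb_le hψ le_rfl k1 hM1 mB1 hs1 u
  have g2 := fun t ht => cacc_qa_sub_fa hψ k1 k2 mB1 hs1 u (t := t) ht
  have i0 : ∫ x in Metric.ball x r, (u none x) ^ 2 ≤
      ∫ x in Metric.ball x (r + δ), (u none x) ^ 2 :=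
    setIntegral_mono_set (cacc_integrable_sq u _).integrableOn
      (Eventually.of_forall fun _ => sq_nonneg _) s01.eventuallyLE
  have i1 : ∑ i, ∫ x in Metric.ball x r, (u (some (Sum.inl i)) x) ^ 2 ≤
      ∑ i, ∫ x in Metric.ball x (r + δ), (u (some (Sum.inl i)) x) ^ 2 :=
    Finset.sum_le_sum fun i _ => setIntegral_mono_set (cacc_integrable_sq u _).integrableOn
      (Eventually.of_forall fun _ => sq_nonneg _) s01.eventuallyLE
  have i2 : ∑ i, ∑ j, ∫ x in Metric.ball x r, (u (some (Sum.inr (i, j))) x) ^ 2 ≤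
      qa (mulJ ψ u) := by
    rw [← hqq]
    unfold qh
    exact Finset.sum_le_sum fun i _ => Finset.sum_le_sum fun j _ =>
      cacc_restrict hψ mB0 one1 u _
  have b0n : 0 ≤ ∫ x in Metric.ball x (r + δ), (u none x) ^ 2 :=
    integral_nonneg fun _ => sq_nonneg _
  have b1n : 0 ≤ ∑ i, ∫ x in Metric.ball x (r + δ), (u (some (Sum.inl i)) x) ^ 2 :=
    Finset.sum_nonneg fun _ _ => integral_nonneg fun _ => sq_nonneg _
  rw [cacc_loc_eq, hD8]
  exact cacc_arith2 hd0 hc0 hK1 hD1 hμ0 hμ1 he0 hl hlL b0n b1n ar1.1 ar1.2 i0 i1 i2 f1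
    (heig _ hv2S) g2 e1

end Pool.Agent.Lib.Buck
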