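import Mathlib
import Pool.Agent.Lib.MP_17201e_an.Defs
import Pool.Agent.Lib.MP_17201e_an.Jet
import Pool.Agent.Lib.MP_17201e_an.Mult
import Pool.Agent.Lib.MP_17201e_an.Cutoff

/-!
# The eigenvalues after cutting out a ball
-/

set_option autoImplicit false

open MeasureTheory Set Filter Topology
open scoped ENNReal ContDiff

namespace Pool.Agent.Lib.Buck

section

variable {d : ℕ}

theorem cutLam_norm_sq (f : Lp ℝ 2 (volume : Measure (E d))) : ‖f‖ ^ 2 = ∫ x, (f x) ^ 2 := by
  rw [← real_inner_self_eq_norm_sq, L2.inner_def]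
  refine integral_congr_ae (Filter.Eventually.of_forall fun x => ?_)
  simp only [real_inner_self_eq_norm_sq, Real.norm_eq_abs, sq_abs]

theorem cutLam_int (f : Lp ℝ 2 (volume : Measure (E d))) :
    Integrable (fun x => (f x) ^ 2) (volume : Measure (E d)) :=
  (Lp.memLp f).integrable_sq

theorem cutLam_sum {ι : Type*} (s : Finset ι) (f : ι → Lp ℝ 2 (volume : Measure (E d))) :
    ((∑ i ∈ s, f i : Lp ℝ 2 (volume : Measure (E d))) : E d → ℝ) =ᵐ[volume]
      fun x => ∑ i ∈ s, f i x := by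
  classical
  induction s using Finset.induction_on with
  | empty =>
    simp only [Finset.sum_empty]
    exact Lp.coeFn_zero ℝ 2 (volume : Measure (E d))
  | insert a s ha ih =>
    rw [Finset.sum_insert ha]
    filter_upwards [Lp.coeFn_add (f a) (∑ i ∈ s, f i), ih] with x h1 h2
    rw [h1, Pi.add_apply, h2, Finset.sum_insert ha]

theorem cutLam_lap (w : HS d) :
    (lap w : E d → ℝ) =ᵐ[volume] fun x => ∑ i, w (some (Sum.inr (i, i))) x :=
  cutLam_sum _ _

/-- Effect of the multiplication by a function equal to one off `B`. -/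
theorem cutLam_est {η : E d → ℝ} {K : ℝ} (hη : BC η K K K) {B : Set (E d)}
    (hB : MeasurableSet B) (h1 : ∀ x ∉ B, η x = 1) (h2 : ∀ x ∉ B, ∀ i, pd i η x = 0)
    (h3 : ∀ x ∉ B, ∀ i j, pd i (pd j η) x = 0) (v : HS d) :
    qb v - loc B v ≤ qb (mulJ η v) ∧
      qa (mulJ η v) ≤ qa v + 8 * d ^ 2 * K ^ 2 * loc B v := by
  have hM := mulJ_spec hη
  set w := mulJ η v with hw
  have hoff : ∀ k, ∀ᵐ x, x ∈ Bᶜ → w k x = v k x := by
    intro k
    filter_upwards [hM v k] with x hx hxB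
    rw [hx]
    rcases k with _ | (i | ⟨i, j⟩)
    · simp only [mulComp, h1 x hxB, one_mul]
    · simp only [mulComp, h1 x hxB, h2 x hxB, one_mul, zero_mul, add_zero]
    · simp only [mulComp, h1 x hxB, h2 x hxB, h3 x hxB, one_mul, zero_mul, add_zero]
  have hsplit : ∀ f : E d → ℝ, Integrable f (volume : Measure (E d)) →
      ∫ x, f x = (∫ x in B, f x) + ∫ x in Bᶜ, f x := fun f hf =>
    (integral_add_compl hB hf).symm
  constructor
  · have hi : ∀ i : Fin d, ‖v (some (Sum.inl i))‖ ^ 2 - ∫ x in B, (v (some (Sum.inl i)) x) ^ 2 ≤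
        ‖w (some (Sum.inl i))‖ ^ 2 := by
      intro i
      rw [cutLam_norm_sq, cutLam_norm_sq, hsplit _ (cutLam_int (v (some (Sum.inl i)))),
        hsplit _ (cutLam_int (w (some (Sum.inl i))))]
      have e1 : ∫ x in Bᶜ, (w (some (Sum.inl i)) x) ^ 2 =
          ∫ x in Bᶜ, (v (some (Sum.inl i)) x) ^ 2 := by
        refine setIntegral_congr_ae hB.compl ?_
        filter_upwards [hoff (some (Sum.inl i))] with x hx hxB
        rw [hx hxB]
      have e2 : 0 ≤ ∫ x in B, (w (some (Sum.inl i)) x) ^ 2 :=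
        integral_nonneg fun _ => sq_nonneg _
      rw [e1]
      linarith
    have h4 : ∑ i : Fin d, (‖v (some (Sum.inl i))‖ ^ 2 - ∫ x in B, (v (some (Sum.inl i)) x) ^ 2) ≤
        qb w := Finset.sum_le_sum fun i _ => hi i
    rw [Finset.sum_sub_distrib] at h4
    have h5 : ∑ i : Fin d, ∫ x in B, (v (some (Sum.inl i)) x) ^ 2 ≤ loc B v := by
      unfold loc
      rw [Fintype.sum_option, Fintype.sum_sum_type]
      have e1 : 0 ≤ ∫ x in B, (v none x) ^ 2 := integral_nonneg fun _ => sq_nonneg _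
      have e2 : 0 ≤ ∑ p : Fin d × Fin d, ∫ x in B, (v (some (Sum.inr p)) x) ^ 2 :=
        Finset.sum_nonneg fun p _ => integral_nonneg fun _ => sq_nonneg _
      linarith
    have h6 : qb v = ∑ i : Fin d, ‖v (some (Sum.inl i))‖ ^ 2 := rfl
    linarith
  · have hpt : ∀ᵐ x, x ∈ B → (lap w x) ^ 2 ≤ 8 * d ^ 2 * K ^ 2 * ∑ k, (v k x) ^ 2 := by
      have h4 : ∀ᵐ x, ∀ k, w k x = mulComp η (fun k x => v k x) k x := by
        rw [ae_all_iff]
        exact fun k => hM v k
      filter_upwards [h4, cutLam_lap w] with x hx hx' _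
      rw [hx']
      have hk : ∀ k, (v k x) ^ 2 ≤ ∑ k, (v k x) ^ 2 := fun k =>
        Finset.single_le_sum (f := fun k => (v k x) ^ 2) (fun _ _ => sq_nonneg _)
          (Finset.mem_univ k)
      set s := ∑ k, (v k x) ^ 2 with hs
      have hterm : ∀ i : Fin d, (w (some (Sum.inr (i, i))) x) ^ 2 ≤ 8 * K ^ 2 * s := by
        intro i
        rw [hx]
        simp only [mulComp]
        have a0 := abs_le.mp (hη.b0 x)
        have a1 := abs_le.mp (hη.b1 i x)
        have a2 := abs_le.mp (hη.b2 i i x)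
        have b0 : η x ^ 2 ≤ K ^ 2 := sq_le_sq' a0.1 a0.2
        have b1 : pd i η x ^ 2 ≤ K ^ 2 := sq_le_sq' a1.1 a1.2
        have b2 : pd i (pd i η) x ^ 2 ≤ K ^ 2 := sq_le_sq' a2.1 a2.2
        have k0 := hk none
        have k1 := hk (some (Sum.inl i))
        have k2 := hk (some (Sum.inr (i, i)))
        set p := v none x
        set q := v (some (Sum.inl i)) x
        set r := v (some (Sum.inr (i, i))) x
        set α := η x
        set β := pd i η x
        set γ := pd i (pd i η) x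
        have hsn : 0 ≤ s := Finset.sum_nonneg fun _ _ => sq_nonneg _
        have c1 : (α * r) ^ 2 ≤ K ^ 2 * r ^ 2 := by
          rw [mul_pow]; exact mul_le_mul_of_nonneg_right b0 (sq_nonneg _)
        have c2 : (β * q) ^ 2 ≤ K ^ 2 * q ^ 2 := by
          rw [mul_pow]; exact mul_le_mul_of_nonneg_right b1 (sq_nonneg _)
        have c3 : (γ * p) ^ 2 ≤ K ^ 2 * p ^ 2 := by
          rw [mul_pow]; exact mul_le_mul_of_nonneg_right b2 (sq_nonneg _)
        have c4 : (α * r + β * q + β * q + γ * p) ^ 2 ≤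
            4 * ((α * r) ^ 2 + (β * q) ^ 2 + (β * q) ^ 2 + (γ * p) ^ 2) := by
          nlinarith [sq_nonneg (α * r - β * q), sq_nonneg (α * r - γ * p),
            sq_nonneg (β * q - γ * p)]
        have c5 : r ^ 2 + q ^ 2 + p ^ 2 ≤ s := by
          rw [hs, Fintype.sum_option, Fintype.sum_sum_type]
          have e1 : q ^ 2 ≤ ∑ j : Fin d, (v (some (Sum.inl j)) x) ^ 2 :=
            Finset.single_le_sum (f := fun j : Fin d => (v (some (Sum.inl j)) x) ^ 2)
              (fun _ _ => sq_nonneg _) (Finset.mem_univ i)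
          have e2 : r ^ 2 ≤ ∑ j : Fin d × Fin d, (v (some (Sum.inr j)) x) ^ 2 :=
            Finset.single_le_sum (f := fun j : Fin d × Fin d => (v (some (Sum.inr j)) x) ^ 2)
              (fun _ _ => sq_nonneg _) (Finset.mem_univ (i, i))
          linarith
        have hK2 : 0 ≤ K ^ 2 := sq_nonneg _
        have c6 : K ^ 2 * (r ^ 2 + q ^ 2 + p ^ 2) ≤ K ^ 2 * s :=
          mul_le_mul_of_nonneg_left c5 hK2
        have c7 : 0 ≤ K ^ 2 * r ^ 2 := by positivity
        have c8 : 0 ≤ K ^ 2 * p ^ 2 := by positivity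
        nlinarith
      calc (∑ i : Fin d, w (some (Sum.inr (i, i))) x) ^ 2
          ≤ d * ∑ i : Fin d, (w (some (Sum.inr (i, i))) x) ^ 2 := by
            have := sq_sum_le_card_mul_sum_sq (s := (Finset.univ : Finset (Fin d)))
              (f := fun i => w (some (Sum.inr (i, i))) x)
            rwa [Finset.card_univ, Fintype.card_fin] at this
        _ ≤ d * ∑ i : Fin d, 8 * K ^ 2 * s := by
            refine mul_le_mul_of_nonneg_left ?_ (Nat.cast_nonneg _)
            exact Finset.sum_le_sum fun i _ => hterm i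
        _ = 8 * d ^ 2 * K ^ 2 * s := by
            rw [Finset.sum_const, Finset.card_univ, Fintype.card_fin, nsmul_eq_mul]
            ring
    have hlapoff : ∀ᵐ x, x ∈ Bᶜ → lap w x = lap v x := by
      have h4 : ∀ᵐ x, ∀ k, x ∈ Bᶜ → w k x = v k x := by
        rw [ae_all_iff]
        exact hoff
      filter_upwards [h4, cutLam_lap w, cutLam_lap v] with x hx hx1 hx2 hxB
      rw [hx1, hx2]
      exact Finset.sum_congr rfl fun i _ => hx _ hxB
    have e1 : qa w = (∫ x in B, (lap w x) ^ 2) + ∫ x in Bᶜ, (lap w x) ^ 2 := by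
      unfold qa
      rw [cutLam_norm_sq, hsplit _ (cutLam_int (lap w))]
    have e2 : ∫ x in Bᶜ, (lap w x) ^ 2 ≤ qa v := by
      have e3 : ∫ x in Bᶜ, (lap w x) ^ 2 = ∫ x in Bᶜ, (lap v x) ^ 2 := by
        refine setIntegral_congr_ae hB.compl ?_
        filter_upwards [hlapoff] with x hx hxB
        rw [hx hxB]
      rw [e3]
      unfold qa
      rw [cutLam_norm_sq]
      exact setIntegral_le_integral (cutLam_int (lap v)) (ae_of_all _ fun _ => sq_nonneg _)
    have e4 : ∫ x in B, (lap w x) ^ 2 ≤ 8 * d ^ 2 * K ^ 2 * loc B v := by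
      have e5 : loc B v = ∫ x in B, ∑ k, (v k x) ^ 2 := by
        unfold loc
        rw [integral_finsetSum]
        exact fun k _ => (cutLam_int (v k)).integrableOn
      rw [e5, ← integral_const_mul]
      refine setIntegral_mono_on_ae (cutLam_int (lap w)).integrableOn ?_ hB hpt
      refine Integrable.const_mul ?_ _
      exact integrable_finsetSum _ fun k _ => (cutLam_int (v k)).integrableOn
    linarith

theorem cutLam_comp {h : ℕ} (c : Fin h → ℝ) (u : Fin h → HS d) (k : Idx d) :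
    (∑ i, c i • u i : HS d) k = ∑ i, c i • (u i) k := by
  have := map_sum (PiLp.proj (𝕜 := ℝ) 2 (fun _ : Idx d => Lp ℝ 2 (volume : Measure (E d))) k)
    (fun i => c i • u i) Finset.univ
  simpa using this

theorem cutLam_lap_sum {h : ℕ} (c : Fin h → ℝ) (u : Fin h → HS d) :
    lap (∑ i, c i • u i : HS d) = ∑ i, c i • lap (u i) := by
  unfold lap
  simp only [cutLam_comp, Finset.smul_sum]
  exact Finset.sum_comm

theorem cutLam_inner {h : ℕ} (c : Fin h → ℝ) (f : Fin h → Lp ℝ 2 (volume : Measure (E d))) :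
    inner ℝ (∑ i, c i • f i) (∑ j, c j • f j) = ∑ i, ∑ j, c i * c j * inner ℝ (f i) (f j) := by
  rw [sum_inner]
  refine Finset.sum_congr rfl fun i _ => ?_
  rw [inner_sum]
  refine Finset.sum_congr rfl fun j _ => ?_
  rw [real_inner_smul_left, real_inner_smul_right]
  ring

theorem cutLam_qb {h : ℕ} {S : Submodule ℝ (HS d)} {L : ℝ} {u : Fin h → HS d} {l : Fin h → ℝ}
    (hE : Eig h S L u l) (c : Fin h → ℝ) : qb (∑ i, c i • u i : HS d) = ∑ i, c i ^ 2 := by
  have h1 : qb (∑ i, c i • u i : HS d) = ∑ i, ∑ j, c i * c j * fb (u i) (u j) := by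
    unfold qb fb
    simp only [← real_inner_self_eq_norm_sq, cutLam_comp, cutLam_inner, Finset.mul_sum]
    rw [Finset.sum_comm]
    refine Finset.sum_congr rfl fun i _ => ?_
    rw [Finset.sum_comm]
  rw [h1]
  refine Finset.sum_congr rfl fun i _ => ?_
  simp only [hE.orth, mul_ite, mul_one, mul_zero, Finset.sum_ite_eq, Finset.mem_univ, if_true]
  ring

theorem cutLam_qa {h : ℕ} {S : Submodule ℝ (HS d)} {L : ℝ} {u : Fin h → HS d} {l : Fin h → ℝ}
    (hE : Eig h S L u l) (c : Fin h → ℝ) :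
    qa (∑ i, c i • u i : HS d) ≤ L * ∑ i, c i ^ 2 := by
  have h1 : qa (∑ i, c i • u i : HS d) = ∑ i, ∑ j, c i * c j * fa (u i) (u j) := by
    unfold qa fa
    rw [← real_inner_self_eq_norm_sq, cutLam_lap_sum, cutLam_inner]
  rw [h1, Finset.mul_sum]
  refine Finset.sum_le_sum fun i _ => ?_
  have h2 : ∀ j, fa (u i) (u j) = l i * (if i = j then 1 else 0) := fun j => by
    rw [hE.eig i _ (hE.mem j), hE.orth]
  simp only [h2, mul_ite, mul_one, mul_zero, Finset.sum_ite_eq, Finset.mem_univ, if_true]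
  nlinarith [hE.le i, sq_nonneg (c i)]

theorem cutLam_loc {h : ℕ} {B : Set (E d)} (hB : MeasurableSet B) (c : Fin h → ℝ)
    (u : Fin h → HS d) :
    loc B (∑ i, c i • u i : HS d) ≤ (∑ i, c i ^ 2) * ∑ i, loc B (u i) := by
  unfold loc
  rw [Finset.sum_comm, Finset.mul_sum]
  refine Finset.sum_le_sum fun k _ => ?_
  have h1 : ∫ x in B, ((∑ i, c i • u i : HS d) k x) ^ 2 ≤
      ∫ x in B, (∑ i, c i ^ 2) * ∑ i, (u i k x) ^ 2 := by
    refine setIntegral_mono_on_ae (cutLam_int _).integrableOn ?_ hB ?_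
    · refine Integrable.const_mul ?_ _
      exact integrable_finsetSum _ fun i _ => (cutLam_int (u i k)).integrableOn
    · have h2 : ∀ᵐ x, ∀ i, (c i • (u i) k : Lp ℝ 2 (volume : Measure (E d))) x =
          c i * u i k x := by
        rw [ae_all_iff]
        intro i
        filter_upwards [Lp.coeFn_smul (c i) (u i k)] with x hx
        rw [hx, Pi.smul_apply, smul_eq_mul]
      filter_upwards [h2, cutLam_sum Finset.univ fun i => c i • (u i) k] with x hx hx' _
      rw [cutLam_comp, hx']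
      simp only [hx]
      exact Finset.sum_mul_sq_le_sq_mul_sq _ _ _
  refine h1.trans (le_of_eq ?_)
  rw [integral_const_mul, integral_finsetSum]
  exact fun i _ => (cutLam_int (u i k)).integrableOn

theorem cutLam_pd_const {f : E d → ℝ} {c : ℝ} {x : E d} (h : f =ᶠ[𝓝 x] fun _ => c) (i : Fin d) :
    pd i f =ᶠ[𝓝 x] fun _ => 0 := by
  have h1 : fderiv ℝ f =ᶠ[𝓝 x] fderiv ℝ (fun _ : E d => c) := h.fderiv
  filter_upwards [h1] with y hy
  unfold pd
  rw [hy]
  simp

end

theorem cut_lam (d : ℕ) (hd : 1 ≤ d) : ∃ C > 0, ∀ (h : ℕ) (S S' : Submodule ℝ (HS d)) (L : ℝ)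
    (u : Fin h → HS d) (l : Fin h → ℝ) (x : E d) (ρ δ : ℝ), 1 ≤ h →
    S ≤ H20 (univ : Set (E d)) → Eig h S L u l → 0 < ρ → 0 < δ → δ ≤ 1 →
    (∀ ψ K₀ K₁ K₂, BC ψ K₀ K₁ K₂ → Disjoint (tsupport ψ) (Metric.closedBall x ρ) →
      ∀ w ∈ S, mulJ ψ w ∈ S') →
    ∑ i, loc (Metric.ball x (ρ + δ)) (u i) ≤ 1 / 2 →
    lamS h S' ≤ ENNReal.ofReal (L + C * (1 + L) * δ ^ (-4 : ℤ)
      * ∑ i, loc (Metric.ball x (ρ + δ)) (u i)) := by
  obtain ⟨C, hC, hcut⟩ := exists_cutoff d hd
  refine ⟨2 + 16 * d ^ 2 * (2 + C) ^ 2, by positivity, ?_⟩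
  intro h S S' L u l x ρ δ hh hS hE hρ hδ hδ1 hstab he
  obtain ⟨ψ, hψ, hψ0, hψ1, hψs⟩ := hcut (Metric.closedBall x ρ) δ hδ
  set B := Metric.ball x (ρ + δ) with hBdef
  have hBm : MeasurableSet B := measurableSet_ball
  have hthick : Metric.thickening δ (Metric.closedBall x ρ) = B := by
    rw [thickening_closedBall hδ hρ.le, add_comm]
  rw [hthick] at hψs
  set η : E d → ℝ := fun x => 1 - ψ x with hη
  set K : ℝ := (2 + C) / δ ^ 2 with hK
  have hδ2 : δ ^ 2 ≤ 1 := pow_le_one₀ hδ.le hδ1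
  have hδ2' : 0 < δ ^ 2 := by positivity
  have hBC : BC η K K K := by
    have h0 := hψ.one_sub
    refine ⟨h0.smooth, fun y => (h0.b0 y).trans ?_, fun i y => (h0.b1 i y).trans ?_,
      fun i j y => (h0.b2 i j y).trans ?_⟩
    · rw [hK, le_div_iff₀ hδ2']
      nlinarith
    · rw [hK, div_le_div_iff₀ hδ hδ2']
      nlinarith [mul_pos hC hδ]
    · rw [hK, div_le_div_iff₀ hδ2' hδ2']
      nlinarith
  have hoff : ∀ y ∉ B, η =ᶠ[𝓝 y] fun _ => 1 := by
    intro y hy
    have h1 : y ∉ tsupport ψ := fun h => hy (hψs h)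
    have h2 := notMem_tsupport_iff_eventuallyEq.mp h1
    filter_upwards [h2] with z hz
    simp only [hη, hz, Pi.zero_apply, sub_zero]
  have hdisj : Disjoint (tsupport η) (Metric.closedBall x ρ) := by
    rw [Set.disjoint_left]
    intro y hy hy'
    have h1 : y ∈ Metric.thickening (δ / 4) (Metric.closedBall x ρ) :=
      Metric.self_subset_thickening (by positivity) _ hy'
    have h2 : η =ᶠ[𝓝 y] 0 := by
      filter_upwards [Metric.isOpen_thickening.mem_nhds h1] with z hz
      simp only [hη, hψ1 z hz, sub_self, Pi.zero_apply]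
    exact (notMem_tsupport_iff_eventuallyEq.mpr h2) hy
  have hest := cutLam_est hBC hBm (fun y hy => (hoff y hy).eq_of_nhds)
    (fun y hy i => (cutLam_pd_const (hoff y hy) i).eq_of_nhds)
    (fun y hy i j => (cutLam_pd_const (cutLam_pd_const (hoff y hy) j) i).eq_of_nhds)
  set e : ℝ := ∑ i, loc B (u i) with he'
  have he0 : 0 ≤ e := Finset.sum_nonneg fun i _ => loc_nonneg _ _
  have hL : 0 ≤ L := (hE.nonneg ⟨0, hh⟩).trans (hE.le ⟨0, hh⟩)
  have key : ∀ c : Fin h → ℝ,
      (∑ i, c i ^ 2) * (1 - e) ≤ qb (mulJ η (∑ i, c i • u i)) ∧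
      qa (mulJ η (∑ i, c i • u i)) ≤ (∑ i, c i ^ 2) * (L + 8 * d ^ 2 * K ^ 2 * e) := by
    intro c
    have h1 := hest (∑ i, c i • u i)
    have h2 := cutLam_qb hE c
    have h3 := cutLam_qa hE c
    have h4 := cutLam_loc hBm c u
    rw [← he'] at h4
    constructor
    · rw [h2] at h1
      linarith [h1.1]
    · have h5 : 8 * (d : ℝ) ^ 2 * K ^ 2 * loc B (∑ i, c i • u i) ≤
          8 * (d : ℝ) ^ 2 * K ^ 2 * ((∑ i, c i ^ 2) * e) :=
        mul_le_mul_of_nonneg_left h4 (by positivity)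
      linarith [h1.2]
  have hlin : ∀ c : Fin h → ℝ, ∑ i, c i • mulJ η (u i) = mulJ η (∑ i, c i • u i) := by
    intro c
    rw [map_sum]
    simp only [map_smul]
  have hqb0 : qb (0 : HS d) = 0 := by
    unfold qb
    simp
  have hN : ∀ c : Fin h → ℝ, mulJ η (∑ i, c i • u i) = 0 → ∀ i, c i = 0 := by
    intro c hc i
    have h1 := (key c).1
    rw [hc, hqb0] at h1
    have h2 : 0 ≤ ∑ i, c i ^ 2 := Finset.sum_nonneg fun _ _ => sq_nonneg _
    have h3 : ∑ i, c i ^ 2 = 0 := by nlinarith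
    have := (Finset.sum_eq_zero_iff_of_nonneg (fun i _ => sq_nonneg (c i))).mp h3 i
      (Finset.mem_univ i)
    simpa using this
  have hli : LinearIndependent ℝ fun i => mulJ η (u i) := by
    rw [Fintype.linearIndependent_iff]
    intro c hc
    rw [hlin] at hc
    exact hN c hc
  unfold lamS
  refine iInf₂_le_of_le (Submodule.span ℝ (Set.range fun i => mulJ η (u i))) ⟨?_, ?_⟩ ?_
  · rw [Submodule.span_le]
    rintro _ ⟨i, rfl⟩
    exact hstab η K K K hBC hdisj _ (hE.mem i)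
  · rw [finrank_span_eq_card hli, Fintype.card_fin]
  · refine iSup₂_le fun w hw => ?_
    obtain ⟨hw1, hw2⟩ := hw
    obtain ⟨c, rfl⟩ := (Submodule.mem_span_range_iff_exists_fun ℝ).mp hw1
    rw [hlin] at hw2 ⊢
    obtain ⟨k1, k2⟩ := key c
    set N := ∑ i, c i ^ 2 with hNdef
    have hNpos : 0 < N := by
      refine lt_of_le_of_ne (Finset.sum_nonneg fun _ _ => sq_nonneg _) ?_
      intro h0
      apply hw2
      have h3 : ∀ i, c i = 0 := fun i => by
        have := (Finset.sum_eq_zero_iff_of_nonneg (fun i _ => sq_nonneg (c i))).mp h0.symm i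
          (Finset.mem_univ i)
        simpa using this
      simp [h3]
    have hpos : 0 < qb (mulJ η (∑ i, c i • u i)) := by nlinarith
    rw [← ENNReal.ofReal_div_of_pos hpos]
    refine ENNReal.ofReal_le_ofReal ?_
    rw [div_le_iff₀ hpos]
    set t : ℝ := δ ^ (-4 : ℤ) with ht
    have ht1 : 1 ≤ t := by
      rw [ht, zpow_neg]
      rw [one_le_inv₀ (by positivity)]
      exact_mod_cast pow_le_one₀ hδ.le hδ1
    have hK2 : K ^ 2 = (2 + C) ^ 2 * t := by
      rw [hK, ht, zpow_neg, div_pow, div_eq_mul_inv]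
      congr 2
      rw [← pow_mul]
      norm_cast
    rw [hK2] at k2
    set D : ℝ := 8 * d ^ 2 * (2 + C) ^ 2 with hD
    have hD0 : 0 ≤ D := by positivity
    have e1 : 8 * (d : ℝ) ^ 2 * ((2 + C) ^ 2 * t) * e = D * t * e := by rw [hD]; ring
    have e2 : (2 + 16 * (d : ℝ) ^ 2 * (2 + C) ^ 2) = 2 * (1 + D) := by rw [hD]; ring
    rw [e1] at k2
    rw [e2]
    refine k2.trans ?_
    have e3 : 0 ≤ L + 2 * (1 + D) * (1 + L) * t * e := by positivity
    refine le_trans ?_ (mul_le_mul_of_nonneg_left k1 e3)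
    have e4 : L + D * t * e ≤ (L + 2 * (1 + D) * (1 + L) * t * e) * (1 - e) := by
      have e5 : L + D * t ≤ (1 + D) * (1 + L) * t := by nlinarith [mul_nonneg hD0 hL, mul_nonneg (mul_nonneg hD0 hL) (by linarith : (0:ℝ) ≤ t)]
      have e6 : (1 + D) * (1 + L) * t ≤ 2 * (1 + D) * (1 + L) * t * (1 - e) := by
        have : 0 ≤ (1 + D) * (1 + L) * t := by positivity
        nlinarith
      have e7 : e * (L + D * t) ≤ e * (2 * (1 + D) * (1 + L) * t * (1 - e)) :=
        mul_le_mul_of_nonneg_left (e5.trans e6) he0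
      nlinarith
    calc N * (L + D * t * e) ≤ N * ((L + 2 * (1 + D) * (1 + L) * t * e) * (1 - e)) :=
          mul_le_mul_of_nonneg_left e4 hNpos.le
      _ = _ := by ring

end Pool.Agent.Lib.Buck
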