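import Pool.Agent.Lib.MP_17201e_an.Defs

/-!
# MP_17201e_an, module ITER: De Giorgi iteration
-/

set_option autoImplicit false

open MeasureTheory Set Filter Topology
open scoped ENNReal ContDiff

namespace Pool.Agent.Lib.Buck

theorem iteration (C β α : ℝ) (hC : 0 < C) (hβ : 0 ≤ β) (hα : 0 < α) : ∃ ε₀ > 0, ∀ a : ℝ → ℝ,
    (∀ t, 0 ≤ a t) → MonotoneOn a (Icc 1 2) →
    (∀ r s, 1 ≤ r → r < s → s ≤ 2 → a r ≤ C * (s - r) ^ (-β) * (a s) ^ (1 + α)) →
    a 2 ≤ ε₀ → a 1 = 0 := by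
  set θ : ℝ := 2 ^ (-((β + 1) / α)) with hθ
  have hθ0 : 0 < θ := Real.rpow_pos_of_pos two_pos _
  have hθ1 : θ < 1 := Real.rpow_lt_one_of_one_lt_of_neg one_lt_two
    (neg_neg_of_pos (div_pos (by linarith) hα))
  have hθα : 2 ^ β * θ ^ α = 1 / 2 := by
    rw [hθ, ← Real.rpow_mul two_pos.le, ← Real.rpow_add two_pos]
    have : β + -((β + 1) / α) * α = -1 := by
      field_simp
      ring
    rw [this, Real.rpow_neg_one]
    norm_num
  set ε₀ : ℝ := (θ / (C * 2 ^ β)) ^ (1 / α) with hε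
  have hb : (0 : ℝ) < 2 ^ β := Real.rpow_pos_of_pos two_pos _
  have hε0 : 0 < ε₀ := Real.rpow_pos_of_pos (by positivity) _
  have hεα : C * 2 ^ β * ε₀ ^ α = θ := by
    rw [hε, ← Real.rpow_mul (by positivity), one_div_mul_cancel hα.ne', Real.rpow_one]
    field_simp
  refine ⟨ε₀, hε0, ?_⟩
  intro a ha0 hmono hrec ha2
  have key : ∀ k : ℕ, a (1 + (1 / 2) ^ k) ≤ ε₀ * θ ^ k := by
    intro k
    induction k with
    | zero =>
      rw [pow_zero, pow_zero, mul_one]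
      have : (1 : ℝ) + 1 = 2 := by norm_num
      rw [this]
      exact ha2
    | succ k ih =>
      have hk0 : (0 : ℝ) < (1 / 2) ^ k := by positivity
      have hk1 : ((1 : ℝ) / 2) ^ k ≤ 1 := pow_le_one₀ (by norm_num) (by norm_num)
      have hps : ((1 : ℝ) / 2) ^ (k + 1) = (1 / 2) ^ k * (1 / 2) := pow_succ _ _
      have h1 := hrec (1 + (1 / 2) ^ (k + 1)) (1 + (1 / 2) ^ k) (by rw [hps]; linarith)
        (by rw [hps]; linarith) (by linarith)
      have h2 : (1 + (1 / 2 : ℝ) ^ k - (1 + (1 / 2) ^ (k + 1))) = (1 / 2) ^ (k + 1) := by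
        rw [hps]
        ring
      have h3 : ((1 / 2 : ℝ) ^ (k + 1)) ^ (-β) = (2 ^ β) ^ (k + 1) := by
        rw [one_div, inv_pow, Real.inv_rpow (by positivity), ← Real.rpow_neg (by positivity),
          neg_neg, ← Real.rpow_natCast, ← Real.rpow_natCast, ← Real.rpow_mul two_pos.le,
          ← Real.rpow_mul two_pos.le, mul_comm]
      rw [h2, h3] at h1
      have h4 : a (1 + (1 / 2) ^ k) ^ (1 + α) ≤ (ε₀ * θ ^ k) ^ (1 + α) :=
        Real.rpow_le_rpow (ha0 _) ih (by linarith)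
      have h5 : (ε₀ * θ ^ k) ^ (1 + α) = ε₀ * θ ^ k * (ε₀ ^ α * (θ ^ α) ^ k) := by
        rw [Real.rpow_add (by positivity), Real.rpow_one, Real.mul_rpow hε0.le (by positivity)]
        congr 2
        rw [← Real.rpow_natCast, ← Real.rpow_natCast, ← Real.rpow_mul hθ0.le,
          ← Real.rpow_mul hθ0.le, mul_comm]
      calc a (1 + (1 / 2) ^ (k + 1))
          ≤ C * (2 ^ β) ^ (k + 1) * a (1 + (1 / 2) ^ k) ^ (1 + α) := h1
        _ ≤ C * (2 ^ β) ^ (k + 1) * (ε₀ * θ ^ k) ^ (1 + α) := by gcongr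
        _ = (C * 2 ^ β * ε₀ ^ α) * (2 ^ β * θ ^ α) ^ k * (ε₀ * θ ^ k) := by
            rw [h5, mul_pow, pow_succ]
            ring
        _ = θ * (1 / 2) ^ k * (ε₀ * θ ^ k) := by rw [hεα, hθα]
        _ ≤ θ * 1 * (ε₀ * θ ^ k) := by gcongr
        _ = ε₀ * θ ^ (k + 1) := by
            rw [pow_succ]
            ring
  have hlim : Tendsto (fun k : ℕ => ε₀ * θ ^ k) atTop (𝓝 0) := by
    have := (tendsto_pow_atTop_nhds_zero_of_lt_one hθ0.le hθ1).const_mul ε₀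
    rwa [mul_zero] at this
  refine le_antisymm (ge_of_tendsto' hlim fun k => ?_) (ha0 1)
  refine le_trans (hmono ⟨le_refl 1, one_le_two⟩ ⟨?_, ?_⟩ ?_) (key k)
  · have : (0 : ℝ) < (1 / 2) ^ k := by positivity
    linarith
  · have : ((1 : ℝ) / 2) ^ k ≤ 1 := pow_le_one₀ (by norm_num) (by norm_num)
    linarith
  · have : (0 : ℝ) < (1 / 2) ^ k := by positivity
    linarith

end Pool.Agent.Lib.Buck
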