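import Mathlib
import Pool.Agent.Lib.MP_17201e_an.Defs
import Pool.Agent.Lib.MP_17201e_an.Jet
import Pool.Agent.Lib.MP_17201e_an.Iso
import Pool.Agent.Lib.MP_17201e_an.CutPer
import Pool.Agent.Lib.MP_17201e_an.Cacc
import Pool.Agent.Lib.MP_17201e_an.CutLam
import Pool.Agent.Lib.MP_17201e_an.Iter

/-! # MP_17201e_an: local elimination lemma -/

set_option autoImplicit false

open MeasureTheory Set Filter Topology
open scoped ENNReal ContDiff

namespace Pool.Agent.Lib.Buck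

/-- Total energy. -/
noncomputable def local_en {d h : ℕ} (u : Fin h → HS d) (B : Set (E d)) : ℝ := ∑ i, loc B (u i)

theorem local_en_nonneg {d h : ℕ} (u : Fin h → HS d) (B : Set (E d)) : 0 ≤ local_en u B :=
  Finset.sum_nonneg fun i _ => loc_nonneg _ _

theorem local_en_mono {d h : ℕ} (u : Fin h → HS d) {A B : Set (E d)} (hB : MeasurableSet B)
    (h : A ⊆ B) : local_en u A ≤ local_en u B :=
  Finset.sum_le_sum fun i _ => loc_mono hB h _

/-- Real inequality: powers. -/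
theorem local_pow {d : ℕ} (hd : 2 ≤ d) {c K m δ a : ℝ} (hc : 0 < c) (hK : 0 ≤ K) (hm : 0 ≤ m)
    (hδ : 0 < δ) (hδ1 : δ ≤ 1) (ha : 0 ≤ a) (ha1 : a ≤ 1)
    (h : c * m ^ (((d : ℝ) - 1) / d) ≤ K * δ ^ (-4 : ℤ) * a) :
    m ≤ (K / c + 1) ^ (2 : ℝ) * δ ^ (-8 : ℤ) * a ^ (1 + 1 / d : ℝ) := by
  have hd' : (2 : ℝ) ≤ d := by exact_mod_cast hd
  have hd1 : (0 : ℝ) < (d : ℝ) - 1 := by linarith
  have hd0 : (0 : ℝ) < (d : ℝ) := by linarith
  set q : ℝ := (d : ℝ) / (d - 1) with hq
  have hq2 : q ≤ 2 := by rw [hq, div_le_iff₀ hd1]; linarith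
  have hq1 : 1 ≤ q := by rw [hq, le_div_iff₀ hd1]; linarith
  have hδ4 : 1 ≤ δ ^ (-4 : ℤ) := by
    rw [zpow_neg, ← inv_zpow]
    exact one_le_zpow₀ ((one_le_inv₀ hδ).mpr hδ1) (by norm_num)
  have h1 : m ^ (((d : ℝ) - 1) / d) ≤ (K / c + 1) * δ ^ (-4 : ℤ) * a := by
    have h2 : m ^ (((d : ℝ) - 1) / d) ≤ K * δ ^ (-4 : ℤ) * a / c := by
      rw [le_div_iff₀ hc]; linarith
    refine h2.trans ?_
    have h3 : K * δ ^ (-4 : ℤ) * a / c = K / c * δ ^ (-4 : ℤ) * a := by ring
    rw [h3]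
    have : 0 ≤ δ ^ (-4 : ℤ) * a := by positivity
    nlinarith
  have h0 : 0 ≤ m ^ (((d : ℝ) - 1) / d) := Real.rpow_nonneg hm _
  have h4 : (m ^ (((d : ℝ) - 1) / d)) ^ q ≤ ((K / c + 1) * δ ^ (-4 : ℤ) * a) ^ q :=
    Real.rpow_le_rpow h0 h1 (by linarith)
  rw [← Real.rpow_mul hm] at h4
  have h5 : ((d : ℝ) - 1) / d * q = 1 := by rw [hq]; field_simp
  rw [h5, Real.rpow_one] at h4
  refine h4.trans ?_
  have hKc : 1 ≤ K / c + 1 := by
    have := div_nonneg hK hc.le
    linarith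
  have hX : 1 ≤ (K / c + 1) * δ ^ (-4 : ℤ) := by
    calc (1 : ℝ) = 1 * 1 := by norm_num
      _ ≤ _ := by gcongr
  rw [Real.mul_rpow (by positivity) ha]
  have h6 : ((K / c + 1) * δ ^ (-4 : ℤ)) ^ q ≤ (K / c + 1) ^ (2 : ℝ) * δ ^ (-8 : ℤ) := by
    calc ((K / c + 1) * δ ^ (-4 : ℤ)) ^ q ≤ ((K / c + 1) * δ ^ (-4 : ℤ)) ^ (2 : ℝ) :=
          Real.rpow_le_rpow_of_exponent_le hX hq2
      _ = (K / c + 1) ^ (2 : ℝ) * (δ ^ (-4 : ℤ)) ^ (2 : ℝ) :=
          Real.mul_rpow (by positivity) (by positivity)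
      _ = (K / c + 1) ^ (2 : ℝ) * δ ^ (-8 : ℤ) := by
          congr 1
          rw [Real.rpow_two, ← zpow_natCast, ← zpow_mul]
          norm_num
  have h7 : a ^ q ≤ a ^ (1 + 1 / d : ℝ) := by
    rcases ha.eq_or_lt with h0 | h0
    · rw [← h0, Real.zero_rpow (by linarith), Real.zero_rpow (by positivity)]
    · apply Real.rpow_le_rpow_of_exponent_ge h0 ha1
      rw [hq, le_div_iff₀ hd1]
      have : (1 + 1 / (d : ℝ)) * (d - 1) = d - 1 / d := by field_simp; ring
      rw [this]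
      have : 0 < 1 / (d : ℝ) := by positivity
      linarith
  exact mul_le_mul h6 h7 (Real.rpow_nonneg ha _) (by positivity)

theorem local_lemma (d h : ℕ) (hd : 2 ≤ d) (hh : 1 ≤ h) (κ L : ℝ) (hκ : 0 < κ) (hL : 0 ≤ L) :
    ∃ ε₀ > 0, ∀ (A : Set (E d)) (S : Submodule ℝ (HS d)), LocMin h κ A S →
      lamS h S ≤ ENNReal.ofReal L → ∀ u l, Eig h S (lamS h S).toReal u l → ∀ x : E d,
      (volume (A ∩ Metric.ball x 2)).toReal + ∑ i, loc (Metric.ball x 2) (u i) ≤ ε₀ →
      volume (A ∩ Metric.ball x 1) = 0 := by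
  have hd1 : 1 ≤ d := by omega
  obtain ⟨c, hc, hiso⟩ := isoperimetric d hd
  obtain ⟨C₁, hC₁, hcacc⟩ := caccioppoli d hd
  obtain ⟨C₂, hC₂, hcut⟩ := cut_lam d hd1
  set K₁ : ℝ := C₁ * (1 + L) with hK₁
  set K₂ : ℝ := 8 + κ⁻¹ * (C₂ * (1 + L)) with hK₂
  have hK₂0 : 0 ≤ K₂ := by positivity
  set K : ℝ := (K₁ + (K₂ / c + 1) ^ (2 : ℝ)) * 4 ^ (8 : ℝ) with hK
  have hK0 : 0 < K := by positivity
  obtain ⟨ε₁, hε₁, hiter⟩ := iteration K 8 (1 / d) hK0 (by norm_num) (by positivity)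
  refine ⟨min ε₁ (1 / 2), by positivity, ?_⟩
  intro A S hlm hlamL u l hul x hx
  have hA := hlm.meas
  have hfinB : ∀ t, volume (A ∩ Metric.ball x t) < ⊤ := fun t =>
    lt_of_le_of_lt (measure_mono inter_subset_right) Metric.isBounded_ball.measure_lt_top
  have hfinC : ∀ t, volume (A ∩ Metric.closedBall x t) < ⊤ := fun t =>
    lt_of_le_of_lt (measure_mono inter_subset_right) Metric.isBounded_closedBall.measure_lt_top
  set m : ℝ → ℝ := fun t => (volume (A ∩ Metric.ball x t)).toReal with hm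
  set e : ℝ → ℝ := fun t => local_en u (Metric.ball x t) with he
  have hm0 : ∀ t, 0 ≤ m t := fun t => ENNReal.toReal_nonneg
  have he0 : ∀ t, 0 ≤ e t := fun t => local_en_nonneg _ _
  have hmmono : ∀ s t, s ≤ t → m s ≤ m t := fun s t hst =>
    ENNReal.toReal_mono (hfinB t).ne
      (measure_mono (inter_subset_inter_right _ (Metric.ball_subset_ball hst)))
  have hemono : ∀ s t, s ≤ t → e s ≤ e t := fun s t hst =>
    local_en_mono _ measurableSet_ball (Metric.ball_subset_ball hst)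
  have hx' : m 2 + e 2 ≤ min ε₁ (1 / 2) := hx
  have hsmall : ∀ t ≤ 2, m t + e t ≤ 1 / 2 := fun t ht => by
    have := hmmono t 2 ht
    have := hemono t 2 ht
    have := hx'.trans (min_le_right _ _)
    linarith
  set Λ : ℝ := (lamS h S).toReal with hΛ
  have hΛL : Λ ≤ L := ENNReal.toReal_le_of_le_ofReal hL hlamL
  have hΛ0 : 0 ≤ Λ := ENNReal.toReal_nonneg
  have hΛof : ENNReal.ofReal Λ = lamS h S := ENNReal.ofReal_toReal hlm.lamfin.ne
  -- the recursive inequality
  have hrec : ∀ r s, 1 ≤ r → r < s → s ≤ 2 →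
      m r + e r ≤ K * (s - r) ^ (-(8 : ℝ)) * (m s + e s) ^ (1 + 1 / d : ℝ) := by
    intro r s hr hrs hs
    set δ : ℝ := (s - r) / 4 with hδ
    have hδ0 : 0 < δ := by rw [hδ]; linarith
    have hδ1 : δ ≤ 1 := by rw [hδ]; linarith
    have has : 0 ≤ m s + e s := by have := hm0 s; have := he0 s; linarith
    have has1 : m s + e s ≤ 1 / 2 := hsmall s hs
    have hapow : 0 ≤ (m s + e s) ^ (1 + 1 / d : ℝ) := Real.rpow_nonneg has _
    -- the energy
    have h1 : e r ≤ K₁ * δ ^ (-8 : ℤ) * (m s + e s) ^ (1 + 1 / d : ℝ) := by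
      have hm2 : m (r + 2 * δ) ≤ m s := hmmono _ _ (by rw [hδ]; linarith)
      have h2 : ∀ i, loc (Metric.ball x r) (u i) ≤ C₁ * (1 + L) * δ ^ (-8 : ℤ)
          * (m s) ^ (1 / d : ℝ) * loc (Metric.ball x s) (u i) := by
        intro i
        refine (hcacc A S (u i) (l i) L hA hlm.le hlm.stable (hul.mem i) (hul.nonneg i)
          ((hul.le i).trans hΛL) (hul.eig i) x r δ (by linarith) hδ0 hδ1 ?_).trans ?_
        · have := he0 s
          have : m (r + 2 * δ) ≤ 1 := by linarith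
          exact this
        · have h3 : loc (Metric.ball x (r + 2 * δ)) (u i) ≤ loc (Metric.ball x s) (u i) :=
            loc_mono measurableSet_ball (Metric.ball_subset_ball (by rw [hδ]; linarith)) _
          have h4 : (volume (A ∩ Metric.ball x (r + 2 * δ))).toReal ^ (1 / d : ℝ)
              ≤ (m s) ^ (1 / d : ℝ) :=
            Real.rpow_le_rpow ENNReal.toReal_nonneg hm2 (by positivity)
          have h5 : 0 ≤ (m s) ^ (1 / d : ℝ) := Real.rpow_nonneg (hm0 s) _
          have h6 : 0 ≤ loc (Metric.ball x (r + 2 * δ)) (u i) := loc_nonneg _ _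
          gcongr
      have h3 : e r ≤ C₁ * (1 + L) * δ ^ (-8 : ℤ) * (m s) ^ (1 / d : ℝ) * e s := by
        show ∑ i, loc (Metric.ball x r) (u i) ≤ _ * ∑ i, loc (Metric.ball x s) (u i)
        rw [Finset.mul_sum]
        exact Finset.sum_le_sum fun i _ => h2 i
      refine h3.trans ?_
      have h4 : (m s) ^ (1 / d : ℝ) * e s ≤ (m s + e s) ^ (1 + 1 / d : ℝ) := by
        rw [add_comm (1 : ℝ), Real.rpow_add_one' has (by positivity)]
        have h5 : (m s) ^ (1 / d : ℝ) ≤ (m s + e s) ^ (1 / d : ℝ) :=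
          Real.rpow_le_rpow (hm0 s) (by have := he0 s; linarith) (by positivity)
        exact mul_le_mul h5 (by have := hm0 s; linarith) (he0 s) (Real.rpow_nonneg has _)
      calc C₁ * (1 + L) * δ ^ (-8 : ℤ) * (m s) ^ (1 / d : ℝ) * e s
          = K₁ * δ ^ (-8 : ℤ) * ((m s) ^ (1 / d : ℝ) * e s) := by rw [hK₁]; ring
        _ ≤ _ := by gcongr
    -- the mass
    have h2 : m r ≤ (K₂ / c + 1) ^ (2 : ℝ) * δ ^ (-8 : ℤ) * (m s + e s) ^ (1 + 1 / d : ℝ) := by
      rcases (hm0 s).eq_or_lt with hms | hms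
      · have : m r ≤ 0 := by rw [hms]; exact hmmono _ _ hrs.le
        refine this.trans ?_
        positivity
      · apply local_pow hd hc hK₂0 (hm0 r) hδ0 hδ1 has (by linarith)
        obtain ⟨ρ, hρ, hper⟩ := per_cut hd1 hA x (r := r) (s := r + δ) (c := 2 * m s / δ)
          (by linarith) (by linarith) (by
            have h3 : (volume (A ∩ Metric.closedBall x (r + δ))).toReal ≤ m s :=
              ENNReal.toReal_mono (hfinB s).ne (measure_mono (inter_subset_inter_right _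
                (Metric.closedBall_subset_ball (by rw [hδ]; linarith))))
            have h4 : 0 ≤ (volume (A ∩ Metric.closedBall x r)).toReal := ENNReal.toReal_nonneg
            have h5 : 2 * m s / δ * (r + δ - r) = 2 * m s := by
              rw [add_sub_cancel_left]; field_simp
            rw [h5]
            linarith)
        have hρ0 : 0 < ρ := by have := hρ.1; linarith
        obtain ⟨S', hS', hmin⟩ := hlm.cut x ρ hρ0
        have hball : Metric.ball x (ρ + δ) ⊆ Metric.ball x s :=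
          Metric.ball_subset_ball (by have := hρ.2; rw [hδ] at this ⊢; linarith)
        have hes : ∑ i, loc (Metric.ball x (ρ + δ)) (u i) ≤ e s :=
          local_en_mono u measurableSet_ball hball
        have hSuniv : S ≤ H20 (univ : Set (E d)) := hlm.le.trans fun w hw => hw.1
        have hlamS' := hcut h S S' Λ u l x ρ δ hh hSuniv hul hρ0 hδ0 hδ1 hS'
          (hes.trans (by have := hm0 s; linarith))
        -- finiteness
        have hP : per (A ∩ Metric.closedBall x ρ) ≠ ⊤ ∧ per (A \ Metric.closedBall x ρ) ≠ ⊤ := by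
          have h3 : per A + ENNReal.ofReal (4 * (2 * m s / δ)) < ⊤ :=
            ENNReal.add_lt_top.mpr ⟨hlm.perfin, ENNReal.ofReal_lt_top⟩
          have h4 := lt_of_le_of_lt hper h3
          exact ⟨(lt_of_le_of_lt le_self_add h4).ne, (lt_of_le_of_lt le_add_self h4).ne⟩
        set P₁ : ℝ := (per (A ∩ Metric.closedBall x ρ)).toReal with hP₁
        set P₂ : ℝ := (per (A \ Metric.closedBall x ρ)).toReal with hP₂
        set P₀ : ℝ := (per A).toReal with hP₀
        have e1 : per (A ∩ Metric.closedBall x ρ) = ENNReal.ofReal P₁ :=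
          (ENNReal.ofReal_toReal hP.1).symm
        have e2 : per (A \ Metric.closedBall x ρ) = ENNReal.ofReal P₂ :=
          (ENNReal.ofReal_toReal hP.2).symm
        have e0 : per A = ENNReal.ofReal P₀ := (ENNReal.ofReal_toReal hlm.perfin.ne).symm
        have hP₁0 : 0 ≤ P₁ := ENNReal.toReal_nonneg
        have hP₂0 : 0 ≤ P₂ := ENNReal.toReal_nonneg
        have hP₀0 : 0 ≤ P₀ := ENNReal.toReal_nonneg
        have hq0 : 0 ≤ 2 * m s / δ := by positivity
        rw [e1, e2, e0, ← ENNReal.ofReal_add hP₁0 hP₂0, ← ENNReal.ofReal_add hP₀0 (by positivity),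
          ENNReal.ofReal_le_ofReal_iff (by positivity)] at hper
        have hen : 0 ≤ ∑ i, loc (Metric.ball x (ρ + δ)) (u i) := local_en_nonneg u _
        set G : ℝ := C₂ * (1 + Λ) * δ ^ (-4 : ℤ) * ∑ i, loc (Metric.ball x (ρ + δ)) (u i) with hG
        have hG0 : 0 ≤ G := by rw [hG]; positivity
        have h6 : lamS h S + ENNReal.ofReal κ * per A
            ≤ ENNReal.ofReal (Λ + G) + ENNReal.ofReal κ * per (A \ Metric.closedBall x ρ) :=
          hmin.trans (by gcongr)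
        rw [← hΛof, e0, e2, ← ENNReal.ofReal_mul hκ.le, ← ENNReal.ofReal_mul hκ.le,
          ← ENNReal.ofReal_add hΛ0 (by positivity), ← ENNReal.ofReal_add (by positivity)
          (by positivity), ENNReal.ofReal_le_ofReal_iff (by positivity)] at h6
        have h7 : P₁ ≤ 4 * (2 * m s / δ) + κ⁻¹ * G := by
          have h8 : κ * P₀ ≤ G + κ * P₂ := by linarith
          have h9 : P₀ ≤ κ⁻¹ * G + P₂ := by
            have h9' := mul_le_mul_of_nonneg_left h8 (inv_nonneg.mpr hκ.le)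
            have e5 : κ⁻¹ * (κ * P₀) = P₀ := by field_simp
            have e6 : κ⁻¹ * (G + κ * P₂) = κ⁻¹ * G + P₂ := by
              rw [mul_add, ← mul_assoc κ⁻¹ κ P₂, inv_mul_cancel₀ hκ.ne', one_mul]
            rw [e5, e6] at h9'
            exact h9'
          linarith
        have h8 : G ≤ C₂ * (1 + L) * δ ^ (-4 : ℤ) * e s := by
          rw [hG]
          gcongr
        have h9 : 4 * (2 * m s / δ) ≤ 8 * δ ^ (-4 : ℤ) * m s := by
          have h10 : δ⁻¹ ≤ δ ^ (-4 : ℤ) := by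
            rw [← zpow_neg_one]
            exact zpow_le_zpow_right_of_le_one₀ hδ0 hδ1 (by norm_num)
          calc 4 * (2 * m s / δ) = 8 * δ⁻¹ * m s := by rw [div_eq_mul_inv]; ring
            _ ≤ _ := by gcongr
        have h10 : P₁ ≤ K₂ * δ ^ (-4 : ℤ) * (m s + e s) := by
          have h11 : κ⁻¹ * G ≤ κ⁻¹ * (C₂ * (1 + L) * δ ^ (-4 : ℤ) * e s) := by gcongr
          have h12 : K₂ * δ ^ (-4 : ℤ) * (m s + e s) = 8 * δ ^ (-4 : ℤ) * m s
              + κ⁻¹ * (C₂ * (1 + L) * δ ^ (-4 : ℤ) * e s)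
              + (8 * δ ^ (-4 : ℤ) * e s + κ⁻¹ * (C₂ * (1 + L)) * δ ^ (-4 : ℤ) * m s) := by
            rw [hK₂]; ring
          rw [h12]
          have h13 : 0 ≤ 8 * δ ^ (-4 : ℤ) * e s + κ⁻¹ * (C₂ * (1 + L)) * δ ^ (-4 : ℤ) * m s := by
            have := he0 s
            positivity
          linarith
        refine le_trans ?_ h10
        have h11 := hiso (A ∩ Metric.closedBall x ρ) (hA.inter measurableSet_closedBall) (hfinC ρ)
        rw [e1, ENNReal.ofReal_le_ofReal_iff hP₁0] at h11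
        refine le_trans ?_ h11
        have h12 : m r ≤ (volume (A ∩ Metric.closedBall x ρ)).toReal :=
          ENNReal.toReal_mono (hfinC ρ).ne (measure_mono (inter_subset_inter_right _
            ((Metric.ball_subset_ball hρ.1.le).trans Metric.ball_subset_closedBall)))
        have h13 : (0 : ℝ) ≤ ((d : ℝ) - 1) / d := by
          have : (2 : ℝ) ≤ d := by exact_mod_cast hd
          apply div_nonneg <;> linarith
        exact mul_le_mul_of_nonneg_left (Real.rpow_le_rpow (hm0 r) h12 h13) hc.le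
    have h3 : δ ^ (-8 : ℤ) = 4 ^ (8 : ℝ) * (s - r) ^ (-(8 : ℝ)) := by
      have hsr : 0 < s - r := by linarith
      rw [hδ, Real.rpow_neg hsr.le, zpow_neg, div_zpow]
      have e1 : (4 : ℝ) ^ (8 : ℝ) = 4 ^ (8 : ℕ) := by norm_num
      have e2 : (s - r) ^ (8 : ℝ) = (s - r) ^ (8 : ℕ) := by
        rw [← Real.rpow_natCast]; norm_num
      have e3 : (s - r) ^ (8 : ℤ) = (s - r) ^ (8 : ℕ) := by norm_cast
      have e4 : (4 : ℝ) ^ (8 : ℤ) = 4 ^ (8 : ℕ) := by norm_cast
      rw [e1, e2, e3, e4]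
      field_simp
    calc m r + e r ≤ (K₂ / c + 1) ^ (2 : ℝ) * δ ^ (-8 : ℤ) * (m s + e s) ^ (1 + 1 / d : ℝ)
          + K₁ * δ ^ (-8 : ℤ) * (m s + e s) ^ (1 + 1 / d : ℝ) := add_le_add h2 h1
      _ = K * (s - r) ^ (-(8 : ℝ)) * (m s + e s) ^ (1 + 1 / d : ℝ) := by
          rw [h3, hK]; ring
  have hfin := hiter (fun t => m t + e t) (fun t => add_nonneg (hm0 t) (he0 t))
    (fun s _ t _ hst => add_le_add (hmmono s t hst) (hemono s t hst))
    (fun r s hr hrs hs => hrec r s hr hrs hs) (hx'.trans (min_le_left _ _))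
  have hm1 : m 1 = 0 := by
    have := hm0 1; have := he0 1
    have hfin' : m 1 + e 1 = 0 := hfin
    linarith
  exact (ENNReal.toReal_eq_zero_iff _).mp hm1 |>.resolve_right (hfinB 1).ne

end Pool.Agent.Lib.Buck
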