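import Mathlib
import Pool.Agent.Lib.MP_17201e_an.Jet

/-!
# Scaling of the buckling eigenvalues
-/

set_option autoImplicit false

open MeasureTheory Set Filter Topology
open scoped ENNReal ContDiff

namespace Pool.Agent.Lib.Buck

theorem scale_qmp {d : ℕ} {s : ℝ} (hs : 0 < s) :
    Measure.QuasiMeasurePreserving (fun x : E d => s • x) volume volume :=
  Measure.quasiMeasurePreserving_smul volume hs.ne'

theorem scale_ae {d : ℕ} {s : ℝ} (hs : 0 < s) {f g : E d → ℝ} (h : f =ᵐ[volume] g) :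
    (fun x => f (s • x)) =ᵐ[volume] fun x => g (s • x) :=
  (scale_qmp hs).ae_eq_comp h

theorem scale_memLp {d : ℕ} {s : ℝ} (hs : 0 < s) {f : E d → ℝ}
    (hf : MemLp f 2 (volume : Measure (E d))) :
    MemLp (fun x => f (s • x)) 2 (volume : Measure (E d)) := by
  have h1 : MemLp f 2 (Measure.map (fun x : E d => s • x) volume) := by
    rw [Measure.map_addHaar_smul volume hs.ne']
    exact hf.smul_measure ENNReal.ofReal_ne_top
  exact h1.comp_of_map (measurable_const_smul s).aemeasurable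

/-- Composition with the dilation `x ↦ s • x`. -/
noncomputable def scaleLp (d : ℕ) {s : ℝ} (hs : 0 < s) :
    Lp ℝ 2 (volume : Measure (E d)) →ₗ[ℝ] Lp ℝ 2 (volume : Measure (E d)) where
  toFun f := (scale_memLp hs (Lp.memLp f)).toLp (fun x => f (s • x))
  map_add' f g := by
    refine Lp.ext ?_
    refine (MemLp.coeFn_toLp _).trans ?_
    refine EventuallyEq.trans ?_ (Lp.coeFn_add _ _).symm
    refine (scale_ae hs (Lp.coeFn_add f g)).trans ?_
    filter_upwards [MemLp.coeFn_toLp (scale_memLp hs (Lp.memLp f)),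
      MemLp.coeFn_toLp (scale_memLp hs (Lp.memLp g))] with x h1 h2
    rw [Pi.add_apply, Pi.add_apply, h1, h2]
  map_smul' c f := by
    refine Lp.ext ?_
    refine (MemLp.coeFn_toLp _).trans ?_
    refine EventuallyEq.trans ?_ (Lp.coeFn_smul _ _).symm
    refine (scale_ae hs (Lp.coeFn_smul c f)).trans ?_
    filter_upwards [MemLp.coeFn_toLp (scale_memLp hs (Lp.memLp f))] with x h1
    rw [Pi.smul_apply, Pi.smul_apply, h1]
    rfl

theorem scaleLp_coe {d : ℕ} {s : ℝ} (hs : 0 < s) (f : Lp ℝ 2 (volume : Measure (E d))) :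
    scaleLp d hs f =ᵐ[volume] fun x => f (s • x) :=
  MemLp.coeFn_toLp (scale_memLp hs (Lp.memLp f))

theorem scaleLp_norm {d : ℕ} {s : ℝ} (hs : 0 < s) (f : Lp ℝ 2 (volume : Measure (E d))) :
    ‖scaleLp d hs f‖ ^ 2 = (s ^ d)⁻¹ * ‖f‖ ^ 2 := by
  rw [← real_inner_self_eq_norm_sq, ← real_inner_self_eq_norm_sq, L2.inner_def, L2.inner_def]
  have h1 : ∫ x, inner ℝ (scaleLp d hs f x) (scaleLp d hs f x) =
      ∫ x, inner ℝ (f (s • x)) (f (s • x)) := by
    refine integral_congr_ae ?_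
    filter_upwards [scaleLp_coe hs f] with x hx
    rw [hx]
  rw [h1]
  have h2 := Measure.integral_comp_smul (volume : Measure (E d))
    (fun x => inner ℝ (f x) (f x)) s
  rw [h2, finrank_euclideanSpace_fin, abs_of_pos (by positivity), smul_eq_mul]

/-- The order of a component of the 2-jet. -/
def scaleOrd {d : ℕ} : Idx d → ℕ
  | none => 0
  | some (Sum.inl _) => 1
  | some (Sum.inr _) => 2

/-- The dilation on 2-jets. -/
noncomputable def scaleHS (d : ℕ) {s : ℝ} (hs : 0 < s) : HS d →ₗ[ℝ] HS d where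
  toFun w := WithLp.toLp 2 (fun k => s ^ (scaleOrd k) • scaleLp d hs (w k))
  map_add' v w := by
    refine PiLp.ext fun k => ?_
    show s ^ (scaleOrd k) • scaleLp d hs (v k + w k) =
      s ^ (scaleOrd k) • scaleLp d hs (v k) + s ^ (scaleOrd k) • scaleLp d hs (w k)
    rw [map_add, smul_add]
  map_smul' c w := by
    refine PiLp.ext fun k => ?_
    show s ^ (scaleOrd k) • scaleLp d hs (c • w k) =
      c • (s ^ (scaleOrd k) • scaleLp d hs (w k))
    rw [map_smul, smul_comm]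

theorem scaleHS_apply {d : ℕ} {s : ℝ} (hs : 0 < s) (w : HS d) (k : Idx d) :
    scaleHS d hs w k = s ^ (scaleOrd k) • scaleLp d hs (w k) := rfl

theorem scaleHS_injective {d : ℕ} {s : ℝ} (hs : 0 < s) :
    Function.Injective (scaleHS d hs) := by
  rw [injective_iff_map_eq_zero]
  intro w hw
  refine PiLp.ext fun k => ?_
  have h1 : scaleHS d hs w k = 0 := by rw [hw]; rfl
  rw [scaleHS_apply, smul_eq_zero] at h1
  have h2 : scaleLp d hs (w k) = 0 := h1.resolve_left (by positivity)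
  have h3 := scaleLp_norm hs (w k)
  rw [h2, norm_zero] at h3
  have h4 : ‖w k‖ ^ 2 = 0 := by
    have : (0 : ℝ) < (s ^ d)⁻¹ := by positivity
    nlinarith [sq_nonneg ‖w k‖]
  have h5 : w k = 0 := norm_eq_zero.mp (pow_eq_zero_iff (two_ne_zero) |>.mp h4)
  rw [h5]
  rfl

theorem scale_norm_smul {d : ℕ} (c : ℝ) (f : Lp ℝ 2 (volume : Measure (E d))) :
    ‖c • f‖ ^ 2 = c ^ 2 * ‖f‖ ^ 2 := by
  rw [norm_smul, mul_pow, Real.norm_eq_abs, sq_abs]

theorem scaleHS_qb {d : ℕ} {s : ℝ} (hs : 0 < s) (w : HS d) :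
    qb (scaleHS d hs w) = s ^ 2 * (s ^ d)⁻¹ * qb w := by
  unfold qb
  rw [Finset.mul_sum]
  refine Finset.sum_congr rfl fun i _ => ?_
  rw [scaleHS_apply, scale_norm_smul, scaleLp_norm]
  simp only [scaleOrd]
  ring

theorem scaleHS_lap {d : ℕ} {s : ℝ} (hs : 0 < s) (w : HS d) :
    lap (scaleHS d hs w) = s ^ 2 • scaleLp d hs (lap w) := by
  unfold lap
  rw [map_sum, Finset.smul_sum]
  rfl

theorem scaleHS_qa {d : ℕ} {s : ℝ} (hs : 0 < s) (w : HS d) :
    qa (scaleHS d hs w) = s ^ 2 * (s ^ 2 * (s ^ d)⁻¹ * qa w) := by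
  unfold qa
  rw [scaleHS_lap, scale_norm_smul, scaleLp_norm]
  ring

theorem scaleHS_norm_le {d : ℕ} {s : ℝ} (hs : 0 < s) (w : HS d) :
    ‖scaleHS d hs w‖ ^ 2 ≤ ((1 + s ^ 2 + s ^ 4) * (s ^ d)⁻¹) * ‖w‖ ^ 2 := by
  rw [PiLp.norm_sq_eq_of_L2, PiLp.norm_sq_eq_of_L2, Finset.mul_sum]
  refine Finset.sum_le_sum fun k _ => ?_
  rw [scaleHS_apply, scale_norm_smul, scaleLp_norm, ← mul_assoc]
  refine mul_le_mul_of_nonneg_right ?_ (sq_nonneg _)
  refine mul_le_mul_of_nonneg_right ?_ (by positivity)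
  match k with
  | none => simp only [scaleOrd]; nlinarith [sq_nonneg s, sq_nonneg (s ^ 2)]
  | some (Sum.inl _) => simp only [scaleOrd]; nlinarith [sq_nonneg s, sq_nonneg (s ^ 2)]
  | some (Sum.inr _) => simp only [scaleOrd]; nlinarith [sq_nonneg s, sq_nonneg (s ^ 2)]

theorem scale_pd {d : ℕ} {φ : E d → ℝ} (hφ : ContDiff ℝ ∞ φ) (s : ℝ) (i : Fin d) :
    pd i (fun x => φ (s • x)) = fun x => s * pd i φ (s • x) := by
  funext x
  unfold pd
  have h1 : HasFDerivAt φ (fderiv ℝ φ (s • x)) (s • x) :=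
    ((hφ.differentiable (by simp)) (s • x)).hasFDerivAt
  have h2 : HasFDerivAt (fun x : E d => s • x) (s • ContinuousLinearMap.id ℝ (E d)) x :=
    (ContinuousLinearMap.id ℝ (E d)).hasFDerivAt.const_smul s
  have h3 := h1.comp x h2
  have h4 : fderiv ℝ (fun x => φ (s • x)) x =
      (fderiv ℝ φ (s • x)).comp (s • ContinuousLinearMap.id ℝ (E d)) := h3.fderiv
  rw [h4]
  simp

theorem scale_contDiff {d : ℕ} {φ : E d → ℝ} (hφ : ContDiff ℝ ∞ φ) (s : ℝ) :
    ContDiff ℝ ∞ (fun x => φ (s • x)) :=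
  hφ.comp (contDiff_const_smul s)

theorem scale_pd_mul {d : ℕ} {φ : E d → ℝ} (hφ : ContDiff ℝ ∞ φ) (s : ℝ) (i : Fin d) :
    pd i (fun x => s * φ (s • x)) = fun x => s * (s * pd i φ (s • x)) := by
  rw [jet_pd_smul (scale_contDiff hφ s) s i, scale_pd hφ s i]

theorem scale_comp {d : ℕ} {φ : E d → ℝ} (hφ : ContDiff ℝ ∞ φ) (s : ℝ) (k : Idx d) :
    comp (fun x => φ (s • x)) k = fun x => s ^ (scaleOrd k) * comp φ k (s • x) := by
  match k with
  | none => funext x; simp [comp, scaleOrd]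
  | some (Sum.inl i) =>
    show pd i (fun x => φ (s • x)) = _
    rw [scale_pd hφ s i]
    funext x
    simp [comp, scaleOrd]
  | some (Sum.inr (i, j)) =>
    show pd i (pd j (fun x => φ (s • x))) = _
    rw [scale_pd hφ s j, scale_pd_mul (jet_pd_contDiff hφ j) s i]
    funext x
    simp only [comp, scaleOrd]
    ring

theorem scale_test {d : ℕ} {s : ℝ} (hs : 0 < s) {Ω : Set (E d)} {φ : E d → ℝ}
    (hφ : Test Ω φ) : Test ((fun x => s • x) ⁻¹' Ω) (fun x => φ (s • x)) where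
  smooth := scale_contDiff hφ.smooth s
  compact := hφ.compact.comp_homeomorph (Homeomorph.smulOfNeZero s hs.ne')
  supp := (tsupport_comp_subset_preimage φ (continuous_const_smul s)).trans
    (preimage_mono hφ.supp)

theorem scale_jet {d : ℕ} {s : ℝ} (hs : 0 < s) {φ : E d → ℝ} (hφ : ContDiff ℝ ∞ φ) {w : HS d}
    (hw : IsJet φ w) : IsJet (fun x => φ (s • x)) (scaleHS d hs w) := by
  intro k
  rw [scaleHS_apply, scale_comp hφ s k]
  filter_upwards [Lp.coeFn_smul (s ^ (scaleOrd k)) (scaleLp d hs (w k)),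
    scaleLp_coe hs (w k), scale_ae hs (hw k)] with x h1 h2 h3
  rw [h1, Pi.smul_apply, h2, h3, smul_eq_mul]

theorem scale_mem_H20 {d : ℕ} {s : ℝ} (hs : 0 < s) {Ω : Set (E d)} {w : HS d}
    (hw : w ∈ H20 Ω) : scaleHS d hs w ∈ H20 ((fun x => s • x) ⁻¹' Ω) := by
  rw [mem_H20_iff] at hw ⊢
  intro ε hε
  set C : ℝ := (1 + s ^ 2 + s ^ 4) * (s ^ d)⁻¹ with hC
  have hCpos : 0 < C := by positivity
  obtain ⟨φ, v, hφ, hv, hd⟩ := hw (ε / Real.sqrt C) (by positivity)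
  refine ⟨_, scaleHS d hs v, scale_test hs hφ, scale_jet hs hφ.smooth hv, ?_⟩
  rw [← map_sub]
  have h1 := scaleHS_norm_le hs (w - v)
  rw [← hC] at h1
  have h2 : C * ‖w - v‖ ^ 2 < ε ^ 2 := by
    have h3 : ‖w - v‖ ^ 2 < (ε / Real.sqrt C) ^ 2 :=
      pow_lt_pow_left₀ hd (norm_nonneg _) two_ne_zero
    rw [div_pow, Real.sq_sqrt hCpos.le, lt_div_iff₀ hCpos] at h3
    linarith
  exact lt_of_pow_lt_pow_left₀ 2 hε.le (lt_of_le_of_lt h1 h2)

theorem scale_ratio {d : ℕ} {s : ℝ} (hs : 0 < s) (w : HS d) :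
    ENNReal.ofReal (qa (scaleHS d hs w)) / ENNReal.ofReal (qb (scaleHS d hs w)) =
      ENNReal.ofReal (s ^ 2) * (ENNReal.ofReal (qa w) / ENNReal.ofReal (qb w)) := by
  have hb : (0 : ℝ) < s ^ 2 * (s ^ d)⁻¹ := by positivity
  rw [scaleHS_qa, scaleHS_qb, ENNReal.ofReal_mul (by positivity), ENNReal.ofReal_mul hb.le,
    ENNReal.ofReal_mul hb.le, mul_div_assoc,
    ENNReal.mul_div_mul_left _ _ (by simpa using hb) ENNReal.ofReal_ne_top]

theorem scale_lam_le {d : ℕ} (h : ℕ) {s : ℝ} (hs : 0 < s) (Ω : Set (E d)) :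
    lam h ((fun x => s • x) ⁻¹' Ω) ≤ ENNReal.ofReal (s ^ 2) * lam h Ω := by
  have hc0 : ENNReal.ofReal (s ^ 2) ≠ 0 := by
    have : (0 : ℝ) < s ^ 2 := by positivity
    exact (ENNReal.ofReal_pos.mpr this).ne'
  have hct : ENNReal.ofReal (s ^ 2) ≠ ⊤ := ENNReal.ofReal_ne_top
  have key : lam h ((fun x => s • x) ⁻¹' Ω) / ENNReal.ofReal (s ^ 2) ≤ lam h Ω := by
    refine le_iInf₂ fun V hV => ?_
    rw [ENNReal.div_le_iff hc0 hct]
    have h1 : V.map (scaleHS d hs) ≤ H20 ((fun x => s • x) ⁻¹' Ω) := by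
      rintro _ ⟨w, hw, rfl⟩
      exact scale_mem_H20 hs (hV.1 hw)
    have h2 : Module.finrank ℝ (V.map (scaleHS d hs)) = h := by
      rw [← hV.2]
      exact (Submodule.equivMapOfInjective (scaleHS d hs) (scaleHS_injective hs) V).finrank_eq.symm
    refine (iInf₂_le (V.map (scaleHS d hs)) ⟨h1, h2⟩).trans ?_
    refine iSup₂_le fun w' hw' => ?_
    obtain ⟨⟨w, hw, rfl⟩, hne⟩ := hw'
    rw [scale_ratio, mul_comm]
    refine mul_le_mul_left ?_ _
    have hw0 : w ≠ 0 := by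
      rintro rfl
      exact hne (map_zero _)
    exact le_iSup₂ (f := fun (w : HS d) (_ : w ∈ V ∧ w ≠ 0) =>
      ENNReal.ofReal (qa w) / ENNReal.ofReal (qb w)) w ⟨hw, hw0⟩
  rwa [ENNReal.div_le_iff hc0 hct, mul_comm] at key

theorem lam_scale {d : ℕ} (h : ℕ) {t : ℝ} (ht : 0 < t) (Ω : Set (E d)) :
    lam h ((fun x => t⁻¹ • x) ⁻¹' Ω) = ENNReal.ofReal (t⁻¹ ^ 2) * lam h Ω := by
  refine le_antisymm (scale_lam_le h (inv_pos.mpr ht) Ω) ?_
  have h1 := scale_lam_le h ht ((fun x => t⁻¹ • x) ⁻¹' Ω)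
  have h2 : (fun x : E d => t • x) ⁻¹' ((fun x => t⁻¹ • x) ⁻¹' Ω) = Ω := by
    ext x
    simp [smul_smul, inv_mul_cancel₀ ht.ne']
  rw [h2] at h1
  calc ENNReal.ofReal (t⁻¹ ^ 2) * lam h Ω
      ≤ ENNReal.ofReal (t⁻¹ ^ 2) *
        (ENNReal.ofReal (t ^ 2) * lam h ((fun x => t⁻¹ • x) ⁻¹' Ω)) :=
        mul_le_mul_right h1 _
    _ = lam h ((fun x => t⁻¹ • x) ⁻¹' Ω) := by
        rw [← mul_assoc, ← ENNReal.ofReal_mul (by positivity), ← mul_pow,
          inv_mul_cancel₀ ht.ne', one_pow, ENNReal.ofReal_one, one_mul]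

end Pool.Agent.Lib.Buck
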