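import Mathlib
import Pool.Agent.Lib.MP_17201e_an.Defs
import Pool.Agent.Lib.MP_17201e_an.Jet
import Pool.Agent.Lib.MP_17201e_an.Mult
import Pool.Agent.Lib.MP_17201e_an.Comp
import Pool.Agent.Lib.MP_17201e_an.Per
import Pool.Agent.Lib.MP_17201e_an.Scale
import Pool.Agent.Lib.MP_17201e_an.Iso
import Pool.Agent.Lib.MP_17201e_an.Eig
import Pool.Agent.Lib.MP_17201e_an.Local
import Pool.Agent.Lib.MP_17201e_an.Cover

/-! # MP_17201e_an: every open minimiser is bounded -/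

set_option autoImplicit false

open MeasureTheory Set Filter Topology
open scoped ENNReal ContDiff

namespace Pool.Agent.Lib.Buck

theorem bounded_volume_preimage {d : ℕ} {t : ℝ} (ht : 0 < t) {Ω : Set (E d)}
    (h : volume Ω < ⊤) : volume ((fun x => t⁻¹ • x) ⁻¹' Ω) < ⊤ := by
  have h1 : (fun x : E d => t⁻¹ • x) ⁻¹' Ω = (t⁻¹ • ·) ⁻¹' Ω := rfl
  rw [h1, Measure.addHaar_preimage_smul volume (inv_ne_zero ht.ne')]
  exact ENNReal.mul_lt_top ENNReal.ofReal_lt_top h

theorem bounded_root (d : ℕ) (hd : 2 ≤ d) {y : ℝ} (hy : 0 < y) :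
    0 < y ^ ((1 : ℝ) / ((d - 1 : ℕ) : ℝ)) ∧ (y ^ ((1 : ℝ) / ((d - 1 : ℕ) : ℝ))) ^ (d - 1) = y := by
  refine ⟨by positivity, ?_⟩
  rw [← Real.rpow_natCast, ← Real.rpow_mul hy.le]
  have hne : ((d - 1 : ℕ) : ℝ) ≠ 0 := by
    have : 0 < d - 1 := by omega
    exact_mod_cast this.ne'
  rw [one_div, inv_mul_cancel₀ hne, Real.rpow_one]

theorem bounded_lam_fin {d h : ℕ} (hd : 2 ≤ d) (hh : 1 ≤ h) {p : ℝ} (hp : 0 < p)
    {Ω : Set (E d)} (hm : IsMinimizer h p Ω) : lam h Ω < ⊤ := by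
  have hd1 : 1 ≤ d := by omega
  haveI : Nonempty (Fin d) := ⟨⟨0, by omega⟩⟩
  obtain ⟨R, hR, hF⟩ := exists_competitor (d := d) hd1 hh
  have hball : per (Metric.ball (0 : E d) R) = per (Metric.closedBall (0 : E d) R) :=
    per_congr (by
      rw [ae_eq_set]
      constructor
      · have : Metric.ball (0 : E d) R \ Metric.closedBall (0 : E d) R = ∅ :=
          sdiff_eq_empty.mpr Metric.ball_subset_closedBall
        rw [this, measure_empty]
      · rw [Metric.closedBall_sdiff_ball]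
        exact Measure.addHaar_sphere_of_ne_zero volume 0 hR.ne')
  have hP : per (Metric.ball (0 : E d) R) < ⊤ := by
    rw [hball]; exact lt_of_le_of_lt le_add_self hF
  set P : ℝ := (per (Metric.ball (0 : E d) R)).toReal with hPdef
  have hP0 : 0 ≤ P := ENNReal.toReal_nonneg
  have hPof : per (Metric.ball (0 : E d) R) = ENNReal.ofReal P := (ENNReal.ofReal_toReal hP.ne).symm
  set t : ℝ := min 1 (p / (P + 1)) with ht
  have ht0 : 0 < t := by
    rw [ht]; positivity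
  have ht1 : t ≤ 1 := min_le_left _ _
  have htp : t ^ (d - 1) * P ≤ p := by
    have h1 : t ^ (d - 1) ≤ t := by
      calc t ^ (d - 1) ≤ t ^ 1 := pow_le_pow_of_le_one ht0.le ht1 (by omega)
        _ = t := pow_one t
    have h2 : t ≤ p / (P + 1) := min_le_right _ _
    calc t ^ (d - 1) * P ≤ p / (P + 1) * P := by
          gcongr
          exact h1.trans h2
      _ ≤ p := by
          rw [div_mul_eq_mul_div, div_le_iff₀ (by linarith)]
          nlinarith
  have hadm : Admissible p ((fun x : E d => t⁻¹ • x) ⁻¹' Metric.ball 0 R) := by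
    refine ⟨Metric.isOpen_ball.preimage (continuous_const_smul _),
      bounded_volume_preimage ht0 Metric.isBounded_ball.measure_lt_top, ?_⟩
    rw [per_scale hd1 ht0, hPof, ← ENNReal.ofReal_mul (by positivity)]
    exact ENNReal.ofReal_le_ofReal htp
  refine lt_of_le_of_lt (hm.2 _ hadm) ?_
  rw [lam_scale h ht0]
  exact ENNReal.mul_lt_top ENNReal.ofReal_lt_top (lam_ball_finite hd1 hh hR)

theorem bounded_bernoulli {x s : ℝ} (hx : 0 < x) (hs : 0 ≤ s) : 1 - s * (x - 1) ≤ x ^ (-s) := by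
  rw [Real.rpow_def_of_pos hx]
  have h1 := Real.add_one_le_exp (Real.log x * -s)
  have h2 := Real.log_le_sub_one_of_pos hx
  nlinarith

theorem bounded_pen {d h : ℕ} (hd : 2 ≤ d) (hh : 1 ≤ h) {p : ℝ} (hp : 0 < p)
    {Ω : Set (E d)} (hm : IsMinimizer h p Ω) (hfin : lam h Ω < ⊤) {κ : ℝ}
    (hκ : κ = 2 * (lam h Ω).toReal / (((d : ℝ) - 1) * p)) (hκ0 : 0 < κ) {Ω' : Set (E d)}
    (ho : IsOpen Ω') (hv : volume Ω' < ⊤) :
    lam h Ω + ENNReal.ofReal κ * per Ω ≤ lam h Ω' + ENNReal.ofReal κ * per Ω' := by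
  have hd1 : 1 ≤ d := by omega
  rcases eq_top_or_lt_top (lam h Ω') with h1 | h1
  · rw [h1, top_add]; exact le_top
  rcases eq_top_or_lt_top (per Ω') with h2 | h2
  · have : ENNReal.ofReal κ * ⊤ = ⊤ := ENNReal.mul_top (by simpa using hκ0)
    rw [h2, this, add_top]; exact le_top
  have hvpos : 0 < volume Ω' := volume_pos_of_finite hh (H20_le_X Ω') h1
  have hperpos : 0 < per Ω' := by
    obtain ⟨c, hc, hiso⟩ := isoperimetric d hd
    refine lt_of_lt_of_le ?_ (hiso Ω' ho.measurableSet hv)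
    rw [ENNReal.ofReal_pos]
    have : 0 < (volume Ω').toReal := ENNReal.toReal_pos hvpos.ne' hv.ne
    positivity
  set q : ℝ := (per Ω').toReal with hq
  have hq0 : 0 < q := ENNReal.toReal_pos hperpos.ne' h2.ne
  have hqof : per Ω' = ENNReal.ofReal q := (ENNReal.ofReal_toReal h2.ne).symm
  obtain ⟨ht0, htp⟩ := bounded_root d hd (div_pos hp hq0)
  set t : ℝ := (p / q) ^ ((1 : ℝ) / ((d - 1 : ℕ) : ℝ)) with ht
  have hadm : Admissible p ((fun x : E d => t⁻¹ • x) ⁻¹' Ω') := by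
    refine ⟨ho.preimage (continuous_const_smul _), bounded_volume_preimage ht0 hv, ?_⟩
    rw [per_scale hd1 ht0, hqof, ← ENNReal.ofReal_mul (by positivity), htp,
      div_mul_cancel₀ _ hq0.ne']
  have h3 := hm.2 _ hadm
  rw [lam_scale h ht0] at h3
  set Λ : ℝ := (lam h Ω).toReal with hΛ
  set Λ' : ℝ := (lam h Ω').toReal with hΛ'
  have e1 : lam h Ω = ENNReal.ofReal Λ := (ENNReal.ofReal_toReal hfin.ne).symm
  have e2 : lam h Ω' = ENNReal.ofReal Λ' := (ENNReal.ofReal_toReal h1.ne).symm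
  have hΛ0 : 0 ≤ Λ := ENNReal.toReal_nonneg
  have hΛ'0 : 0 ≤ Λ' := ENNReal.toReal_nonneg
  rw [e1, e2, ← ENNReal.ofReal_mul (by positivity), ENNReal.ofReal_le_ofReal_iff (by positivity)]
    at h3
  have h4 : t ^ 2 * Λ ≤ Λ' := by
    have h5 := mul_le_mul_of_nonneg_left h3 (sq_nonneg t)
    have h6 : t ^ 2 * (t⁻¹ ^ 2 * Λ') = Λ' := by field_simp
    rwa [h6] at h5
  have hdr : (2 : ℝ) ≤ d := by exact_mod_cast hd
  have hd1r : ((d - 1 : ℕ) : ℝ) = (d : ℝ) - 1 := by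
    rw [Nat.cast_sub hd1]; simp
  have h5 : 1 - 2 / ((d : ℝ) - 1) * (q / p - 1) ≤ t ^ 2 := by
    refine (bounded_bernoulli (div_pos hq0 hp) (by apply div_nonneg <;> linarith)).trans_eq ?_
    rw [Real.rpow_neg (div_pos hq0 hp).le, ← Real.inv_rpow (div_pos hq0 hp).le, inv_div, ht,
      ← Real.rpow_natCast, ← Real.rpow_mul (div_pos hp hq0).le, hd1r]
    congr 1
    push_cast
    ring
  have hPle : per Ω ≤ ENNReal.ofReal p := hm.1.per_le
  have h6 : Λ + κ * p ≤ Λ' + κ * q := by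
    have h7 : (1 - 2 / ((d : ℝ) - 1) * (q / p - 1)) * Λ ≤ Λ' :=
      (mul_le_mul_of_nonneg_right h5 hΛ0).trans h4
    have h8 : (1 - 2 / ((d : ℝ) - 1) * (q / p - 1)) * Λ = Λ + κ * p - κ * q := by
      rw [hκ]
      have : (d : ℝ) - 1 ≠ 0 := by linarith
      field_simp
      ring
    linarith
  calc lam h Ω + ENNReal.ofReal κ * per Ω ≤ lam h Ω + ENNReal.ofReal κ * ENNReal.ofReal p := by
        gcongr
    _ = ENNReal.ofReal (Λ + κ * p) := by
        rw [e1, ← ENNReal.ofReal_mul hκ0.le, ← ENNReal.ofReal_add hΛ0 (by positivity)]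
    _ ≤ ENNReal.ofReal (Λ' + κ * q) := ENNReal.ofReal_le_ofReal h6
    _ = lam h Ω' + ENNReal.ofReal κ * per Ω' := by
        rw [e2, hqof, ← ENNReal.ofReal_mul hκ0.le, ← ENNReal.ofReal_add hΛ'0 (by positivity)]

theorem bounded_of_min {d h : ℕ} (hd : 2 ≤ d) (hh : 1 ≤ h) {p : ℝ} (hp : 0 < p) {Ω : Set (E d)}
    (hm : IsMinimizer h p Ω) : Bornology.IsBounded Ω := by
  have hd1 : 1 ≤ d := by omega
  have hfin := bounded_lam_fin hd hh hp hm
  have hΩo := hm.1.isOpen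
  have hvol := hm.1.finite
  have hpos : 0 < lam h Ω := lamS_pos hd1 hh hΩo.measurableSet hvol (H20_le_X Ω)
  set Λ : ℝ := (lam h Ω).toReal with hΛ
  have hΛ0 : 0 < Λ := ENNReal.toReal_pos hpos.ne' hfin.ne
  have hdr : (2 : ℝ) ≤ d := by exact_mod_cast hd
  set κ : ℝ := 2 * Λ / (((d : ℝ) - 1) * p) with hκ
  have hκ0 : 0 < κ := by
    have : 0 < (d : ℝ) - 1 := by linarith
    positivity
  have hlm : LocMin h κ Ω (H20 Ω) :=
    { meas := hΩo.measurableSet
      fin := hvol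
      perfin := lt_of_le_of_lt hm.1.per_le ENNReal.ofReal_lt_top
      closed := isClosed_H20 Ω
      le := H20_le_X Ω
      stable := fun ψ K₀ K₁ K₂ hψ w hw => mulJ_mem_H20 hψ inter_subset_right hw
      lamfin := hfin
      cut := fun x ρ _ => by
        refine ⟨H20 (Ω \ Metric.closedBall x ρ), ?_, ?_⟩
        · intro ψ K₀ K₁ K₂ hψ hdis w hw
          refine mulJ_mem_H20 hψ ?_ hw
          rintro y ⟨hy1, hy2⟩
          exact ⟨hy2, fun hy3 => hdis.le_bot ⟨hy1, hy3⟩⟩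
        · exact bounded_pen hd hh hp hm hfin hκ hκ0 (hΩo.sdiff Metric.isClosed_closedBall)
            (lt_of_le_of_lt (measure_mono sdiff_subset) hvol) }
  obtain ⟨ε₀, hε₀, hloc⟩ := local_lemma d h hd hh κ Λ hκ0 hΛ0.le
  obtain ⟨u, l, hul⟩ := exists_eig hd1 hh hΩo.measurableSet hvol (isClosed_H20 Ω) (H20_le_X Ω)
    hfin
  have hle : lamS h (H20 Ω) ≤ ENNReal.ofReal Λ := (ENNReal.ofReal_toReal hfin.ne).ge
  obtain ⟨s, -, hs⟩ := cover Ω hΩo.measurableSet hvol u _ ε₀ hε₀ le_rfl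
    (fun x hx => hloc Ω (H20 Ω) hlm hle u l hul x hx)
  have hK : IsClosed (⋃ c ∈ s, Metric.closedBall c 4 : Set (E d)) :=
    isClosed_biUnion_finset fun c _ => Metric.isClosed_closedBall
  have hsub : Ω ⊆ ⋃ c ∈ s, Metric.closedBall c 4 := by
    by_contra hnot
    have hne : (Ω \ ⋃ c ∈ s, Metric.closedBall c 4).Nonempty := by
      rwa [nonempty_iff_ne_empty, Ne, sdiff_eq_empty]
    have h1 := (hΩo.sdiff hK).measure_pos volume hne
    have h2 : volume (Ω \ ⋃ c ∈ s, Metric.closedBall c 4) = 0 := by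
      refine measure_mono_null (sdiff_subset_sdiff_right ?_) hs
      exact iUnion₂_mono fun c _ => Metric.ball_subset_closedBall
    exact h1.ne' h2
  refine Bornology.IsBounded.subset ?_ hsub
  exact (Bornology.isBounded_biUnion_finset s).mpr fun c _ => Metric.isBounded_closedBall

end Pool.Agent.Lib.Buck
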