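import Mathlib
import Pool.Agent.Lib.MP_17201e_an.Defs
import Pool.Agent.Lib.MP_17201e_an.Jet

/-!
# Translation of 2-jets
-/

set_option autoImplicit false

open MeasureTheory Set Filter Topology
open scoped ENNReal ContDiff

namespace Pool.Agent.Lib.Buck

/-- Translation of `L²` functions. -/
noncomputable def shiftLp {d : ℕ} (z : E d) :
    Lp ℝ 2 (volume : Measure (E d)) →ₗᵢ[ℝ] Lp ℝ 2 (volume : Measure (E d)) :=
  Lp.compMeasurePreservingₗᵢ ℝ (fun x => x + z) (measurePreserving_add_right volume z)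

theorem shiftLp_coe {d : ℕ} (z : E d) (g : Lp ℝ 2 (volume : Measure (E d))) :
    shiftLp z g =ᵐ[volume] fun x => g (x + z) :=
  Lp.coeFn_compMeasurePreserving g (measurePreserving_add_right volume z)

/-- Translation of 2-jets, as a linear map. -/
noncomputable def shiftL {d : ℕ} (z : E d) : HS d →ₗ[ℝ] HS d where
  toFun w := WithLp.toLp 2 (fun k => shiftLp z (w k))
  map_add' v w := by
    ext1 k
    exact map_add (shiftLp z) (v k) (w k)
  map_smul' c w := by
    ext1 k
    exact map_smul (shiftLp z) c (w k)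

theorem shiftL_apply {d : ℕ} (z : E d) (w : HS d) (k : Idx d) :
    (shiftL z w) k = shiftLp z (w k) := rfl

theorem shiftL_norm {d : ℕ} (z : E d) (w : HS d) : ‖shiftL z w‖ = ‖w‖ := by
  rw [PiLp.norm_eq_of_L2, PiLp.norm_eq_of_L2]
  simp_rw [shiftL_apply, LinearIsometry.norm_map]

theorem shift_pd {d : ℕ} (φ : E d → ℝ) (z : E d) (i : Fin d) :
    pd i (fun x => φ (x + z)) = fun x => pd i φ (x + z) := by
  funext x
  unfold pd
  rw [fderiv_comp_add_right]

theorem shift_comp {d : ℕ} (φ : E d → ℝ) (z : E d) (k : Idx d) :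
    comp (fun x => φ (x + z)) k = fun x => comp φ k (x + z) := by
  match k with
  | none => rfl
  | some (Sum.inl i) => exact shift_pd φ z i
  | some (Sum.inr (i, j)) =>
    show pd i (pd j (fun x => φ (x + z))) = fun x => pd i (pd j φ) (x + z)
    rw [shift_pd φ z j, shift_pd (pd j φ) z i]

theorem shift_tsupport {d : ℕ} (φ : E d → ℝ) (z : E d) :
    tsupport (fun x => φ (x + z)) = (fun x => x + z) ⁻¹' tsupport φ :=
  tsupport_comp_eq_preimage φ (Homeomorph.addRight z)

theorem shift_test {d : ℕ} {Ω : Set (E d)} {φ : E d → ℝ} (h : Test Ω φ) (z : E d) :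
    Test ((fun x => x + z) ⁻¹' Ω) (fun x => φ (x + z)) where
  smooth := h.smooth.comp (by fun_prop)
  compact := h.compact.comp_homeomorph (Homeomorph.addRight z)
  supp := by
    rw [shift_tsupport]
    exact preimage_mono h.supp

theorem exists_shift {d : ℕ} (z : E d) : ∃ T : HS d →L[ℝ] HS d, (∀ w, ‖T w‖ = ‖w‖) ∧
    (∀ w k, (T w) k =ᵐ[volume] fun x => w k (x + z)) ∧
    (∀ (Ω : Set (E d)) (w : HS d), w ∈ H20 Ω → T w ∈ H20 ((fun x => x + z) ⁻¹' Ω)) := by
  refine ⟨(shiftL z).mkContinuous 1 fun w => by rw [shiftL_norm, one_mul],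
    fun w => shiftL_norm z w, fun w k => shiftLp_coe z (w k), fun Ω w hw => ?_⟩
  rw [mem_H20_iff] at hw ⊢
  intro ε hε
  obtain ⟨φ, v, hφ, hv, h⟩ := hw ε hε
  refine ⟨fun x => φ (x + z), shiftL z v, shift_test hφ z, fun k => ?_, ?_⟩
  · rw [shift_comp, shiftL_apply]
    have h1 : ∀ᵐ x, v k (x + z) = comp φ k (x + z) :=
      (measurePreserving_add_right volume z).quasiMeasurePreserving.ae (hv k)
    filter_upwards [shiftLp_coe z (v k), h1] with x h2 h3
    rw [h2, h3]
  · show ‖shiftL z w - shiftL z v‖ < ε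
    rw [← map_sub, shiftL_norm]
    exact h

end Pool.Agent.Lib.Buck
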