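import Mathlib
import Pool.Agent.Lib.MP_17201e_an.Defs
import Pool.Agent.Lib.MP_17201e_an.Jet
import Pool.Agent.Lib.MP_17201e_an.Mult
import Pool.Agent.Lib.MP_17201e_an.Shift
import Pool.Agent.Lib.MP_17201e_an.Per

/-!
# Moving the part of a set beyond a free slab
-/

set_option autoImplicit false

open MeasureTheory Set Filter Topology
open scoped ENNReal ContDiff

namespace Pool.Agent.Lib.Buck

/-- Comparison of min-max values through a linear map which is injective on `S`. -/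
theorem slab_lamS_le {d h : ℕ} {S S' : Submodule ℝ (HS d)} (T : HS d →ₗ[ℝ] HS d)
    (hT : ∀ w ∈ S, T w ∈ S') (hinj : ∀ w ∈ S, T w = 0 → w = 0)
    (hqa : ∀ w ∈ S, qa (T w) = qa w) (hqb : ∀ w ∈ S, qb (T w) = qb w) :
    lamS h S' ≤ lamS h S := by
  unfold lamS
  refine le_iInf₂ fun V hV => ?_
  have hVinj : ∀ w ∈ V, T w = 0 → w = 0 := fun w hw => hinj w (hV.1 hw)
  have hker : LinearMap.ker (T.domRestrict V) = ⊥ := by
    rw [LinearMap.ker_eq_bot']
    intro m hm
    exact Subtype.ext (hVinj m m.2 hm)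
  have h1 : Module.finrank ℝ (V.map T) = h := by
    rw [← LinearMap.range_domRestrict, LinearMap.finrank_range_of_inj (LinearMap.ker_eq_bot.1 hker)]
    exact hV.2
  have h2 : V.map T ≤ S' := by
    rintro _ ⟨w, hw, rfl⟩
    exact hT w (hV.1 hw)
  refine (iInf₂_le (V.map T) ⟨h2, h1⟩).trans ?_
  refine iSup₂_le ?_
  rintro _ ⟨⟨w, hw, rfl⟩, hne⟩
  have hw0 : w ≠ 0 := by
    rintro rfl
    exact hne (map_zero T)
  rw [hqa w (hV.1 hw), hqb w (hV.1 hw)]
  exact le_iSup₂_of_le w ⟨hw, hw0⟩ le_rfl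

/-! ## Translations -/

theorem slab_lap_shift {d : ℕ} (z : E d) (w : HS d) : lap (shiftL z w) = shiftLp z (lap w) := by
  unfold lap
  rw [map_sum]
  rfl

theorem slab_qa_shift {d : ℕ} (z : E d) (w : HS d) : qa (shiftL z w) = qa w := by
  unfold qa
  rw [slab_lap_shift, LinearIsometry.norm_map]

theorem slab_qb_shift {d : ℕ} (z : E d) (w : HS d) : qb (shiftL z w) = qb w := by
  unfold qb
  simp_rw [shiftL_apply, LinearIsometry.norm_map]

theorem slab_shift_H20 {d : ℕ} (z : E d) {Ω : Set (E d)} {w : HS d} (hw : w ∈ H20 Ω) :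
    shiftL z w ∈ H20 ((fun x => x + z) ⁻¹' Ω) := by
  obtain ⟨T, _, h2, h3⟩ := exists_shift z
  have h4 : T w = shiftL z w := by
    ext1 k
    refine Lp.ext ?_
    exact (h2 w k).trans (shiftLp_coe z (w k)).symm
  rw [← h4]
  exact h3 Ω w hw

theorem slab_vanish_shift {d : ℕ} (z : E d) {A : Set (E d)} {g : Lp ℝ 2 (volume : Measure (E d))}
    (hg : ∀ᵐ x, x ∉ A → g x = 0) : ∀ᵐ x, x ∉ (fun x => x + z) ⁻¹' A → shiftLp z g x = 0 := by
  have h1 : ∀ᵐ x, x + z ∉ A → g (x + z) = 0 :=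
    (measurePreserving_add_right volume z).quasiMeasurePreserving.ae hg
  filter_upwards [h1, shiftLp_coe z g] with x h2 h3 h4
  rw [h3]
  exact h2 h4

theorem slab_shift_X {d : ℕ} (z : E d) {A : Set (E d)} {w : HS d} (hw : w ∈ X A) :
    shiftL z w ∈ X ((fun x => x + z) ⁻¹' A) := by
  have h := slab_shift_H20 z hw.1
  rw [preimage_univ] at h
  exact ⟨h, fun k => slab_vanish_shift z (hw.2 k)⟩

theorem slab_shift_le {d h : ℕ} (A : Set (E d)) (z : E d) :
    lamS h (X ((fun x => x + z) ⁻¹' A)) ≤ lamS h (X A) := by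
  refine slab_lamS_le (shiftL z) (fun w hw => slab_shift_X z hw) (fun w _ h0 => ?_)
    (fun w _ => slab_qa_shift z w) fun w _ => slab_qb_shift z w
  have h1 := shiftL_norm z w
  rw [h0, norm_zero] at h1
  exact norm_eq_zero.1 h1.symm

theorem Fn_shift {d h : ℕ} (A : Set (E d)) (z : E d) : Fn h ((fun x => x + z) ⁻¹' A) = Fn h A := by
  unfold Fn
  rw [per_shift]
  congr 1
  refine le_antisymm (slab_shift_le A z) ?_
  have h1 := slab_shift_le (h := h) ((fun x => x + z) ⁻¹' A) (-z)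
  have h2 : (fun x => x + -z) ⁻¹' ((fun x => x + z) ⁻¹' A) = A := by
    ext x
    simp
  rwa [h2] at h1

/-! ## Pieces with disjoint supports -/

theorem slab_vanish_add {d : ℕ} {P : Set (E d)} {f g : Lp ℝ 2 (volume : Measure (E d))}
    (hf : ∀ᵐ x, x ∉ P → f x = 0) (hg : ∀ᵐ x, x ∉ P → g x = 0) :
    ∀ᵐ x, x ∉ P → (f + g) x = 0 := by
  filter_upwards [hf, hg, Lp.coeFn_add f g] with x h1 h2 h3 hx
  rw [h3, Pi.add_apply, h1 hx, h2 hx, add_zero]

theorem slab_vanish_zero {d : ℕ} {P : Set (E d)} :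
    ∀ᵐ x, x ∉ P → (0 : Lp ℝ 2 (volume : Measure (E d))) x = 0 := by
  filter_upwards [Lp.coeFn_zero ℝ 2 (volume : Measure (E d))] with x h _
  rw [h]
  rfl

theorem slab_vanish_lap {d : ℕ} {P : Set (E d)} {w : HS d}
    (hw : ∀ k, ∀ᵐ x, x ∉ P → w k x = 0) : ∀ᵐ x, x ∉ P → lap w x = 0 := by
  unfold lap
  exact Finset.sum_induction (fun i => w (some (Sum.inr (i, i))))
    (fun g : Lp ℝ 2 (volume : Measure (E d)) => ∀ᵐ x, x ∉ P → g x = 0)
    (fun f g hf hg => slab_vanish_add hf hg) slab_vanish_zero fun i _ => hw _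

theorem slab_orth {d : ℕ} {P Q : Set (E d)} {f g : Lp ℝ 2 (volume : Measure (E d))}
    (hf : ∀ᵐ x, x ∉ P → f x = 0) (hg : ∀ᵐ x, x ∉ Q → g x = 0) (h : Disjoint P Q) :
    ‖f + g‖ ^ 2 = ‖f‖ ^ 2 + ‖g‖ ^ 2 := by
  have h1 : inner ℝ f g = 0 := by
    rw [L2.inner_def]
    refine integral_eq_zero_of_ae ?_
    filter_upwards [hf, hg] with x h2 h3
    by_cases hx : x ∈ P
    · have h4 : x ∉ Q := fun h5 => disjoint_left.1 h hx h5
      simp [h3 h4]
    · simp [h2 hx]
  rw [norm_add_sq_real, h1]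
  ring

theorem slab_key {d : ℕ} {P Q : Set (E d)} {f g : Lp ℝ 2 (volume : Measure (E d))} (z : E d)
    (hf : ∀ᵐ x, x ∉ P → f x = 0) (hg : ∀ᵐ x, x ∉ Q → g x = 0) (h : Disjoint P Q)
    (h' : Disjoint P ((fun x => x + z) ⁻¹' Q)) :
    ‖f + shiftLp z g‖ ^ 2 = ‖f + g‖ ^ 2 := by
  rw [slab_orth hf (slab_vanish_shift z hg) h', slab_orth hf hg h, LinearIsometry.norm_map]

/-! ## The cutoff -/

/-- A smooth function of one real variable, `1` on the left of `a` and `0` on the right of `b`. -/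
noncomputable def slabTheta (a b : ℝ) (s : ℝ) : ℝ := 1 - Real.smoothTransition ((s - a) / (b - a))

theorem slabTheta_contDiff (a b : ℝ) : ContDiff ℝ ∞ (slabTheta a b) := by
  unfold slabTheta
  refine contDiff_const.sub ?_
  exact Real.smoothTransition.contDiff.comp (by fun_prop)

theorem slabTheta_one {a b s : ℝ} (hab : a < b) (hs : s ≤ a) : slabTheta a b s = 1 := by
  unfold slabTheta
  rw [Real.smoothTransition.zero_of_nonpos, sub_zero]
  exact div_nonpos_of_nonpos_of_nonneg (by linarith) (by linarith)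

theorem slabTheta_zero {a b s : ℝ} (hab : a < b) (hs : b ≤ s) : slabTheta a b s = 0 := by
  unfold slabTheta
  rw [Real.smoothTransition.one_of_one_le, sub_self]
  rw [le_div_iff₀ (by linarith)]
  linarith

theorem slabTheta_abs_le (a b s : ℝ) : |slabTheta a b s| ≤ 1 := by
  unfold slabTheta
  have h1 := Real.smoothTransition.nonneg ((s - a) / (b - a))
  have h2 := Real.smoothTransition.le_one ((s - a) / (b - a))
  rw [abs_le]
  constructor <;> linarith

theorem slabTheta_deriv_left {a b s : ℝ} (hab : a < b) (hs : s < a) :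
    deriv (slabTheta a b) s = 0 := by
  have h1 : slabTheta a b =ᶠ[𝓝 s] fun _ => 1 := by
    filter_upwards [Iio_mem_nhds hs] with t ht
    exact slabTheta_one hab (le_of_lt ht)
  rw [h1.deriv_eq, deriv_const]

theorem slabTheta_deriv_right {a b s : ℝ} (hab : a < b) (hs : b < s) :
    deriv (slabTheta a b) s = 0 := by
  have h1 : slabTheta a b =ᶠ[𝓝 s] fun _ => 0 := by
    filter_upwards [Ioi_mem_nhds hs] with t ht
    exact slabTheta_zero hab (le_of_lt ht)
  rw [h1.deriv_eq, deriv_const]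

theorem slabTheta_deriv2_left {a b s : ℝ} (hab : a < b) (hs : s < a) :
    deriv (deriv (slabTheta a b)) s = 0 := by
  have h1 : deriv (slabTheta a b) =ᶠ[𝓝 s] fun _ => 0 := by
    filter_upwards [Iio_mem_nhds hs] with t ht
    exact slabTheta_deriv_left hab ht
  rw [h1.deriv_eq, deriv_const]

theorem slabTheta_deriv_contDiff (a b : ℝ) : ContDiff ℝ ∞ (deriv (slabTheta a b)) :=
  ((contDiff_infty_iff_deriv (𝕜 := ℝ)).1 (slabTheta_contDiff a b)).2

theorem slabTheta_deriv_compact {a b : ℝ} (hab : a < b) :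
    HasCompactSupport (deriv (slabTheta a b)) := by
  refine HasCompactSupport.intro (isCompact_Icc (a := a) (b := b)) fun s hs => ?_
  rw [mem_Icc, not_and_or, not_le, not_le] at hs
  rcases hs with hs | hs
  · exact slabTheta_deriv_left hab hs
  · exact slabTheta_deriv_right hab hs

theorem slab_pd_line {d : ℕ} {θ : ℝ → ℝ} (hθ : Differentiable ℝ θ) (j i : Fin d) (c : ℝ) :
    pd i (fun x : E d => c * θ (x j))
      = fun x => c * (EuclideanSpace.single i (1 : ℝ) : E d) j * deriv θ (x j) := by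
  funext x
  unfold pd
  have h1 : HasFDerivAt (fun x : E d => x j)
      (EuclideanSpace.proj j : E d →L[ℝ] ℝ) x :=
    (EuclideanSpace.proj j : E d →L[ℝ] ℝ).hasFDerivAt
  have h2 : HasFDerivAt (fun x : E d => c * θ (x j))
      (c • (deriv θ (x j) • (EuclideanSpace.proj j : E d →L[ℝ] ℝ))) x :=
    ((hθ (x j)).hasDerivAt.comp_hasFDerivAt x h1).const_mul c
  rw [h2.fderiv]
  have h3 : (EuclideanSpace.proj j : E d →L[ℝ] ℝ) (EuclideanSpace.single i (1 : ℝ))
      = (EuclideanSpace.single i (1 : ℝ) : E d) j := rfl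
  rw [smul_apply, smul_apply, h3, smul_eq_mul, smul_eq_mul]
  ring

theorem slab_single_abs {d : ℕ} (i j : Fin d) :
    |(EuclideanSpace.single i (1 : ℝ) : E d) j| ≤ 1 := by
  rw [PiLp.single_apply]
  split_ifs <;> simp

/-- The cutoff. -/
noncomputable def slabChi {d : ℕ} (j : Fin d) (a b : ℝ) (x : E d) : ℝ := 1 * slabTheta a b (x j)

theorem slabChi_pd {d : ℕ} (j : Fin d) (a b : ℝ) (i : Fin d) : pd i (slabChi (d := d) j a b)
      = fun x => 1 * (EuclideanSpace.single i (1 : ℝ) : E d) j * deriv (slabTheta a b) (x j) :=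
  slab_pd_line ((slabTheta_contDiff a b).differentiable (by simp)) j i 1

theorem slabChi_pd2 {d : ℕ} (j : Fin d) (a b : ℝ) (i k : Fin d) :
    pd i (pd k (slabChi (d := d) j a b))
      = fun x => 1 * (EuclideanSpace.single k (1 : ℝ) : E d) j
        * (EuclideanSpace.single i (1 : ℝ) : E d) j * deriv (deriv (slabTheta a b)) (x j) := by
  rw [slabChi_pd]
  exact slab_pd_line ((slabTheta_deriv_contDiff a b).differentiable (by simp)) j i _

theorem slabChi_BC {d : ℕ} (j : Fin d) {a b : ℝ} (hab : a < b) :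
    ∃ K₁ K₂, BC (slabChi (d := d) j a b) 1 K₁ K₂ := by
  obtain ⟨K₁, h1⟩ := (slabTheta_deriv_contDiff a b).continuous.bounded_above_of_compact_support
    (slabTheta_deriv_compact hab)
  obtain ⟨K₂, h2⟩ := ((slabTheta_deriv_contDiff a b).continuous_deriv
    (by simp)).bounded_above_of_compact_support (slabTheta_deriv_compact hab).deriv
  have h0 : ∀ i j : Fin d, |(EuclideanSpace.single i (1 : ℝ) : E d) j| ≤ 1 := slab_single_abs
  refine ⟨K₁, K₂, ?_, fun x => ?_, fun i x => ?_, fun i k x => ?_⟩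
  · unfold slabChi
    refine contDiff_const.mul ((slabTheta_contDiff a b).comp ?_)
    exact (EuclideanSpace.proj j : E d →L[ℝ] ℝ).contDiff
  · unfold slabChi
    rw [one_mul]
    exact slabTheta_abs_le a b _
  · rw [slabChi_pd]
    simp only [one_mul, abs_mul]
    have h3 : |deriv (slabTheta a b) (x j)| ≤ K₁ := by simpa using h1 (x j)
    have h4 := h0 i j
    calc _ ≤ 1 * |deriv (slabTheta a b) (x j)| := by gcongr
      _ ≤ K₁ := by rw [one_mul]; exact h3
  · rw [slabChi_pd2]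
    simp only [one_mul, abs_mul]
    have h3 : |deriv (deriv (slabTheta a b)) (x j)| ≤ K₂ := by simpa using h2 (x j)
    have h4 := h0 i j
    have h5 := h0 k j
    calc _ ≤ 1 * 1 * |deriv (deriv (slabTheta a b)) (x j)| := by gcongr
      _ ≤ K₂ := by rw [one_mul, one_mul]; exact h3

theorem slabChi_tsupport {d : ℕ} (j : Fin d) {a b : ℝ} (hab : a < b) :
    tsupport (slabChi (d := d) j a b) ⊆ {x | x j ≤ b} := by
  refine closure_minimal ?_ (isClosed_le (by fun_prop) continuous_const)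
  intro x hx
  by_contra h
  refine hx ?_
  unfold slabChi
  have h1 : b < x j := not_le.1 h
  rw [slabTheta_zero hab h1.le, mul_zero]

theorem slabChi_mulComp {d : ℕ} (j : Fin d) {a b : ℝ} (hab : a < b) (w : Idx d → E d → ℝ)
    (k : Idx d) {x : E d} (hx : x j < a) : mulComp (slabChi j a b) w k x = w k x := by
  have h0 : slabChi j a b x = 1 := by
    unfold slabChi
    rw [slabTheta_one hab hx.le, mul_one]
  have h1 : ∀ i, pd i (slabChi j a b) x = 0 := fun i => by
    rw [slabChi_pd]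
    simp only
    rw [slabTheta_deriv_left hab hx, mul_zero]
  have h2 : ∀ i k, pd i (pd k (slabChi j a b)) x = 0 := fun i k => by
    rw [slabChi_pd2]
    simp only
    rw [slabTheta_deriv2_left hab hx, mul_zero]
  match k with
  | none => simp [mulComp, h0]
  | some (Sum.inl i) => simp [mulComp, h0, h1]
  | some (Sum.inr (i, l)) => simp [mulComp, h0, h1, h2]

/-! ## Moving the part beyond the slab -/

theorem slab_per {d : ℕ} {A : Set (E d)} (hA : MeasurableSet A) (j : Fin d) {a b t : ℝ}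
    (hab : a < b) (htb : t < b - a) (hslab : ∀ x ∈ A, x j ≤ a ∨ b ≤ x j) :
    per ((A ∩ {x | x j ≤ a}) ∪
      (fun x => x + EuclideanSpace.single j t) ⁻¹' (A ∩ {x | b ≤ x j})) = per A := by
  have hm1 : MeasurableSet {x : E d | x j ≤ a} :=
    (isClosed_le (by fun_prop) continuous_const).measurableSet
  have hm2 : MeasurableSet {x : E d | b ≤ x j} :=
    (isClosed_le continuous_const (by fun_prop)).measurableSet
  have hA2 : A = (A ∩ {x | x j ≤ a}) ∪ (A ∩ {x | b ≤ x j}) := by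
    ext x
    constructor
    · intro hx
      rcases hslab x hx with h | h
      · exact Or.inl ⟨hx, h⟩
      · exact Or.inr ⟨hx, h⟩
    · rintro (h | h) <;> exact h.1
  have h1 := per_union_slab (hA.inter hm1) (hA.inter hm2) j hab (fun x hx => hx.2)
    fun x hx => hx.2
  rw [← hA2] at h1
  have hadd : Measurable fun x : E d => x + EuclideanSpace.single j t := by fun_prop
  have h2 := per_union_slab (hA.inter hm1) (hadd (hA.inter hm2)) j
    (show a < b - t by linarith) (fun x hx => hx.2) fun x hx => by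
      have h3 : b ≤ (x + EuclideanSpace.single j t) j := hx.2
      simp only [PiLp.add_apply, PiLp.single_apply, if_true] at h3
      linarith
  rw [h2, per_shift, ← h1]

theorem slab_lam {d h : ℕ} {A : Set (E d)} (j : Fin d) {a b t : ℝ}
    (hab : a < b) (htb : t < b - a) (hslab : ∀ x ∈ A, x j ≤ a ∨ b ≤ x j) :
    lamS h (X ((A ∩ {x | x j ≤ a}) ∪
      (fun x => x + EuclideanSpace.single j t) ⁻¹' (A ∩ {x | b ≤ x j}))) ≤ lamS h (X A) := by
  set e : E d := EuclideanSpace.single j t with he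
  set A₁ : Set (E d) := A ∩ {x | x j ≤ a} with hA₁
  set A₂ : Set (E d) := A ∩ {x | b ≤ x j} with hA₂
  set a' : ℝ := (2 * a + b) / 3 with ha'
  set b' : ℝ := (a + 2 * b) / 3 with hb'
  have hab' : a' < b' := by rw [ha', hb']; linarith
  have haa' : a < a' := by rw [ha']; linarith
  have hbb' : b' < b := by rw [hb']; linarith
  obtain ⟨K₁, K₂, hBC⟩ := slabChi_BC (d := d) j hab'
  have hspec := mulJ_spec hBC
  have hw1 : ∀ w ∈ X A, mulJ (slabChi j a' b') w ∈ X A₁ := by
    intro w hw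
    refine mulJ_mem_X hBC ?_ hw
    rintro x ⟨hx1, hx2⟩
    have h1 : x j ≤ b' := slabChi_tsupport j hab' hx1
    refine ⟨hx2, ?_⟩
    rcases hslab x hx2 with h2 | h2
    · exact h2
    · exact absurd (h2.trans h1) (not_le.2 hbb')
  have hmono : ∀ {P Q : Set (E d)} {g : Lp ℝ 2 (volume : Measure (E d))}, P ⊆ Q →
      (∀ᵐ x, x ∉ P → g x = 0) → ∀ᵐ x, x ∉ Q → g x = 0 := by
    intro P Q g hPQ hg
    filter_upwards [hg] with x hx hxQ
    exact hx fun h => hxQ (hPQ h)
  have hw2 : ∀ w ∈ X A, w - mulJ (slabChi j a' b') w ∈ X A₂ := by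
    intro w hw
    refine ⟨Submodule.sub_mem _ hw.1 (hw1 w hw).1, fun k => ?_⟩
    have h1 : (w - mulJ (slabChi j a' b') w) k = w k - (mulJ (slabChi j a' b') w) k := rfl
    rw [h1]
    filter_upwards [Lp.coeFn_sub (w k) ((mulJ (slabChi j a' b') w) k), hw.2 k, (hw1 w hw).2 k,
      hspec w k] with x h2 h3 h4 h5 h6
    rw [h2, Pi.sub_apply]
    by_cases hxA : x ∈ A
    · rcases hslab x hxA with h7 | h7
      · rw [h5, slabChi_mulComp j hab' _ k (lt_of_le_of_lt h7 haa'), sub_self]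
      · exact absurd ⟨hxA, h7⟩ h6
    · rw [h3 hxA, h4 fun h8 => hxA h8.1, sub_zero]
  have hdisj : Disjoint A₁ A₂ := by
    rw [disjoint_left]
    rintro x ⟨_, h1⟩ ⟨_, h2⟩
    have h3 : x j ≤ a := h1
    have h4 : b ≤ x j := h2
    linarith
  have hdisj' : Disjoint A₁ ((fun x => x + e) ⁻¹' A₂) := by
    rw [disjoint_left]
    rintro x ⟨_, h1⟩ ⟨_, h2⟩
    have h3 : x j ≤ a := h1
    have h4 : b ≤ (x + e) j := h2
    rw [he] at h4
    simp only [PiLp.add_apply, PiLp.single_apply, if_true] at h4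
    linarith
  set M : HS d →ₗ[ℝ] HS d := (mulJ (slabChi j a' b')).toLinearMap with hM
  set T : HS d →ₗ[ℝ] HS d := M + (shiftL e).comp (LinearMap.id - M) with hT
  have hM1 : ∀ w ∈ X A, M w ∈ X A₁ := hw1
  have hM2 : ∀ w ∈ X A, w - M w ∈ X A₂ := hw2
  have hTapp : ∀ w, T w = M w + shiftL e (w - M w) := fun w => rfl
  have hTk : ∀ w k, (T w) k = (M w) k + shiftLp e ((w - M w) k) := fun w k => rfl
  have hkey : ∀ w ∈ X A, ∀ k, ‖(T w) k‖ ^ 2 = ‖w k‖ ^ 2 := by
    intro w hw k
    rw [hTk, slab_key e ((hM1 w hw).2 k) ((hM2 w hw).2 k) hdisj hdisj']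
    congr 2
    have h1 : (w - M w) k = w k - (M w) k := rfl
    rw [h1]
    abel
  have hkeylap : ∀ w ∈ X A, ‖lap (T w)‖ ^ 2 = ‖lap w‖ ^ 2 := by
    intro w hw
    have hadd : ∀ v v' : HS d, lap (v + v') = lap v + lap v' := by
      intro v v'
      unfold lap
      rw [← Finset.sum_add_distrib]
      rfl
    have h1 : lap (T w) = lap (M w) + shiftLp e (lap (w - M w)) := by
      rw [hTapp, hadd, slab_lap_shift]
    rw [h1, slab_key e (slab_vanish_lap (hM1 w hw).2) (slab_vanish_lap (hM2 w hw).2) hdisj hdisj',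
      ← hadd, add_sub_cancel]
  refine slab_lamS_le T ?_ ?_ hkeylap ?_
  · intro w hw
    have h1 : M w ∈ X (A₁ ∪ (fun x => x + e) ⁻¹' A₂) :=
      ⟨(hM1 w hw).1, fun k => hmono subset_union_left ((hM1 w hw).2 k)⟩
    have h2 := slab_shift_X e (hM2 w hw)
    have h3 : shiftL e (w - M w) ∈ X (A₁ ∪ (fun x => x + e) ⁻¹' A₂) :=
      ⟨h2.1, fun k => hmono subset_union_right (h2.2 k)⟩
    rw [hTapp]
    exact Submodule.add_mem _ h1 h3
  · intro w hw h0
    ext1 k
    have h1 := hkey w hw k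
    rw [h0] at h1
    have h2 : (0 : HS d) k = 0 := rfl
    rw [h2, norm_zero] at h1
    have h3 : ‖w k‖ = 0 := by nlinarith [norm_nonneg (w k)]
    rw [h2]
    exact norm_eq_zero.1 h3
  · intro w hw
    unfold qb
    exact Finset.sum_congr rfl fun i _ => hkey w hw _

theorem slab_move {d h : ℕ} {A : Set (E d)} (hA : MeasurableSet A) (j : Fin d) {a b t : ℝ}
    (hab : a < b) (ht : 0 ≤ t) (htb : t < b - a) (hslab : ∀ x ∈ A, x j ≤ a ∨ b ≤ x j) :
    Fn h ((A ∩ {x | x j ≤ a}) ∪
      (fun x => x + EuclideanSpace.single j t) ⁻¹' (A ∩ {x | b ≤ x j})) ≤ Fn h A := by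
  unfold Fn
  rw [slab_per hA j hab htb hslab]
  gcongr
  exact slab_lam j hab htb hslab

end Pool.Agent.Lib.Buck
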