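import Pool.Agent.Lib.MP_17201e_an.Defs
import Pool.Agent.Lib.MP_17201e_an.Jet
import Pool.Agent.Lib.MP_17201e_an.Per
import Pool.Agent.Lib.MP_17201e_an.Slab

set_option autoImplicit false

open MeasureTheory Set Filter Topology
open scoped ENNReal ContDiff

namespace Pool.Agent.Lib.Buck

/-- compression in one coordinate -/
theorem compress_coord {d h : ℕ} (j : Fin d) (n : ℕ) : ∀ (S : Finset ℝ), S.card = n →
    ∀ (A : Set (E d)), MeasurableSet A → ∀ (m M : ℝ), m ≤ M → (∀ c ∈ S, c ≤ m) →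
    (∀ x ∈ A, (∃ c ∈ S, c - 4 ≤ x j ∧ x j ≤ c + 4) ∨ (m - 4 ≤ x j ∧ x j ≤ M + 4)) →
    ∃ A' : Set (E d), MeasurableSet A' ∧ Fn h A' ≤ Fn h A ∧
      (∃ l : ℝ, ∀ x ∈ A', l ≤ x j ∧ x j ≤ l + ((M - m + 8) + 9 * n)) ∧
      (∀ x ∈ A', ∃ y ∈ A, ∀ k, k ≠ j → x k = y k) := by
  induction n with
  | zero =>
    intro S hS A hA m M hmM hc hcov
    refine ⟨A, hA, le_rfl, ⟨m - 4, fun x hx => ?_⟩, fun x hx => ⟨x, hx, fun k _ => rfl⟩⟩
    rcases hcov x hx with ⟨c, hc', -⟩ | h1
    · rw [Finset.card_eq_zero.mp hS] at hc'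
      exact absurd hc' (Finset.notMem_empty _)
    · refine ⟨h1.1, h1.2.trans (le_of_eq ?_)⟩
      push_cast; ring
  | succ n ih =>
    intro S hS A hA m M hmM hc hcov
    have hne : S.Nonempty := by
      rw [← Finset.card_pos, hS]; omega
    set c₁ := S.max' hne with hc₁
    have hc₁S : c₁ ∈ S := S.max'_mem hne
    have hc₁m : c₁ ≤ m := hc c₁ hc₁S
    have hS' : (S.erase c₁).card = n := by
      rw [Finset.card_erase_of_mem hc₁S, hS]; rfl
    have hS'c : ∀ c ∈ S.erase c₁, c ≤ c₁ := fun c hc => S.le_max' c (Finset.mem_of_mem_erase hc)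
    have hSc : ∀ c ∈ S, c ≤ c₁ := fun c hc => S.le_max' c hc
    rcases le_or_gt m (c₁ + 9) with hm | hm
    · obtain ⟨A', hA', hF, ⟨l, hl⟩, hother⟩ := ih (S.erase c₁) hS' A hA c₁ M (hc₁m.trans hmM) hS'c
        (by
          intro x hx
          rcases hcov x hx with ⟨c, hc', h1⟩ | h1
          · by_cases hcc : c = c₁
            · right; subst hcc; exact ⟨h1.1, by linarith [h1.2]⟩
            · left; exact ⟨c, Finset.mem_erase.mpr ⟨hcc, hc'⟩, h1⟩
          · right; exact ⟨by linarith [h1.1], h1.2⟩)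
      refine ⟨A', hA', hF, ⟨l, fun x hx => ⟨(hl x hx).1, (hl x hx).2.trans ?_⟩⟩, hother⟩
      push_cast; linarith
    · set t := m - c₁ - 9 with ht
      have hslab : ∀ x ∈ A, x j ≤ c₁ + 4 ∨ m - 4 ≤ x j := by
        intro x hx
        rcases hcov x hx with ⟨c, hc', h1⟩ | h1
        · left; linarith [hSc c hc', h1.2]
        · right; exact h1.1
      have hmove := slab_move (h := h) hA j (a := c₁ + 4) (b := m - 4) (t := t) (by linarith)
        (by linarith) (by linarith) hslab
      set A₁ := (A ∩ {x | x j ≤ c₁ + 4}) ∪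
        (fun x => x + EuclideanSpace.single j t) ⁻¹' (A ∩ {x | m - 4 ≤ x j}) with hA₁
      have hmj : Measurable fun x : E d => x j := by fun_prop
      have hA₁m : MeasurableSet A₁ :=
        (hA.inter (measurableSet_le hmj measurable_const)).union
          ((measurable_add_const _) (hA.inter (measurableSet_le measurable_const hmj)))
      have hcoord : ∀ x : E d, (x + EuclideanSpace.single j t) j = x j + t := by
        intro x; simp
      have hcoord' : ∀ (x : E d) k, k ≠ j → (x + EuclideanSpace.single j t) k = x k := by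
        intro x k hk; simp [hk]
      obtain ⟨A', hA', hF, ⟨l, hl⟩, hother⟩ := ih (S.erase c₁) hS' A₁ hA₁m c₁ (M - t)
        (by linarith) hS'c
        (by
          rintro x (⟨hx, hx1⟩ | ⟨hx, hx1⟩)
          · have hx1' : x j ≤ c₁ + 4 := hx1
            rcases hcov x hx with ⟨c, hc', h1⟩ | h1
            · by_cases hcc : c = c₁
              · right; subst hcc; exact ⟨h1.1, by linarith [h1.2]⟩
              · left; exact ⟨c, Finset.mem_erase.mpr ⟨hcc, hc'⟩, h1⟩
            · exfalso; linarith [h1.1]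
          · have hx1' : m - 4 ≤ x j + t := by rw [← hcoord]; exact hx1
            right
            rcases hcov _ hx with ⟨c, hc', h1⟩ | h1
            · rw [hcoord] at h1
              exfalso; linarith [h1.2, hSc c hc']
            · rw [hcoord] at h1
              constructor <;> linarith [h1.1, h1.2])
      refine ⟨A', hA', hF.trans hmove, ⟨l, fun x hx => ⟨(hl x hx).1, (hl x hx).2.trans ?_⟩⟩, ?_⟩
      · push_cast; linarith
      · intro x hx
        obtain ⟨y, hy, hxy⟩ := hother x hx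
        rcases hy with ⟨hy, -⟩ | ⟨hy, -⟩
        · exact ⟨y, hy, hxy⟩
        · refine ⟨_, hy, fun k hk => ?_⟩
          rw [hxy k hk]; exact (hcoord' y k hk).symm

/-- compression in all coordinates of a finite set -/
theorem compress_all {d h : ℕ} (N : ℕ) (A : Set (E d)) (hA : MeasurableSet A)
    (s : Finset (E d)) (hs : s.card ≤ N) (hne : s.Nonempty)
    (hcov : ∀ x ∈ A, ∃ c ∈ s, x ∈ Metric.ball c 4) (J : Finset (Fin d)) :
    ∃ A' : Set (E d), MeasurableSet A' ∧ Fn h A' ≤ Fn h A ∧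
      (∀ k ∈ J, ∃ l : ℝ, ∀ x ∈ A', l ≤ x k ∧ x k ≤ l + 9 * N) ∧
      (∀ k ∉ J, ∀ x ∈ A', ∃ c ∈ s, c k - 4 ≤ x k ∧ x k ≤ c k + 4) := by
  induction J using Finset.induction_on with
  | empty =>
    refine ⟨A, hA, le_rfl, by simp, fun k _ x hx => ?_⟩
    obtain ⟨c, hc, hxc⟩ := hcov x hx
    refine ⟨c, hc, ?_⟩
    have h1 : |x k - c k| ≤ ‖x - c‖ := by
      have := PiLp.norm_apply_le (x - c) k
      simpa using this
    have h2 : ‖x - c‖ < 4 := by rwa [Metric.mem_ball, dist_eq_norm] at hxc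
    have h3 := abs_le.mp (h1.trans h2.le)
    constructor <;> linarith [h3.1, h3.2]
  | insert j J hj ih =>
    obtain ⟨A₁, hA₁, hF₁, hJ, hJc⟩ := ih
    set S₀ : Finset ℝ := s.image (fun c => c j) with hS₀
    have hne₀ : S₀.Nonempty := hne.image _
    set m := S₀.max' hne₀ with hm
    have hmS : m ∈ S₀ := S₀.max'_mem hne₀
    have hcard : (S₀.erase m).card + 1 ≤ N := by
      rw [Finset.card_erase_add_one hmS]
      exact Finset.card_image_le.trans hs
    obtain ⟨A', hA', hF, ⟨l, hl⟩, hother⟩ := compress_coord (h := h) j (S₀.erase m).card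
      (S₀.erase m) rfl A₁ hA₁ m m le_rfl (fun c hc => S₀.le_max' c (Finset.mem_of_mem_erase hc))
      (by
        intro x hx
        obtain ⟨c, hc, h1⟩ := hJc j hj x hx
        by_cases hcm : c j = m
        · right; rw [← hcm]; exact h1
        · left; exact ⟨c j, Finset.mem_erase.mpr ⟨hcm, Finset.mem_image_of_mem _ hc⟩, h1⟩)
    refine ⟨A', hA', hF.trans hF₁, ?_, ?_⟩
    · intro k hk
      rcases Finset.mem_insert.mp hk with rfl | hk
      · refine ⟨l, fun x hx => ⟨(hl x hx).1, (hl x hx).2.trans ?_⟩⟩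
        have h1 : (((S₀.erase m).card : ℝ)) + 1 ≤ N := by exact_mod_cast hcard
        linarith
      · obtain ⟨l', hl'⟩ := hJ k hk
        refine ⟨l', fun x hx => ?_⟩
        obtain ⟨y, hy, hxy⟩ := hother x hx
        rw [hxy k (fun h => hj (h ▸ hk))]
        exact hl' y hy
    · intro k hk x hx
      have hkj : k ≠ j := fun h => hk (h ▸ Finset.mem_insert_self _ _)
      have hkJ : k ∉ J := fun h => hk (Finset.mem_insert_of_mem h)
      obtain ⟨y, hy, hxy⟩ := hother x hx
      rw [hxy k hkj]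
      exact hJc k hkJ y hy

theorem compress {d h : ℕ} (hd : 1 ≤ d) (N : ℕ) (A : Set (E d)) (hA : MeasurableSet A)
    (s : Finset (E d)) (hs : s.card ≤ N) (hcov : volume (A \ ⋃ c ∈ s, Metric.ball c 4) = 0) :
    ∃ A' : Set (E d), MeasurableSet A' ∧ A' ⊆ Metric.closedBall 0 (9 * N * d) ∧
      Fn h A' ≤ Fn h A := by
  set A₀ := A ∩ ⋃ c ∈ s, Metric.ball c 4 with hA₀
  have hUm : MeasurableSet (⋃ c ∈ s, Metric.ball c 4 : Set (E d)) :=
    s.measurableSet_biUnion fun c _ => Metric.isOpen_ball.measurableSet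
  have hA₀m : MeasurableSet A₀ := hA.inter hUm
  have hF₀ : Fn h A₀ = Fn h A := by
    have h1 : volume (A \ A₀) = 0 := by
      rw [hA₀, sdiff_self_inter]; exact hcov
    have h2 : X A = X A₀ := by
      refine le_antisymm (X_congr h1) (X_congr ?_)
      rw [hA₀, inter_sdiff_assoc, inter_comm]
      simp
    have h3 : A₀ =ᵐ[volume] A := by
      rw [ae_eq_set]
      refine ⟨?_, h1⟩
      have : A₀ \ A = ∅ := sdiff_eq_empty.mpr inter_subset_left
      rw [this, measure_empty]
    unfold Fn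
    rw [h2, per_congr h3]
  rcases s.eq_empty_or_nonempty with hse | hne
  · refine ⟨A₀, hA₀m, ?_, hF₀.le⟩
    intro x hx
    rw [hA₀, hse] at hx
    simp at hx
  · obtain ⟨A₁, hA₁, hF₁, hJ, -⟩ := compress_all (h := h) N A₀ hA₀m s hs hne
      (by
        rintro x ⟨-, hx⟩
        simpa using hx) Finset.univ
    choose l hl using fun k => hJ k (Finset.mem_univ k)
    set z : E d := WithLp.toLp 2 (fun k => l k + 9 * N / 2) with hz
    refine ⟨(fun x => x + z) ⁻¹' A₁, (measurable_add_const z) hA₁, ?_, ?_⟩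
    · intro x hx
      have h1 : ∀ k, |x k| ≤ 9 * N / 2 := by
        intro k
        have h2 := hl k (x + z) hx
        have h3 : (x + z) k = x k + (l k + 9 * N / 2) := by simp [hz]
        rw [h3] at h2
        rw [abs_le]
        constructor <;> linarith [h2.1, h2.2]
      rw [Metric.mem_closedBall, dist_zero_right]
      have h4 : ‖x‖ ^ 2 ≤ (9 * N * d) ^ 2 := by
        rw [EuclideanSpace.norm_sq_eq]
        calc ∑ k, ‖x k‖ ^ 2 ≤ ∑ _k : Fin d, (9 * (N : ℝ) / 2) ^ 2 := by
              refine Finset.sum_le_sum fun k _ => ?_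
              exact pow_le_pow_left₀ (norm_nonneg _) (h1 k) 2
          _ = d * (9 * N / 2) ^ 2 := by simp
          _ ≤ (9 * N * d) ^ 2 := by
              have hd' : (1 : ℝ) ≤ d := by exact_mod_cast hd
              have h5 : (0 : ℝ) ≤ (N : ℝ) ^ 2 := sq_nonneg _
              have h6 : (d : ℝ) ≤ d ^ 2 := by nlinarith
              nlinarith [mul_nonneg h5 (show (0:ℝ) ≤ d by linarith), mul_le_mul_of_nonneg_left h6 h5]
      exact le_of_sq_le_sq h4 (by positivity)
    · rw [Fn_shift]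
      exact hF₁.trans hF₀.le

end Pool.Agent.Lib.Buck
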