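import Pool.Agent.Lib.MP_17201e_an.Defs
import Pool.Agent.Lib.MP_17201e_an.Jet
import Pool.Agent.Lib.MP_17201e_an.Mult
import Pool.Agent.Lib.MP_17201e_an.Cutoff
import Pool.Agent.Lib.MP_17201e_an.CutPer
import Pool.Agent.Lib.MP_17201e_an.Riesz
import Pool.Agent.Lib.MP_17201e_an.Eig

set_option autoImplicit false

open MeasureTheory Set Filter Topology
open scoped ENNReal ContDiff

namespace Pool.Agent.Lib.Buck

/-- pointwise difference of `ψ w` and `w` -/
theorem trunc_diff_le {d : ℕ} {ψ : E d → ℝ} {C : ℝ} (hC : 0 ≤ C) (h : BC ψ 1 C C)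
    (w : Idx d → E d → ℝ) (k : Idx d) (x : E d) :
    |mulComp ψ w k x - w k x| ≤ (2 + 3 * C) * ∑ k, |w k x| := by
  have hs : ∀ k, |w k x| ≤ ∑ k, |w k x| := fun k =>
    Finset.single_le_sum (f := fun k => |w k x|) (fun _ _ => abs_nonneg _) (Finset.mem_univ k)
  set s := ∑ k, |w k x| with hsdef
  have hs0 : 0 ≤ s := Finset.sum_nonneg fun _ _ => abs_nonneg _
  have h0 : ∀ k, |ψ x * w k x - w k x| ≤ 2 * s := by
    intro k
    have h1 : ψ x * w k x - w k x = (ψ x - 1) * w k x := by ring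
    rw [h1, abs_mul]
    have h2 : |ψ x - 1| ≤ 2 := by
      have := abs_le.mp (h.b0 x)
      rw [abs_le]; constructor <;> linarith [this.1, this.2]
    exact mul_le_mul h2 (hs k) (abs_nonneg _) (by norm_num)
  have h1 : ∀ i k, |pd i ψ x * w k x| ≤ C * s := by
    intro i k
    rw [abs_mul]
    exact mul_le_mul (h.b1 i x) (hs k) (abs_nonneg _) hC
  have h2 : ∀ i j k, |pd i (pd j ψ) x * w k x| ≤ C * s := by
    intro i j k
    rw [abs_mul]
    exact mul_le_mul (h.b2 i j x) (hs k) (abs_nonneg _) hC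
  have hCs : 0 ≤ C * s := mul_nonneg hC hs0
  rcases k with _ | i | ⟨i, j⟩
  · have := h0 none
    simp only [mulComp]
    linarith
  · simp only [mulComp]
    have e1 := abs_le.mp (h0 (some (Sum.inl i)))
    have e2 := abs_le.mp (h1 i none)
    rw [abs_le]
    constructor <;> linarith [e1.1, e1.2, e2.1, e2.2]
  · simp only [mulComp]
    have e1 := abs_le.mp (h0 (some (Sum.inr (i, j))))
    have e2 := abs_le.mp (h1 i (some (Sum.inl j)))
    have e3 := abs_le.mp (h1 j (some (Sum.inl i)))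
    have e4 := abs_le.mp (h2 i j none)
    rw [abs_le]
    constructor <;> linarith [e1.1, e1.2, e2.1, e2.2, e3.1, e3.2, e4.1, e4.2]

/-- `ψ w = w` at points near which `ψ = 1` -/
theorem trunc_diff_zero {d : ℕ} {ψ : E d → ℝ} {x : E d} (h : ∀ᶠ y in 𝓝 x, ψ y = 1)
    (w : Idx d → E d → ℝ) (k : Idx d) : mulComp ψ w k x = w k x := by
  have h5 : ψ x = 1 := h.self_of_nhds
  have hone : (fun y => 1 - ψ y) =ᶠ[𝓝 x] 0 := by
    filter_upwards [h] with y hy
    simp [hy]
  have h6' : ∀ i, pd i (fun y => 1 - ψ y) =ᶠ[𝓝 x] 0 := fun i => mult_pd_zero hone i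
  have hpd : ∀ i, pd i ψ =ᶠ[𝓝 x] 0 := by
    intro i
    filter_upwards [h6' i] with y hy
    rw [mult_pd_one_sub] at hy
    simpa using hy
  have h6 : ∀ i, pd i ψ x = 0 := fun i => (hpd i).self_of_nhds
  have h7 : ∀ i j, pd i (pd j ψ) x = 0 := fun i j => (mult_pd_zero (hpd j) i).self_of_nhds
  rcases k with _ | i | ⟨i, j⟩
  · simp only [mulComp, h5, one_mul]
  · simp only [mulComp, h5, h6, one_mul, zero_mul, add_zero]
  · simp only [mulComp, h5, h6, h7, one_mul, zero_mul, add_zero]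

/-- cutoffs of large balls converge to the identity -/
theorem trunc_tendsto {d : ℕ} {ψ : ℕ → E d → ℝ} {C : ℝ} (hC : 0 ≤ C) (h : ∀ n, BC (ψ n) 1 C C)
    (hone : ∀ x, ∀ᶠ n in atTop, ∀ᶠ y in 𝓝 x, ψ n y = 1) (w : HS d) :
    Tendsto (fun n => mulJ (ψ n) w) atTop (𝓝 w) := by
  rw [tendsto_iff_norm_sub_tendsto_zero]
  have hk : ∀ k : Idx d, Tendsto (fun n => ‖(mulJ (ψ n) w - w) k‖ ^ 2) atTop (𝓝 0) := by
    intro k
    have hG : MemLp (fun x : E d => (2 + 3 * C) * ∑ k, |w k x|) 2 volume := by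
      have h1 : MemLp (fun x : E d => ∑ k, |w k x|) 2 volume :=
        memLp_finsetSum _ fun k _ => (Lp.memLp (w k)).abs
      exact h1.const_mul _
    have hae : ∀ᵐ x : E d, ∀ n, ((mulJ (ψ n) w - w : HS d) k : E d → ℝ) x =
        mulComp (ψ n) (fun k x => w k x) k x - w k x := by
      rw [ae_all_iff]
      intro n
      have h1 : (mulJ (ψ n) w - w : HS d) k = (mulJ (ψ n) w) k - w k := rfl
      rw [h1]
      filter_upwards [Lp.coeFn_sub ((mulJ (ψ n) w) k) (w k), mulJ_spec (h n) w k] with x h2 h3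
      rw [h2, Pi.sub_apply, h3]
    have hlim : Tendsto (fun n => ∫ x : E d, (((mulJ (ψ n) w - w : HS d) k : E d → ℝ) x) ^ 2) atTop
        (𝓝 (∫ _ : E d, (0 : ℝ))) := by
      refine tendsto_integral_of_dominated_convergence
        (fun x => ((2 + 3 * C) * ∑ k, |w k x|) ^ 2) (fun n => ?_) hG.integrable_sq (fun n => ?_) ?_
      · exact (Lp.memLp _).integrable_sq.aestronglyMeasurable
      · filter_upwards [hae] with x hx
        rw [hx n, Real.norm_eq_abs, abs_pow]
        exact pow_le_pow_left₀ (abs_nonneg _) (trunc_diff_le hC (h n) _ k x) 2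
      · filter_upwards [hae] with x hx
        refine tendsto_const_nhds.congr' ?_
        filter_upwards [hone x] with n hn
        rw [hx n, trunc_diff_zero hn, sub_self]
        ring
    rw [integral_zero] at hlim
    refine hlim.congr fun n => ?_
    rw [riesz_norm_sq]
  have hsum : Tendsto (fun n => ‖mulJ (ψ n) w - w‖ ^ 2) atTop (𝓝 0) := by
    have h1 : Tendsto (fun n => ∑ k, ‖(mulJ (ψ n) w - w) k‖ ^ 2) atTop (𝓝 (∑ _k : Idx d, (0:ℝ))) :=
      tendsto_finsetSum _ fun k _ => hk k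
    rw [Finset.sum_const_zero] at h1
    refine h1.congr fun n => ?_
    rw [PiLp.norm_sq_eq_of_L2]
  have h7 := (Real.continuous_sqrt.tendsto 0).comp hsum
  rw [Real.sqrt_zero] at h7
  refine h7.congr fun n => ?_
  simp only [Function.comp_apply]
  rw [Real.sqrt_sq (norm_nonneg _)]

theorem trunc_norm_sq_sum {F ι : Type*} [NormedAddCommGroup F] [InnerProductSpace ℝ F]
    (s : Finset ι) (c : ι → ℝ) (x : ι → F) :
    ‖∑ i ∈ s, c i • x i‖ ^ 2 = ∑ i ∈ s, ∑ j ∈ s, c i * c j * inner ℝ (x i) (x j) := by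
  rw [← real_inner_self_eq_norm_sq, sum_inner]
  refine Finset.sum_congr rfl fun i _ => ?_
  rw [inner_sum]
  refine Finset.sum_congr rfl fun j _ => ?_
  rw [real_inner_smul_left, real_inner_smul_right]
  ring

theorem trunc_qa_sum {d h : ℕ} (c : Fin h → ℝ) (v : Fin h → HS d) :
    qa (∑ i, c i • v i) = ∑ i, ∑ j, c i * c j * fa (v i) (v j) := by
  unfold qa fa
  rw [← eigLap_apply, map_sum]
  simp only [map_smul]
  rw [trunc_norm_sq_sum]
  simp only [eigLap_apply]

theorem trunc_qb_sum {d h : ℕ} (c : Fin h → ℝ) (v : Fin h → HS d) :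
    qb (∑ i, c i • v i) = ∑ i, ∑ j, c i * c j * fb (v i) (v j) := by
  rw [← eigGrad_norm, map_sum]
  simp only [map_smul]
  rw [trunc_norm_sq_sum]
  simp only [eigGrad_inner]

/-- perturbation of a diagonal quadratic form -/
theorem trunc_quad {h : ℕ} (c b : Fin h → ℝ) (f : Fin h → Fin h → ℝ) (ε : ℝ)
    (hf : ∀ i j, |f i j - (if i = j then b i else 0)| ≤ ε) :
    |(∑ i, ∑ j, c i * c j * f i j) - ∑ i, b i * c i ^ 2| ≤ ε * h * ∑ i, c i ^ 2 := by
  have h1 : ∑ i, b i * c i ^ 2 = ∑ i, ∑ j, c i * c j * (if i = j then b i else 0) := by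
    refine Finset.sum_congr rfl fun i _ => ?_
    rw [Finset.sum_eq_single i]
    · rw [if_pos rfl]; ring
    · intro j _ hji
      rw [if_neg (Ne.symm hji), mul_zero]
    · intro hi
      exact absurd (Finset.mem_univ i) hi
  rw [h1, ← Finset.sum_sub_distrib]
  simp only [← Finset.sum_sub_distrib, ← mul_sub]
  refine (Finset.abs_sum_le_sum_abs _ _).trans ?_
  calc ∑ i, |∑ j, c i * c j * (f i j - if i = j then b i else 0)|
      ≤ ∑ i, ∑ j, ((c i ^ 2 + c j ^ 2) / 2) * ε := by
        refine Finset.sum_le_sum fun i _ => (Finset.abs_sum_le_sum_abs _ _).trans ?_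
        refine Finset.sum_le_sum fun j _ => ?_
        rw [abs_mul]
        refine mul_le_mul ?_ (hf i j) (abs_nonneg _) (by positivity)
        rw [abs_le]
        constructor <;> nlinarith [sq_nonneg (c i + c j), sq_nonneg (c i - c j)]
    _ = ε * h * ∑ i, c i ^ 2 := by
        simp only [← Finset.sum_mul, add_div, Finset.sum_add_distrib, Finset.sum_const,
          Finset.card_univ, Fintype.card_fin, nsmul_eq_mul, ← Finset.mul_sum, ← Finset.sum_div]
        ring

/-- Conclusion from a system that is almost orthonormal for the first order form. -/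
theorem trunc_concl {d h : ℕ} {S : Submodule ℝ (HS d)} {M m : ℝ} (hM : 0 ≤ M) (hm : 0 < m)
    (v : Fin h → HS d) (hv : ∀ i, v i ∈ S)
    (hb : ∀ c : Fin h → ℝ, m * ∑ i, c i ^ 2 ≤ qb (∑ i, c i • v i))
    (ha : ∀ c : Fin h → ℝ, qa (∑ i, c i • v i) ≤ M * ∑ i, c i ^ 2) :
    lamS h S ≤ ENNReal.ofReal (M / m) := by
  have hli : LinearIndependent ℝ v := by
    rw [Fintype.linearIndependent_iff]
    intro c hc i
    have h1 := hb c
    rw [hc] at h1
    have h2 : qb (0 : HS d) = 0 := by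
      unfold qb
      refine Finset.sum_eq_zero fun j _ => ?_
      have : (0 : HS d) (some (Sum.inl j)) = 0 := rfl
      rw [this, norm_zero]
      ring
    rw [h2] at h1
    have h4 : ∑ i, c i ^ 2 ≤ 0 := by
      by_contra h5
      rw [not_le] at h5
      have := mul_pos hm h5
      linarith
    have h5 : ∑ i, c i ^ 2 = 0 := le_antisymm h4 (Finset.sum_nonneg fun i _ => sq_nonneg _)
    have h3 := (Finset.sum_eq_zero_iff_of_nonneg (fun i _ => sq_nonneg (c i))).mp h5 i
      (Finset.mem_univ i)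
    exact pow_eq_zero_iff (two_ne_zero) |>.mp h3
  have hfr : Module.finrank ℝ (Submodule.span ℝ (Set.range v)) = h := by
    rw [finrank_span_eq_card hli, Fintype.card_fin]
  have hle : Submodule.span ℝ (Set.range v) ≤ S := by
    rw [Submodule.span_le]
    rintro _ ⟨i, rfl⟩
    exact hv i
  unfold lamS
  refine (iInf₂_le (Submodule.span ℝ (Set.range v)) ⟨hle, hfr⟩).trans ?_
  refine iSup₂_le fun w hw => ?_
  obtain ⟨hw, -⟩ := hw
  obtain ⟨c, rfl⟩ := (Submodule.mem_span_range_iff_exists_fun ℝ).mp hw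
  refine ENNReal.div_le_of_le_mul ?_
  rw [← ENNReal.ofReal_mul (by positivity)]
  refine ENNReal.ofReal_le_ofReal ((ha c).trans ?_)
  have h1 := mul_le_mul_of_nonneg_left (hb c) (show 0 ≤ M / m by positivity)
  refine le_trans (le_of_eq ?_) h1
  field_simp

/-- upper semicontinuity of the eigenvalue along converging bases -/
theorem trunc_perturb {d h : ℕ} {L : ℝ} (hL : 0 ≤ L) (u : Fin h → HS d) (l : Fin h → ℝ)
    (hb : ∀ i j, fb (u i) (u j) = if i = j then 1 else 0)
    (ha : ∀ i j, fa (u i) (u j) = if i = j then l i else 0) (hl : ∀ i, l i ≤ L)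
    (v : ℕ → Fin h → HS d) (hv : ∀ i, Tendsto (fun n => v n i) atTop (𝓝 (u i)))
    (η : ℝ) (hη : 0 < η) :
    ∀ᶠ n in atTop, ∀ S : Submodule ℝ (HS d), (∀ i, v n i ∈ S) →
      lamS h S ≤ ENNReal.ofReal (L + η) := by
  set ε : ℝ := η / ((h + 1) * (2 * (L + 1 + η))) with hε
  have hεpos : 0 < ε := by positivity
  have hεh : ε * h ≤ η / (2 * (L + 1 + η)) := by
    rw [hε, div_mul_eq_mul_div, div_le_div_iff₀ (by positivity) (by positivity)]
    have h1 : (h : ℝ) ≤ h + 1 := by linarith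
    have h2 : 0 ≤ η * (2 * (L + 1 + η)) := by positivity
    nlinarith [mul_le_mul_of_nonneg_left h1 h2]
  have hfbt : ∀ i j, ∀ᶠ n in atTop, |fb (v n i) (v n j) - (if i = j then 1 else 0)| ≤ ε := by
    intro i j
    have h1 : Tendsto (fun n => fb (v n i) (v n j)) atTop (𝓝 (fb (u i) (u j))) := by
      simp only [← eigGrad_inner]
      exact (((eigGrad d).continuous.tendsto _).comp (hv i)).inner
        (((eigGrad d).continuous.tendsto _).comp (hv j))
    rw [hb] at h1
    have h2 := h1.eventually (Metric.closedBall_mem_nhds _ hεpos)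
    filter_upwards [h2] with n hn
    rwa [Real.dist_eq] at hn
  have hfat : ∀ i j, ∀ᶠ n in atTop, |fa (v n i) (v n j) - (if i = j then l i else 0)| ≤ ε := by
    intro i j
    have h1 : Tendsto (fun n => fa (v n i) (v n j)) atTop (𝓝 (fa (u i) (u j))) := by
      unfold fa
      simp only [← eigLap_apply]
      exact (((eigLap d).continuous.tendsto _).comp (hv i)).inner
        (((eigLap d).continuous.tendsto _).comp (hv j))
    rw [ha] at h1
    have h2 := h1.eventually (Metric.closedBall_mem_nhds _ hεpos)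
    filter_upwards [h2] with n hn
    rwa [Real.dist_eq] at hn
  have hall : ∀ᶠ n in atTop, ∀ i j, |fb (v n i) (v n j) - (if i = j then 1 else 0)| ≤ ε ∧
      |fa (v n i) (v n j) - (if i = j then l i else 0)| ≤ ε := by
    rw [eventually_all]
    intro i
    rw [eventually_all]
    intro j
    exact (hfbt i j).and (hfat i j)
  filter_upwards [hall] with n hn S hS
  have hq : ε * h ≤ 1 / 2 := hεh.trans (by
    rw [div_le_div_iff₀ (by positivity) (by positivity)]; nlinarith)
  have hbn : ∀ c : Fin h → ℝ, (1 - ε * h) * ∑ i, c i ^ 2 ≤ qb (∑ i, c i • v n i) := by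
    intro c
    have h1 := trunc_quad c (fun _ => 1) (fun i j => fb (v n i) (v n j)) ε (fun i j => (hn i j).1)
    rw [← trunc_qb_sum] at h1
    have h2 := (abs_le.mp h1).1
    simp only [one_mul] at h2
    linarith
  have han : ∀ c : Fin h → ℝ, qa (∑ i, c i • v n i) ≤ (L + ε * h) * ∑ i, c i ^ 2 := by
    intro c
    have h1 := trunc_quad c l (fun i j => fa (v n i) (v n j)) ε (fun i j => (hn i j).2)
    rw [← trunc_qa_sum] at h1
    have h2 := (abs_le.mp h1).2
    have h3 : ∑ i, l i * c i ^ 2 ≤ L * ∑ i, c i ^ 2 := by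
      rw [Finset.mul_sum]
      exact Finset.sum_le_sum fun i _ => mul_le_mul_of_nonneg_right (hl i) (sq_nonneg _)
    linarith
  refine (trunc_concl (by positivity) (by linarith) (v n) hS hbn han).trans ?_
  refine ENNReal.ofReal_le_ofReal ?_
  rw [div_le_iff₀ (by linarith)]
  have h3 : ε * h * (L + 1 + η) ≤ η / 2 := by
    calc ε * h * (L + 1 + η) ≤ (η / (2 * (L + 1 + η))) * (L + 1 + η) := by gcongr
      _ = η / 2 := by field_simp
  nlinarith

theorem trunc {d : ℕ} (hd : 1 ≤ d) {h : ℕ} (hh : 1 ≤ h) {B : Set (E d)} (hB : MeasurableSet B)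
    (hfin : volume B < ⊤) (hFn : Fn h B < ⊤) (η : ℝ≥0∞) (hη : 0 < η) :
    ∃ R > 0, Fn h (B ∩ Metric.closedBall 0 R) ≤ Fn h B + η := by
  have hlam : lamS h (X B) < ⊤ := lt_of_le_of_lt le_self_add hFn
  obtain ⟨u, l, hE⟩ := exists_eig hd hh hB hfin (isClosed_X B) le_rfl hlam
  set L := (lamS h (X B)).toReal with hL
  obtain ⟨C, hC, hcut⟩ := exists_cutoff d hd
  choose ψ hψ hψ0 hψ1 hψs using fun n : ℕ => hcut (Metric.closedBall 0 n) 1 one_pos
  have hBC : ∀ n, BC (ψ n) 1 C C := by
    intro n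
    have := hψ n
    simpa using this
  have hone : ∀ x, ∀ᶠ n in atTop, ∀ᶠ y in 𝓝 x, ψ n y = 1 := by
    intro x
    obtain ⟨N, hN⟩ := exists_nat_ge ‖x‖
    filter_upwards [eventually_ge_atTop N] with n hn
    have h1 : x ∈ Metric.thickening (1 / 4) (Metric.closedBall (0 : E d) n) := by
      refine Metric.self_subset_thickening (by norm_num) _ ?_
      rw [mem_closedBall_zero_iff]
      exact hN.trans (by exact_mod_cast hn)
    filter_upwards [Metric.isOpen_thickening.mem_nhds h1] with y hy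
    exact hψ1 n y hy
  set η' : ℝ := (min η 1).toReal with hη'
  have hη'pos : 0 < η' := by
    rw [hη', ENNReal.toReal_pos_iff]
    exact ⟨lt_min hη one_pos, lt_of_le_of_lt (min_le_right _ _) ENNReal.one_lt_top⟩
  have hη'le : ENNReal.ofReal η' ≤ η := by
    rw [hη', ENNReal.ofReal_toReal (lt_of_le_of_lt (min_le_right _ _) ENNReal.one_lt_top).ne]
    exact min_le_left _ _
  have hfaij : ∀ i j, fa (u i) (u j) = if i = j then l i else 0 := by
    intro i j
    rw [hE.eig i _ (hE.mem j), hE.orth]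
    split_ifs <;> ring
  have hev1 := trunc_perturb (h := h) (L := L) ENNReal.toReal_nonneg u l hE.orth hfaij hE.le
    (fun n i => mulJ (ψ n) (u i)) (fun i => trunc_tendsto hC.le hBC hone (u i)) (η' / 2)
    (by positivity)
  -- volumes
  have hvol : Tendsto (fun n : ℕ => (volume (B ∩ Metric.closedBall (0 : E d) n)).toReal) atTop
      (𝓝 (volume B).toReal) := by
    have h1 : Tendsto (fun n : ℕ => volume (B ∩ Metric.closedBall (0 : E d) n)) atTop
        (𝓝 (volume (⋃ n : ℕ, B ∩ Metric.closedBall (0 : E d) n))) := by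
      refine tendsto_measure_iUnion_atTop fun n m hnm => ?_
      exact inter_subset_inter_right _ (Metric.closedBall_subset_closedBall (by exact_mod_cast hnm))
    have h2 : (⋃ n : ℕ, B ∩ Metric.closedBall (0 : E d) n) = B := by
      rw [← inter_iUnion]
      rw [Metric.iUnion_closedBall_nat, inter_univ]
    rw [h2] at h1
    exact (ENNReal.tendsto_toReal hfin.ne).comp h1
  have hc : Tendsto (fun n : ℕ => 4 * ((volume (B ∩ Metric.closedBall (0 : E d) (n + 2 : ℕ))).toReal -
      (volume (B ∩ Metric.closedBall (0 : E d) (n + 1 : ℕ))).toReal + 1 / ((n : ℝ) + 1))) atTop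
      (𝓝 (4 * ((volume B).toReal - (volume B).toReal + 0))) :=
    (((hvol.comp (tendsto_add_atTop_nat 2)).sub (hvol.comp (tendsto_add_atTop_nat 1))).add
      tendsto_one_div_add_atTop_nhds_zero_nat).const_mul 4
  rw [sub_self, add_zero, mul_zero] at hc
  have hev2 := hc.eventually_le_const (show (0:ℝ) < η' / 2 by positivity)
  obtain ⟨n, hn1, hn2⟩ := (hev1.and hev2).exists
  obtain ⟨ρ, ⟨hρ1, hρ2⟩, hρ⟩ := per_cut hd hB (0 : E d) (r := ((n + 1 : ℕ) : ℝ))
    (s := ((n + 2 : ℕ) : ℝ))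
    (c := (volume (B ∩ Metric.closedBall (0 : E d) (n + 2 : ℕ))).toReal -
      (volume (B ∩ Metric.closedBall (0 : E d) (n + 1 : ℕ))).toReal + 1 / ((n : ℝ) + 1))
    (by positivity) (by push_cast; linarith)
    (by
      have h1 : (0 : ℝ) < 1 / ((n : ℝ) + 1) := by positivity
      push_cast
      have h2 : ((n : ℝ) + 2 - (n + 1)) = 1 := by ring
      rw [h2]
      linarith)
  have hρpos : 0 < ρ := lt_of_le_of_lt (by positivity) hρ1
  refine ⟨ρ, hρpos, ?_⟩
  have hlamle : lamS h (X (B ∩ Metric.closedBall 0 ρ)) ≤ ENNReal.ofReal (L + η' / 2) := by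
    refine hn1 _ fun i => ?_
    refine mulJ_mem_X (hBC n) ?_ (hE.mem i)
    rintro x ⟨hx, hxB⟩
    refine ⟨hxB, ?_⟩
    have h1 := hψs n hx
    rw [Metric.mem_thickening_iff] at h1
    obtain ⟨y, hy, hxy⟩ := h1
    rw [mem_closedBall_zero_iff] at hy ⊢
    have h2 : ‖x‖ ≤ ‖x - y‖ + ‖y‖ := by
      have := norm_add_le (x - y) y
      rwa [sub_add_cancel] at this
    rw [dist_eq_norm] at hxy
    push_cast at hρ1
    linarith
  have hLe : ENNReal.ofReal (L + η' / 2) = lamS h (X B) + ENNReal.ofReal (η' / 2) := by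
    rw [ENNReal.ofReal_add ENNReal.toReal_nonneg (by positivity),
      ENNReal.ofReal_toReal hlam.ne]
  have hperle : per (B ∩ Metric.closedBall 0 ρ) ≤ per B + ENNReal.ofReal (η' / 2) :=
    le_self_add.trans (hρ.trans (by gcongr))
  unfold Fn
  calc lamS h (X (B ∩ Metric.closedBall 0 ρ)) + per (B ∩ Metric.closedBall 0 ρ)
      ≤ (lamS h (X B) + ENNReal.ofReal (η' / 2)) + (per B + ENNReal.ofReal (η' / 2)) :=
        add_le_add (hlamle.trans hLe.le) hperle
    _ = lamS h (X B) + per B + ENNReal.ofReal η' := by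
        have h1 : ENNReal.ofReal η' = ENNReal.ofReal (η' / 2) + ENNReal.ofReal (η' / 2) := by
          rw [← ENNReal.ofReal_add (by positivity) (by positivity), add_halves]
        rw [h1]
        ring
    _ ≤ lamS h (X B) + per B + η := by gcongr

end Pool.Agent.Lib.Buck
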