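import Mathlib
import Pool.Agent.Lib.MP_17201e_an.Defs
import Pool.Agent.Lib.MP_17201e_an.Jet
import Pool.Agent.Lib.MP_17201e_an.Mult
import Pool.Agent.Lib.MP_17201e_an.Comp
import Pool.Agent.Lib.MP_17201e_an.BallMin
import Pool.Agent.Lib.MP_17201e_an.Iso
import Pool.Agent.Lib.MP_17201e_an.Eig
import Pool.Agent.Lib.MP_17201e_an.Local
import Pool.Agent.Lib.MP_17201e_an.Cover
import Pool.Agent.Lib.MP_17201e_an.Compress
import Pool.Agent.Lib.MP_17201e_an.Trunc

/-! # MP_17201e_an: a global minimiser of the penalised problem -/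

set_option autoImplicit false

open MeasureTheory Set Filter Topology
open scoped ENNReal ContDiff

namespace Pool.Agent.Lib.Buck

theorem global_locMin {d h : ℕ} {A : Set (E d)} {R : ℝ} (hA : MeasurableSet A)
    (hAR : A ⊆ Metric.ball 0 R) (hfin : Fn h A < ⊤)
    (hmin : ∀ B : Set (E d), MeasurableSet B → B ⊆ Metric.ball 0 R → Fn h A ≤ Fn h B) :
    LocMin h 1 A (X A) where
  meas := hA
  fin := lt_of_le_of_lt (measure_mono hAR) Metric.isBounded_ball.measure_lt_top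
  perfin := lt_of_le_of_lt le_add_self hfin
  closed := isClosed_X A
  le := le_rfl
  stable := fun ψ K₀ K₁ K₂ hψ w hw => mulJ_mem_X hψ inter_subset_right hw
  lamfin := lt_of_le_of_lt le_self_add hfin
  cut := fun x ρ _ => by
    refine ⟨X (A \ Metric.closedBall x ρ), ?_, ?_⟩
    · intro ψ K₀ K₁ K₂ hψ hdis w hw
      refine mulJ_mem_X hψ ?_ hw
      rintro y ⟨hy1, hy2⟩
      exact ⟨hy2, fun hy3 => hdis.le_bot ⟨hy1, hy3⟩⟩
    · rw [ENNReal.ofReal_one, one_mul, one_mul]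
      exact hmin _ (hA.diff measurableSet_closedBall) (diff_subset.trans hAR)

theorem global_volume {d : ℕ} (hd : 2 ≤ d) {c L v : ℝ} (hc : 0 < c) (hv : 0 ≤ v)
    (h : c * v ^ (((d : ℝ) - 1) / d) ≤ L) : v ≤ (L / c) ^ ((d : ℝ) / (d - 1)) := by
  have hd' : (2 : ℝ) ≤ d := by exact_mod_cast hd
  have h1 : v ^ (((d : ℝ) - 1) / d) ≤ L / c := by
    rw [le_div_iff₀ hc]; linarith
  have h0 : 0 ≤ v ^ (((d : ℝ) - 1) / d) := Real.rpow_nonneg hv _
  have h2 : (v ^ (((d : ℝ) - 1) / d)) ^ ((d : ℝ) / (d - 1)) ≤ (L / c) ^ ((d : ℝ) / (d - 1)) :=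
    Real.rpow_le_rpow h0 h1 (by apply div_nonneg <;> linarith)
  rw [← Real.rpow_mul hv] at h2
  have h3 : ((d : ℝ) - 1) / d * (d / (d - 1)) = 1 := by
    have : (d : ℝ) - 1 ≠ 0 := by linarith
    have : (d : ℝ) ≠ 0 := by linarith
    field_simp
  rwa [h3, Real.rpow_one] at h2

theorem exists_global (d h : ℕ) (hd : 2 ≤ d) (hh : 1 ≤ h) : ∃ A : Set (E d), MeasurableSet A ∧
    Bornology.IsBounded A ∧ Fn h A < ⊤ ∧
    ∀ B : Set (E d), MeasurableSet B → volume B < ⊤ → Fn h A ≤ Fn h B := by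
  have hd1 : 1 ≤ d := by omega
  obtain ⟨R₁, hR₁, hF₁⟩ := exists_competitor (d := d) hd1 hh
  set L : ℝ := (Fn h (Metric.closedBall (0 : E d) R₁)).toReal with hL
  have hLof : ENNReal.ofReal L = Fn h (Metric.closedBall (0 : E d) R₁) :=
    ENNReal.ofReal_toReal hF₁.ne
  have hL0 : 0 ≤ L := ENNReal.toReal_nonneg
  obtain ⟨c, hc, hiso⟩ := isoperimetric d hd
  obtain ⟨C, hC, hnorm⟩ := eig_norm d hd1
  obtain ⟨ε₀, hε₀, hloc⟩ := local_lemma d h hd hh 1 L one_pos hL0
  set V : ℝ := (L / c) ^ ((d : ℝ) / (d - 1)) with hV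
  have hV0 : 0 ≤ V := Real.rpow_nonneg (div_nonneg hL0 hc.le) _
  set M : ℝ := V + h * (1 + L + C * V ^ (2 / d : ℝ)) with hM
  set N : ℕ := ⌊M / ε₀⌋₊ with hN
  -- compression of bounded sets
  have key : ∀ B : Set (E d), MeasurableSet B → ∀ R, R₁ < R → B ⊆ Metric.ball 0 R →
      ∃ A' : Set (E d), MeasurableSet A' ∧ A' ⊆ Metric.closedBall 0 (9 * N * d) ∧
        Fn h A' ≤ Fn h B := by
    intro B hB R hR hBR
    obtain ⟨A, hA, hAR, hAmin⟩ := exists_min_ball hd1 hh R
    have h1 : Fn h A ≤ ENNReal.ofReal L := by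
      rw [hLof]
      exact hAmin _ measurableSet_closedBall (Metric.closedBall_subset_ball hR)
    have hAfin : Fn h A < ⊤ := lt_of_le_of_lt h1 ENNReal.ofReal_lt_top
    have hlm := global_locMin hA hAR hAfin hAmin
    have hlamL : lamS h (X A) ≤ ENNReal.ofReal L := le_trans le_self_add h1
    have hperL : per A ≤ ENNReal.ofReal L := le_trans le_add_self h1
    have hv : (volume A).toReal ≤ V := by
      apply global_volume hd hc ENNReal.toReal_nonneg
      have := (hiso A hA hlm.fin).trans hperL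
      exact (ENNReal.ofReal_le_ofReal_iff hL0).mp this
    obtain ⟨u, l, hul⟩ := exists_eig hd1 hh hA hlm.fin (isClosed_X A) le_rfl hlm.lamfin
    have hlam : (lamS h (X A)).toReal ≤ L :=
      ENNReal.toReal_le_of_le_ofReal hL0 hlamL
    have hu : ∀ i, ‖u i‖ ^ 2 ≤ 1 + L + C * V ^ (2 / d : ℝ) := by
      intro i
      refine (hnorm A hA hlm.fin h (X A) le_rfl _ u l hul i).trans ?_
      have h2 : (volume A).toReal ^ (2 / d : ℝ) ≤ V ^ (2 / d : ℝ) :=
        Real.rpow_le_rpow ENNReal.toReal_nonneg hv (by positivity)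
      have := mul_le_mul_of_nonneg_left h2 hC.le
      linarith
    have hmass : (volume A).toReal + ∑ i, ‖u i‖ ^ 2 ≤ M := by
      have : ∑ i, ‖u i‖ ^ 2 ≤ ∑ _i : Fin h, (1 + L + C * V ^ (2 / d : ℝ)) :=
        Finset.sum_le_sum fun i _ => hu i
      rw [Finset.sum_const, Finset.card_univ, Fintype.card_fin, nsmul_eq_mul] at this
      linarith
    obtain ⟨s, hs, hcov⟩ := cover A hA hlm.fin u M ε₀ hε₀ hmass
      (fun x hx => hloc A (X A) hlm hlamL u l hul x hx)
    obtain ⟨A', hA', hA'R, hA'F⟩ := compress hd1 N A hA s (Nat.le_floor hs) hcov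
    exact ⟨A', hA', hA'R, hA'F.trans (hAmin B hB hBR)⟩
  obtain ⟨A, hA, hAR, hAmin⟩ := exists_min_ball hd1 hh (max (9 * N * d : ℝ) R₁ + 1)
  have hF : Fn h A < ⊤ := by
    refine lt_of_le_of_lt (hAmin _ measurableSet_closedBall (Metric.closedBall_subset_ball ?_)) hF₁
    exact lt_of_le_of_lt (le_max_right _ _) (lt_add_one _)
  have hbd : ∀ B : Set (E d), MeasurableSet B → Bornology.IsBounded B → Fn h A ≤ Fn h B := by
    intro B hB hBb
    obtain ⟨R, hR⟩ := hBb.subset_ball (0 : E d)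
    have hR' : B ⊆ Metric.ball 0 (max R (R₁ + 1)) :=
      hR.trans (Metric.ball_subset_ball (le_max_left _ _))
    obtain ⟨A', hA', hA'R, hA'F⟩ := key B hB _
      (lt_of_lt_of_le (lt_add_one _) (le_max_right _ _)) hR'
    refine (hAmin A' hA' (hA'R.trans (Metric.closedBall_subset_ball ?_))).trans hA'F
    exact lt_of_le_of_lt (le_max_left _ _) (lt_add_one _)
  refine ⟨A, hA, Metric.isBounded_ball.subset hAR, hF, fun B hB hBfin => ?_⟩
  rcases eq_top_or_lt_top (Fn h B) with hB' | hB'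
  · rw [hB']; exact le_top
  · refine ENNReal.le_of_forall_pos_le_add fun η hη _ => ?_
    obtain ⟨R, -, hR⟩ := trunc hd1 hh hB hBfin hB' (η : ℝ≥0∞) (by exact_mod_cast hη)
    exact (hbd _ (hB.inter measurableSet_closedBall)
      (Metric.isBounded_closedBall.subset inter_subset_right)).trans hR

end Pool.Agent.Lib.Buck
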