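import Mathlib
import Pool.Agent.Lib.MP_17201e_an.Defs

/-!
# The open representative
-/

set_option autoImplicit false

open MeasureTheory Set Filter Topology
open scoped ENNReal ContDiff

namespace Pool.Agent.Lib.Buck

theorem openRep_density {d : ℕ} {A : Set (E d)} (hA : MeasurableSet A) (γ : ℝ) (hγ : 0 < γ) :
    ∀ᵐ x : E d, x ∈ A → ¬ ∀ r ∈ Ioc (0 : ℝ) 1,
      ENNReal.ofReal (γ * r ^ d) ≤ volume (Metric.closedBall x r \ A) := by
  filter_upwards [Besicovitch.ae_tendsto_measure_inter_div_of_measurableSet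
    (volume : Measure (E d)) hA.compl] with x hx hxA hcon
  have h0 : (Aᶜ).indicator (1 : E d → ℝ≥0∞) x = 0 := by
    rw [indicator_of_notMem]
    exact fun h => h hxA
  rw [h0] at hx
  set V : ℝ≥0∞ := volume (Metric.ball (0 : E d) 1) with hV
  have hVt : V ≠ ⊤ := measure_ball_lt_top.ne
  have hV0 : V ≠ 0 := (Metric.measure_ball_pos volume (0 : E d) one_pos).ne'
  have hc : 0 < ENNReal.ofReal γ / V := ENNReal.div_pos (ENNReal.ofReal_pos.mpr hγ).ne' hVt
  have h1 : ∀ᶠ r in 𝓝[>] (0 : ℝ), volume (Aᶜ ∩ Metric.closedBall x r) /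
      volume (Metric.closedBall x r) < ENNReal.ofReal γ / V := hx.eventually_lt_const hc
  have h2 : ∀ᶠ r in 𝓝[>] (0 : ℝ), r ∈ Ioc (0 : ℝ) 1 :=
    Ioc_mem_nhdsGT one_pos
  obtain ⟨r, hr1, hr2⟩ := (h1.and h2).exists
  have h3 := hcon r hr2
  have hrd : ENNReal.ofReal (r ^ d) ≠ 0 := by
    have : (0 : ℝ) < r ^ d := pow_pos hr2.1 d
    exact (ENNReal.ofReal_pos.mpr this).ne'
  have h4 : volume (Metric.closedBall x r) = ENNReal.ofReal (r ^ d) * V := by
    rw [Measure.addHaar_closedBall volume x hr2.1.le, finrank_euclideanSpace_fin]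
  rw [h4, ENNReal.div_lt_iff (Or.inl (mul_ne_zero hrd hV0))
    (Or.inl (ENNReal.mul_ne_top ENNReal.ofReal_ne_top hVt))] at hr1
  have h5 : ENNReal.ofReal γ / V * (ENNReal.ofReal (r ^ d) * V) = ENNReal.ofReal (γ * r ^ d) := by
    rw [mul_comm (ENNReal.ofReal (r ^ d)) V, ← mul_assoc, ENNReal.div_mul_cancel hV0 hVt,
      ← ENNReal.ofReal_mul hγ.le]
  rw [h5] at hr1
  have h6 : Aᶜ ∩ Metric.closedBall x r = Metric.closedBall x r \ A := by
    rw [inter_comm]; rfl
  rw [h6] at hr1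
  exact absurd h3 (not_le.mpr hr1)

theorem open_rep {d : ℕ} (hd : 1 ≤ d) {A : Set (E d)} (hA : MeasurableSet A) (γ : ℝ) (hγ : 0 < γ)
    (h : ∀ x : E d, (∀ r > 0, 0 < volume (Metric.closedBall x r \ A)) → ∀ r ∈ Ioc (0 : ℝ) 1,
      ENNReal.ofReal (γ * r ^ d) ≤ volume (Metric.closedBall x r \ A)) :
    ∃ Ω : Set (E d), IsOpen Ω ∧ Ω =ᵐ[volume] A ∧ (∀ x ∉ Ω, ∀ r ∈ Ioc (0 : ℝ) 1,
      ENNReal.ofReal (γ * r ^ d) ≤ volume (Metric.closedBall x r \ Ω)) := by
  set Ω : Set (E d) := {x | ∃ r > 0, volume (Metric.closedBall x r \ A) = 0} with hΩ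
  have hout : ∀ x ∉ Ω, ∀ r ∈ Ioc (0 : ℝ) 1,
      ENNReal.ofReal (γ * r ^ d) ≤ volume (Metric.closedBall x r \ A) := by
    intro x hx
    refine h x fun r hr => ?_
    rw [pos_iff_ne_zero]
    exact fun h0 => hx ⟨r, hr, h0⟩
  have hae : Ω =ᵐ[volume] A := by
    rw [ae_eq_set]
    constructor
    · refine measure_null_of_locally_null _ fun x hx => ?_
      obtain ⟨⟨r, hr, hr0⟩, _⟩ := hx
      refine ⟨Metric.closedBall x r ∩ (Ω \ A), ?_, ?_⟩
      · exact inter_mem (mem_nhdsWithin_of_mem_nhds (Metric.closedBall_mem_nhds x hr))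
          self_mem_nhdsWithin
      · refine measure_mono_null ?_ hr0
        rintro y ⟨hy1, _, hy2⟩
        exact ⟨hy1, hy2⟩
    · have h1 : ∀ᵐ x : E d, x ∉ A \ Ω := by
        filter_upwards [openRep_density hA γ hγ] with x hx hmem
        exact hx hmem.1 (hout x hmem.2)
      exact measure_eq_zero_iff_ae_notMem.mpr h1
  refine ⟨Ω, ?_, hae, ?_⟩
  · rw [Metric.isOpen_iff]
    rintro x ⟨r, hr, hr0⟩
    refine ⟨r / 2, by positivity, fun y hy => ⟨r / 2, by positivity, ?_⟩⟩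
    refine measure_mono_null (diff_subset_diff_left ?_) hr0
    refine Metric.closedBall_subset_closedBall' ?_
    have := Metric.mem_ball.mp hy
    linarith
  · intro x hx r hr
    have h1 : (Metric.closedBall x r \ Ω : Set (E d)) =ᵐ[volume] Metric.closedBall x r \ A :=
      (ae_eq_refl _).diff hae
    rw [measure_congr h1]
    exact hout x hx r hr

end Pool.Agent.Lib.Buck
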