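import Pool.Agent.Lib.MP_17201e_an.Defs
import Pool.Agent.Lib.MP_17201e_an.Jet
import Pool.Agent.Lib.MP_17201e_an.Per
import Pool.Agent.Lib.MP_17201e_an.CutPer
import Pool.Agent.Lib.MP_17201e_an.Iso
import Pool.Agent.Lib.MP_17201e_an.Iter

/-!
# MP_17201e_an, module OUTER: outer density estimate
-/


set_option autoImplicit false

open MeasureTheory Set Filter Topology
open scoped ENNReal ContDiff

namespace Pool.Agent.Lib.Buck

/-- The perimeter of a small ball outside of a minimiser. -/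
theorem outer_per_le {d : ℕ} (hd : 1 ≤ d) {h : ℕ} {A : Set (E d)} (hA : MeasurableSet A)
    (hb : Bornology.IsBounded A) (hfin : Fn h A < ⊤)
    (hmin : ∀ B : Set (E d), MeasurableSet B → volume B < ⊤ → Fn h A ≤ Fn h B)
    (x : E d) {r s : ℝ} (hr : 0 ≤ r) (hrs : r < s)
    (hpos : 0 < volume (Metric.closedBall x s \ A)) :
    ∃ ρ ∈ Ioo r s, per (Metric.closedBall x ρ \ A) ≤
      ENNReal.ofReal (8 * (volume (Metric.closedBall x s \ A)).toReal / (s - r)) := by
  have hfinV : ∀ t, volume (Metric.closedBall x t \ A) ≠ ⊤ := fun t =>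
    ((measure_mono sdiff_subset).trans_lt measure_closedBall_lt_top).ne
  have hV : 0 < (volume (Metric.closedBall x s \ A)).toReal := ENNReal.toReal_pos hpos.ne' (hfinV s)
  set V := (volume (Metric.closedBall x s \ A)).toReal with hVdef
  have hsr : 0 < s - r := sub_pos.2 hrs
  have hint : ∀ t, Aᶜ ∩ Metric.closedBall x t = Metric.closedBall x t \ A := fun t => by
    rw [inter_comm]
    rfl
  obtain ⟨ρ, hρ, hper⟩ := per_cut hd hA.compl x (r := r) (s := s) (c := 2 * V / (s - r)) hr hrs (by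
    rw [hint, hint, div_mul_cancel₀ _ hsr.ne']
    have : 0 ≤ (volume (Metric.closedBall x r \ A)).toReal := ENNReal.toReal_nonneg
    linarith)
  refine ⟨ρ, hρ, ?_⟩
  set B := A ∪ Metric.closedBall x ρ with hB
  have hBm : MeasurableSet B := hA.union Metric.isClosed_closedBall.measurableSet
  have hBfin : volume B < ⊤ := (hb.union Metric.isBounded_closedBall).measure_lt_top
  have h1 := hmin B hBm hBfin
  have h2 : lamS h (X B) ≤ lamS h (X A) := lamS_anti h (X_congr (by
    rw [hB, sdiff_eq_empty.2 subset_union_left, measure_empty]))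
  have hlam : lamS h (X A) ≠ ⊤ := (lt_of_le_of_lt (self_le_add_right _ _) hfin).ne
  have hperA : per A ≠ ⊤ := (lt_of_le_of_lt (self_le_add_left _ _) hfin).ne
  have h3 : per A ≤ per B := by
    have h4 : lamS h (X A) + per A ≤ lamS h (X A) + per B := h1.trans (add_le_add_left h2 _)
    exact (ENNReal.add_le_add_iff_left hlam).1 h4
  have h5 : Aᶜ \ Metric.closedBall x ρ = Bᶜ := by
    rw [hB, compl_union]
    rfl
  rw [h5, per_compl hBm, per_compl hA, hint] at hper
  have h6 : per (Metric.closedBall x ρ \ A) + per A ≤ ENNReal.ofReal (4 * (2 * V / (s - r))) + per A := by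
    calc per (Metric.closedBall x ρ \ A) + per A ≤ per (Metric.closedBall x ρ \ A) + per B := by
          gcongr
      _ ≤ per A + ENNReal.ofReal (4 * (2 * V / (s - r))) := hper
      _ = _ := add_comm _ _
  have h7 := (ENNReal.add_le_add_iff_right hperA).1 h6
  have h8 : 4 * (2 * V / (s - r)) = 8 * V / (s - r) := by ring
  rwa [h8] at h7

theorem outer_density (d : ℕ) (hd : 2 ≤ d) : ∃ γ > 0, ∀ (h : ℕ) (A : Set (E d)),
    MeasurableSet A → Bornology.IsBounded A → Fn h A < ⊤ →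
    (∀ B : Set (E d), MeasurableSet B → volume B < ⊤ → Fn h A ≤ Fn h B) →
    ∀ x : E d, (∀ r > 0, 0 < volume (Metric.closedBall x r \ A)) → ∀ r ∈ Ioc (0 : ℝ) 1,
      ENNReal.ofReal (γ * r ^ d) ≤ volume (Metric.closedBall x r \ A) := by
  obtain ⟨c, hc, hiso⟩ := isoperimetric d hd
  have hd1 : (1 : ℝ) < d := by exact_mod_cast hd
  have hd0 : (0 : ℝ) < (d : ℝ) - 1 := by linarith
  set β : ℝ := (d : ℝ) / (d - 1) with hβ
  have hβ0 : 0 < β := by positivity
  have hβα : 1 + 1 / ((d : ℝ) - 1) = β := by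
    rw [hβ]
    field_simp
    ring
  obtain ⟨ε₀, hε₀, hit⟩ := iteration ((16 / c) ^ β) β (1 / ((d : ℝ) - 1)) (by positivity) hβ0.le
    (by positivity)
  refine ⟨ε₀, hε₀, ?_⟩
  intro h A hA hb hfin hmin x hpos r hr
  by_contra hcon
  push Not at hcon
  have hr0 : 0 < r := hr.1
  have hfinV : ∀ t, volume (Metric.closedBall x t \ A) ≠ ⊤ := fun t =>
    ((measure_mono sdiff_subset).trans_lt measure_closedBall_lt_top).ne
  set V : ℝ → ℝ := fun t => (volume (Metric.closedBall x t \ A)).toReal with hV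
  have hVm : ∀ t₁ t₂, t₁ ≤ t₂ → V t₁ ≤ V t₂ := fun t₁ t₂ h12 =>
    ENNReal.toReal_mono (hfinV t₂)
      (measure_mono (sdiff_subset_sdiff_left (Metric.closedBall_subset_closedBall h12)))
  have hVpos : ∀ t, 0 < t → 0 < V t := fun t ht => ENNReal.toReal_pos (hpos t ht).ne' (hfinV t)
  have hVlt : V r < ε₀ * r ^ d := by
    rw [hV]
    exact (ENNReal.lt_ofReal_iff_toReal_lt (hfinV r)).1 hcon
  have hrd : 0 < r ^ d := pow_pos hr0 d
  -- the main estimate
  have hmain : ∀ r₁ r₂, 0 < r₁ → r₁ < r₂ → V r₁ ≤ (8 / c) ^ β * (r₂ - r₁) ^ (-β) * V r₂ ^ β := by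
    intro r₁ r₂ h1 h12
    obtain ⟨ρ, hρ, hper⟩ := outer_per_le (by omega) hA hb hfin hmin x h1.le h12 (hpos r₂ (h1.trans h12))
    have h2 := (hiso (Metric.closedBall x ρ \ A)
      (Metric.isClosed_closedBall.measurableSet.diff hA) (hfinV ρ).lt_top).trans hper
    have hr21 : 0 < r₂ - r₁ := sub_pos.2 h12
    rw [ENNReal.ofReal_le_ofReal_iff (by positivity)] at h2
    have h3 : V ρ ^ (((d : ℝ) - 1) / d) ≤ 8 / c * (r₂ - r₁)⁻¹ * V r₂ := by
      rw [show 8 / c * (r₂ - r₁)⁻¹ * V r₂ = (8 * V r₂ / (r₂ - r₁)) / c by field_simp,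
        le_div_iff₀ hc, mul_comm]
      exact h2
    have h4 : V ρ ≤ (8 / c * (r₂ - r₁)⁻¹ * V r₂) ^ β := by
      have h5 : (V ρ ^ (((d : ℝ) - 1) / d)) ^ β = V ρ := by
        rw [← Real.rpow_mul ENNReal.toReal_nonneg]
        have : ((d : ℝ) - 1) / d * β = 1 := by
          rw [hβ]
          field_simp
        rw [this, Real.rpow_one]
      rw [← h5]
      exact Real.rpow_le_rpow (Real.rpow_nonneg ENNReal.toReal_nonneg _) h3 hβ0.le
    have hV2 : 0 ≤ V r₂ := ENNReal.toReal_nonneg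
    rw [Real.mul_rpow (by positivity) hV2, Real.mul_rpow (by positivity) (by positivity),
      Real.inv_rpow hr21.le, ← Real.rpow_neg hr21.le] at h4
    exact (hVm r₁ ρ hρ.1.le).trans h4
  have ha := hit (fun t => V (t * r / 2) / r ^ d) (fun t => by
      have : 0 ≤ V (t * r / 2) := ENNReal.toReal_nonneg
      positivity)
    (fun t₁ _ t₂ _ h12 => by
      refine div_le_div_of_nonneg_right (hVm _ _ ?_) hrd.le
      gcongr) ?_ ?_
  · have h1 : V (1 * r / 2) = 0 := by
      rcases div_eq_zero_iff.1 ha with h2 | h2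
      · exact h2
      · exact absurd h2 hrd.ne'
    exact (hVpos (1 * r / 2) (by positivity)).ne' h1
  · intro t₁ t₂ h1 h12 h2
    have hm := hmain (t₁ * r / 2) (t₂ * r / 2) (by positivity) (by gcongr)
    have h21 : 0 < t₂ - t₁ := sub_pos.2 h12
    have hV2 : 0 ≤ V (t₂ * r / 2) := ENNReal.toReal_nonneg
    rw [div_le_iff₀ hrd, hβα]
    refine hm.trans (le_of_eq ?_)
    have e1 : (r / 2) ^ (-β) = 2 ^ β * r ^ (-β) := by
      rw [Real.div_rpow hr0.le (by norm_num), Real.rpow_neg (by norm_num : (0 : ℝ) ≤ 2), div_inv_eq_mul,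
        mul_comm]
    have e2 : (16 / c) ^ β = (8 / c) ^ β * 2 ^ β := by
      rw [← Real.mul_rpow (by positivity) (by norm_num)]
      congr 1
      ring
    have e3 : r ^ (-β) * (r ^ d) ^ β = r ^ d := by
      rw [← Real.rpow_natCast r d, ← Real.rpow_mul hr0.le, ← Real.rpow_add hr0]
      congr 1
      rw [hβ]
      field_simp
      ring
    have e4 : ((r : ℝ) ^ d) ^ β ≠ 0 := (Real.rpow_pos_of_pos hrd β).ne'
    rw [show t₂ * r / 2 - t₁ * r / 2 = (t₂ - t₁) * (r / 2) by ring,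
      Real.mul_rpow h21.le (by positivity), Real.div_rpow hV2 hrd.le, e1, e2]
    field_simp
    linear_combination V (t₂ * r / 2) ^ β * e3
  · show V (2 * r / 2) / r ^ d ≤ ε₀
    rw [div_le_iff₀ hrd, show 2 * r / 2 = r by ring]
    exact hVlt.le

end Pool.Agent.Lib.Buck
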