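import Pool.Agent.Lib.MP_17201e_an.Jet
import Pool.Agent.Lib.MP_17201e_an.Trans

/-!
# Module HARDY of `MP_17201e_an`

A Hardy type estimate near the complement of an open set whose complement is thick.
-/

set_option autoImplicit false

open MeasureTheory Set Filter Topology
open scoped ENNReal ContDiff

namespace Pool.Agent.Lib.Buck

theorem hardy_diff_integrable {d : ℕ} (f : Lp ℝ 2 (volume : Measure (E d))) (z : E d) :
    Integrable (fun x => (f (x + z) - f x) ^ 2) := by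
  have h1 : MemLp (fun x => f x) 2 (volume : Measure (E d)) := Lp.memLp f
  have h2 : MemLp (fun x => f (x + z)) 2 (volume : Measure (E d)) :=
    h1.comp_measurePreserving (measurePreserving_add_right volume z)
  exact (h2.sub h1).integrable_sq

theorem hardy_scalar (d : ℕ) (γ : ℝ) (hγ : 0 < γ) {Ω : Set (E d)} (hΩ : IsOpen Ω)
    (hne : Ωᶜ.Nonempty)
    (hdens : ∀ x ∉ Ω, ∀ r ∈ Ioc (0 : ℝ) 1,
      ENNReal.ofReal (γ * r ^ d) ≤ volume (Metric.closedBall x r \ Ω))
    {ε : ℝ} (hε : ε ∈ Ioc (0 : ℝ) 1) (f : Lp ℝ 2 (volume : Measure (E d)))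
    (hf : ∀ᵐ x, x ∉ Ω → f x = 0) (G : ℝ) (hG : 0 ≤ G)
    (hz : ∀ z : E d, ‖z‖ ≤ 2 * ε →
      ∫ x in {x ∈ Ω | Metric.infDist x Ωᶜ < ε}, (f (x + z) - f x) ^ 2 ≤ ‖z‖ ^ 2 * G) :
    ∫ x in {x ∈ Ω | Metric.infDist x Ωᶜ < ε}, (f x) ^ 2 ≤
      ((volume (Metric.ball (0 : E d) 1)).toReal * 2 ^ (d + 2) / γ) * ε ^ 2 * G := by
  obtain ⟨hε0, hε1⟩ := hε
  set A : Set (E d) := {x ∈ Ω | Metric.infDist x Ωᶜ < ε} with hA
  have hAm : MeasurableSet A :=
    (hΩ.inter (isOpen_lt (Metric.continuous_infDist_pt _) continuous_const)).measurableSet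
  set B : Set (E d) := Metric.closedBall (0 : E d) (2 * ε) with hB
  have hBm : MeasurableSet B := Metric.isClosed_closedBall.measurableSet
  have hfm : Measurable (f : E d → ℝ) := (Lp.stronglyMeasurable f).measurable
  set F : E d → E d → ℝ≥0∞ := fun x z => ENNReal.ofReal ((f (x + z) - f x) ^ 2) with hF
  have hFm : Measurable (Function.uncurry F) := by
    have h1 : Measurable fun p : E d × E d => f (p.1 + p.2) :=
      hfm.comp (measurable_fst.add measurable_snd)
    have h2 : Measurable fun p : E d × E d => f p.1 := hfm.comp measurable_fst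
    exact ((h1.sub h2).pow_const 2).ennreal_ofReal
  -- lower bound of the measure of good translations
  have L1 : ∀ x ∈ A, ENNReal.ofReal (γ * ε ^ d) ≤ volume (B ∩ {z | x + z ∉ Ω}) := by
    intro x hx
    obtain ⟨y, hy, hxy⟩ := (Metric.infDist_lt_iff hne).1 hx.2
    have h1 : B ∩ {z | x + z ∉ Ω} = (fun z => x + z) ⁻¹' (Metric.closedBall x (2 * ε) \ Ω) := by
      ext z
      simp [hB]
    rw [h1, measure_preimage_add]
    refine (hdens y hy ε ⟨hε0, hε1⟩).trans (measure_mono ?_)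
    refine sdiff_subset_sdiff_left (Metric.closedBall_subset_closedBall' ?_)
    rw [dist_comm]
    linarith
  have L2 : ∀ x ∈ A, ENNReal.ofReal ((f x) ^ 2) * ENNReal.ofReal (γ * ε ^ d) ≤
      ∫⁻ z in B, F x z := by
    intro x hx
    have hms : MeasurableSet (B ∩ {z | x + z ∉ Ω}) := by
      refine hBm.inter ?_
      exact (measurable_const_add x) hΩ.measurableSet.compl
    have h0 : ∀ᵐ z : E d, x + z ∉ Ω → f (x + z) = 0 :=
      (measurePreserving_add_left (volume : Measure (E d)) x).quasiMeasurePreserving.ae hf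
    calc ENNReal.ofReal ((f x) ^ 2) * ENNReal.ofReal (γ * ε ^ d)
        ≤ ENNReal.ofReal ((f x) ^ 2) * volume (B ∩ {z | x + z ∉ Ω}) := by
          gcongr
          exact L1 x hx
      _ = ∫⁻ z in B ∩ {z | x + z ∉ Ω}, ENNReal.ofReal ((f x) ^ 2) := by
          rw [setLIntegral_const]
      _ = ∫⁻ z in B ∩ {z | x + z ∉ Ω}, F x z := by
          refine setLIntegral_congr_fun_ae hms ?_
          filter_upwards [h0] with z hz1 hz2
          rw [hF]
          simp only
          rw [hz1 hz2.2, zero_sub, neg_sq]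
      _ ≤ ∫⁻ z in B, F x z := lintegral_mono_set inter_subset_left
  have L3 : ∫⁻ x in A, ∫⁻ z in B, F x z ≤ ENNReal.ofReal ((2 * ε) ^ 2 * G) * volume B := by
    rw [lintegral_lintegral_swap hFm.aemeasurable, ← setLIntegral_const]
    refine setLIntegral_mono' hBm fun z hzB => ?_
    have hzn : ‖z‖ ≤ 2 * ε := by simpa [hB] using hzB
    rw [hF]
    simp only
    rw [← ofReal_integral_eq_lintegral_ofReal (hardy_diff_integrable f z).integrableOn
      (Eventually.of_forall fun x => by positivity)]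
    refine ENNReal.ofReal_le_ofReal ((hz z hzn).trans ?_)
    gcongr
  have hfi : Integrable (fun x => (f x) ^ 2) (volume : Measure (E d)) :=
    (Lp.memLp f).integrable_sq
  have L5 : ENNReal.ofReal (∫ x in A, (f x) ^ 2) = ∫⁻ x in A, ENNReal.ofReal ((f x) ^ 2) :=
    ofReal_integral_eq_lintegral_ofReal hfi.integrableOn
      (Eventually.of_forall fun x => by positivity)
  have L6 : ENNReal.ofReal (∫ x in A, (f x) ^ 2) * ENNReal.ofReal (γ * ε ^ d) ≤
      ENNReal.ofReal ((2 * ε) ^ 2 * G) * volume B := by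
    refine le_trans ?_ L3
    rw [L5, ← lintegral_mul_const _ ((hfm.pow_const 2).ennreal_ofReal)]
    exact setLIntegral_mono' hAm L2
  have hball : volume (Metric.ball (0 : E d) 1) ≠ ⊤ := measure_ball_lt_top.ne
  have L7 : volume B = ENNReal.ofReal ((2 * ε) ^ d * (volume (Metric.ball (0 : E d) 1)).toReal) := by
    rw [hB, Measure.addHaar_closedBall _ _ (by positivity), finrank_euclideanSpace_fin,
      ENNReal.ofReal_mul (by positivity), ENNReal.ofReal_toReal hball]
  have hI0 : 0 ≤ ∫ x in A, (f x) ^ 2 := integral_nonneg fun x => by positivity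
  rw [L7, ← ENNReal.ofReal_mul hI0, ← ENNReal.ofReal_mul (by positivity),
    ENNReal.ofReal_le_ofReal_iff (by positivity)] at L6
  have hpos : 0 < γ * ε ^ d := by positivity
  have L8 : ∫ x in A, (f x) ^ 2 ≤ (2 * ε) ^ 2 * G * ((2 * ε) ^ d *
      (volume (Metric.ball (0 : E d) 1)).toReal) / (γ * ε ^ d) := (le_div_iff₀ hpos).2 L6
  refine L8.trans_eq ?_
  rw [mul_pow, mul_pow, pow_add]
  field_simp

theorem hardy_setIntegral {d : ℕ} {Ω : Set (E d)} (r : ℝ)
    (g : Lp ℝ 2 (volume : Measure (E d))) (hg : ∀ᵐ x, x ∉ Ω → g x = 0) :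
    ∫ x in {x | Metric.infDist x Ωᶜ < r}, (g x) ^ 2 =
      ∫ x in {x ∈ Ω | Metric.infDist x Ωᶜ < r}, (g x) ^ 2 := by
  refine setIntegral_eq_of_subset_of_ae_sdiff_eq_zero ?_ (fun x hx => hx.2) ?_
  · exact (isOpen_lt (Metric.continuous_infDist_pt _)
      continuous_const).measurableSet.nullMeasurableSet
  · filter_upwards [hg] with x hx h1
    have : x ∉ Ω := fun h => h1.2 ⟨h, h1.1⟩
    rw [hx this]
    simp

theorem hardy (d : ℕ) (hd : 1 ≤ d) (γ : ℝ) (hγ : 0 < γ) : ∃ C > 0, ∀ Ω : Set (E d), IsOpen Ω →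
    Ωᶜ.Nonempty →
    (∀ x ∉ Ω, ∀ r ∈ Ioc (0 : ℝ) 1,
      ENNReal.ofReal (γ * r ^ d) ≤ volume (Metric.closedBall x r \ Ω)) →
    ∀ ε ∈ Ioc (0 : ℝ) 1, ∀ w ∈ X Ω,
      ∫ x in {x ∈ Ω | Metric.infDist x Ωᶜ < ε}, (w none x) ^ 2
        ≤ C * ε ^ 2 * ∑ i, ∫ x in {x ∈ Ω | Metric.infDist x Ωᶜ < 4 * ε},
            (w (some (Sum.inl i)) x) ^ 2 ∧
      ∀ j, ∫ x in {x ∈ Ω | Metric.infDist x Ωᶜ < ε}, (w (some (Sum.inl j)) x) ^ 2
        ≤ C * ε ^ 2 * ∑ i, ∫ x in {x ∈ Ω | Metric.infDist x Ωᶜ < 4 * ε},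
            (w (some (Sum.inr (i, j))) x) ^ 2 := by
  have hball : 0 < (volume (Metric.ball (0 : E d) 1)).toReal :=
    ENNReal.toReal_pos (Metric.measure_ball_pos _ _ one_pos).ne' measure_ball_lt_top.ne
  refine ⟨(volume (Metric.ball (0 : E d) 1)).toReal * 2 ^ (d + 2) / γ, by positivity, ?_⟩
  intro Ω hΩ hne hdens ε hε w hw
  have hε0 : 0 < ε := hε.1
  have hA : MeasurableSet {x ∈ Ω | Metric.infDist x Ωᶜ < ε} :=
    (hΩ.inter (isOpen_lt (Metric.continuous_infDist_pt _) continuous_const)).measurableSet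
  have hA' : MeasurableSet {x : E d | Metric.infDist x Ωᶜ < 4 * ε} :=
    (isOpen_lt (Metric.continuous_infDist_pt _) continuous_const).measurableSet
  have hseg : ∀ z : E d, ‖z‖ ≤ 2 * ε → ∀ x ∈ {x ∈ Ω | Metric.infDist x Ωᶜ < ε},
      ∀ t ∈ Icc (0 : ℝ) 1, x + t • z ∈ {x : E d | Metric.infDist x Ωᶜ < 4 * ε} := by
    intro z hz x hx t ht
    have h1 : Metric.infDist (x + t • z) Ωᶜ ≤ Metric.infDist x Ωᶜ + dist (x + t • z) x :=
      Metric.infDist_le_infDist_add_dist
    have h2 : dist (x + t • z) x ≤ 2 * ε := by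
      rw [dist_eq_norm, add_sub_cancel_left, norm_smul, Real.norm_eq_abs, abs_of_nonneg ht.1]
      calc t * ‖z‖ ≤ 1 * (2 * ε) := by
            gcongr
            exact ht.2
        _ = 2 * ε := one_mul _
    have h3 : Metric.infDist x Ωᶜ < ε := hx.2
    show Metric.infDist (x + t • z) Ωᶜ < 4 * ε
    linarith
  refine ⟨?_, fun j => ?_⟩
  · refine hardy_scalar d γ hγ hΩ hne hdens hε (w none) (hw.2 none) _
      (Finset.sum_nonneg fun i _ => integral_nonneg fun x => by positivity) fun z hz => ?_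
    refine (trans_u hw.1 z hA hA' (hseg z hz)).trans_eq ?_
    congr 1
    exact Finset.sum_congr rfl fun i _ => hardy_setIntegral _ _ (hw.2 _)
  · refine hardy_scalar d γ hγ hΩ hne hdens hε (w (some (Sum.inl j))) (hw.2 _) _
      (Finset.sum_nonneg fun i _ => integral_nonneg fun x => by positivity) fun z hz => ?_
    refine (trans_g hw.1 z hA hA' (hseg z hz) j).trans_eq ?_
    congr 1
    exact Finset.sum_congr rfl fun i _ => hardy_setIntegral _ _ (hw.2 _)

end Pool.Agent.Lib.Buck
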