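import Mathlib
import Pool.Agent.Lib.MP_17201e_an.Defs
import Pool.Agent.Lib.MP_17201e_an.Jet
import Pool.Agent.Lib.MP_17201e_an.Mult
import Pool.Agent.Lib.MP_17201e_an.Cutoff
import Pool.Agent.Lib.MP_17201e_an.Hardy

/-!
# The outer density condition gives `X Ω = H²₀(Ω)`
-/

set_option autoImplicit false

open MeasureTheory Set Filter Topology
open scoped ENNReal ContDiff

namespace Pool.Agent.Lib.Buck

theorem XH_norm_sq {d : ℕ} (f : Lp ℝ 2 (volume : Measure (E d))) :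
    ‖f‖ ^ 2 = ∫ x, (f x) ^ 2 := by
  rw [← real_inner_self_eq_norm_sq, L2.inner_def]
  refine integral_congr_ae (Filter.Eventually.of_forall fun x => ?_)
  simp only [real_inner_self_eq_norm_sq, Real.norm_eq_abs, sq_abs]

theorem XH_norm_le {d : ℕ} (v : Lp ℝ 2 (volume : Measure (E d))) {A : Set (E d)}
    (hA : MeasurableSet A) (hv : ∀ᵐ x, x ∉ A → v x = 0) {G : E d → ℝ}
    (hG : IntegrableOn G A) (hvG : ∀ᵐ x, x ∈ A → (v x) ^ 2 ≤ G x) :
    ‖v‖ ^ 2 ≤ ∫ x in A, G x := by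
  rw [XH_norm_sq]
  have h1 : ∫ x, (v x) ^ 2 = ∫ x in A, (v x) ^ 2 := by
    symm
    refine setIntegral_eq_integral_of_ae_compl_eq_zero ?_
    filter_upwards [hv] with x hx hxA
    rw [hx hxA]
    ring
  rw [h1]
  refine setIntegral_mono_on_ae (Lp.memLp v).integrable_sq.integrableOn hG hA hvG

theorem XH_mul_sq_le {a c x : ℝ} (h : |a| ≤ c) : (a * x) ^ 2 ≤ c ^ 2 * x ^ 2 := by
  rw [mul_pow]
  refine mul_le_mul_of_nonneg_right ?_ (sq_nonneg x)
  rw [sq_le_sq]
  exact h.trans (le_abs_self c)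

theorem XH_four (a b c e : ℝ) : (a + b + c + e) ^ 2 ≤ 4 * (a ^ 2 + b ^ 2 + c ^ 2 + e ^ 2) := by
  nlinarith [sq_nonneg (a - b), sq_nonneg (a - c), sq_nonneg (a - e), sq_nonneg (b - c),
    sq_nonneg (b - e), sq_nonneg (c - e)]

theorem XH_two (a b : ℝ) : (a + b) ^ 2 ≤ 2 * (a ^ 2 + b ^ 2) := by
  nlinarith [sq_nonneg (a - b)]

theorem XH_pd_one_sub {d : ℕ} (η : E d → ℝ) (i : Fin d) :
    pd i (fun x => 1 - η x) = fun x => - pd i η x := by
  funext x
  unfold pd
  rw [fderiv_const_sub]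
  rfl

theorem XH_pd_neg {d : ℕ} (η : E d → ℝ) (i : Fin d) :
    pd i (fun x => - η x) = fun x => - pd i η x := by
  funext x
  unfold pd
  rw [fderiv_fun_neg]
  rfl

/-- The difference of a jet and its product with `1 - η`. -/
theorem XH_diff {d : ℕ} {η : E d → ℝ} {K₀ K₁ K₂ : ℝ} (h : BC η K₀ K₁ K₂) (w : HS d) (k : Idx d) :
    (w - mulJ (fun x => 1 - η x) w) k =ᵐ[volume] mulComp η (fun k x => w k x) k := by
  have h1 := mulJ_spec h.one_sub w k
  have h2 : (w - mulJ (fun x => 1 - η x) w) k = w k - (mulJ (fun x => 1 - η x) w) k := rfl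
  rw [h2]
  filter_upwards [h1, Lp.coeFn_sub (w k) ((mulJ (fun x => 1 - η x) w) k)] with x hx1 hx2
  rw [hx2, Pi.sub_apply, hx1]
  match k with
  | none =>
    simp only [mulComp]
    ring
  | some (Sum.inl i) =>
    simp only [mulComp, XH_pd_one_sub]
    ring
  | some (Sum.inr (i, j)) =>
    simp only [mulComp, XH_pd_one_sub, XH_pd_neg]
    ring

theorem XH_comp_zero {d : ℕ} {η : E d → ℝ} {x : E d} (hx : x ∉ tsupport η)
    (w : Idx d → E d → ℝ) (k : Idx d) : mulComp η w k x = 0 := by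
  have h0 : η x = 0 := image_eq_zero_of_notMem_tsupport hx
  have h1 : ∀ i, pd i η x = 0 := fun i =>
    image_eq_zero_of_notMem_tsupport fun hx' => hx (jet_pd_tsupport η i hx')
  have h2 : ∀ i j, pd i (pd j η) x = 0 := fun i j =>
    image_eq_zero_of_notMem_tsupport fun hx' =>
      hx (jet_pd_tsupport η j (jet_pd_tsupport _ i hx'))
  match k with
  | none => simp only [mulComp, h0, zero_mul]
  | some (Sum.inl i) => simp only [mulComp, h0, h1, zero_mul, add_zero]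
  | some (Sum.inr (i, j)) => simp only [mulComp, h0, h1, h2, zero_mul, add_zero]

theorem XH_comp_zero' {d : ℕ} {η : E d → ℝ} {x : E d}
    {w : Idx d → E d → ℝ} (hx : ∀ k, w k x = 0) (k : Idx d) : mulComp η w k x = 0 := by
  match k with
  | none => simp only [mulComp, hx, mul_zero]
  | some (Sum.inl i) => simp only [mulComp, hx, mul_zero, add_zero]
  | some (Sum.inr (i, j)) => simp only [mulComp, hx, mul_zero, add_zero]

/-- The region near the complement. -/
theorem XH_meas {d : ℕ} {Ω : Set (E d)} (hΩ : IsOpen Ω) (ε : ℝ) :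
    MeasurableSet {x ∈ Ω | Metric.infDist x Ωᶜ < ε} := by
  refine hΩ.measurableSet.inter ?_
  exact (isOpen_lt (Metric.continuous_infDist_pt _) continuous_const).measurableSet

theorem XH_subset {d : ℕ} (Ω : Set (E d)) {ε ε' : ℝ} (h : ε ≤ ε') :
    {x ∈ Ω | Metric.infDist x Ωᶜ < ε} ⊆ {x ∈ Ω | Metric.infDist x Ωᶜ < ε'} :=
  fun _ hx => ⟨hx.1, lt_of_lt_of_le hx.2 h⟩

theorem XH_int_le_loc {d : ℕ} (A : Set (E d)) (w : HS d) (k : Idx d) :
    ∫ x in A, (w k x) ^ 2 ≤ loc A w := by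
  unfold loc
  exact Finset.single_le_sum (f := fun k => ∫ x in A, (w k x) ^ 2)
    (fun k _ => integral_nonneg fun _ => sq_nonneg _) (Finset.mem_univ k)

theorem XH_sum_inl_le_loc {d : ℕ} (A : Set (E d)) (w : HS d) :
    ∑ i, ∫ x in A, (w (some (Sum.inl i)) x) ^ 2 ≤ loc A w := by
  unfold loc
  rw [Fintype.sum_option, Fintype.sum_sum_type]
  have h1 : 0 ≤ ∫ x in A, (w none x) ^ 2 := integral_nonneg fun _ => sq_nonneg _
  have h2 : 0 ≤ ∑ x : Fin d × Fin d, ∫ (x_1 : E d) in A, (w (some (Sum.inr x)) x_1) ^ 2 :=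
    Finset.sum_nonneg fun _ _ => integral_nonneg fun _ => sq_nonneg _
  linarith

theorem XH_sum_inr_le_loc {d : ℕ} (A : Set (E d)) (w : HS d) :
    ∑ j, ∑ i, ∫ x in A, (w (some (Sum.inr (i, j))) x) ^ 2 ≤ loc A w := by
  unfold loc
  rw [Fintype.sum_option, Fintype.sum_sum_type, Fintype.sum_prod_type, Finset.sum_comm]
  have h1 : 0 ≤ ∫ x in A, (w none x) ^ 2 := integral_nonneg fun _ => sq_nonneg _
  have h2 : 0 ≤ ∑ i : Fin d, ∫ x in A, (w (some (Sum.inl i)) x) ^ 2 :=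
    Finset.sum_nonneg fun _ _ => integral_nonneg fun _ => sq_nonneg _
  linarith

theorem XH_loc_tendsto {d : ℕ} {Ω : Set (E d)} (hΩ : IsOpen Ω) (hne : Ωᶜ.Nonempty) (w : HS d) :
    Tendsto (fun n : ℕ => loc {x ∈ Ω | Metric.infDist x Ωᶜ < 1 / ((n : ℝ) + 1)} w) atTop
      (𝓝 0) := by
  have hempty : ⋂ n : ℕ, {x ∈ Ω | Metric.infDist x Ωᶜ < 1 / ((n : ℝ) + 1)} = ∅ := by
    rw [eq_empty_iff_forall_notMem]
    intro x hx
    rw [mem_iInter] at hx
    have h1 : x ∉ Ωᶜ := fun h => h (hx 0).1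
    have h2 : 0 < Metric.infDist x Ωᶜ :=
      (hΩ.isClosed_compl.notMem_iff_infDist_pos hne).mp h1
    obtain ⟨n, hn⟩ := exists_nat_one_div_lt h2
    exact absurd (hx n).2 (not_lt.mpr hn.le)
  have h1 : ∀ k : Idx d, Tendsto (fun n : ℕ =>
      ∫ x in {x ∈ Ω | Metric.infDist x Ωᶜ < 1 / ((n : ℝ) + 1)}, (w k x) ^ 2) atTop (𝓝 0) := by
    intro k
    have h2 := tendsto_setIntegral_of_antitone (μ := (volume : Measure (E d)))
      (f := fun x => (w k x) ^ 2)
      (s := fun n : ℕ => {x ∈ Ω | Metric.infDist x Ωᶜ < 1 / ((n : ℝ) + 1)})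
      (fun n => XH_meas hΩ _) (fun m n hmn => XH_subset Ω (by
        have : (m : ℝ) ≤ n := by exact_mod_cast hmn
        gcongr))
      ⟨0, (jet_integrable_sq w k).integrableOn⟩
    rw [hempty, setIntegral_empty] at h2
    exact h2
  unfold loc
  have h3 := tendsto_finsetSum (Finset.univ : Finset (Idx d)) fun k _ => h1 k
  simpa using h3

/-- The components of `w - (1 - η) w`. -/
theorem XH_comp_bound {d : ℕ} {Ω : Set (E d)} (hΩ : IsOpen Ω) {w : HS d} (hw : w ∈ X Ω)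
    {η : E d → ℝ} {c₁ c₂ ε : ℝ} (h : BC η 1 c₁ c₂)
    (hs : ∀ x, x ∈ tsupport η → Metric.infDist x Ωᶜ < ε) :
    (‖(w - mulJ (fun x => 1 - η x) w) none‖ ^ 2 ≤
      ∫ x in {x ∈ Ω | Metric.infDist x Ωᶜ < ε}, (w none x) ^ 2) ∧
    (∀ i, ‖(w - mulJ (fun x => 1 - η x) w) (some (Sum.inl i))‖ ^ 2 ≤
      2 * ((∫ x in {x ∈ Ω | Metric.infDist x Ωᶜ < ε}, (w (some (Sum.inl i)) x) ^ 2) +
        c₁ ^ 2 * ∫ x in {x ∈ Ω | Metric.infDist x Ωᶜ < ε}, (w none x) ^ 2)) ∧
    (∀ i j, ‖(w - mulJ (fun x => 1 - η x) w) (some (Sum.inr (i, j)))‖ ^ 2 ≤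
      4 * ((∫ x in {x ∈ Ω | Metric.infDist x Ωᶜ < ε}, (w (some (Sum.inr (i, j))) x) ^ 2) +
        (c₁ ^ 2 * ∫ x in {x ∈ Ω | Metric.infDist x Ωᶜ < ε}, (w (some (Sum.inl j)) x) ^ 2) +
        (c₁ ^ 2 * ∫ x in {x ∈ Ω | Metric.infDist x Ωᶜ < ε}, (w (some (Sum.inl i)) x) ^ 2) +
        c₂ ^ 2 * ∫ x in {x ∈ Ω | Metric.infDist x Ωᶜ < ε}, (w none x) ^ 2)) := by
  set S : Set (E d) := {x ∈ Ω | Metric.infDist x Ωᶜ < ε} with hS
  have hSm : MeasurableSet S := XH_meas hΩ ε
  have hI : ∀ k, IntegrableOn (fun x => (w k x) ^ 2) S :=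
    fun k => (jet_integrable_sq w k).integrableOn
  have hall : ∀ᵐ x, x ∉ Ω → ∀ k, w k x = 0 := by
    have h1 : ∀ᵐ x, ∀ k, x ∉ Ω → w k x = 0 := by
      rw [ae_all_iff]
      exact hw.2
    filter_upwards [h1] with x hx hxΩ k
    exact hx k hxΩ
  have hvan : ∀ k, ∀ᵐ x, x ∉ S → (w - mulJ (fun x => 1 - η x) w) k x = 0 := by
    intro k
    filter_upwards [XH_diff h w k, hall] with x hx1 hx2 hxS
    rw [hx1]
    by_cases hxΩ : x ∈ Ω
    · refine XH_comp_zero (fun hxt => hxS ⟨hxΩ, hs x hxt⟩) _ k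
    · exact XH_comp_zero' (hx2 hxΩ) k
  refine ⟨?_, fun i => ?_, fun i j => ?_⟩
  · refine XH_norm_le _ hSm (hvan none) (hI none) ?_
    filter_upwards [XH_diff h w none] with x hx1 _
    rw [hx1]
    simp only [mulComp]
    have := XH_mul_sq_le (x := w none x) (h.b0 x)
    linarith
  · have hG : IntegrableOn (fun x => 2 * ((w (some (Sum.inl i)) x) ^ 2 +
        c₁ ^ 2 * (w none x) ^ 2)) S :=
      ((hI _).add ((hI _).const_mul _)).const_mul _
    have hval : ∫ x in S, 2 * ((w (some (Sum.inl i)) x) ^ 2 + c₁ ^ 2 * (w none x) ^ 2) =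
        2 * ((∫ x in S, (w (some (Sum.inl i)) x) ^ 2) + c₁ ^ 2 * ∫ x in S, (w none x) ^ 2) := by
      rw [integral_const_mul, integral_add (hI _) ((hI _).const_mul _), integral_const_mul]
    rw [← hval]
    refine XH_norm_le _ hSm (hvan _) hG ?_
    filter_upwards [XH_diff h w (some (Sum.inl i))] with x hx1 _
    rw [hx1]
    simp only [mulComp]
    have h1 := XH_mul_sq_le (x := w (some (Sum.inl i)) x) (h.b0 x)
    have h2 := XH_mul_sq_le (x := w none x) (h.b1 i x)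
    have h3 := XH_two (η x * w (some (Sum.inl i)) x) (pd i η x * w none x)
    linarith
  · have hG : IntegrableOn (fun x => 4 * ((w (some (Sum.inr (i, j))) x) ^ 2 +
        c₁ ^ 2 * (w (some (Sum.inl j)) x) ^ 2 + c₁ ^ 2 * (w (some (Sum.inl i)) x) ^ 2 +
        c₂ ^ 2 * (w none x) ^ 2)) S :=
      ((((hI _).add ((hI _).const_mul _)).add ((hI _).const_mul _)).add
        ((hI _).const_mul _)).const_mul _
    have hval : ∫ x in S, 4 * ((w (some (Sum.inr (i, j))) x) ^ 2 +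
        c₁ ^ 2 * (w (some (Sum.inl j)) x) ^ 2 + c₁ ^ 2 * (w (some (Sum.inl i)) x) ^ 2 +
        c₂ ^ 2 * (w none x) ^ 2) =
        4 * ((∫ x in S, (w (some (Sum.inr (i, j))) x) ^ 2) +
          (c₁ ^ 2 * ∫ x in S, (w (some (Sum.inl j)) x) ^ 2) +
          (c₁ ^ 2 * ∫ x in S, (w (some (Sum.inl i)) x) ^ 2) +
          c₂ ^ 2 * ∫ x in S, (w none x) ^ 2) := by
      rw [integral_const_mul, integral_add, integral_add, integral_add, integral_const_mul,
        integral_const_mul, integral_const_mul]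
      · exact hI _
      · exact (hI _).const_mul _
      · exact (hI _).add ((hI _).const_mul _)
      · exact (hI _).const_mul _
      · exact ((hI _).add ((hI _).const_mul _)).add ((hI _).const_mul _)
      · exact (hI _).const_mul _
    rw [← hval]
    refine XH_norm_le _ hSm (hvan _) hG ?_
    filter_upwards [XH_diff h w (some (Sum.inr (i, j)))] with x hx1 _
    rw [hx1]
    simp only [mulComp]
    have h1 := XH_mul_sq_le (x := w (some (Sum.inr (i, j))) x) (h.b0 x)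
    have h2 := XH_mul_sq_le (x := w (some (Sum.inl j)) x) (h.b1 i x)
    have h3 := XH_mul_sq_le (x := w (some (Sum.inl i)) x) (h.b1 j x)
    have h4 := XH_mul_sq_le (x := w none x) (h.b2 i j x)
    have h5 := XH_four (η x * w (some (Sum.inr (i, j))) x) (pd i η x * w (some (Sum.inl j)) x)
      (pd j η x * w (some (Sum.inl i)) x) (pd i (pd j η) x * w none x)
    linarith

theorem XH_arith {C C' ε a A : ℝ} (hε : 0 < ε) (h : a ≤ C * ε ^ 2 * A) :
    (C' / ε) ^ 2 * a ≤ C' ^ 2 * C * A := by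
  have h1 : (C' / ε) ^ 2 * a ≤ (C' / ε) ^ 2 * (C * ε ^ 2 * A) :=
    mul_le_mul_of_nonneg_left h (sq_nonneg _)
  have h2 : (C' / ε) ^ 2 * (C * ε ^ 2 * A) = C' ^ 2 * C * A := by
    field_simp
  linarith

theorem XH_arith2 {C C' ε a A : ℝ} (hε : 0 < ε) (h : a ≤ C * ε ^ 2 * (C * (4 * ε) ^ 2 * A)) :
    (C' / ε ^ 2) ^ 2 * a ≤ 16 * C' ^ 2 * C ^ 2 * A := by
  have h1 : (C' / ε ^ 2) ^ 2 * a ≤ (C' / ε ^ 2) ^ 2 * (C * ε ^ 2 * (C * (4 * ε) ^ 2 * A)) :=
    mul_le_mul_of_nonneg_left h (sq_nonneg _)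
  have h2 : (C' / ε ^ 2) ^ 2 * (C * ε ^ 2 * (C * (4 * ε) ^ 2 * A)) =
      16 * C' ^ 2 * C ^ 2 * A := by
    field_simp
    ring
  linarith

theorem X_le_H20 {d : ℕ} (hd : 1 ≤ d) {Ω : Set (E d)} (hΩ : IsOpen Ω) (γ : ℝ) (hγ : 0 < γ)
    (h : ∀ x ∉ Ω, ∀ r ∈ Ioc (0 : ℝ) 1,
      ENNReal.ofReal (γ * r ^ d) ≤ volume (Metric.closedBall x r \ Ω)) : X Ω ≤ H20 Ω := by
  by_cases hne : Ωᶜ.Nonempty
  · obtain ⟨C, hC, hH⟩ := hardy d hd γ hγ
    obtain ⟨C', hC', hcut⟩ := exists_cutoff d hd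
    intro w hw
    set D : ℝ := 4 * (1 + 2 * (C' ^ 2 * C) + 16 * C' ^ 2 * C ^ 2) with hD
    -- the approximations
    have key : ∀ n : ℕ, ∃ v ∈ H20 Ω, ‖w - v‖ ^ 2 ≤ (Fintype.card (Idx d) : ℝ) * D *
        loc {x ∈ Ω | Metric.infDist x Ωᶜ < 1 / ((n : ℝ) + 1)} w := by
      intro n
      set ε : ℝ := 1 / (16 * ((n : ℝ) + 1)) with hε
      have hn : (0 : ℝ) < (n : ℝ) + 1 := by positivity
      have hε0 : 0 < ε := by positivity
      have hε16 : 4 * (4 * ε) = 1 / ((n : ℝ) + 1) := by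
        rw [hε]
        field_simp
        norm_num
      have hle1 : 1 / ((n : ℝ) + 1) ≤ 1 := by
        rw [div_le_one hn]
        linarith [Nat.cast_nonneg (α := ℝ) n]
      have hε1 : ε ∈ Ioc (0 : ℝ) 1 := ⟨hε0, by linarith⟩
      have hε4 : 4 * ε ∈ Ioc (0 : ℝ) 1 := ⟨by linarith, by linarith⟩
      obtain ⟨η, hBC, hη0, hη1, hηs⟩ := hcut Ωᶜ ε hε0
      set A : ℝ := loc {x ∈ Ω | Metric.infDist x Ωᶜ < 1 / ((n : ℝ) + 1)} w with hA
      have hAnn : 0 ≤ A := loc_nonneg _ w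
      -- support
      have hs : ∀ x, x ∈ tsupport η → Metric.infDist x Ωᶜ < ε := by
        intro x hx
        have h1 := hηs hx
        rw [Metric.mem_thickening_iff_infDist_lt hne] at h1
        exact h1
      have hts : tsupport (fun x => 1 - η x) ∩ univ ⊆ Ω := by
        rintro x ⟨hx, -⟩
        by_contra hxΩ
        have hxc : x ∈ Ωᶜ := hxΩ
        have h1 : x ∈ Metric.thickening (ε / 4) Ωᶜ :=
          Metric.self_subset_thickening (by linarith) _ hxc
        have h2 : tsupport (fun x => 1 - η x) ⊆ (Metric.thickening (ε / 4) Ωᶜ)ᶜ := by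
          refine closure_minimal ?_ Metric.isOpen_thickening.isClosed_compl
          intro y hy hyt
          apply hy
          show 1 - η y = 0
          rw [hη1 y hyt, sub_self]
        exact h2 hx h1
      refine ⟨mulJ (fun x => 1 - η x) w, mulJ_mem_H20 hBC.one_sub hts hw.1, ?_⟩
      obtain ⟨b0, b1, b2⟩ := XH_comp_bound hΩ hw hBC hs
      -- Hardy
      obtain ⟨i0, i1⟩ := hH Ω hΩ hne h ε hε1 w hw
      obtain ⟨-, i2⟩ := hH Ω hΩ hne h (4 * ε) hε4 w hw
      rw [hε16] at i2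
      have m4 : loc {x ∈ Ω | Metric.infDist x Ωᶜ < 4 * ε} w ≤ A :=
        loc_mono (XH_meas hΩ _) (XH_subset Ω (by linarith)) w
      have m1 : loc {x ∈ Ω | Metric.infDist x Ωᶜ < ε} w ≤ A :=
        loc_mono (XH_meas hΩ _) (XH_subset Ω (by linarith)) w
      have hCε : 0 ≤ C * ε ^ 2 := by positivity
      have hCε4 : 0 ≤ C * (4 * ε) ^ 2 := by positivity
      have a0 : ∫ x in {x ∈ Ω | Metric.infDist x Ωᶜ < ε}, (w none x) ^ 2 ≤ C * ε ^ 2 * A :=
        i0.trans (mul_le_mul_of_nonneg_left ((XH_sum_inl_le_loc _ w).trans m4) hCε)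
      have a1 : ∀ j, ∫ x in {x ∈ Ω | Metric.infDist x Ωᶜ < ε}, (w (some (Sum.inl j)) x) ^ 2 ≤
          C * ε ^ 2 * A := by
        intro j
        refine (i1 j).trans (mul_le_mul_of_nonneg_left (le_trans ?_
          ((XH_sum_inr_le_loc _ w).trans m4)) hCε)
        exact Finset.single_le_sum (f := fun j => ∑ i,
          ∫ x in {x ∈ Ω | Metric.infDist x Ωᶜ < 4 * ε}, (w (some (Sum.inr (i, j))) x) ^ 2)
          (fun j _ => Finset.sum_nonneg fun i _ => integral_nonneg fun _ => sq_nonneg _)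
          (Finset.mem_univ j)
      have a2 : ∫ x in {x ∈ Ω | Metric.infDist x Ωᶜ < ε}, (w none x) ^ 2 ≤
          C * ε ^ 2 * (C * (4 * ε) ^ 2 * A) := by
        refine i0.trans (mul_le_mul_of_nonneg_left ?_ hCε)
        refine (Finset.sum_le_sum fun j _ => i2 j).trans ?_
        rw [← Finset.mul_sum]
        exact mul_le_mul_of_nonneg_left (XH_sum_inr_le_loc _ w) hCε4
      have e0 := XH_arith (C' := C') hε0 a0
      have e1 := fun j => XH_arith (C' := C') hε0 (a1 j)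
      have e2 := XH_arith2 (C' := C') hε0 a2
      have l0 : ∀ k, ∫ x in {x ∈ Ω | Metric.infDist x Ωᶜ < ε}, (w k x) ^ 2 ≤ A :=
        fun k => (XH_int_le_loc _ w k).trans m1
      have p1 : 0 ≤ C' ^ 2 * C * A := by positivity
      have p2 : 0 ≤ 16 * C' ^ 2 * C ^ 2 * A := by positivity
      have hDA : D * A = 4 * (A + 2 * (C' ^ 2 * C * A) + 16 * C' ^ 2 * C ^ 2 * A) := by
        rw [hD]
        ring
      have hcomp : ∀ k, ‖(w - mulJ (fun x => 1 - η x) w) k‖ ^ 2 ≤ D * A := by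
        intro k
        rw [hDA]
        match k with
        | none =>
          have := l0 none
          linarith
        | some (Sum.inl i) =>
          have := b1 i
          have := l0 (some (Sum.inl i))
          linarith
        | some (Sum.inr (i, j)) =>
          have := b2 i j
          have := l0 (some (Sum.inr (i, j)))
          have := e1 i
          have := e1 j
          linarith
      rw [PiLp.norm_sq_eq_of_L2]
      refine (Finset.sum_le_sum fun k _ => hcomp k).trans ?_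
      rw [Finset.sum_const, Finset.card_univ, nsmul_eq_mul]
      exact le_of_eq (mul_assoc _ _ _).symm
    choose v hv hvb using key
    have hlim : Tendsto v atTop (𝓝 w) := by
      rw [tendsto_iff_norm_sub_tendsto_zero]
      have h1 : Tendsto (fun n => ‖v n - w‖ ^ 2) atTop (𝓝 0) := by
        have h2 := (XH_loc_tendsto hΩ hne w).const_mul ((Fintype.card (Idx d) : ℝ) * D)
        rw [mul_zero] at h2
        refine squeeze_zero (fun _ => sq_nonneg _) (fun n => ?_) h2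
        rw [norm_sub_rev]
        exact hvb n
      have h3 := h1.sqrt
      rw [Real.sqrt_zero] at h3
      refine h3.congr fun n => ?_
      rw [Real.sqrt_sq (norm_nonneg _)]
    exact (isClosed_H20 Ω).mem_of_tendsto hlim (Filter.Eventually.of_forall hv)
  · have hu : Ω = univ := by
      rw [not_nonempty_iff_eq_empty, compl_empty_iff] at hne
      exact hne
    subst hu
    exact X_univ.le

end Pool.Agent.Lib.Buck
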