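import Mathlib
import Pool.Agent.Lib.MP_17201e_an.Defs
import Pool.Agent.Lib.MP_17201e_an.Global
import Pool.Agent.Lib.MP_17201e_an.Outer
import Pool.Agent.Lib.MP_17201e_an.OpenRep
import Pool.Agent.Lib.MP_17201e_an.XH
import Pool.Agent.Lib.MP_17201e_an.Per
import Pool.Agent.Lib.MP_17201e_an.Scale
import Pool.Agent.Lib.MP_17201e_an.Comp
import Pool.Agent.Lib.MP_17201e_an.Iso
import Pool.Agent.Lib.MP_17201e_an.Bounded
import Pool.Agent.Lib.MP_17201e_an.Jet

/-! # MP_17201e_an: assembly -/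

set_option autoImplicit false

open MeasureTheory Set Filter Topology
open scoped ENNReal ContDiff

namespace Pool.Agent.Lib.Buck

theorem fin_volume_preimage {d : ℕ} {t : ℝ} (ht : 0 < t) {Ω : Set (E d)} (h : volume Ω < ⊤) :
    volume ((fun x => t • x) ⁻¹' Ω) < ⊤ := by
  have h1 : (fun x : E d => t • x) ⁻¹' Ω = (t • ·) ⁻¹' Ω := rfl
  rw [h1, Measure.addHaar_preimage_smul volume ht.ne']
  exact ENNReal.mul_lt_top ENNReal.ofReal_lt_top h

theorem final (d h : ℕ) (hd : 2 ≤ d) (hh : 1 ≤ h) (p : ℝ) (hp : 0 < p) :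
    (∃ Ω : Set (E d), IsMinimizer h p Ω ∧ 0 < lam h Ω ∧ lam h Ω < ⊤) ∧
    ∀ Ω : Set (E d), IsMinimizer h p Ω → Bornology.IsBounded Ω := by
  refine ⟨?_, fun Ω hΩ => bounded_of_min hd hh hp hΩ⟩
  have hd1 : 1 ≤ d := by omega
  obtain ⟨A, hA, hAb, hAfin, hAmin⟩ := exists_global d h hd hh
  obtain ⟨γ, hγ, hout⟩ := outer_density d hd
  obtain ⟨Ω, hΩo, hΩA, hΩd⟩ := open_rep hd1 hA γ hγ (hout h A hA hAb hAfin hAmin)
  have hX : X Ω ≤ H20 Ω := X_le_H20 hd1 hΩo γ hγ hΩd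
  have hXA : X Ω = X A := le_antisymm
    (X_congr (by
      have := (ae_eq_set.mp hΩA).1
      exact this))
    (X_congr (by
      have := (ae_eq_set.mp hΩA).2
      exact this))
  have hlam : lam h Ω = lamS h (X A) := by
    rw [← hXA]
    exact le_antisymm (lamS_anti h hX) (lamS_anti h (H20_le_X Ω))
  have hperA : per Ω = per A := per_congr hΩA
  have hvol : volume Ω < ⊤ := by
    rw [measure_congr hΩA]
    exact hAb.measure_lt_top
  have hmin : ∀ Ω' : Set (E d), IsOpen Ω' → volume Ω' < ⊤ →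
      lam h Ω + per Ω ≤ lam h Ω' + per Ω' := by
    intro Ω' ho hv
    rw [hlam, hperA]
    refine le_trans (hAmin Ω' ho.measurableSet hv) ?_
    exact add_le_add_left (lamS_anti h (H20_le_X Ω')) _
  have hfin : lam h Ω < ⊤ ∧ per Ω < ⊤ := by
    rw [hlam, hperA]
    exact ⟨lt_of_le_of_lt le_self_add hAfin, lt_of_le_of_lt le_add_self hAfin⟩
  have hvpos : 0 < volume Ω := volume_pos_of_finite hh (H20_le_X Ω) hfin.1
  have hperpos : 0 < per Ω := by
    obtain ⟨c, hc, hiso⟩ := isoperimetric d hd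
    refine lt_of_lt_of_le ?_ (hiso Ω hΩo.measurableSet hvol)
    rw [ENNReal.ofReal_pos]
    have : 0 < (volume Ω).toReal := ENNReal.toReal_pos hvpos.ne' hvol.ne
    positivity
  set P : ℝ := (per Ω).toReal with hP
  have hPpos : 0 < P := ENNReal.toReal_pos hperpos.ne' hfin.2.ne
  have hPof : ENNReal.ofReal P = per Ω := ENNReal.ofReal_toReal hfin.2.ne
  obtain ⟨t, ht, htp⟩ : ∃ t : ℝ, 0 < t ∧ t ^ (d - 1) = p / P := by
    refine ⟨(p / P) ^ ((1 : ℝ) / ((d - 1 : ℕ) : ℝ)), by positivity, ?_⟩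
    rw [← Real.rpow_natCast, ← Real.rpow_mul (by positivity)]
    have hne : ((d - 1 : ℕ) : ℝ) ≠ 0 := by
      have : 0 < d - 1 := by omega
      exact_mod_cast this.ne'
    rw [one_div, inv_mul_cancel₀ hne, Real.rpow_one]
  have hti : 0 < t⁻¹ := inv_pos.mpr ht
  refine ⟨(fun x => t⁻¹ • x) ⁻¹' Ω, ⟨⟨hΩo.preimage (continuous_const_smul _),
    fin_volume_preimage hti hvol, ?_⟩, ?_⟩, ?_, ?_⟩
  · rw [per_scale hd1 ht, htp, ← hPof, ← ENNReal.ofReal_mul (by positivity),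
      div_mul_cancel₀ _ hPpos.ne']
  · intro Ω' hΩ'
    rw [lam_scale h ht]
    set Ω'' : Set (E d) := (fun x => (t⁻¹)⁻¹ • x) ⁻¹' Ω' with hΩ''
    have h1 : lam h Ω'' = ENNReal.ofReal ((t⁻¹)⁻¹ ^ 2) * lam h Ω' := lam_scale h hti Ω'
    have h2 : per Ω'' ≤ per Ω := by
      rw [hΩ'', per_scale hd1 hti]
      calc ENNReal.ofReal (t⁻¹ ^ (d - 1)) * per Ω'
          ≤ ENNReal.ofReal (t⁻¹ ^ (d - 1)) * ENNReal.ofReal p := by gcongr; exact hΩ'.per_le
        _ = per Ω := by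
            rw [← ENNReal.ofReal_mul (by positivity), ← hPof]
            congr 1
            rw [inv_pow, htp]
            field_simp
    have h3 : lam h Ω ≤ lam h Ω'' := by
      have := hmin Ω'' (hΩ'.isOpen.preimage (continuous_const_smul _))
        (fin_volume_preimage (inv_pos.mpr hti) hΩ'.finite)
      have h4 : lam h Ω + per Ω ≤ lam h Ω'' + per Ω :=
        this.trans (add_le_add_right h2 _)
      exact (ENNReal.add_le_add_iff_right hfin.2.ne).mp h4
    calc ENNReal.ofReal (t⁻¹ ^ 2) * lam h Ω ≤ ENNReal.ofReal (t⁻¹ ^ 2) * lam h Ω'' := by gcongr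
      _ = lam h Ω' := by
          rw [h1, ← mul_assoc, ← ENNReal.ofReal_mul (by positivity), ← mul_pow]
          have : t⁻¹ * (t⁻¹)⁻¹ = 1 := by field_simp
          rw [this]
          simp
  · exact lamS_pos hd1 hh (hΩo.preimage (continuous_const_smul _)).measurableSet
      (fin_volume_preimage hti hvol) (H20_le_X _)
  · rw [lam_scale h ht]
    exact ENNReal.mul_lt_top ENNReal.ofReal_lt_top hfin.1

end Pool.Agent.Lib.Buck
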