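import Mathlib

/-!
# MP_17201e_an: the definitions used by the final statement

All objects are written in terms of functions and integrals on Euclidean space.
-/

set_option autoImplicit false

open MeasureTheory Set Filter Topology
open scoped ENNReal ContDiff

namespace Pool.Agent.Lib.Buckling

/-- Euclidean space `ℝ^d`. -/
abbrev E (d : ℕ) : Type := EuclideanSpace ℝ (Fin d)

variable {d : ℕ}

/-- The partial derivative `∂_i φ`. -/
noncomputable def pd (i : Fin d) (φ : E d → ℝ) (x : E d) : ℝ :=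
  fderiv ℝ φ x (EuclideanSpace.single i 1)

/-- `φ` belongs to `C_c^∞(Ω)`. -/
def IsTest (Ω : Set (E d)) (φ : E d → ℝ) : Prop :=
  ContDiff ℝ ∞ φ ∧ HasCompactSupport φ ∧ tsupport φ ⊆ Ω

/-- `f n → g` in `L²(ℝ^d)`. -/
def TendsL2 (f : ℕ → E d → ℝ) (g : E d → ℝ) : Prop :=
  MemLp g 2 ∧ Tendsto (fun n => eLpNorm (fun x => f n x - g x) 2) atTop (𝓝 0)

/-- `u ∈ H²₀(Ω)`, with first derivatives `G i = ∂_i u` and second derivatives
`H i j = ∂_i ∂_j u`: these functions are the limits in `L²(ℝ^d)` of `φ n`, `∂_i φ n` and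
`∂_i ∂_j φ n` for a sequence `φ n ∈ C_c^∞(Ω)`. -/
def InH20 (Ω : Set (E d)) (u : E d → ℝ) (G : Fin d → E d → ℝ) (H : Fin d → Fin d → E d → ℝ) :
    Prop :=
  ∃ φ : ℕ → E d → ℝ, (∀ n, IsTest Ω (φ n)) ∧ TendsL2 φ u ∧
    (∀ i, TendsL2 (fun n => pd i (φ n)) (G i)) ∧
    ∀ i j, TendsL2 (fun n => pd i (pd j (φ n))) (H i j)

/-- `u 1, …, u h` are linearly independent elements of `H²₀(Ω)`, with first derivatives `G` and
second derivatives `H`. -/
def IsFrame (h : ℕ) (Ω : Set (E d)) (u : Fin h → E d → ℝ) (G : Fin h → Fin d → E d → ℝ)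
    (H : Fin h → Fin d → Fin d → E d → ℝ) : Prop :=
  (∀ k, InH20 Ω (u k) (G k) (H k)) ∧
    ∀ c : Fin h → ℝ, (∀ᵐ x, ∑ k, c k * u k x = 0) → c = 0

/-- The buckling eigenvalue `Λ_h(Ω)`: the infimum, over the linearly independent
`u 1, …, u h ∈ H²₀(Ω)`, of the maximum of `∫ (Δv)² / ∫ |∇v|²` over the nonzero linear combinations
`v = ∑ k, c k * u k`. -/
noncomputable def lam (h : ℕ) (Ω : Set (E d)) : ℝ≥0∞ :=
  ⨅ (u : Fin h → E d → ℝ) (G : Fin h → Fin d → E d → ℝ) (H : Fin h → Fin d → Fin d → E d → ℝ)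
    (_ : IsFrame h Ω u G H), ⨆ (c : Fin h → ℝ) (_ : c ≠ 0),
      ENNReal.ofReal (∫ x, (∑ k, c k * ∑ i, H k i i x) ^ 2) /
        ENNReal.ofReal (∫ x, ∑ i, (∑ k, c k * G k i x) ^ 2)

/-- The divergence of a vector field. -/
noncomputable def dvg (F : E d → E d) (x : E d) : ℝ :=
  ∑ i, (fderiv ℝ F x (EuclideanSpace.single i 1)) i

/-- The De Giorgi perimeter. -/
noncomputable def per (A : Set (E d)) : ℝ≥0∞ :=
  ⨆ (F : E d → E d) (_ : ContDiff ℝ 1 F ∧ HasCompactSupport F ∧ ∀ x, ‖F x‖ ≤ 1),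
    ENNReal.ofReal (∫ x in A, dvg F x)

/-- Open sets of finite measure and of perimeter at most `p`. -/
def Admissible (p : ℝ) (Ω : Set (E d)) : Prop :=
  IsOpen Ω ∧ volume Ω < ⊤ ∧ per Ω ≤ ENNReal.ofReal p

/-- `Ω` minimises `Λ_h` among the open sets of finite measure and of perimeter at most `p`. -/
def IsMinimizer (h : ℕ) (p : ℝ) (Ω : Set (E d)) : Prop :=
  Admissible p Ω ∧ ∀ Ω' : Set (E d), Admissible p Ω' → lam h Ω ≤ lam h Ω'

end Pool.Agent.Lib.Buckling
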