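import Mathlib
import Pool.Agent.Lib.MP_17201e_an.Defs
import Pool.Agent.Lib.MP_17201e_an.Stmt
import Pool.Agent.Lib.MP_17201e_an.Jet
import Pool.Agent.Lib.MP_17201e_an.Hess
import Pool.Agent.Lib.MP_17201e_an.Eig
import Pool.Agent.Lib.MP_17201e_an.Final

/-!
# MP_17201e_an: the definitions of the final statement agree with those of the library
-/

set_option autoImplicit false

open MeasureTheory Set Filter Topology
open scoped ENNReal ContDiff

namespace Pool.Agent.Lib.Buck

variable {d : ℕ}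

/-- A 2-jet with vanishing function has vanishing first derivatives. -/
theorem bridge_first_zero {w : HS d} (hw : w ∈ H20 (univ : Set (E d))) (h : w none = 0)
    (i : Fin d) : w (some (Sum.inl i)) = 0 := by
  have h1 : ∀ᵐ x, (w (some (Sum.inl i))) x = 0 := by
    refine ae_eq_zero_of_integral_contDiff_smul_eq_zero
      ((Lp.memLp (w (some (Sum.inl i)))).locallyIntegrable (by norm_num)) ?_
    intro g hg hg'
    have hT : Test (univ : Set (E d)) g := ⟨hg, hg', subset_univ _⟩
    obtain ⟨t, ht⟩ := exists_jet hT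
    set F : HS d →L[ℝ] ℝ :=
      (innerSL ℝ (t none)).comp (PiLp.proj 2 _ (some (Sum.inl i))) +
      (innerSL ℝ (t (some (Sum.inl i)))).comp (PiLp.proj 2 _ none) with hF
    have hFw : ∀ v : HS d, F v = inner ℝ (t none) (v (some (Sum.inl i))) +
        inner ℝ (t (some (Sum.inl i))) (v none) := fun v => rfl
    have hle : H20 (univ : Set (E d)) ≤ LinearMap.ker (F : HS d →ₗ[ℝ] ℝ) := by
      unfold H20
      refine Submodule.topologicalClosure_minimal _ ?_ F.isClosed_ker
      rw [Submodule.span_le]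
      rintro v ⟨φ, hφ, hv⟩
      rw [SetLike.mem_coe, LinearMap.mem_ker]
      show F v = 0
      rw [hFw]
      have e1 : (t none) =ᵐ[volume] g := ht none
      have e2 : (t (some (Sum.inl i))) =ᵐ[volume] pd i g := ht (some (Sum.inl i))
      have e3 : (v none) =ᵐ[volume] φ := hv none
      have e4 : (v (some (Sum.inl i))) =ᵐ[volume] pd i φ := hv (some (Sum.inl i))
      rw [hess_inner e1 e4, hess_inner e2 e3, hess_ibp hg hφ.smooth hg' i]
      ring
    have h2 : F w = 0 := hle hw
    rw [hFw, h, inner_zero_right, add_zero,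
      eig_inner (show (t none) =ᵐ[volume] g from ht none)] at h2
    exact h2
  exact (Lp.eq_zero_iff_ae_eq_zero).mpr h1

theorem bridge_zero {w : HS d} (hw : w ∈ H20 (univ : Set (E d))) (h : w none = 0) : w = 0 := by
  have h3 := bridge_first_zero hw h
  ext1 k
  rcases k with _ | (i | ⟨i, j⟩)
  · exact h
  · exact h3 i
  · exact eig_second_zero hw h3 i j

theorem bridge_tendsL2 {f : ℕ → E d → ℝ} {v : ℕ → Lp ℝ 2 (volume : Measure (E d))}
    (hv : ∀ n, v n =ᵐ[volume] f n) {w : Lp ℝ 2 (volume : Measure (E d))} {g : E d → ℝ}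
    (hg : w =ᵐ[volume] g) :
    Tendsto v atTop (𝓝 w) ↔ Buckling.TendsL2 f g := by
  have h1 : ∀ n, eLpNorm (fun x => f n x - g x) 2 (volume : Measure (E d))
      = eLpNorm (⇑(v n) - ⇑w) 2 volume := by
    intro n
    refine eLpNorm_congr_ae ?_
    filter_upwards [hv n, hg] with x hx hx'
    rw [Pi.sub_apply, hx, hx']
  unfold Buckling.TendsL2
  rw [Lp.tendsto_Lp_iff_tendsto_eLpNorm']
  simp only [h1]
  constructor
  · intro h
    exact ⟨(memLp_congr_ae hg).mp (Lp.memLp w), h⟩
  · exact fun h => h.2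

theorem bridge_test (Ω : Set (E d)) (φ : E d → ℝ) : Buckling.IsTest Ω φ ↔ Test Ω φ :=
  ⟨fun h => ⟨h.1, h.2.1, h.2.2⟩, fun h => ⟨h.smooth, h.compact, h.supp⟩⟩

theorem bridge_mem {Ω : Set (E d)} {w : HS d} (hw : w ∈ H20 Ω) :
    Buckling.InH20 Ω (w none) (fun i => w (some (Sum.inl i)))
      (fun i j => w (some (Sum.inr (i, j)))) := by
  have h1 : ∀ n : ℕ, ∃ φ v, Test Ω φ ∧ IsJet φ v ∧ ‖w - v‖ < 1 / ((n : ℝ) + 1) :=
    fun n => (mem_H20_iff w).1 hw _ (by positivity)
  choose φ v hφ hv hwv using h1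
  have h2 : Tendsto v atTop (𝓝 w) := by
    rw [tendsto_iff_norm_sub_tendsto_zero]
    refine squeeze_zero (fun _ => norm_nonneg _) (fun n => ?_)
      tendsto_one_div_add_atTop_nhds_zero_nat
    rw [norm_sub_rev]
    exact (hwv n).le
  have h3 : ∀ k, Tendsto (fun n => v n k) atTop (𝓝 (w k)) := fun k =>
    ((PiLp.continuous_apply 2 _ k).tendsto w).comp h2
  have h4 : ∀ k, Buckling.TendsL2 (fun n => comp (φ n) k) (w k) := fun k =>
    (bridge_tendsL2 (fun n => hv n k) (EventuallyEq.refl _ _)).1 (h3 k)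
  exact ⟨φ, fun n => (bridge_test Ω _).2 (hφ n), h4 none, fun i => h4 (some (Sum.inl i)),
    fun i j => h4 (some (Sum.inr (i, j)))⟩

/-- The components of a triple of functions. -/
def bridgeC (u : E d → ℝ) (G : Fin d → E d → ℝ) (H : Fin d → Fin d → E d → ℝ) :
    Idx d → E d → ℝ
  | none => u
  | some (Sum.inl i) => G i
  | some (Sum.inr (i, j)) => H i j

theorem bridge_exists {Ω : Set (E d)} {u : E d → ℝ} {G : Fin d → E d → ℝ}
    {H : Fin d → Fin d → E d → ℝ} (h : Buckling.InH20 Ω u G H) :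
    ∃ w ∈ H20 Ω, ∀ k, w k =ᵐ[volume] bridgeC u G H k := by
  obtain ⟨φ, hφ, hu, hG, hH⟩ := h
  have h1 : ∀ k, Buckling.TendsL2 (fun n => comp (φ n) k) (bridgeC u G H k) := by
    intro k
    rcases k with _ | (i | ⟨i, j⟩)
    · exact hu
    · exact hG i
    · exact hH i j
  have h2 : ∀ n, Test Ω (φ n) := fun n => (bridge_test Ω _).1 (hφ n)
  choose v hv using fun n => exists_jet (h2 n)
  set w : HS d := WithLp.toLp 2 (fun k => (h1 k).1.toLp (bridgeC u G H k)) with hw
  have h3 : ∀ k, w k =ᵐ[volume] bridgeC u G H k := fun k => (h1 k).1.coeFn_toLp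
  refine ⟨w, ?_, h3⟩
  have h4 : ∀ k, Tendsto (fun n => v n k) atTop (𝓝 (w k)) := fun k =>
    (bridge_tendsL2 (fun n => hv n k) (h3 k)).2 (h1 k)
  have h5 : Tendsto v atTop (𝓝 w) := by
    have h6 : Tendsto (fun n => (fun k => v n k)) atTop (𝓝 (fun k => w k)) :=
      tendsto_pi_nhds.mpr h4
    exact ((PiLp.continuous_toLp 2 _).tendsto _).comp h6
  refine (isClosed_H20 Ω).mem_of_tendsto h5 (Eventually.of_forall fun n => ?_)
  rw [SetLike.mem_coe, mem_H20_iff]
  intro ε hε
  exact ⟨φ n, v n, h2 n, hv n, by simpa using hε⟩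

theorem bridge_norm_sq {f : Lp ℝ 2 (volume : Measure (E d))} {g : E d → ℝ}
    (h : f =ᵐ[volume] g) : ‖f‖ ^ 2 = ∫ x, (g x) ^ 2 := by
  rw [← real_inner_self_eq_norm_sq, hess_inner h h]
  exact integral_congr_ae (Eventually.of_forall fun x => (sq (g x)).symm)

section frame

variable {h : ℕ} {W : Fin h → HS d} {u : Fin h → E d → ℝ} {G : Fin h → Fin d → E d → ℝ}
  {H : Fin h → Fin d → Fin d → E d → ℝ}

theorem bridge_comb (hW : ∀ m k, W m k =ᵐ[volume] bridgeC (u m) (G m) (H m) k)
    (c : Fin h → ℝ) (k : Idx d) :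
    (∑ m, c m • W m) k =ᵐ[volume] fun x => ∑ m, c m * bridgeC (u m) (G m) (H m) k x := by
  have h1 : (∑ m, c m • W m) k = ∑ m, c m • (W m k) := by
    have := map_sum (PiLp.proj 2 (fun _ : Idx d => Lp ℝ 2 (volume : Measure (E d))) k :
      HS d →L[ℝ] _) (fun m => c m • W m) Finset.univ
    exact this
  rw [h1]
  have h2 : ∀ m, (c m • (W m k) : Lp ℝ 2 (volume : Measure (E d))) =ᵐ[volume]
      fun x => c m * bridgeC (u m) (G m) (H m) k x := by
    intro m
    filter_upwards [Lp.coeFn_smul (c m) (W m k), hW m k] with x hx hx'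
    rw [hx, Pi.smul_apply, hx', smul_eq_mul]
  have h3 : ∀ s : Finset (Fin h), (∑ m ∈ s, c m • (W m k) : Lp ℝ 2 (volume : Measure (E d)))
      =ᵐ[volume] fun x => ∑ m ∈ s, c m * bridgeC (u m) (G m) (H m) k x := by
    intro s
    induction s using Finset.induction_on with
    | empty =>
      simp only [Finset.sum_empty]
      exact Lp.coeFn_zero _ _ _
    | insert a s ha ih =>
      rw [Finset.sum_insert ha]
      filter_upwards [Lp.coeFn_add (c a • (W a k)) (∑ m ∈ s, c m • (W m k)), h2 a, ih]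
        with x e1 e2 e3
      rw [e1, Pi.add_apply, e2, e3, Finset.sum_insert ha]
  exact h3 _

theorem bridge_qa (hW : ∀ m k, W m k =ᵐ[volume] bridgeC (u m) (G m) (H m) k)
    (c : Fin h → ℝ) :
    qa (∑ m, c m • W m) = ∫ x, (∑ m, c m * ∑ i, H m i i x) ^ 2 := by
  unfold qa
  refine bridge_norm_sq ?_
  unfold lap
  have h3 : ∀ s : Finset (Fin d),
      (∑ i ∈ s, (∑ m, c m • W m) (some (Sum.inr (i, i))) : Lp ℝ 2 (volume : Measure (E d)))
      =ᵐ[volume] fun x => ∑ i ∈ s, ∑ m, c m * H m i i x := by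
    intro s
    induction s using Finset.induction_on with
    | empty =>
      simp only [Finset.sum_empty]
      exact Lp.coeFn_zero _ _ _
    | insert a s ha ih =>
      rw [Finset.sum_insert ha]
      filter_upwards [Lp.coeFn_add ((∑ m, c m • W m) (some (Sum.inr (a, a))))
        (∑ i ∈ s, (∑ m, c m • W m) (some (Sum.inr (i, i)))),
        bridge_comb hW c (some (Sum.inr (a, a))), ih] with x e1 e2 e3
      rw [e1, Pi.add_apply, e2, e3, Finset.sum_insert ha]
      rfl
  filter_upwards [h3 Finset.univ] with x hx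
  rw [hx, Finset.sum_comm]
  refine Finset.sum_congr rfl fun m _ => ?_
  rw [Finset.mul_sum]

theorem bridge_qb (hW : ∀ m k, W m k =ᵐ[volume] bridgeC (u m) (G m) (H m) k)
    (c : Fin h → ℝ) :
    qb (∑ m, c m • W m) = ∫ x, ∑ i, (∑ m, c m * G m i x) ^ 2 := by
  unfold qb
  have h1 : ∀ i, (∑ m, c m • W m) (some (Sum.inl i)) =ᵐ[volume]
      fun x => ∑ m, c m * G m i x := fun i => bridge_comb hW c (some (Sum.inl i))
  rw [integral_finsetSum]
  · exact Finset.sum_congr rfl fun i _ => bridge_norm_sq (h1 i)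
  · intro i _
    exact ((memLp_congr_ae (h1 i)).mp (Lp.memLp _)).integrable_sq

end frame

theorem bridge_lam (h : ℕ) (Ω : Set (E d)) : Buckling.lam h Ω = lam h Ω := by
  refine le_antisymm ?_ ?_
  · -- from a subspace to a frame
    unfold lam lamS
    refine le_iInf₂ fun V hV => ?_
    obtain ⟨hVS, hVh⟩ := hV
    rcases Nat.eq_zero_or_pos h with h0 | hpos
    · subst h0
      unfold Buckling.lam
      refine (iInf₂_le (fun k => k.elim0) (fun k => k.elim0)).trans
        ((iInf₂_le (fun k => k.elim0) ⟨fun k => k.elim0, fun c _ => Subsingleton.elim _ _⟩).trans ?_)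
      refine iSup₂_le fun c hc => absurd (Subsingleton.elim c 0) hc
    have : Module.Finite ℝ V := Module.finite_of_finrank_pos (by rw [hVh]; exact hpos)
    let b : Module.Basis (Fin h) ℝ V := Module.finBasisOfFinrankEq ℝ V hVh
    let W : Fin h → HS d := fun m => (b m : HS d)
    have hW : ∀ m k, W m k =ᵐ[volume] bridgeC (W m none) (fun i => W m (some (Sum.inl i)))
        (fun i j => W m (some (Sum.inr (i, j)))) k := by
      intro m k
      rcases k with _ | (i | ⟨i, j⟩) <;> exact EventuallyEq.refl _ _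
    have hind : ∀ c : Fin h → ℝ, (∑ m, c m • W m) = 0 → c = 0 := by
      intro c hc
      have h1 : (∑ m, c m • b m : V) = 0 := by
        apply Subtype.ext
        show ((∑ m, c m • b m : V) : HS d) = (0 : HS d)
        rw [← hc, Submodule.coe_sum]
        rfl
      have h2 := Fintype.linearIndependent_iff.mp b.linearIndependent c h1
      exact funext h2
    have hmem : ∀ c : Fin h → ℝ, (∑ m, c m • W m) ∈ V := fun c =>
      Submodule.sum_mem _ fun m _ => Submodule.smul_mem _ _ (b m).2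
    have hframe : Buckling.IsFrame h Ω (fun m => W m none) (fun m i => W m (some (Sum.inl i)))
        (fun m i j => W m (some (Sum.inr (i, j)))) := by
      refine ⟨fun m => bridge_mem (hVS (b m).2), fun c hc => ?_⟩
      refine hind c (bridge_zero (H20_mono (subset_univ _) (hVS (hmem c))) ?_)
      rw [Lp.eq_zero_iff_ae_eq_zero]
      filter_upwards [bridge_comb hW c none, hc] with x e1 e2
      rw [e1]
      exact e2
    unfold Buckling.lam
    refine (iInf₂_le _ _).trans ((iInf₂_le _ hframe).trans ?_)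
    refine iSup₂_le fun c hc => ?_
    have h1 : (∑ m, c m • W m) ≠ 0 := fun h2 => hc (hind c h2)
    refine le_trans ?_ (le_iSup₂ (f := fun (w : HS d) (_ : w ∈ V ∧ w ≠ 0) =>
      ENNReal.ofReal (qa w) / ENNReal.ofReal (qb w)) (∑ m, c m • W m) ⟨hmem c, h1⟩)
    rw [bridge_qa hW c, bridge_qb hW c]
  · unfold Buckling.lam
    refine le_iInf fun u => le_iInf fun G => le_iInf fun H => le_iInf fun hF => ?_
    choose W hWm hW using fun m => bridge_exists (hF.1 m)
    have hind : ∀ c : Fin h → ℝ, (∑ m, c m • W m) = 0 → c = 0 := by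
      intro c hc
      refine hF.2 c ?_
      have h1 := bridge_comb hW c none
      rw [hc] at h1
      have h2 : ((0 : HS d) none) =ᵐ[volume] (0 : E d → ℝ) := Lp.coeFn_zero _ _ _
      filter_upwards [h1, h2] with x e1 e2
      rw [e2] at e1
      exact e1.symm
    have hli : LinearIndependent ℝ W := by
      rw [Fintype.linearIndependent_iff]
      intro c hc m
      rw [hind c hc]
      rfl
    unfold lam lamS
    have h1 : Submodule.span ℝ (Set.range W) ≤ H20 Ω := by
      rw [Submodule.span_le]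
      rintro _ ⟨m, rfl⟩
      exact hWm m
    have h2 : Module.finrank ℝ (Submodule.span ℝ (Set.range W)) = h := by
      rw [finrank_span_eq_card hli, Fintype.card_fin]
    refine (iInf₂_le (Submodule.span ℝ (Set.range W)) ⟨h1, h2⟩).trans ?_
    refine iSup₂_le fun w hw => ?_
    obtain ⟨hwV, hw0⟩ := hw
    rw [Submodule.mem_span_range_iff_exists_fun] at hwV
    obtain ⟨c, hc⟩ := hwV
    have hc0 : c ≠ 0 := by
      rintro rfl
      apply hw0
      rw [← hc]
      simp
    refine le_trans (le_of_eq ?_) (le_iSup₂ (f := fun (c : Fin h → ℝ) (_ : c ≠ 0) =>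
      ENNReal.ofReal (∫ x, (∑ k, c k * ∑ i, H k i i x) ^ 2) /
      ENNReal.ofReal (∫ x, ∑ i, (∑ k, c k * G k i x) ^ 2)) c hc0)
    rw [← hc, bridge_qa hW c, bridge_qb hW c]

theorem bridge_per (A : Set (E d)) : Buckling.per A = per A := rfl

theorem bridge_admissible (p : ℝ) (Ω : Set (E d)) : Buckling.Admissible p Ω ↔ Admissible p Ω :=
  ⟨fun h => ⟨h.1, h.2.1, h.2.2⟩, fun h => ⟨h.isOpen, h.finite, h.per_le⟩⟩

theorem bridge_minimizer (h : ℕ) (p : ℝ) (Ω : Set (E d)) :
    Buckling.IsMinimizer h p Ω ↔ IsMinimizer h p Ω := by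
  unfold Buckling.IsMinimizer IsMinimizer
  simp only [bridge_admissible, bridge_lam]

theorem final' (d h : ℕ) (hd : 2 ≤ d) (hh : 1 ≤ h) (p : ℝ) (hp : 0 < p) :
    (∃ Ω : Set (E d), Buckling.IsMinimizer h p Ω ∧ 0 < Buckling.lam h Ω ∧
      Buckling.lam h Ω < ⊤) ∧
    ∀ Ω : Set (E d), Buckling.IsMinimizer h p Ω → Bornology.IsBounded Ω := by
  simp only [bridge_minimizer, bridge_lam]
  exact final d h hd hh p hp

end Pool.Agent.Lib.Buck
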